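import Mathlib

/-!
# Definitions: II₁ factors, actions of locally compact groups, crossed products, cocycles

Von Neumann algebras are Mathlib's `VonNeumannAlgebra H` (a `*`-subalgebra of `H →L[ℂ] H` equal to
its bicommutant).  An action of a topological group `G` on `M` is given by maps `α g`, `g ∈ G`, whose
restrictions to `M` are `*`-automorphisms of `M` with `α_{gh} = α_g ∘ α_h` on `M`, such that
`g ↦ α_g(x) η` is continuous for all `x ∈ M`, `η ∈ H`; the values of `α g` outside `M` play no role.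
`μ` is a (left) Haar measure of `G`, and `L²(G, H)` is Mathlib's `Lp H 2 μ`.
-/

namespace Pool.Agent.ErgLC

open MeasureTheory

universe u v

variable {H : Type u} [NormedAddCommGroup H] [InnerProductSpace ℂ H] [CompleteSpace H]

/-- The vectors `ξ n` of `H` give a faithful normal tracial state
`τ(x) = ∑ₙ ⟨ξ n, x (ξ n)⟩` of `M`. -/
structure IsTraceFamily (M : VonNeumannAlgebra H) (ξ : ℕ → H) : Prop where
  summable : Summable fun n => ‖ξ n‖ ^ 2
  sum_eq : ∑' n, ‖ξ n‖ ^ 2 = 1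
  tracial : ∀ x ∈ M, ∀ y ∈ M,
    ∑' n, inner ℂ (ξ n) ((x * y) (ξ n)) = ∑' n, inner ℂ (ξ n) ((y * x) (ξ n))
  faithful : ∀ x ∈ M, ∑' n, inner ℂ (ξ n) ((star x * x) (ξ n)) = 0 → x = 0

/-- `M` is a II₁ factor: its centre consists of the scalars, it has a faithful normal tracial state
and it is infinite-dimensional. -/
structure IsII1Factor (M : VonNeumannAlgebra H) : Prop where
  factor : ∀ x ∈ M, (∀ y ∈ M, x * y = y * x) → ∃ c : ℂ, x = c • (1 : H →L[ℂ] H)
  trace : ∃ ξ : ℕ → H, IsTraceFamily M ξ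
  infinite_dimensional : ¬ FiniteDimensional ℂ M.toStarSubalgebra

variable {G : Type v} [Group G]

/-- `α` is an action of the topological group `G` on `M`. -/
structure IsAction [TopologicalSpace G] (M : VonNeumannAlgebra H)
    (α : G → (H →L[ℂ] H) → (H →L[ℂ] H)) : Prop where
  map_mem : ∀ g, ∀ x ∈ M, α g x ∈ M
  map_add : ∀ g, ∀ x ∈ M, ∀ y ∈ M, α g (x + y) = α g x + α g y
  map_mul : ∀ g, ∀ x ∈ M, ∀ y ∈ M, α g (x * y) = α g x * α g y
  map_smul : ∀ g, ∀ c : ℂ, ∀ x ∈ M, α g (c • x) = c • α g x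
  map_star : ∀ g, ∀ x ∈ M, α g (star x) = star (α g x)
  one_act : ∀ x ∈ M, α 1 x = x
  mul_act : ∀ g h, ∀ x ∈ M, α (g * h) x = α g (α h x)
  continuous : ∀ x ∈ M, ∀ η : H, Continuous fun g => α g x η

variable [MeasurableSpace G]

/-- The operators `π(x)`, `x ∈ M`, on `L²(G, H)`, given by `(π(x) ζ)(g) = α_{g⁻¹}(x) ζ(g)`. -/
def piOps (M : VonNeumannAlgebra H) (α : G → (H →L[ℂ] H) → (H →L[ℂ] H)) (μ : Measure G) :
    Set (Lp H 2 μ →L[ℂ] Lp H 2 μ) :=
  {T | ∃ x ∈ M, ∀ ζ : Lp H 2 μ, T ζ =ᵐ[μ] fun g => α g⁻¹ x (ζ g)}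

/-- The translation operators `λ_h`, `h ∈ G`, on `L²(G, H)`, given by `(λ_h ζ)(g) = ζ(h⁻¹ g)`. -/
def translationOps (H : Type u) [NormedAddCommGroup H] [InnerProductSpace ℂ H]
    (μ : Measure G) : Set (Lp H 2 μ →L[ℂ] Lp H 2 μ) :=
  {T | ∃ h : G, ∀ ζ : Lp H 2 μ, T ζ =ᵐ[μ] fun g => ζ (h⁻¹ * g)}

/-- The von Neumann crossed product `M ⋊_α G`: the bicommutant of the self-adjoint set
`π(M) ∪ λ(G)` of operators on `L²(G, H)`. -/
def crossedProduct (M : VonNeumannAlgebra H) (α : G → (H →L[ℂ] H) → (H →L[ℂ] H))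
    (μ : Measure G) : Set (Lp H 2 μ →L[ℂ] Lp H 2 μ) :=
  Set.centralizer (Set.centralizer (piOps M α μ ∪ translationOps H μ))

/-- The action `α` of `G` on `M` is strictly outer: `M' ∩ (M ⋊_α G) = ℂ 1`. -/
def IsStrictlyOuter (M : VonNeumannAlgebra H) (α : G → (H →L[ℂ] H) → (H →L[ℂ] H))
    (μ : Measure G) : Prop :=
  ∀ T ∈ crossedProduct M α μ, (∀ S ∈ piOps M α μ, T * S = S * T) →
    ∃ c : ℂ, T = c • (1 : Lp H 2 μ →L[ℂ] Lp H 2 μ)

omit [MeasurableSpace G] in
/-- `v` is a 1-cocycle for `α`: a strongly continuous map from `G` to the unitaries of `M` with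
`v_{gh} = v_g α_g(v_h)`. -/
structure IsCocycle [TopologicalSpace G] (M : VonNeumannAlgebra H)
    (α : G → (H →L[ℂ] H) → (H →L[ℂ] H)) (v : G → (H →L[ℂ] H)) : Prop where
  mem : ∀ g, v g ∈ M
  star_mul_self : ∀ g, star (v g) * v g = 1
  mul_star_self : ∀ g, v g * star (v g) = 1
  cocycle : ∀ g h, v (g * h) = v g * α g (v h)
  continuous : ∀ η : H, Continuous fun g => v g η

omit [MeasurableSpace G] in
/-- The cocycle perturbation `Ad v ∘ α` is ergodic: every `x ∈ M` with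
`v_g α_g(x) v_g^* = x` for all `g` is a scalar. -/
def PerturbationIsErgodic (M : VonNeumannAlgebra H) (α : G → (H →L[ℂ] H) → (H →L[ℂ] H))
    (v : G → (H →L[ℂ] H)) : Prop :=
  ∀ x ∈ M, (∀ g, v g * α g x * star (v g) = x) → ∃ c : ℂ, x = c • (1 : H →L[ℂ] H)

/-- `G` is amenable, expressed by the Følner condition for compact sets: for every compact `C` and
`ε > 0` there is a compact `F` of positive measure with `μ(g F ∆ F) ≤ ε μ(F)` for all `g ∈ C`. -/
def FolnerCondition [TopologicalSpace G] (μ : Measure G) : Prop :=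
  ∀ C : Set G, IsCompact C → ∀ ε : ℝ, 0 < ε → ∃ F : Set G, IsCompact F ∧ 0 < μ F ∧
    ∀ g ∈ C, μ (symmDiff ((fun x => g * x) '' F) F) ≤ ENNReal.ofReal ε * μ F

end Pool.Agent.ErgLC
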