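import Pool.Agent.Lib_MP_418a80_eg.MainVn
import Pool.Agent.Lib_MP_418a80_ab.Defs

set_option linter.unusedSectionVars false

/-!
# The compact-open theorem with the definitions of `Pool.Agent.AbCoc`
-/

namespace Pool.Agent.AbCoc

open MeasureTheory Filter Topology

universe u v

variable {H : Type u} [NormedAddCommGroup H] [InnerProductSpace ℂ H] [CompleteSpace H]

theorem bridge_inner_star_mul_self (x : H →L[ℂ] H) (η : H) :
    inner ℂ η ((star x * x) η) = ((‖x η‖ ^ 2 : ℝ) : ℂ) := by
  change inner ℂ η (star x (x η)) = _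
  rw [ContinuousLinearMap.star_eq_adjoint,
    ContinuousLinearMap.adjoint_inner_right, inner_self_eq_norm_sq_to_K]
  norm_cast

theorem IsTracialFamily.isTraceFamily {M : VonNeumannAlgebra H} {ξ : ℕ → H}
    (h : IsTracialFamily M ξ) : ErgLC.IsTraceFamily M ξ where
  summable := h.hasSum_norm_sq.summable
  sum_eq := h.hasSum_norm_sq.tsum_eq
  tracial := h.tracial
  faithful := by
    intro x hx h0
    refine h.faithful x hx fun n => ?_
    have hs : Summable fun n => ‖x (ξ n)‖ ^ 2 := by
      refine Summable.of_nonneg_of_le (fun n => by positivity) (fun n => ?_)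
        (h.hasSum_norm_sq.summable.mul_left (‖x‖ ^ 2))
      rw [← mul_pow]
      exact pow_le_pow_left₀ (norm_nonneg _) (x.le_opNorm _) 2
    have h1 : ∑' n, ‖x (ξ n)‖ ^ 2 = 0 := by
      have h2 : ((∑' n, ‖x (ξ n)‖ ^ 2 : ℝ) : ℂ) = 0 := by
        rw [Complex.ofReal_tsum, ← h0]
        exact tsum_congr fun n => (bridge_inner_star_mul_self x (ξ n)).symm
      exact_mod_cast h2
    have h3 := (hs.hasSum_iff.2 h1)
    have h4 := (hasSum_zero_iff_of_nonneg (fun n => sq_nonneg ‖x (ξ n)‖)).1 h3
    have h5 : ‖x (ξ n)‖ ^ 2 = 0 := congrFun h4 n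
    simpa using h5

theorem IsII1Factor.toErg {M : VonNeumannAlgebra H} (h : IsII1Factor M) :
    ErgLC.IsII1Factor M where
  factor := h.factor
  trace := by
    obtain ⟨ξ, hξ⟩ := h.trace
    exact ⟨ξ, hξ.isTraceFamily⟩
  infinite_dimensional := h.infinite_dimensional

variable {G : Type v} [Group G] [TopologicalSpace G]

theorem IsAction.toErg {M : VonNeumannAlgebra H} {α : G → (H →L[ℂ] H) → (H →L[ℂ] H)}
    (h : IsAction M α) : ErgLC.IsAction M α where
  map_mem := h.map_mem
  map_add := h.map_add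
  map_mul := h.map_mul
  map_smul := h.map_smul
  map_star := h.map_star
  one_act := h.one_act
  mul_act := h.mul_act
  continuous := by
    intro x hx η
    refine continuous_iff_continuousAt.2 fun g₀ => ?_
    rw [ContinuousAt, tendsto_iff_norm_sub_tendsto_zero]
    have hsx : star x * x ∈ M := mul_mem (star_mem hx) hx
    have hnorm : ∀ g, ‖α g x η‖ ^ 2 = (inner ℂ η (α g (star x * x) η)).re := by
      intro g
      rw [h.map_mul g _ (star_mem hx) _ hx, h.map_star g x hx, bridge_inner_star_mul_self]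
      exact (Complex.ofReal_re _).symm
    have hc1 : Continuous fun g => ‖α g x η‖ ^ 2 := by
      simp only [hnorm]
      exact Complex.continuous_re.comp (h.continuous_inner _ hsx η η)
    have hc2 : Continuous fun g => (inner ℂ (α g₀ x η) (α g x η)).re :=
      Complex.continuous_re.comp (h.continuous_inner _ hx η (α g₀ x η))
    have hsq : ∀ g, ‖α g x η - α g₀ x η‖ ^ 2 =
        ‖α g x η‖ ^ 2 - 2 * (inner ℂ (α g₀ x η) (α g x η)).re + ‖α g₀ x η‖ ^ 2 := by
      intro g
      have := @norm_sub_sq ℂ H _ _ _ (α g x η) (α g₀ x η)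
      have h5 : RCLike.re (inner ℂ (α g x η) (α g₀ x η)) =
          (inner ℂ (α g₀ x η) (α g x η)).re := by
        rw [← inner_conj_symm (α g x η) (α g₀ x η)]
        exact RCLike.conj_re _
      rw [this, h5]
    have h1 : Tendsto (fun g => ‖α g x η - α g₀ x η‖ ^ 2) (𝓝 g₀) (𝓝 0) := by
      have h2 : Continuous fun g => ‖α g x η - α g₀ x η‖ ^ 2 := by
        simp only [hsq]
        exact (hc1.sub (hc2.const_mul 2)).add continuous_const
      have := h2.tendsto g₀
      simpa using this
    have h3 := (Real.continuous_sqrt.tendsto 0).comp h1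
    rw [Real.sqrt_zero] at h3
    refine h3.congr fun g => ?_
    exact Real.sqrt_sq (norm_nonneg _)

theorem IsStrictlyOuter.toErg [MeasurableSpace G] {μ : Measure G} {M : VonNeumannAlgebra H}
    {α : G → (H →L[ℂ] H) → (H →L[ℂ] H)} (h : IsStrictlyOuter μ M α) :
    ErgLC.IsStrictlyOuter M α μ := h

theorem compactOpen_theorem [IsTopologicalGroup G] [MeasurableSpace G] [BorelSpace G]
    [SecondCountableTopology G] [T2Space G] [LocallyCompactSpace G] [NoncompactSpace G]
    [TopologicalSpace.SeparableSpace H] (μ : Measure G) [μ.IsHaarMeasure]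
    (hμ : ErgLC.FolnerCondition μ) (K : Subgroup G) (hKo : IsOpen (K : Set G))
    (hKc : IsCompact (K : Set G)) {M : VonNeumannAlgebra H} (hM : IsII1Factor M)
    {α : G → (H →L[ℂ] H) → (H →L[ℂ] H)} (hα : IsAction M α) (hout : IsStrictlyOuter μ M α) :
    ∃ v : G → (H →L[ℂ] H), IsCocycle M α v ∧ PerturbationIsErgodic M α v ∧
      ∀ k ∈ K, v k = 1 := by
  obtain ⟨v, hv, he, h1⟩ := ErgLC.main_vn μ (not_compactSpace_iff.2 inferInstance) hμ K hKo hKc M
    hM.toErg α hα.toErg hout.toErg
  exact ⟨v, ⟨hv.mem, hv.star_mul_self, hv.mul_star_self, hv.cocycle, hv.continuous⟩, he, h1⟩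

end Pool.Agent.AbCoc
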