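import Pool.Agent.Lib_MP_418a80_eg.Setup

/-!
# EG03: properties of the conditional expectation

All follow from the characterisation: `Ex x` is the only `e ∈ fixedAlg α L` with
`⟨ι y, ι e⟩ = ⟨ι y, ι x⟩` for all `y ∈ fixedAlg α L` (`IsTracial.eq_of_inner`).
`norm_le`: `‖ι (Ex x)‖^2 = ⟨ι (Ex x), ι (Ex x)⟩ = ⟨ι (Ex x), ι x⟩ ≤ ‖ι (Ex x)‖ ‖ι x‖`.
`tr_apply`: `y = 1`.  `star_apply`: `inner_star`.  `mul_left`: `inner_mul` with `star p`.
`alpha_apply`: `y` is fixed.  `norm_le_average`: `Ex` of the average is `Ex x`, then `norm_le`.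
-/

namespace Pool.Agent.ErgLC

open Filter Topology

universe u v w

variable {A : Type u} [CStarAlgebra A] {E : Type v} [NormedAddCommGroup E]
  [InnerProductSpace ℂ E] {G : Type w} [Group G] {ι : A →ₗ[ℂ] E} {α : G → A →⋆ₐ[ℂ] A}
  {L : Subgroup G} {Ex : A →ₗ[ℂ] A}

theorem IsExp.eq_of_mem (hE : IsExp ι α L Ex) (h : IsTracial ι) {x e : A}
    (he : e ∈ fixedAlg α L)
    (hx : ∀ y ∈ fixedAlg α L, inner ℂ (ι y) (ι e) = inner ℂ (ι y) (ι x)) : Ex x = e := by
  refine h.eq_of_inner _ _ ?_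
  have h1 : Ex x - e ∈ fixedAlg α L := sub_mem (hE.mem x) he
  rw [hE.inner_eq x _ h1, hx _ h1]

theorem IsExp.apply_of_mem (hE : IsExp ι α L Ex) (h : IsTracial ι) {y : A}
    (hy : y ∈ fixedAlg α L) : Ex y = y :=
  hE.eq_of_mem h hy fun _ _ => rfl

theorem IsExp.inner_apply_self (hE : IsExp ι α L Ex) (x : A) :
    inner ℂ (ι (Ex x)) (ι x) = ((‖ι (Ex x)‖ ^ 2 : ℝ) : ℂ) := by
  rw [← hE.inner_eq x _ (hE.mem x), inner_self_eq_norm_sq_to_K]
  norm_cast

theorem IsExp.norm_le (hE : IsExp ι α L Ex) (x : A) : ‖ι (Ex x)‖ ≤ ‖ι x‖ := by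
  have h1 := hE.inner_apply_self x
  have h2 := norm_inner_le_norm (𝕜 := ℂ) (ι (Ex x)) (ι x)
  rw [h1, Complex.norm_real, Real.norm_of_nonneg (by positivity), sq] at h2
  by_cases h3 : ‖ι (Ex x)‖ = 0
  · rw [h3]; exact norm_nonneg _
  · exact le_of_mul_le_mul_left h2 (lt_of_le_of_ne (norm_nonneg _) (Ne.symm h3))

theorem IsExp.tr_apply (hE : IsExp ι α L Ex) (x : A) : tr ι (Ex x) = tr ι x :=
  hE.inner_eq x 1 (one_mem _)

theorem IsExp.star_apply (hE : IsExp ι α L Ex) (h : IsTracial ι) (x : A) :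
    Ex (star x) = star (Ex x) := by
  refine hE.eq_of_mem h (star_mem (hE.mem x)) fun y hy => ?_
  have h1 := h.inner_star (star y) (Ex x)
  have h2 := h.inner_star (star y) x
  rw [star_star] at h1 h2
  rw [h1, h2, ← inner_conj_symm, hE.inner_eq x _ (star_mem hy), inner_conj_symm]

theorem IsExp.mul_left (hE : IsExp ι α L Ex) (h : IsTracial ι) {p : A}
    (hp : p ∈ fixedAlg α L) (x : A) : Ex (p * x) = p * Ex x := by
  refine hE.eq_of_mem h (mul_mem hp (hE.mem x)) fun y hy => ?_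
  have h1 := h.inner_mul (star p) y (Ex x)
  have h2 := h.inner_mul (star p) y x
  rw [star_star] at h1 h2
  rw [← h1, ← h2, hE.inner_eq x _ (mul_mem (star_mem hp) hy)]

theorem IsExp.mul_right (hE : IsExp ι α L Ex) (h : IsTracial ι) {p : A}
    (hp : p ∈ fixedAlg α L) (x : A) : Ex (x * p) = Ex x * p := by
  have h1 := hE.mul_left h (star_mem hp) (star x)
  rw [← star_mul, hE.star_apply h, hE.star_apply h, ← star_mul] at h1
  exact star_injective h1

theorem IsExp.alpha_apply (hE : IsExp ι α L Ex) (h : IsTracial ι) (hα : IsAct ι α) {g : G}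
    (hg : g ∈ L) (x : A) : Ex (α g x) = Ex x := by
  refine hE.eq_of_mem h (hE.mem x) fun y hy => ?_
  have h1 := hα.inner_apply h g y x
  rw [hy g hg] at h1
  rw [hE.inner_eq x y hy, h1]

theorem IsExp.norm_le_average (hE : IsExp ι α L Ex) (h : IsTracial ι) (hα : IsAct ι α)
    {I : Type*} [Fintype I] (g : I → G) (hg : ∀ i, g i ∈ L) (l : I → ℝ) (hl : ∑ i, l i = 1)
    (x : A) : ‖ι (Ex x)‖ ≤ ‖ι (∑ i, (l i : ℂ) • α (g i) x)‖ := by
  have h1 : Ex (∑ i, (l i : ℂ) • α (g i) x) = Ex x := by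
    rw [map_sum]
    have h2 : ∀ i ∈ Finset.univ, Ex ((l i : ℂ) • α (g i) x) = (l i : ℂ) • Ex x := by
      intro i _
      rw [map_smul, hE.alpha_apply h hα (hg i)]
    rw [Finset.sum_congr rfl h2, ← Finset.sum_smul, ← Complex.ofReal_sum, hl,
      Complex.ofReal_one, one_smul]
  rw [← h1]
  exact hE.norm_le _

end Pool.Agent.ErgLC
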