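import Pool.Agent.Lib_MP_418a80_eg.GenericDefs
import Pool.Agent.Lib_MP_418a80_eg.ExpProps

/-!
# EG08: the conditional expectation of the slow elements

PROOF of `avg_exp_left`.  `m = card R`, `k_i = r i`.  By `norm_le_average` (weights `1/m`)
`‖ι (Ex (v b))‖ ≤ ‖ι (∑_i (1/m) α_{r i}(v b))‖`, whose square is
`(1/m²) ∑_{i,i'} ⟨ι α_{r i}(v b), ι α_{r i'}(v b)⟩`.  Diagonal terms: `‖ι(v b)‖² = ‖ι b‖²`.
Off-diagonal terms: `⟨ι (v b), ι (α_k(v) α_k(b))⟩` with `k = (r i)⁻¹ * r i'`, which is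
`τ(b* v* α_k(v) α_k(b)) = τ(α_k(b) b* · v* α_k(v))`; after averaging over `j` its modulus is at most
`‖ι (α_k(b) b*)‖ · δ ≤ ‖b‖² δ`.  Total `≤ ‖ι b‖²/m + ‖b‖² δ`.

PROOF of `avg_exp_right`: the same with `b v`: the off-diagonal terms are
`⟨ι (b v), ι (α_k(b) α_k(v))⟩ = τ(v* (b* α_k(b)) α_k(v))`, modulus of the average `≤ δ` by the
hypothesis (`norm_tr_le`).

PROOF of `avg_exp_slow_left`: `Ex (slow v * y) = ∑_x F x Ex (α_x(v) y) = ∑_x F x Ex (v α_{x⁻¹}(y))`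
(`alpha_apply`), so by Cauchy-Schwarz `‖ι ..‖² ≤ ∑_{x∈T} ‖ι (Ex (v α_{x⁻¹}(y)))‖²`
(`∑ F x ^ 2 = 1`); then `avg_exp_left` with `b = α_{x⁻¹}(y)`, `‖ι b‖ ≤ ‖b‖ ≤ ‖y‖`.
-/

namespace Pool.Agent.ErgLC

open Filter Topology

universe u v w

variable {A : Type u} [CStarAlgebra A] {E : Type v} [NormedAddCommGroup E]
  [InnerProductSpace ℂ E] {G : Type w} [Group G]

theorem avgExp_core {ι : A →ₗ[ℂ] E} (h : IsTracial ι) {α : G → A →⋆ₐ[ℂ] A} (hα : IsAct ι α)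
    {Ex : A →ₗ[ℂ] A} (hE : IsExp ι α ⊤ Ex)
    {J : Type*} [Fintype J] (x : J → A) (l : J → ℝ) (hl : ∀ j, 0 ≤ l j)
    {R : Type*} [Fintype R] [Nonempty R] (r : R → G) {D B : ℝ} (hB : 0 ≤ B)
    (hD : ∑ j, l j * ‖ι (x j)‖ ^ 2 ≤ D)
    (hoff : ∀ i i', i ≠ i' → ‖∑ j, (l j : ℂ) *
      inner ℂ (ι (x j)) (ι (α ((r i)⁻¹ * r i') (x j)))‖ ≤ B) :
    ∑ j, l j * ‖ι (Ex (x j))‖ ^ 2 ≤ D / Fintype.card R + B := by
  classical
  set m : ℝ := (Fintype.card R : ℝ) with hm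
  have hm0 : 0 < m := by rw [hm]; exact_mod_cast Fintype.card_pos
  have h1 : ∀ j, ‖ι (Ex (x j))‖ ^ 2 ≤
      (1 / m ^ 2) * ∑ i, ∑ i', (inner ℂ (ι (x j)) (ι (α ((r i)⁻¹ * r i') (x j)))).re := by
    intro j
    have h2 := hE.norm_le_average h hα r (fun i => Subgroup.mem_top _) (fun _ => 1 / m)
      (by rw [Finset.sum_const, Finset.card_univ, nsmul_eq_mul, ← hm, mul_one_div_cancel hm0.ne'])
      (x j)
    have h3 : ‖ι (Ex (x j))‖ ^ 2 ≤ ‖ι (∑ i, (((1 / m : ℝ)) : ℂ) • α (r i) (x j))‖ ^ 2 :=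
      pow_le_pow_left₀ (norm_nonneg _) h2 2
    refine h3.trans (le_of_eq ?_)
    have h4 : ((‖ι (∑ i, (((1 / m : ℝ)) : ℂ) • α (r i) (x j))‖ ^ 2 : ℝ) : ℂ)
        = ((1 / m ^ 2 : ℝ) : ℂ) * ∑ i, ∑ i', inner ℂ (ι (x j)) (ι (α ((r i)⁻¹ * r i') (x j))) := by
      have h5 : ((‖ι (∑ i, (((1 / m : ℝ)) : ℂ) • α (r i) (x j))‖ ^ 2 : ℝ) : ℂ)
          = inner ℂ (ι (∑ i, (((1 / m : ℝ)) : ℂ) • α (r i) (x j)))
            (ι (∑ i, (((1 / m : ℝ)) : ℂ) • α (r i) (x j))) := by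
        rw [inner_self_eq_norm_sq_to_K]; norm_cast
      rw [h5, map_sum, sum_inner, Finset.mul_sum]
      refine Finset.sum_congr rfl fun i _ => ?_
      rw [inner_sum, Finset.mul_sum]
      refine Finset.sum_congr rfl fun i' _ => ?_
      have h6 : α (r i') (x j) = α (r i) (α ((r i)⁻¹ * r i') (x j)) := by
        rw [← hα.mul_apply, mul_inv_cancel_left]
      rw [map_smul, map_smul, inner_smul_left, inner_smul_right, h6, hα.inner_apply h,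
        Complex.conj_ofReal]
      push_cast
      ring
    have h7 := congrArg Complex.re h4
    rw [Complex.ofReal_re, Complex.re_ofReal_mul, Complex.re_sum] at h7
    rw [h7]
    congr 1
    refine Finset.sum_congr rfl fun i _ => ?_
    rw [Complex.re_sum]
  have h8 : ∀ i i', (∑ j, l j * (inner ℂ (ι (x j)) (ι (α ((r i)⁻¹ * r i') (x j)))).re)
      ≤ (if i = i' then D else 0) + B := by
    intro i i'
    by_cases hii : i = i'
    · subst hii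
      rw [if_pos rfl]
      have h9 : (∑ j, l j * (inner ℂ (ι (x j)) (ι (α ((r i)⁻¹ * r i) (x j)))).re)
          = ∑ j, l j * ‖ι (x j)‖ ^ 2 := by
        refine Finset.sum_congr rfl fun j _ => ?_
        rw [inv_mul_cancel, hα.one_apply]
        congr 1
        have := inner_self_eq_norm_sq_to_K (𝕜 := ℂ) (ι (x j))
        rw [this]
        norm_cast
      rw [h9]
      linarith
    · rw [if_neg hii, zero_add]
      have h9 : (∑ j, l j * (inner ℂ (ι (x j)) (ι (α ((r i)⁻¹ * r i') (x j)))).re)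
          = (∑ j, (l j : ℂ) * inner ℂ (ι (x j)) (ι (α ((r i)⁻¹ * r i') (x j)))).re := by
        rw [Complex.re_sum]
        refine Finset.sum_congr rfl fun j _ => ?_
        rw [Complex.re_ofReal_mul]
      rw [h9]
      exact (Complex.re_le_norm _).trans (hoff i i' hii)
  calc ∑ j, l j * ‖ι (Ex (x j))‖ ^ 2
      ≤ ∑ j, l j * ((1 / m ^ 2) *
          ∑ i, ∑ i', (inner ℂ (ι (x j)) (ι (α ((r i)⁻¹ * r i') (x j)))).re) :=
        Finset.sum_le_sum fun j _ => mul_le_mul_of_nonneg_left (h1 j) (hl j)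
    _ = (1 / m ^ 2) * ∑ i, ∑ i', ∑ j,
          l j * (inner ℂ (ι (x j)) (ι (α ((r i)⁻¹ * r i') (x j)))).re := by
        have h10 : ∀ j, l j * ((1 / m ^ 2) *
            ∑ i, ∑ i', (inner ℂ (ι (x j)) (ι (α ((r i)⁻¹ * r i') (x j)))).re)
            = (1 / m ^ 2) * ∑ i, ∑ i',
              l j * (inner ℂ (ι (x j)) (ι (α ((r i)⁻¹ * r i') (x j)))).re := by
          intro j
          rw [mul_left_comm, Finset.mul_sum]
          congr 1
          exact Finset.sum_congr rfl fun i _ => Finset.mul_sum _ _ _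
        rw [Finset.sum_congr rfl fun j _ => h10 j, ← Finset.mul_sum]
        congr 1
        rw [Finset.sum_comm]
        exact Finset.sum_congr rfl fun i _ => Finset.sum_comm
    _ ≤ (1 / m ^ 2) * ∑ i : R, ∑ i' : R, ((if i = i' then D else 0) + B) := by
        refine mul_le_mul_of_nonneg_left ?_ (by positivity)
        exact Finset.sum_le_sum fun i _ => Finset.sum_le_sum fun i' _ => h8 i i'
    _ = D / m + B := by
        have h11 : ∀ i : R, ∑ i' : R, ((if i = i' then D else 0) + B) = D + m * B := by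
          intro i
          rw [Finset.sum_add_distrib, Finset.sum_ite_eq, if_pos (Finset.mem_univ _),
            Finset.sum_const, Finset.card_univ, nsmul_eq_mul]
        rw [Finset.sum_congr rfl fun i _ => h11 i, Finset.sum_const, Finset.card_univ,
          nsmul_eq_mul, ← hm]
        field_simp

theorem avgExp_slow_core {ι : A →ₗ[ℂ] E} {X J : Type*} [Fintype J] (l : J → ℝ)
    (hl : ∀ j, 0 ≤ l j) (T : Finset X) (F : X → ℝ) (hF : ∑ x ∈ T, F x ^ 2 = 1)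
    (z : J → X → A) {C : ℝ} (hC : ∀ x ∈ T, ∑ j, l j * ‖ι (z j x)‖ ^ 2 ≤ C) :
    ∑ j, l j * ‖ι (∑ x ∈ T, (F x : ℂ) • z j x)‖ ^ 2 ≤ T.card * C := by
  have h1 : ∀ j, ‖ι (∑ x ∈ T, (F x : ℂ) • z j x)‖ ^ 2 ≤ ∑ x ∈ T, ‖ι (z j x)‖ ^ 2 := by
    intro j
    have h2 : ‖ι (∑ x ∈ T, (F x : ℂ) • z j x)‖ ≤ ∑ x ∈ T, |F x| * ‖ι (z j x)‖ := by
      rw [map_sum]
      refine (norm_sum_le _ _).trans (le_of_eq ?_)
      refine Finset.sum_congr rfl fun x _ => ?_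
      rw [map_smul, norm_smul, Complex.norm_real, Real.norm_eq_abs]
    have h3 := Finset.sum_mul_sq_le_sq_mul_sq T (fun x => |F x|) (fun x => ‖ι (z j x)‖)
    have h4 : ∑ x ∈ T, |F x| ^ 2 = 1 := by
      rw [← hF]
      exact Finset.sum_congr rfl fun x _ => sq_abs _
    rw [h4, one_mul] at h3
    exact (pow_le_pow_left₀ (norm_nonneg _) h2 2).trans h3
  calc ∑ j, l j * ‖ι (∑ x ∈ T, (F x : ℂ) • z j x)‖ ^ 2
      ≤ ∑ j, l j * ∑ x ∈ T, ‖ι (z j x)‖ ^ 2 :=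
        Finset.sum_le_sum fun j _ => mul_le_mul_of_nonneg_left (h1 j) (hl j)
    _ = ∑ x ∈ T, ∑ j, l j * ‖ι (z j x)‖ ^ 2 := by
        rw [Finset.sum_comm]
        exact Finset.sum_congr rfl fun j _ => Finset.mul_sum _ _ _
    _ ≤ ∑ _x ∈ T, C := Finset.sum_le_sum hC
    _ = T.card * C := by rw [Finset.sum_const, nsmul_eq_mul]

theorem avg_exp_left {ι : A →ₗ[ℂ] E} (h : IsTracial ι) {α : G → A →⋆ₐ[ℂ] A} (hα : IsAct ι α)
    {K : Subgroup G} {Ex : A →ₗ[ℂ] A} (hE : IsExp ι α ⊤ Ex)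
    {J : Type*} [Fintype J] {v : J → A} {l : J → ℝ} (hv : IsEnsemble α K v l)
    {R : Type*} [Fintype R] [Nonempty R] (r : R → G) (b : A) {δ : ℝ} (hδ : 0 ≤ δ)
    (hoff : ∀ i i', i ≠ i' → ‖ι (∑ j, (l j : ℂ) •
      (star (v j) * α ((r i)⁻¹ * r i') (v j)))‖ ≤ δ) :
    ∑ j, l j * ‖ι (Ex (v j * b))‖ ^ 2 ≤ ‖b‖ ^ 2 / Fintype.card R + ‖b‖ ^ 2 * δ := by
  refine avgExp_core h hα hE (fun j => v j * b) l hv.nonneg r (by positivity) ?_ ?_
  · have h1 : ∀ j, l j * ‖ι (v j * b)‖ ^ 2 ≤ l j * ‖b‖ ^ 2 := fun j => by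
      rw [h.norm_unitary_mul (hv.unit j)]
      exact mul_le_mul_of_nonneg_left (pow_le_pow_left₀ (norm_nonneg _) (h.norm_le b) 2)
        (hv.nonneg j)
    refine (Finset.sum_le_sum fun j _ => h1 j).trans (le_of_eq ?_)
    rw [← Finset.sum_mul, hv.sum_eq, one_mul]
  · intro i i' hii
    set k := (r i)⁻¹ * r i' with hk
    have h1 : (∑ j, (l j : ℂ) * inner ℂ (ι (v j * b)) (ι (α k (v j * b))))
        = tr ι ((α k b * star b) * ∑ j, (l j : ℂ) • (star (v j) * α k (v j))) := by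
      rw [Finset.mul_sum, tr_sum]
      refine Finset.sum_congr rfl fun j _ => ?_
      rw [mul_smul_comm, tr_smul, h.inner_eq_tr, map_mul, star_mul]
      congr 1
      rw [show star b * star (v j) * (α k (v j) * α k b)
        = (star b * star (v j) * α k (v j)) * α k b by noncomm_ring, h.tr_mul_comm]
      congr 1
      noncomm_ring
    rw [h1]
    refine (h.norm_tr_mul_le _ _).trans ?_
    have h2 : ‖ι (α k b * star b)‖ ≤ ‖b‖ ^ 2 := by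
      refine (h.norm_mul_le _ _).trans ?_
      rw [sq]
      refine mul_le_mul (norm_alpha_le α k b) ?_ (norm_nonneg _) (norm_nonneg _)
      rw [h.norm_star]
      exact h.norm_le b
    exact mul_le_mul h2 (hoff i i' hii) (norm_nonneg _) (by positivity)

theorem avg_exp_right {ι : A →ₗ[ℂ] E} (h : IsTracial ι) {α : G → A →⋆ₐ[ℂ] A} (hα : IsAct ι α)
    {K : Subgroup G} {Ex : A →ₗ[ℂ] A} (hE : IsExp ι α ⊤ Ex)
    {J : Type*} [Fintype J] {v : J → A} {l : J → ℝ} (hv : IsEnsemble α K v l)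
    {R : Type*} [Fintype R] [Nonempty R] (r : R → G) (b : A) {δ : ℝ} (hδ : 0 ≤ δ)
    (hoff : ∀ i i', i ≠ i' → ‖ι (∑ j, (l j : ℂ) •
      (star (v j) * (star b * α ((r i)⁻¹ * r i') b) * α ((r i)⁻¹ * r i') (v j)))‖ ≤ δ) :
    ∑ j, l j * ‖ι (Ex (b * v j))‖ ^ 2 ≤ ‖b‖ ^ 2 / Fintype.card R + δ := by
  refine avgExp_core h hα hE (fun j => b * v j) l hv.nonneg r hδ ?_ ?_
  · have h1 : ∀ j, l j * ‖ι (b * v j)‖ ^ 2 ≤ l j * ‖b‖ ^ 2 := fun j => by
      rw [h.norm_mul_unitary (hv.unit j)]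
      exact mul_le_mul_of_nonneg_left (pow_le_pow_left₀ (norm_nonneg _) (h.norm_le b) 2)
        (hv.nonneg j)
    refine (Finset.sum_le_sum fun j _ => h1 j).trans (le_of_eq ?_)
    rw [← Finset.sum_mul, hv.sum_eq, one_mul]
  · intro i i' hii
    have h1 : (∑ j, (l j : ℂ) * inner ℂ (ι (b * v j)) (ι (α ((r i)⁻¹ * r i') (b * v j))))
        = tr ι (∑ j, (l j : ℂ) • (star (v j) * (star b * α ((r i)⁻¹ * r i') b)
          * α ((r i)⁻¹ * r i') (v j))) := by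
      rw [tr_sum]
      refine Finset.sum_congr rfl fun j _ => ?_
      rw [tr_smul, h.inner_eq_tr, map_mul, star_mul]
      congr 2
      noncomm_ring
    rw [h1]
    exact (h.norm_tr_le _).trans (hoff i i' hii)

theorem avg_exp_slow_left {ι : A →ₗ[ℂ] E} (h : IsTracial ι) {α : G → A →⋆ₐ[ℂ] A}
    (hα : IsAct ι α) {K : Subgroup G} {Ex : A →ₗ[ℂ] A} (hE : IsExp ι α ⊤ Ex)
    {J : Type*} [Fintype J] {v : J → A} {l : J → ℝ} (hv : IsEnsemble α K v l)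
    {T : Finset (G ⧸ K)} {F : G ⧸ K → ℝ} (hF : ∑ x ∈ T, F x ^ 2 = 1)
    {R : Type*} [Fintype R] [Nonempty R] (r : R → G) (y : A) {δ : ℝ} (hδ : 0 ≤ δ)
    (hoff : ∀ i i', i ≠ i' → ‖ι (∑ j, (l j : ℂ) •
      (star (v j) * α ((r i)⁻¹ * r i') (v j)))‖ ≤ δ) :
    ∑ j, l j * ‖ι (Ex (slow α T F (v j) * y))‖ ^ 2
      ≤ T.card * (‖y‖ ^ 2 / Fintype.card R + ‖y‖ ^ 2 * δ) := by
  have h1 : ∀ j, Ex (slow α T F (v j) * y)
      = ∑ x ∈ T, (F x : ℂ) • Ex (v j * α x.out⁻¹ y) := by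
    intro j
    rw [slow, Finset.sum_mul, map_sum]
    refine Finset.sum_congr rfl fun x _ => ?_
    rw [smul_mul_assoc, map_smul, ← hE.alpha_apply h hα (Subgroup.mem_top x.out⁻¹), map_mul,
      hα.inv_apply]
  have h2 : ∀ j, l j * ‖ι (Ex (slow α T F (v j) * y))‖ ^ 2
      = l j * ‖ι (∑ x ∈ T, (F x : ℂ) • Ex (v j * α x.out⁻¹ y))‖ ^ 2 := fun j => by rw [h1 j]
  rw [Finset.sum_congr rfl fun j _ => h2 j]
  refine avgExp_slow_core l hv.nonneg T F hF (fun j x => Ex (v j * α x.out⁻¹ y)) fun x _ => ?_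
  refine (avg_exp_left h hα hE hv r (α x.out⁻¹ y) hδ hoff).trans ?_
  have h3 : ‖α x.out⁻¹ y‖ ^ 2 ≤ ‖y‖ ^ 2 :=
    pow_le_pow_left₀ (norm_nonneg _) (norm_alpha_le α _ y) 2
  gcongr

theorem avg_exp_slow_right {ι : A →ₗ[ℂ] E} (h : IsTracial ι) {α : G → A →⋆ₐ[ℂ] A}
    (hα : IsAct ι α) {K : Subgroup G} {Ex : A →ₗ[ℂ] A} (hE : IsExp ι α ⊤ Ex)
    {J : Type*} [Fintype J] {v : J → A} {l : J → ℝ} (hv : IsEnsemble α K v l)
    {T : Finset (G ⧸ K)} {F : G ⧸ K → ℝ} (hF : ∑ x ∈ T, F x ^ 2 = 1)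
    {R : Type*} [Fintype R] [Nonempty R] (r : R → G) (y : A) {δ : ℝ} (hδ : 0 ≤ δ)
    (hoff : ∀ x ∈ T, ∀ i i', i ≠ i' → ‖ι (∑ j, (l j : ℂ) •
      (star (v j) * (star (α x.out⁻¹ y) * α ((r i)⁻¹ * r i') (α x.out⁻¹ y))
        * α ((r i)⁻¹ * r i') (v j)))‖ ≤ δ) :
    ∑ j, l j * ‖ι (Ex (y * slow α T F (v j)))‖ ^ 2
      ≤ T.card * (‖y‖ ^ 2 / Fintype.card R + δ) := by
  have h1 : ∀ j, Ex (y * slow α T F (v j))
      = ∑ x ∈ T, (F x : ℂ) • Ex (α x.out⁻¹ y * v j) := by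
    intro j
    rw [slow, Finset.mul_sum, map_sum]
    refine Finset.sum_congr rfl fun x _ => ?_
    rw [mul_smul_comm, map_smul, ← hE.alpha_apply h hα (Subgroup.mem_top x.out⁻¹), map_mul,
      hα.inv_apply]
  have h2 : ∀ j, l j * ‖ι (Ex (y * slow α T F (v j)))‖ ^ 2
      = l j * ‖ι (∑ x ∈ T, (F x : ℂ) • Ex (α x.out⁻¹ y * v j))‖ ^ 2 := fun j => by rw [h1 j]
  rw [Finset.sum_congr rfl fun j _ => h2 j]
  refine avgExp_slow_core l hv.nonneg T F hF (fun j x => Ex (α x.out⁻¹ y * v j)) fun x hx => ?_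
  refine (avg_exp_right h hα hE hv r (α x.out⁻¹ y) hδ (hoff x hx)).trans ?_
  have h3 : ‖α x.out⁻¹ y‖ ^ 2 ≤ ‖y‖ ^ 2 :=
    pow_le_pow_left₀ (norm_nonneg _) (norm_alpha_le α _ y) 2
  gcongr

end Pool.Agent.ErgLC
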