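import Pool.Agent.Lib_MP_418a80_eg.DoubleSum

/-!
# EG07: translations of the slow elements

PROOF of `slow_mem`: for `k ∈ K`, `α_k(α_{x.out}(v)) = α_{(k•x).out}(v)` (`apply_eq_of_coset`, as
`k * x.out` and `(k • x).out` are in the same left coset), so
`α_k(slow v) = ∑_{x∈T} F x α_{(k•x).out}(v)`; reindex by the bijection `x ↦ k • x`
(`F` is `0` outside `T`, `F (k • x) = F x`, so `{F ≠ 0} ⊆ T` is stable under `k`;
e.g. write both sums as `finsum`/sums over the finset `{x ∈ T | F x ≠ 0}`).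

PROOF of `avg_shift`: `⟨ι a_j, ι (α_s a_j)⟩ = ∑_{x,y∈T} F x F y ⟨ι α_x(v_j), ι α_{s y}(v_j)⟩` and
`⟨ι α_x(v), ι α_{sy}(v)⟩ = τ(v* α_{x⁻¹ s y}(v))`, which is `1` if `x = s • y`
(then `x.out⁻¹ * s * y.out ∈ K` and `v` is fixed by `K`), and the average is `≤ δ` in modulus if
`x ≠ s • y`.  `double_sum_le` with `d(x,y) = 1` if `x = s • y`, `0` else, and
`∑_{x,y∈T} F x F y [x = s•y] = ∑_{x∈T} F x F (s⁻¹•x)` (terms with `s⁻¹•x ∉ T` vanish).

PROOF of `avg_norm_sub`: `‖ι(a - α_s a)‖² = 2‖ι a‖² - 2 Re ⟨ι a, ι (α_s a)⟩`; use `avg_shift` for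
`s` and for `1` (`∑ F x F (1⁻¹•x) = 1`).
-/

namespace Pool.Agent.ErgLC

open Filter Topology

universe u v w

variable {A : Type u} [CStarAlgebra A] {E : Type v} [NormedAddCommGroup E]
  [InnerProductSpace ℂ E] {G : Type w} [Group G]

theorem avgShift_out (K : Subgroup G) (s : G) (x : G ⧸ K) :
    (s * x.out)⁻¹ * (s • x).out ∈ K := by
  rw [← QuotientGroup.eq, QuotientGroup.out_eq']
  conv_rhs => rw [← QuotientGroup.out_eq' x]
  rw [MulAction.Quotient.smul_coe, smul_eq_mul]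

theorem avgShift_out' (K : Subgroup G) (s : G) (y : G ⧸ K) :
    (s • y).out⁻¹ * s * y.out ∈ K := by
  have h1 := K.inv_mem (avgShift_out K s y)
  rwa [mul_inv_rev, inv_inv, ← mul_assoc] at h1

theorem slow_mem {ι : A →ₗ[ℂ] E} {α : G → A →⋆ₐ[ℂ] A} (hα : IsAct ι α)
    {K : Subgroup G} {T : Finset (G ⧸ K)} {F : G ⧸ K → ℝ} (hT : ∀ x, x ∉ T → F x = 0)
    (hK : ∀ k ∈ K, ∀ x, F (k • x) = F x) {v : A} (hv : v ∈ fixedAlg α K) :
    slow α T F v ∈ fixedAlg α K := by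
  intro k hk
  have h1 : ∀ x : G ⧸ K, α k ((F x : ℂ) • α x.out v) = (F (k • x) : ℂ) • α (k • x).out v := by
    intro x
    rw [map_smul, hK k hk x, ← hα.mul_apply]
    congr 1
    exact hα.apply_eq_of_coset hv (avgShift_out K k x)
  have h2 : slow α T F v = ∑ᶠ x : G ⧸ K, (F x : ℂ) • α x.out v := by
    rw [slow]
    refine (finsum_eq_sum_of_support_subset _ ?_).symm
    intro x hx
    by_contra hxT
    exact hx (by simp only [hT x (by simpa using hxT), Complex.ofReal_zero, zero_smul])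
  have h3 : α k (slow α T F v) = ∑ᶠ x : G ⧸ K, (F (k • x) : ℂ) • α (k • x).out v := by
    rw [slow, map_sum, Finset.sum_congr rfl fun x _ => h1 x]
    refine (finsum_eq_sum_of_support_subset _ ?_).symm
    intro x hx
    by_contra hxT
    exact hx (by simp only [hK k hk x, hT x (by simpa using hxT), Complex.ofReal_zero, zero_smul])
  rw [h3, h2]
  exact finsum_comp_equiv (MulAction.toPerm k) (f := fun x : G ⧸ K => (F x : ℂ) • α x.out v)

theorem avg_shift {ι : A →ₗ[ℂ] E} (h : IsTracial ι) {α : G → A →⋆ₐ[ℂ] A} (hα : IsAct ι α)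
    {K : Subgroup G} {J : Type*} [Fintype J] {v : J → A} {l : J → ℝ} (hv : IsEnsemble α K v l)
    {T : Finset (G ⧸ K)} {F : G ⧸ K → ℝ} (hT : ∀ x, x ∉ T → F x = 0)
    (hF : ∑ x ∈ T, F x ^ 2 = 1) (s : G) {δ : ℝ} (hδ : 0 ≤ δ)
    (hoff : ∀ x ∈ T, ∀ y ∈ T, x ≠ s • y → ‖ι (∑ j, (l j : ℂ) •
      (star (v j) * α (x.out⁻¹ * s * y.out) (v j)))‖ ≤ δ) :
    ‖∑ j, (l j : ℂ) * inner ℂ (ι (slow α T F (v j))) (ι (α s (slow α T F (v j))))
      - ((∑ x ∈ T, F x * F (s⁻¹ • x) : ℝ) : ℂ)‖ ≤ δ * T.card := by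
  classical
  have h1 : ∀ j, inner ℂ (ι (slow α T F (v j))) (ι (α s (slow α T F (v j))))
      = ∑ x ∈ T, ∑ y ∈ T, ((F x * F y : ℝ) : ℂ) *
        tr ι (star (v j) * α (x.out⁻¹ * s * y.out) (v j)) := by
    intro j
    rw [slow, map_sum, map_sum, map_sum, sum_inner]
    refine Finset.sum_congr rfl fun x _ => ?_
    rw [inner_sum]
    refine Finset.sum_congr rfl fun y _ => ?_
    have h2 : α s (α y.out (v j)) = α x.out (α (x.out⁻¹ * s * y.out) (v j)) := by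
      rw [← hα.mul_apply, ← hα.mul_apply]
      congr 2
      group
    rw [map_smul, map_smul, map_smul, inner_smul_left, inner_smul_right, Complex.conj_ofReal, h2,
      hα.inner_apply h, h.inner_eq_tr]
    push_cast
    ring
  have h3 : (∑ j, (l j : ℂ) * inner ℂ (ι (slow α T F (v j))) (ι (α s (slow α T F (v j)))))
      = ∑ x ∈ T, ∑ y ∈ T, ((F x * F y : ℝ) : ℂ) *
        tr ι (∑ j, (l j : ℂ) • (star (v j) * α (x.out⁻¹ * s * y.out) (v j))) := by
    have h4 : ∀ j, (l j : ℂ) * inner ℂ (ι (slow α T F (v j))) (ι (α s (slow α T F (v j))))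
        = ∑ x ∈ T, ∑ y ∈ T, ((F x * F y : ℝ) : ℂ) *
          ((l j : ℂ) * tr ι (star (v j) * α (x.out⁻¹ * s * y.out) (v j))) := by
      intro j
      rw [h1 j, Finset.mul_sum]
      refine Finset.sum_congr rfl fun x _ => ?_
      rw [Finset.mul_sum]
      refine Finset.sum_congr rfl fun y _ => ?_
      ring
    rw [Finset.sum_congr rfl fun j _ => h4 j, Finset.sum_comm]
    refine Finset.sum_congr rfl fun x _ => ?_
    rw [Finset.sum_comm]
    refine Finset.sum_congr rfl fun y _ => ?_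
    rw [← Finset.mul_sum, tr_sum]
    congr 1
    refine Finset.sum_congr rfl fun j _ => ?_
    rw [tr_smul]
  have h5 : ((∑ x ∈ T, F x * F (s⁻¹ • x) : ℝ) : ℂ)
      = ∑ x ∈ T, ∑ y ∈ T, ((F x * F y : ℝ) : ℂ) * (if x = s • y then 1 else 0) := by
    rw [Complex.ofReal_sum]
    refine Finset.sum_congr rfl fun x _ => ?_
    have h6 : ∀ y ∈ T, ((F x * F y : ℝ) : ℂ) * (if x = s • y then (1 : ℂ) else 0)
        = if s⁻¹ • x = y then ((F x * F y : ℝ) : ℂ) else 0 := by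
      intro y _
      by_cases hy : x = s • y
      · rw [if_pos hy, if_pos (by rw [hy, inv_smul_smul]), mul_one]
      · rw [if_neg hy, if_neg (fun h7 => hy (by rw [← h7, smul_inv_smul])), mul_zero]
    rw [Finset.sum_congr rfl h6, Finset.sum_ite_eq]
    by_cases h8 : s⁻¹ • x ∈ T
    · rw [if_pos h8]
    · rw [if_neg h8, hT _ h8, mul_zero, Complex.ofReal_zero]
  rw [h3, h5]
  refine double_sum_le T F hF _ _ hδ fun x hx y hy => ?_
  by_cases hxy : x = s • y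
  · rw [if_pos hxy]
    have h9 : tr ι (∑ j, (l j : ℂ) • (star (v j) * α (x.out⁻¹ * s * y.out) (v j))) = 1 := by
      rw [tr_sum]
      have h10 : ∀ j, tr ι ((l j : ℂ) • (star (v j) * α (x.out⁻¹ * s * y.out) (v j)))
          = (l j : ℂ) := by
        intro j
        have h11 : α (x.out⁻¹ * s * y.out) (v j) = v j :=
          hv.mem j _ (by rw [hxy]; exact avgShift_out' K s y)
        rw [h11, (Unitary.mem_iff.1 (hv.unit j)).1, tr_smul, h.tr_one, mul_one]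
      rw [Finset.sum_congr rfl fun j _ => h10 j, ← Complex.ofReal_sum, hv.sum_eq,
        Complex.ofReal_one]
    rw [h9, sub_self, norm_zero]
    exact hδ
  · rw [if_neg hxy, sub_zero]
    exact (h.norm_tr_le _).trans (hoff x hx y hy hxy)

theorem avg_norm_sub {ι : A →ₗ[ℂ] E} (h : IsTracial ι) {α : G → A →⋆ₐ[ℂ] A} (hα : IsAct ι α)
    {K : Subgroup G} {J : Type*} [Fintype J] {v : J → A} {l : J → ℝ} (hv : IsEnsemble α K v l)
    {T : Finset (G ⧸ K)} {F : G ⧸ K → ℝ} (hT : ∀ x, x ∉ T → F x = 0)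
    (hF : ∑ x ∈ T, F x ^ 2 = 1) (s : G) {δ κ : ℝ} (hδ : 0 ≤ δ)
    (hκ : 1 - κ ≤ ∑ x ∈ T, F x * F (s⁻¹ • x))
    (hoff : ∀ x ∈ T, ∀ y ∈ T, x ≠ s • y → ‖ι (∑ j, (l j : ℂ) •
      (star (v j) * α (x.out⁻¹ * s * y.out) (v j)))‖ ≤ δ)
    (hoff1 : ∀ x ∈ T, ∀ y ∈ T, x ≠ y → ‖ι (∑ j, (l j : ℂ) •
      (star (v j) * α (x.out⁻¹ * y.out) (v j)))‖ ≤ δ) :
    ∑ j, l j * ‖ι (slow α T F (v j) - α s (slow α T F (v j)))‖ ^ 2
      ≤ 2 * κ + 4 * δ * T.card := by
  set a : J → A := fun j => slow α T F (v j) with ha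
  have h1 := avg_shift h hα hv hT hF s hδ hoff
  have h2 := avg_shift h hα hv hT hF 1 hδ fun x hx y hy hxy => by
    rw [mul_one]
    exact hoff1 x hx y hy (by rwa [one_smul] at hxy)
  have h3 : ∑ x ∈ T, F x * F ((1 : G)⁻¹ • x) = 1 := by
    rw [← hF]
    refine Finset.sum_congr rfl fun x _ => ?_
    rw [inv_one, one_smul, sq]
  rw [h3] at h2
  have h4 : ∀ j, ‖ι (a j - α s (a j))‖ ^ 2
      = 2 * (inner ℂ (ι (a j)) (ι (α 1 (a j)))).re
        - 2 * (inner ℂ (ι (a j)) (ι (α s (a j)))).re := by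
    intro j
    rw [map_sub, @norm_sub_sq ℂ, hα.norm_apply h, hα.one_apply]
    have h5 : (inner ℂ (ι (a j)) (ι (a j))).re = ‖ι (a j)‖ ^ 2 := by
      rw [inner_self_eq_norm_sq_to_K]
      norm_cast
    rw [h5]
    simp only [RCLike.re_to_complex]
    ring
  have h6 : ∀ g : G, (∑ j, (l j : ℂ) * inner ℂ (ι (a j)) (ι (α g (a j)))).re
      = ∑ j, l j * (inner ℂ (ι (a j)) (ι (α g (a j)))).re := by
    intro g
    rw [Complex.re_sum]
    exact Finset.sum_congr rfl fun j _ => Complex.re_ofReal_mul _ _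
  have h7 : ∑ j, l j * ‖ι (a j - α s (a j))‖ ^ 2
      = 2 * (∑ j, (l j : ℂ) * inner ℂ (ι (a j)) (ι (α 1 (a j)))).re
        - 2 * (∑ j, (l j : ℂ) * inner ℂ (ι (a j)) (ι (α s (a j)))).re := by
    rw [h6, h6, Finset.mul_sum, Finset.mul_sum, ← Finset.sum_sub_distrib]
    refine Finset.sum_congr rfl fun j _ => ?_
    rw [h4 j]
    ring
  have h8 := (Complex.abs_re_le_norm _).trans h1
  have h9 := (Complex.abs_re_le_norm _).trans h2
  rw [Complex.sub_re, Complex.ofReal_re] at h8 h9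
  have h10 := (abs_le.1 h8).1
  have h11 := (abs_le.1 h9).2
  rw [h7]
  linarith

end Pool.Agent.ErgLC
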