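import Mathlib

/-!
# EG14: a smooth variational principle (Borwein–Preiss) for bounded complete metric spaces

PROOF.  `c n = μ 2^{-n-1}`, `y 0` arbitrary, `Φ_n = Φ + ∑_{k<n} c k dist(·, y k)²`; choose `y n`
(`n ≥ 1`) with `Φ_n (y n) ≤ inf Φ_n + δ_n`, `δ_n = c n 4^{-n}` (build the list of the points
recursively, e.g. a sequence of functions `Φ_n : X → ℝ` and points: the state is the pair
`(Φ_n, y_n)`; or use strong recursion).  For `n ≥ 1`
`Φ_{n+1}(y (n+1)) ≤ Φ_{n+1}(y n) + δ_{n+1} = Φ_n(y n) + δ_{n+1}` and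
`Φ_{n+1}(y (n+1)) = Φ_n(y (n+1)) + c n d² ≥ Φ_n(y n) - δ_n + c n d²`, `d = dist (y (n+1)) (y n)`,
so `d² ≤ (δ_n + δ_{n+1})/c n ≤ 2 · 4^{-n}`, `d ≤ 2 · 2^{-n}`: Cauchy, limit `u`.
For all `m ≤ n` and `w`: `Φ_m(y n) ≤ Φ_n(y n) ≤ Φ_n(w) + δ_n ≤ Φ_∞(w) + δ_n`; let `n → ∞`
(`Φ_m` is continuous): `Φ_m(u) ≤ Φ_∞(w)` for every `m`; let `m → ∞` (partial sums of the series).
The series converge: `c k dist² ≤ c k D²`.
-/

namespace Pool.Agent.ErgLC

open Filter Topology

/-- near minimisers exist for functions bounded below. -/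
theorem bp_near {X : Type*} [Nonempty X] (F : X → ℝ) (hF : ∀ x, 0 ≤ F x) {δ : ℝ} (hδ : 0 < δ) :
    ∃ y, ∀ w, F y ≤ F w + δ := by
  have hb : BddBelow (Set.range F) := ⟨0, by rintro _ ⟨x, rfl⟩; exact hF x⟩
  obtain ⟨y, hy⟩ := exists_lt_of_ciInf_lt (show iInf F < iInf F + δ by linarith)
  exact ⟨y, fun w => by have := ciInf_le hb w; linarith⟩

open Classical in
/-- a near minimiser, if there is one. -/
noncomputable def bpPick {X : Type*} [Nonempty X] (F : X → ℝ) (δ : ℝ) : X :=
  if h : ∃ y, ∀ w, F y ≤ F w + δ then h.choose else Classical.arbitrary X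

theorem bpPick_spec {X : Type*} [Nonempty X] (F : X → ℝ) (hF : ∀ x, 0 ≤ F x) {δ : ℝ}
    (hδ : 0 < δ) (w : X) : F (bpPick F δ) ≤ F w + δ := by
  have h := bp_near F hF hδ
  unfold bpPick
  rw [dif_pos h]
  exact h.choose_spec w

/-- the recursive construction: the current function and its near minimiser. -/
noncomputable def bpState {X : Type*} [MetricSpace X] [Nonempty X] (Φ : X → ℝ) (c δ : ℕ → ℝ) :
    ℕ → (X → ℝ) × X
  | 0 => (Φ, bpPick Φ (δ 0))
  | n + 1 =>
    (fun x => (bpState Φ c δ n).1 x + c n * dist x (bpState Φ c δ n).2 ^ 2,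
      bpPick (fun x => (bpState Φ c δ n).1 x + c n * dist x (bpState Φ c δ n).2 ^ 2) (δ (n + 1)))

theorem borwein_preiss {X : Type*} [MetricSpace X] [CompleteSpace X] [Nonempty X] (Φ : X → ℝ)
    (hΦ : Continuous Φ) (h0 : ∀ x, 0 ≤ Φ x) {D : ℝ} (hD : ∀ x y : X, dist x y ≤ D) {μ : ℝ}
    (hμ : 0 < μ) :
    ∃ (u : X) (y : ℕ → X) (c : ℕ → ℝ), (∀ n, 0 ≤ c n) ∧ Summable c ∧ ∑' n, c n ≤ μ ∧
      ∀ w, Φ u + ∑' n, c n * dist u (y n) ^ 2 ≤ Φ w + ∑' n, c n * dist w (y n) ^ 2 := by
  set c : ℕ → ℝ := fun n => μ / 2 / 2 ^ n with hc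
  set δ : ℕ → ℝ := fun n => c n * (1 / 4) ^ n with hδ
  have hcpos : ∀ n, 0 < c n := fun n => by simp only [hc]; positivity
  have hδpos : ∀ n, 0 < δ n := fun n => mul_pos (hcpos n) (by positivity)
  have hcs : HasSum c μ := by
    have := hasSum_geometric_two' μ
    simpa [hc] using this
  set P : ℕ → X → ℝ := fun n => (bpState Φ c δ n).1 with hP
  set y : ℕ → X := fun n => (bpState Φ c δ n).2 with hy
  have hP0 : P 0 = Φ := rfl
  have hPs : ∀ n x, P (n + 1) x = P n x + c n * dist x (y n) ^ 2 := fun n x => rfl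
  have hPnn : ∀ n x, 0 ≤ P n x := by
    intro n
    induction n with
    | zero => exact h0
    | succ n ih =>
      intro x
      rw [hPs]
      have := ih x
      have := hcpos n
      positivity
  have hnear : ∀ n w, P n (y n) ≤ P n w + δ n := by
    intro n
    cases n with
    | zero => exact fun w => bpPick_spec Φ h0 (hδpos 0) w
    | succ n =>
      intro w
      exact bpPick_spec (fun x => P n x + c n * dist x (y n) ^ 2)
        (fun x => hPnn (n + 1) x) (hδpos (n + 1)) w
  have hPcont : ∀ n, Continuous (P n) := by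
    intro n
    induction n with
    | zero => exact hΦ
    | succ n ih =>
      have : P (n + 1) = fun x => P n x + c n * dist x (y n) ^ 2 := funext (hPs n)
      rw [this]
      exact ih.add (continuous_const.mul ((continuous_id.dist continuous_const).pow 2))
  have hdist : ∀ n, dist (y n) (y (n + 1)) ≤ 2 * (1 / 2 : ℝ) ^ n := by
    intro n
    have h1 := hnear (n + 1) (y n)
    rw [hPs, hPs, dist_self] at h1
    have h2 := hnear n (y (n + 1))
    have h3 : c (n + 1) ≤ c n := by
      simp only [hc]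
      apply div_le_div_of_nonneg_left (by positivity) (by positivity)
      exact pow_le_pow_right₀ (by norm_num) (Nat.le_succ n)
    have h4 : δ (n + 1) ≤ δ n := by
      simp only [hδ]
      apply mul_le_mul h3 _ (by positivity) (hcpos n).le
      exact pow_le_pow_of_le_one (by norm_num) (by norm_num) (Nat.le_succ n)
    have h5 : c n * dist (y (n + 1)) (y n) ^ 2 ≤ c n * (2 * (1 / 4) ^ n) := by
      have : δ n = c n * (1 / 4) ^ n := rfl
      nlinarith
    have h6 : dist (y (n + 1)) (y n) ^ 2 ≤ 2 * (1 / 4) ^ n := le_of_mul_le_mul_left h5 (hcpos n)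
    have h7 : (2 * (1 / 2 : ℝ) ^ n) ^ 2 = 4 * (1 / 4) ^ n := by
      rw [mul_pow, ← pow_mul, mul_comm n 2, pow_mul]
      norm_num
    rw [dist_comm]
    apply le_of_sq_le_sq _ (by positivity)
    rw [h7]
    have : (0 : ℝ) < (1 / 4) ^ n := by positivity
    linarith
  have hcau : CauchySeq y := cauchySeq_of_le_geometric (1 / 2) 2 (by norm_num) hdist
  obtain ⟨u, hu⟩ := cauchySeq_tendsto_of_complete hcau
  have hsumm : ∀ x, Summable fun n => c n * dist x (y n) ^ 2 := by
    intro x
    refine Summable.of_nonneg_of_le (fun n => mul_nonneg (hcpos n).le (by positivity))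
      (fun n => ?_) (hcs.summable.mul_right (D ^ 2))
    exact mul_le_mul_of_nonneg_left (pow_le_pow_left₀ dist_nonneg (hD x (y n)) 2) (hcpos n).le
  have hPsum : ∀ n x, P n x = Φ x + ∑ k ∈ Finset.range n, c k * dist x (y k) ^ 2 := by
    intro n x
    induction n with
    | zero => simp [hP0]
    | succ n ih => rw [hPs, ih, Finset.sum_range_succ]; ring
  have hPle : ∀ n x, P n x ≤ Φ x + ∑' n, c n * dist x (y n) ^ 2 := by
    intro n x
    rw [hPsum]
    have := (hsumm x).sum_le_tsum (Finset.range n)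
      (fun i _ => mul_nonneg (hcpos i).le (by positivity))
    linarith
  have hPlim : ∀ x, Tendsto (fun n => P n x) atTop (𝓝 (Φ x + ∑' n, c n * dist x (y n) ^ 2)) := by
    intro x
    have h := (hsumm x).hasSum.tendsto_sum_nat.const_add (Φ x)
    refine h.congr (fun n => (hPsum n x).symm)
  have hPmono : ∀ x, Monotone fun n => P n x := by
    intro x
    refine monotone_nat_of_le_succ (fun n => ?_)
    rw [hPs]
    have := hcpos n
    have : 0 ≤ c n * dist x (y n) ^ 2 := by positivity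
    linarith
  have hδ0 : Tendsto δ atTop (𝓝 0) := by
    have h1 := hcs.summable.tendsto_atTop_zero
    have h2 : Tendsto (fun n : ℕ => (1 / 4 : ℝ) ^ n) atTop (𝓝 0) :=
      tendsto_pow_atTop_nhds_zero_of_lt_one (by norm_num) (by norm_num)
    have h3 := h1.mul h2
    rw [mul_zero] at h3
    exact h3
  refine ⟨u, y, c, fun n => (hcpos n).le, hcs.summable, hcs.tsum_eq.le, fun w => ?_⟩
  refine le_of_tendsto (hPlim u) (Eventually.of_forall fun m => ?_)
  have hlim1 : Tendsto (fun n => P m (y n)) atTop (𝓝 (P m u)) :=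
    ((hPcont m).tendsto u).comp hu
  have hlim2 : Tendsto (fun n => (Φ w + ∑' n, c n * dist w (y n) ^ 2) + δ n) atTop
      (𝓝 ((Φ w + ∑' n, c n * dist w (y n) ^ 2) + 0)) := tendsto_const_nhds.add hδ0
  rw [add_zero] at hlim2
  refine le_of_tendsto_of_tendsto hlim1 hlim2 ?_
  filter_upwards [eventually_ge_atTop m] with n hn
  have h1 := hPmono (y n) hn
  have h2 := hnear n w
  have h3 := hPle n w
  simp only at h1
  linarith

end Pool.Agent.ErgLC
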