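import Pool.Agent.Lib_MP_418a80_eg.ExpExist

/-!
# EG18: the limit cocycle and its ergodicity

PROOF.  `V n g = star (w n) * α g (w n)` (unitary).  For `s ∈ S n`:
`V (n+1) s - V n s = w_n* (u_n* α_s(u_n) - 1) α_s(w_n)` with `u_n = w_{n+1} w_n*`, 2-norm
`= ‖ι (α_s u_n - u_n)‖ ≤ (1/2)^n`.  `V n g` depends only on the coset `g K` (`apply_eq_of_coset`).
So for each `g` there is `n₀` with `‖ι (V (n+1) g - V n g)‖ ≤ (1/2)^n` for `n ≥ n₀`
(`S` increasing): Cauchy; `IsTracial.complete` (`C = 1`) gives `v g`, unitary (`unitary_of_tendsto`).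
For `s ∈ S n`: `‖ι (v s - V n s)‖ ≤ 2 (1/2)^n`.  Cocycle: `V n (g h) = V n g * α g (V n h)`,
`tendsto_mul`, `tendsto_apply`, `eq_of_tendsto`.  For `k ∈ K`: `V n k = 1`.
ERGODICITY.  Let `v g α_g(x) v_g* = x` for all `g`.  For `g = k ∈ K`: `α_k x = x`.  `x - τ(x)` has the
same property; so assume `τ(x) = 0` and show `x = 0`.  Given `η > 0` choose `j` with
`‖ι (x - d j)‖ ≤ η` (`hdense`).  For `n ≥ j` with the weights of stage `n`:
`x = ∑ l_i v_{g_i} α_{g_i}(x) v_{g_i}*`, so `‖ι x‖ ≤ η + ‖ι (∑ l_i v_{g_i} α_{g_i}(d_j) v_{g_i}*)‖`;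
replace `v_{g_i}` by `V (n+1) g_i` (error `≤ 2 ‖d j‖ · 2 (1/2)^(n+1)` in total, as
`g_i ∈ S (n+1)`), and `∑ l_i V α_{g_i}(d_j) V* = w_{n+1}* (∑ l_i α_{g_i}(w_{n+1} d_j w_{n+1}*)) w_{n+1}`
has 2-norm `≤ 2 (1/2)^n`.  Let `n → ∞`, `η → 0`: `ι x = 0`.
-/

namespace Pool.Agent.ErgLC

open Filter Topology

universe u v w

variable {A : Type u} [CStarAlgebra A] {E : Type v} [NormedAddCommGroup E]
  [InnerProductSpace ℂ E] {G : Type w} [Group G]

section CocycleAux

variable {ι : A →ₗ[ℂ] E} {α : G → A →⋆ₐ[ℂ] A}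

theorem cocycle_unitary (α : G → A →⋆ₐ[ℂ] A) {w : A} (hw : w ∈ unitary A) (g : G) :
    star w * α g w ∈ unitary A :=
  mul_mem (Unitary.star_mem hw) (alpha_unitary α g hw)

theorem cocycle_step (hι : IsTracial ι) {w w' : A} (hw : w ∈ unitary A)
    (hw' : w' ∈ unitary A) (g : G) :
    ‖ι (star w' * α g w' - star w * α g w)‖ = ‖ι (α g (w' * star w) - w' * star w)‖ := by
  have h1 : star w' * α g w' - star w * α g w
      = star w' * ((α g (w' * star w) - w' * star w) * α g w) := by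
    have h2 : star w' * ((α g (w' * star w) - w' * star w) * α g w)
        = star w' * (α g (w' * star w * w)) - (star w' * w') * (star w * α g w) := by
      rw [map_mul (α g) (w' * star w) w]
      noncomm_ring
    rw [h2, (Unitary.mem_iff.1 hw').1, one_mul, mul_assoc w', (Unitary.mem_iff.1 hw).1, mul_one]
  rw [h1, hι.norm_unitary_mul (Unitary.star_mem hw'),
    hι.norm_mul_unitary (alpha_unitary α g hw)]

theorem cocycle_mul (hα : IsAct ι α) {w : A} (hw : w ∈ unitary A) (g h : G) :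
    star w * α (g * h) w = star w * α g w * α g (star w * α h w) := by
  rw [map_mul, hα.mul_apply]
  have h1 : α g w * α g (star w) = 1 := by
    rw [← map_mul, (Unitary.mem_iff.1 hw).2, map_one]
  have h2 : star w * α g w * (α g (star w) * α g (α h w))
      = star w * (α g w * α g (star w)) * α g (α h w) := by noncomm_ring
  rw [h2, h1, mul_one]

theorem cocycle_diff_le (hι : IsTracial ι) {v V : A} (hv : v ∈ unitary A) (hV : V ∈ unitary A)
    (a : A) : ‖ι (v * a * star v - V * a * star V)‖ ≤ 2 * ‖a‖ * ‖ι (v - V)‖ := by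
  have h1 : v * a * star v - V * a * star V = (v - V) * (a * star v) + (V * a) * star (v - V) := by
    rw [star_sub]; noncomm_ring
  have h2 : ‖ι ((v - V) * (a * star v))‖ ≤ ‖ι (v - V)‖ * ‖a‖ := by
    refine (hι.norm_mul_le' _ _).trans (mul_le_mul_of_nonneg_left ?_ (norm_nonneg _))
    refine (norm_mul_le _ _).trans ?_
    have := norm_unitary_le (Unitary.star_mem hv)
    nlinarith [norm_nonneg a]
  have h3 : ‖ι ((V * a) * star (v - V))‖ ≤ ‖a‖ * ‖ι (v - V)‖ := by
    refine (hι.norm_mul_le _ _).trans ?_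
    rw [hι.norm_star]
    refine mul_le_mul_of_nonneg_right ?_ (norm_nonneg _)
    refine (norm_mul_le _ _).trans ?_
    have := norm_unitary_le hV
    nlinarith [norm_nonneg a]
  rw [h1, map_add]
  refine (norm_add_le _ _).trans ?_
  linarith

end CocycleAux

/-- the limit cocycle -/
theorem exists_limit_cocycle {ι : A →ₗ[ℂ] E} (hι : IsTracial ι) {α : G → A →⋆ₐ[ℂ] A}
    (hα : IsAct ι α) {K : Subgroup G} (w : ℕ → A) (S : ℕ → Set G)
    (hw : ∀ n, w n ∈ unitary A) (hwK : ∀ n, w n ∈ fixedAlg α K) (hS : ∀ n, S n ⊆ S (n + 1))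
    (hcov : ∀ g : G, ∃ n, ∃ s ∈ S n, s⁻¹ * g ∈ K)
    (hstep : ∀ n, ∀ s ∈ S n,
        ‖ι (α s (w (n + 1) * star (w n)) - w (n + 1) * star (w n))‖ ≤ (1 / 2) ^ n) :
    ∃ v : G → A, (∀ g, v g ∈ unitary A) ∧ (∀ g h, v (g * h) = v g * α g (v h)) ∧
      (∀ k ∈ K, v k = 1) ∧
      ∀ n, ∀ s ∈ S n, ‖ι (v s - star (w n) * α s (w n))‖ ≤ 2 * (1 / 2) ^ n := by
  have hSm : ∀ n m, n ≤ m → S n ⊆ S m := fun n m h => monotone_nat_of_le_succ hS h
  -- the approximating cocycles are eventually constant up to `(1/2)^n`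
  have hstep' : ∀ n m, n ≤ m → ∀ s ∈ S n,
      ‖ι (star (w (m + 1)) * α s (w (m + 1)) - star (w m) * α s (w m))‖ ≤ (1 / 2) ^ m := by
    intro n m hnm s hs
    rw [cocycle_step hι (hw m) (hw (m + 1)) s]
    exact hstep m s (hSm n m hnm hs)
  have hcosets : ∀ g s : G, s⁻¹ * g ∈ K → ∀ m, star (w m) * α s (w m) = star (w m) * α g (w m) := by
    intro g s hgs m
    rw [hα.apply_eq_of_coset (hwK m) hgs]
  have hev : ∀ g : G, ∃ n, ∀ m, n ≤ m →
      ‖ι (star (w (m + 1)) * α g (w (m + 1)) - star (w m) * α g (w m))‖ ≤ (1 / 2) ^ m := by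
    intro g
    obtain ⟨n, s, hs, hsg⟩ := hcov g
    refine ⟨n, fun m hm => ?_⟩
    rw [← hcosets g s hsg m, ← hcosets g s hsg (m + 1)]
    exact hstep' n m hm s hs
  have hlim : ∀ g : G, ∃ y : A, Tendsto (fun m => ι (star (w m) * α g (w m))) atTop (𝓝 (ι y)) := by
    intro g
    obtain ⟨n, hn⟩ := hev g
    have hb : ∀ m, ‖star (w (m + n)) * α g (w (m + n))‖ ≤ 1 :=
      fun m => norm_unitary_le (cocycle_unitary α (hw (m + n)) g)
    have hd : ∀ m, dist (ι (star (w (m + n)) * α g (w (m + n))))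
        (ι (star (w (m + 1 + n)) * α g (w (m + 1 + n)))) ≤ (1 / 2) ^ n * (1 / 2) ^ m := by
      intro m
      rw [dist_comm, dist_eq_norm, ← map_sub, show m + 1 + n = m + n + 1 by ring, ← pow_add,
        add_comm n m]
      exact hn (m + n) (Nat.le_add_left _ _)
    have hc : CauchySeq (fun m => ι (star (w (m + n)) * α g (w (m + n)))) :=
      cauchySeq_of_le_geometric (1 / 2) ((1 / 2) ^ n) (by norm_num) hd
    obtain ⟨y, hy⟩ := hι.complete _ 1 hb hc
    exact ⟨y, (tendsto_add_atTop_iff_nat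
      (f := fun m => ι (star (w m) * α g (w m))) n).1 hy⟩
  choose v hv using hlim
  have hbd : ∀ g m, ‖star (w m) * α g (w m)‖ ≤ 1 :=
    fun g m => norm_unitary_le (cocycle_unitary α (hw m) g)
  refine ⟨v, fun g => ?_, fun g h => ?_, fun k hk => ?_, fun n s hs => ?_⟩
  · exact hι.unitary_of_tendsto (fun m => cocycle_unitary α (hw m) g) (hv g)
  · refine hι.eq_of_tendsto (hv (g * h)) ?_
    refine (hι.tendsto_mul (hbd g) (hv g) (hα.tendsto_apply hι g (hv h))).congr fun m => ?_
    rw [cocycle_mul hα (hw m) g h]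
  · refine hι.eq_of_tendsto (hv k) ?_
    refine tendsto_const_nhds.congr fun m => ?_
    rw [hwK m k hk, (Unitary.mem_iff.1 (hw m)).1]
  · have hd : ∀ m, dist (ι (star (w (m + n)) * α s (w (m + n))))
        (ι (star (w (m + 1 + n)) * α s (w (m + 1 + n)))) ≤ (1 / 2) ^ n * (1 / 2) ^ m := by
      intro m
      rw [dist_comm, dist_eq_norm, ← map_sub, show m + 1 + n = m + n + 1 by ring, ← pow_add,
        add_comm n m]
      exact hstep' n (m + n) (Nat.le_add_left _ _) s hs
    have ht : Tendsto (fun m => ι (star (w (m + n)) * α s (w (m + n)))) atTop (𝓝 (ι (v s))) :=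
      (tendsto_add_atTop_iff_nat (f := fun m => ι (star (w m) * α s (w m))) n).2 (hv s)
    have h1 := dist_le_of_le_geometric_of_tendsto₀ (1 / 2) ((1 / 2) ^ n) (by norm_num) hd ht
    rw [dist_comm, dist_eq_norm, ← map_sub] at h1
    rw [zero_add] at h1
    refine h1.trans (le_of_eq ?_)
    ring

/-- ergodicity -/
theorem ergodic_of_limit {ι : A →ₗ[ℂ] E} (hι : IsTracial ι) {α : G → A →⋆ₐ[ℂ] A}
    (hα : IsAct ι α) {K : Subgroup G} (d : ℕ → A)
    (hdense : ∀ x ∈ fixedAlg α K, tr ι x = 0 → ∀ ε > 0, ∃ n, ‖ι (x - d n)‖ ≤ ε)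
    (w : ℕ → A) (S : ℕ → Set G) (hw : ∀ n, w n ∈ unitary A)
    (hav : ∀ n, ∃ (I : Type) (_ : Fintype I) (g : I → G) (l : I → ℝ),
        (∀ i, g i ∈ S (n + 1)) ∧ (∀ i, 0 ≤ l i) ∧ ∑ i, l i = 1 ∧
        ∀ j ≤ n, ‖ι (∑ i, (l i : ℂ) • α (g i) (w (n + 1) * d j * star (w (n + 1))))‖
          ≤ 2 * (1 / 2) ^ n)
    (v : G → A) (hv : ∀ g, v g ∈ unitary A) (hvK : ∀ k ∈ K, v k = 1)
    (hvS : ∀ n, ∀ s ∈ S n, ‖ι (v s - star (w n) * α s (w n))‖ ≤ 2 * (1 / 2) ^ n)
    (x : A) (hx : ∀ g, v g * α g x * star (v g) = x) : ∃ c : ℂ, x = c • (1 : A) := by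
  have hxK : ∀ k ∈ K, α k x = x := by
    intro k hk
    have h1 := hx k
    rwa [hvK k hk, one_mul, star_one, mul_one] at h1
  set y : A := x - tr ι x • (1 : A) with hy
  have hyK : y ∈ fixedAlg α K := by
    intro k hk
    rw [hy, map_sub, hxK k hk, map_smul, map_one]
  have hytr : tr ι y = 0 := by
    rw [hy, tr_sub, tr_smul, hι.tr_one, mul_one, sub_self]
  have hyv : ∀ g, v g * α g y * star (v g) = y := by
    intro g
    have h1 : v g * α g y * star (v g)
        = v g * α g x * star (v g) - tr ι x • (v g * star (v g)) := by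
      rw [hy, map_sub, map_smul, map_one, mul_sub, sub_mul, mul_smul_comm, smul_mul_assoc,
        mul_one]
    rw [h1, hx g, (Unitary.mem_iff.1 (hv g)).2]
  have hmain : ∀ η : ℝ, 0 < η → ‖ι y‖ ≤ η := by
    intro η hη
    obtain ⟨j, hj⟩ := hdense y hyK hytr η hη
    have hbound : ∀ n, j ≤ n → ‖ι y‖ ≤ η + (2 * ‖d j‖ + 2) * (1 / 2) ^ n := by
      intro n hn
      obtain ⟨I, hI, g, l, hg, hl, hl1, hav'⟩ := hav n
      have h0 := hav' j hn
      have hw' := hw (n + 1)
      set W := w (n + 1) with hW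
      set V : I → A := fun i => star W * α (g i) W with hVdef
      have hVu : ∀ i, V i ∈ unitary A := fun i => cocycle_unitary α hw' (g i)
      have hy1 : y = ∑ i, (l i : ℂ) • (v (g i) * α (g i) y * star (v (g i))) := by
        have h1 : ∀ i, (l i : ℂ) • (v (g i) * α (g i) y * star (v (g i))) = (l i : ℂ) • y :=
          fun i => by rw [hyv]
        rw [Finset.sum_congr rfl (fun i _ => h1 i), ← Finset.sum_smul, ← Complex.ofReal_sum,
          hl1, Complex.ofReal_one, one_smul]
      have hV1 : ∀ i, V i * α (g i) (d j) * star (V i)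
          = star W * (α (g i) (W * d j * star W) * W) := by
        intro i
        rw [hVdef]
        simp only [star_mul, star_star, map_mul, map_star]
        noncomm_ring
      have hsplit : ∀ i, v (g i) * α (g i) y * star (v (g i))
          = v (g i) * α (g i) (y - d j) * star (v (g i))
            + (v (g i) * α (g i) (d j) * star (v (g i)) - V i * α (g i) (d j) * star (V i))
            + star W * (α (g i) (W * d j * star W) * W) := by
        intro i
        rw [← hV1 i, map_sub (α (g i)) y (d j)]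
        noncomm_ring
      have hy2 : y = ∑ i, (l i : ℂ) • (v (g i) * α (g i) (y - d j) * star (v (g i)))
          + ∑ i, (l i : ℂ) • (v (g i) * α (g i) (d j) * star (v (g i))
              - V i * α (g i) (d j) * star (V i))
          + star W * ((∑ i, (l i : ℂ) • α (g i) (W * d j * star W)) * W) := by
        have h2 : star W * ((∑ i, (l i : ℂ) • α (g i) (W * d j * star W)) * W)
            = ∑ i, (l i : ℂ) • (star W * (α (g i) (W * d j * star W) * W)) := by
          rw [Finset.sum_mul, Finset.mul_sum]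
          refine Finset.sum_congr rfl fun i _ => ?_
          rw [smul_mul_assoc, mul_smul_comm]
        rw [h2, ← Finset.sum_add_distrib, ← Finset.sum_add_distrib]
        conv_lhs => rw [hy1]
        refine Finset.sum_congr rfl fun i _ => ?_
        rw [hsplit i, smul_add, smul_add]
      have hT1 : ‖ι (∑ i, (l i : ℂ) • (v (g i) * α (g i) (y - d j) * star (v (g i))))‖ ≤ η := by
        rw [map_sum]
        refine (norm_sum_le _ _).trans ?_
        have h3 : ∀ i ∈ (Finset.univ : Finset I),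
            ‖ι ((l i : ℂ) • (v (g i) * α (g i) (y - d j) * star (v (g i))))‖ ≤ l i * η := by
          intro i _
          rw [map_smul, norm_smul, Complex.norm_real, Real.norm_of_nonneg (hl i),
            hι.norm_mul_unitary (Unitary.star_mem (hv (g i))),
            hι.norm_unitary_mul (hv (g i)), hα.norm_apply hι]
          exact mul_le_mul_of_nonneg_left hj (hl i)
        refine (Finset.sum_le_sum h3).trans ?_
        rw [← Finset.sum_mul, hl1, one_mul]
      have hT2 : ‖ι (∑ i, (l i : ℂ) • (v (g i) * α (g i) (d j) * star (v (g i))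
              - V i * α (g i) (d j) * star (V i)))‖ ≤ 2 * ‖d j‖ * (1 / 2) ^ n := by
        rw [map_sum]
        refine (norm_sum_le _ _).trans ?_
        have h3 : ∀ i ∈ (Finset.univ : Finset I),
            ‖ι ((l i : ℂ) • (v (g i) * α (g i) (d j) * star (v (g i))
              - V i * α (g i) (d j) * star (V i)))‖ ≤ l i * (2 * ‖d j‖ * (1 / 2) ^ n) := by
          intro i _
          rw [map_smul, norm_smul, Complex.norm_real, Real.norm_of_nonneg (hl i)]
          refine mul_le_mul_of_nonneg_left ?_ (hl i)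
          refine (cocycle_diff_le hι (hv (g i)) (hVu i) _).trans ?_
          have h4 : ‖ι (v (g i) - V i)‖ ≤ (1 / 2) ^ n := by
            refine (hvS (n + 1) (g i) (hg i)).trans (le_of_eq ?_)
            rw [pow_succ]; ring
          have h5 : ‖α (g i) (d j)‖ ≤ ‖d j‖ := norm_alpha_le α (g i) (d j)
          have h6 : 0 ≤ ‖α (g i) (d j)‖ := norm_nonneg _
          have h7 : (0 : ℝ) ≤ (1 / 2) ^ n := by positivity
          calc 2 * ‖α (g i) (d j)‖ * ‖ι (v (g i) - V i)‖
              ≤ 2 * ‖α (g i) (d j)‖ * (1 / 2) ^ n :=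
                mul_le_mul_of_nonneg_left h4 (by positivity)
            _ ≤ 2 * ‖d j‖ * (1 / 2) ^ n :=
                mul_le_mul_of_nonneg_right (by linarith) h7
        refine (Finset.sum_le_sum h3).trans ?_
        rw [← Finset.sum_mul, hl1, one_mul]
      have hT3 : ‖ι (star W * ((∑ i, (l i : ℂ) • α (g i) (W * d j * star W)) * W))‖
          ≤ 2 * (1 / 2) ^ n := by
        rw [hι.norm_unitary_mul (Unitary.star_mem hw'), hι.norm_mul_unitary hw']
        exact h0
      have hfin : ‖ι y‖ ≤ ‖ι (∑ i, (l i : ℂ) • (v (g i) * α (g i) (y - d j) * star (v (g i))))‖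
          + ‖ι (∑ i, (l i : ℂ) • (v (g i) * α (g i) (d j) * star (v (g i))
              - V i * α (g i) (d j) * star (V i)))‖
          + ‖ι (star W * ((∑ i, (l i : ℂ) • α (g i) (W * d j * star W)) * W))‖ := by
        conv_lhs => rw [hy2]
        rw [map_add, map_add]
        exact (norm_add_le _ _).trans (add_le_add (norm_add_le _ _) le_rfl)
      have := hfin.trans (add_le_add (add_le_add hT1 hT2) hT3)
      refine this.trans (le_of_eq ?_)
      ring
    have hlim : Tendsto (fun n : ℕ => η + (2 * ‖d j‖ + 2) * (1 / 2 : ℝ) ^ n) atTop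
        (𝓝 (η + (2 * ‖d j‖ + 2) * 0)) :=
      ((tendsto_pow_atTop_nhds_zero_of_lt_one (by norm_num) (by norm_num)).const_mul _).const_add _
    have h8 := ge_of_tendsto hlim (eventually_atTop.2 ⟨j, hbound⟩)
    rwa [mul_zero, add_zero] at h8
  have hy0 : ‖ι y‖ ≤ 0 := le_of_forall_pos_le_add fun η hη => by
    rw [zero_add]; exact hmain η hη
  have hy00 : y = 0 := hι.injective _ (norm_le_zero_iff.1 hy0)
  exact ⟨tr ι x, sub_eq_zero.1 (hy ▸ hy00)⟩

end Pool.Agent.ErgLC
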