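import Pool.Agent.Lib_MP_418a80_eg.VnTracial

/-!
# EG28: countability, infinity, separability

`countable_cosets`: the cosets of the open subgroup `K` are open, disjoint, nonempty, and `G` is
second countable.  `infinite_cosets`: otherwise `G` is a finite union of translates of the compact
set `K`, so compact.
`exists_dense_tr_zero`: the set `{ι x : x ∈ VA M, τ(x) = 0}` is a subset of `ℓ²(ℕ, H)`, which is
separable (`H` is separable: the finitely supported sequences with values in a countable dense set
are dense; or use that `(x ξ n)_n` ...), so it has a countable dense subset `{ι (d n)}`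
(`TopologicalSpace.IsSeparable`/`exists_countable_dense_subset` of a subset of a separable metric
space is separable).
-/

namespace Pool.Agent.ErgLC

open Filter Topology MeasureTheory

universe u v

theorem countable_cosets {G : Type v} [Group G] [TopologicalSpace G] [IsTopologicalGroup G]
    [SecondCountableTopology G] {K : Subgroup G} (hKo : IsOpen (K : Set G)) :
    Countable (G ⧸ K) := by
  have : DiscreteTopology (G ⧸ K) := QuotientGroup.discreteTopology hKo
  exact countable_of_Lindelof_of_discrete

theorem infinite_cosets {G : Type v} [Group G] [TopologicalSpace G] [IsTopologicalGroup G]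
    {K : Subgroup G} (hKc : IsCompact (K : Set G)) (hG : ¬ CompactSpace G) :
    Infinite (G ⧸ K) := by
  by_contra hfin
  rw [not_infinite_iff_finite] at hfin
  apply hG
  constructor
  have h1 : (Set.univ : Set G) = ⋃ x : G ⧸ K, (fun k => x.out * k) '' (K : Set G) := by
    symm
    rw [Set.eq_univ_iff_forall]
    intro g
    rw [Set.mem_iUnion]
    refine ⟨(g : G ⧸ K), (g : G ⧸ K).out⁻¹ * g, ?_, by simp⟩
    have h2 : ((g : G ⧸ K).out : G ⧸ K) = (g : G ⧸ K) := QuotientGroup.out_eq' _
    exact QuotientGroup.eq.1 h2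
  rw [h1]
  exact isCompact_iUnion fun x => hKc.image (continuous_const_mul _)

variable {H : Type u} [NormedAddCommGroup H] [InnerProductSpace ℂ H] [CompleteSpace H]

omit [CompleteSpace H] in
theorem isSeparable_lp [TopologicalSpace.SeparableSpace H] :
    TopologicalSpace.IsSeparable (Set.univ : Set (lp (fun _ : ℕ => H) 2)) := by
  set D : Set (lp (fun _ : ℕ => H) 2) :=
    ⋃ i : ℕ, Set.range (lp.singleContinuousLinearMap ℂ (fun _ : ℕ => H) 2 i) with hD
  have h1 : TopologicalSpace.IsSeparable D :=
    TopologicalSpace.IsSeparable.iUnion fun i =>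
      TopologicalSpace.isSeparable_range (ContinuousLinearMap.continuous _)
  have h2 : TopologicalSpace.IsSeparable (Submodule.span ℂ D : Set (lp (fun _ : ℕ => H) 2)) :=
    h1.span
  have h3 : closure (Submodule.span ℂ D : Set (lp (fun _ : ℕ => H) 2)) = Set.univ := by
    rw [Set.eq_univ_iff_forall]
    intro f
    have h4 := lp.hasSum_single (E := fun _ : ℕ => H) (p := 2) (by norm_num) f
    refine mem_closure_of_tendsto h4 (Eventually.of_forall fun s => ?_)
    refine Submodule.sum_mem _ fun i _ => Submodule.subset_span ?_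
    rw [hD, Set.mem_iUnion]
    exact ⟨i, f i, rfl⟩
  rw [← h3]
  exact h2.closure

theorem exists_dense_tr_zero [TopologicalSpace.SeparableSpace H] {M : VonNeumannAlgebra H}
    {ξ : ℕ → H} (hξ : IsTraceFamily M ξ) :
    ∃ d : ℕ → VA M, (∀ n, tr (iotaM M hξ.summable) (d n) = 0) ∧
      ∀ x : VA M, tr (iotaM M hξ.summable) x = 0 → ∀ ε > 0, ∃ n,
        ‖iotaM M hξ.summable (x - d n)‖ ≤ ε := by
  set S : Set (lp (fun _ : ℕ => H) 2) :=
    iotaM M hξ.summable '' {x | tr (iotaM M hξ.summable) x = 0} with hS
  have h1 : TopologicalSpace.IsSeparable S := isSeparable_lp.mono (Set.subset_univ _)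
  obtain ⟨t, hts, htc, hst⟩ := h1.exists_countable_dense_subset
  have h0 : (0 : lp (fun _ : ℕ => H) 2) ∈ S :=
    ⟨0, by simp [tr], map_zero _⟩
  have hne : t.Nonempty := by
    have := hst h0
    exact closure_nonempty_iff.1 ⟨_, this⟩
  obtain ⟨e, he⟩ := htc.exists_eq_range hne
  have h2 : ∀ n, ∃ x : VA M, tr (iotaM M hξ.summable) x = 0 ∧ iotaM M hξ.summable x = e n := by
    intro n
    have h3 : e n ∈ S := hts (by rw [he]; exact ⟨n, rfl⟩)
    exact h3
  choose d hd1 hd2 using h2
  refine ⟨d, hd1, fun x hx ε hε => ?_⟩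
  have h3 : iotaM M hξ.summable x ∈ closure t := hst ⟨x, hx, rfl⟩
  obtain ⟨y, hy, hxy⟩ := Metric.mem_closure_iff.1 h3 ε hε
  rw [he] at hy
  obtain ⟨n, rfl⟩ := hy
  refine ⟨n, ?_⟩
  rw [map_sub, hd2, ← dist_eq_norm]
  exact hxy.le

end Pool.Agent.ErgLC
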