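import Pool.Agent.Lib_MP_418a80_eg.GenericDefs

/-!
# EG06: double sums; the general averaging formula

PROOF of `double_sum_le`: the difference is bounded by `δ ∑∑ |F x| |F y| = δ (∑ |F x|)²`, and
`(∑_{x∈T} |F x|)² ≤ |T| ∑ F x ^ 2 = |T|` (`inner_mul_le_norm_mul_norm`/`sq_sum_le_card_mul_sum_sq`).

PROOF of `avg_tr`.  With `a_j = slow α T F (v j)`,
`τ(q a_j* b a_j) = ∑_{x,y∈T} F x F y τ(q α_x(v_j)* b α_y(v_j))`, and
`τ(q α_x(v)* b α_y(v)) = τ(α_{x⁻¹}(q) · v* α_{x⁻¹}(b) α_{x⁻¹y}(v))` (apply `α_{x⁻¹}`, `tr_apply`;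
`x`, `y` denote the representatives `x.out`, `y.out`).  So
`∑_j l_j τ(q a_j* b a_j) = ∑∑ F x F y c(x,y)` with `c(x,y) = τ(α_{x⁻¹}(q) · Z_{x,y})`,
`Z_{x,y} = ∑_j l_j v_j* α_{x⁻¹}(b) α_{x⁻¹y}(v_j)`.  By `norm_tr_mul_le` and `norm_apply`:
`|c(x,y)| ≤ ‖ι q‖ δ` for `x ≠ y` and `|c(x,x) - τ(q) τ(b)| ≤ ‖ι q‖ δ`
(`τ(α_{x⁻¹}(q) · τ(b) 1) = τ(q) τ(b)`; `α (x.out⁻¹ * x.out) = α 1`).  Use `double_sum_le` with
`d(x,y) = τ(q)τ(b)` for `x = y`, `0` else; `∑∑ F x F y d(x,y) = τ(q)τ(b) ∑ F x² = τ(q)τ(b)`.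
-/

namespace Pool.Agent.ErgLC

open Filter Topology

universe u v w

variable {A : Type u} [CStarAlgebra A] {E : Type v} [NormedAddCommGroup E]
  [InnerProductSpace ℂ E] {G : Type w} [Group G]

theorem double_sum_le {X : Type*} (T : Finset X) (F : X → ℝ) (hF : ∑ x ∈ T, F x ^ 2 = 1)
    (c d : X → X → ℂ) {δ : ℝ} (hδ : 0 ≤ δ) (hcd : ∀ x ∈ T, ∀ y ∈ T, ‖c x y - d x y‖ ≤ δ) :
    ‖∑ x ∈ T, ∑ y ∈ T, ((F x * F y : ℝ) : ℂ) * c x y
      - ∑ x ∈ T, ∑ y ∈ T, ((F x * F y : ℝ) : ℂ) * d x y‖ ≤ δ * T.card := by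
  have h1 : ∑ x ∈ T, ∑ y ∈ T, ((F x * F y : ℝ) : ℂ) * c x y
      - ∑ x ∈ T, ∑ y ∈ T, ((F x * F y : ℝ) : ℂ) * d x y =
      ∑ x ∈ T, ∑ y ∈ T, ((F x * F y : ℝ) : ℂ) * (c x y - d x y) := by
    rw [← Finset.sum_sub_distrib]
    refine Finset.sum_congr rfl fun x _ => ?_
    rw [← Finset.sum_sub_distrib]
    refine Finset.sum_congr rfl fun y _ => ?_
    ring
  have h2 : ‖∑ x ∈ T, ∑ y ∈ T, ((F x * F y : ℝ) : ℂ) * (c x y - d x y)‖ ≤
      ∑ x ∈ T, ∑ y ∈ T, |F x| * |F y| * δ := by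
    refine (norm_sum_le _ _).trans (Finset.sum_le_sum fun x hx => ?_)
    refine (norm_sum_le _ _).trans (Finset.sum_le_sum fun y hy => ?_)
    rw [norm_mul, Complex.norm_real, Real.norm_eq_abs, abs_mul]
    exact mul_le_mul_of_nonneg_left (hcd x hx y hy) (by positivity)
  have h3 : ∑ x ∈ T, ∑ y ∈ T, |F x| * |F y| * δ = δ * (∑ x ∈ T, |F x|) ^ 2 := by
    rw [sq, Finset.sum_mul_sum, Finset.mul_sum]
    refine Finset.sum_congr rfl fun x _ => ?_
    rw [Finset.mul_sum]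
    refine Finset.sum_congr rfl fun y _ => ?_
    ring
  have h4 : (∑ x ∈ T, |F x|) ^ 2 ≤ T.card * ∑ x ∈ T, |F x| ^ 2 := sq_sum_le_card_mul_sum_sq
  have h5 : ∑ x ∈ T, |F x| ^ 2 = 1 := by
    rw [← hF]
    exact Finset.sum_congr rfl fun x _ => sq_abs _
  rw [h5, mul_one] at h4
  rw [h1]
  refine h2.trans ?_
  rw [h3]
  exact mul_le_mul_of_nonneg_left h4 hδ

theorem avg_tr {ι : A →ₗ[ℂ] E} (h : IsTracial ι) {α : G → A →⋆ₐ[ℂ] A} (hα : IsAct ι α)
    {K : Subgroup G} {J : Type*} [Fintype J] (v : J → A) (l : J → ℝ)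
    (T : Finset (G ⧸ K)) (F : G ⧸ K → ℝ) (hF : ∑ x ∈ T, F x ^ 2 = 1)
    (q b : A) {δ : ℝ} (hδ : 0 ≤ δ)
    (hoff : ∀ x ∈ T, ∀ y ∈ T, x ≠ y → ‖ι (∑ j, (l j : ℂ) •
      (star (v j) * α x.out⁻¹ b * α (x.out⁻¹ * y.out) (v j)))‖ ≤ δ)
    (hdiag : ∀ x ∈ T, ‖ι (∑ j, (l j : ℂ) • (star (v j) * α x.out⁻¹ b * v j)
      - tr ι b • (1 : A))‖ ≤ δ) :
    ‖∑ j, (l j : ℂ) * tr ι (q * (star (slow α T F (v j)) * b * slow α T F (v j)))
      - tr ι q * tr ι b‖ ≤ ‖ι q‖ * δ * T.card := by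
  classical
  -- the coefficients
  have key : ∀ x y : G ⧸ K, ∑ j, (l j : ℂ) * tr ι (q * (star (α x.out (v j)) * b * α y.out (v j))) =
      tr ι (α x.out⁻¹ q * ∑ j, (l j : ℂ) •
        (star (v j) * α x.out⁻¹ b * α (x.out⁻¹ * y.out) (v j))) := by
    intro x y
    rw [Finset.mul_sum, tr_sum]
    refine Finset.sum_congr rfl fun j _ => ?_
    rw [mul_smul_comm, tr_smul]
    congr 1
    rw [← hα.tr_apply x.out⁻¹ (q * _), map_mul, map_mul, map_mul, map_star, hα.inv_apply,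
      hα.mul_apply]
  have hslow : ∀ j, tr ι (q * (star (slow α T F (v j)) * b * slow α T F (v j))) =
      ∑ x ∈ T, ∑ y ∈ T, ((F x * F y : ℝ) : ℂ) *
        tr ι (q * (star (α x.out (v j)) * b * α y.out (v j))) := by
    intro j
    have h1 : star (slow α T F (v j)) * b * slow α T F (v j) =
        ∑ x ∈ T, ∑ y ∈ T, ((F x * F y : ℝ) : ℂ) • (star (α x.out (v j)) * b * α y.out (v j)) := by
      simp only [slow]
      rw [star_sum, Finset.sum_mul, Finset.sum_mul]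
      refine Finset.sum_congr rfl fun x _ => ?_
      rw [Finset.mul_sum]
      refine Finset.sum_congr rfl fun y _ => ?_
      rw [star_smul, smul_mul_assoc, smul_mul_assoc, mul_smul_comm, smul_smul]
      congr 1
      simp
    rw [h1, Finset.mul_sum, tr_sum]
    refine Finset.sum_congr rfl fun x _ => ?_
    rw [Finset.mul_sum, tr_sum]
    refine Finset.sum_congr rfl fun y _ => ?_
    rw [mul_smul_comm, tr_smul]
  set c : G ⧸ K → G ⧸ K → ℂ := fun x y =>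
    ∑ j, (l j : ℂ) * tr ι (q * (star (α x.out (v j)) * b * α y.out (v j))) with hc
  have hsum : ∑ j, (l j : ℂ) * tr ι (q * (star (slow α T F (v j)) * b * slow α T F (v j))) =
      ∑ x ∈ T, ∑ y ∈ T, ((F x * F y : ℝ) : ℂ) * c x y := by
    simp only [hslow, hc, Finset.mul_sum]
    rw [Finset.sum_comm]
    refine Finset.sum_congr rfl fun x _ => ?_
    rw [Finset.sum_comm]
    refine Finset.sum_congr rfl fun y _ => ?_
    refine Finset.sum_congr rfl fun j _ => ?_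
    ring
  set d : G ⧸ K → G ⧸ K → ℂ := fun x y => if x = y then tr ι q * tr ι b else 0 with hd
  have hdsum : ∑ x ∈ T, ∑ y ∈ T, ((F x * F y : ℝ) : ℂ) * d x y = tr ι q * tr ι b := by
    have h1 : ∀ x ∈ T, ∑ y ∈ T, ((F x * F y : ℝ) : ℂ) * d x y =
        ((F x ^ 2 : ℝ) : ℂ) * (tr ι q * tr ι b) := by
      intro x hx
      rw [Finset.sum_eq_single x]
      · simp only [hd, if_true]
        rw [sq]
      · intro y _ hyx
        simp only [hd]
        rw [if_neg (Ne.symm hyx), mul_zero]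
      · intro h
        exact absurd hx h
    rw [Finset.sum_congr rfl h1, ← Finset.sum_mul, ← Complex.ofReal_sum, hF, Complex.ofReal_one,
      one_mul]
  have hbound : ∀ x ∈ T, ∀ y ∈ T, ‖c x y - d x y‖ ≤ ‖ι q‖ * δ := by
    intro x hx y hy
    have hcx : c x y = tr ι (α x.out⁻¹ q * ∑ j, (l j : ℂ) •
        (star (v j) * α x.out⁻¹ b * α (x.out⁻¹ * y.out) (v j))) := key x y
    by_cases hxy : x = y
    · subst hxy
      have h1 : ∀ j, α (x.out⁻¹ * x.out) (v j) = v j := fun j => by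
        rw [inv_mul_cancel, hα.one_apply]
      simp only [h1] at hcx
      have h2 : c x x - d x x = tr ι (α x.out⁻¹ q * (∑ j, (l j : ℂ) •
          (star (v j) * α x.out⁻¹ b * v j) - tr ι b • (1 : A))) := by
        rw [hcx, mul_sub, tr_sub, mul_smul_comm, mul_one, tr_smul, hα.tr_apply]
        simp only [hd, if_true]
        ring
      rw [h2]
      refine (h.norm_tr_mul_le _ _).trans ?_
      rw [hα.norm_apply h]
      exact mul_le_mul_of_nonneg_left (hdiag x hx) (norm_nonneg _)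
    · have h2 : d x y = 0 := by
        simp only [hd]
        rw [if_neg hxy]
      rw [h2, sub_zero, hcx]
      refine (h.norm_tr_mul_le _ _).trans ?_
      rw [hα.norm_apply h]
      exact mul_le_mul_of_nonneg_left (hoff x hx y hy hxy) (norm_nonneg _)
  have hfin := double_sum_le T F hF c d (mul_nonneg (norm_nonneg (ι q)) hδ) hbound
  rw [hsum, ← hdsum]
  exact hfin

end Pool.Agent.ErgLC
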