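import Pool.Agent.Lib_MP_418a80_eg.Intertwine

/-!
# Slow generic families, Følner functions, the elements `∑ F(x) α_x(v)`
-/

namespace Pool.Agent.ErgLC

open Filter Topology

universe u v w

variable {A : Type u} [CStarAlgebra A] {E : Type v} [NormedAddCommGroup E]
  [InnerProductSpace ℂ E] {G : Type w} [Group G]

/-- a finite family of unitaries of the fixed point algebra of `K`, with weights of sum `1` -/
structure IsEnsemble (α : G → A →⋆ₐ[ℂ] A) (K : Subgroup G) {J : Type*} [Fintype J] (v : J → A)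
    (l : J → ℝ) : Prop where
  unit : ∀ j, v j ∈ unitary A
  mem : ∀ j, v j ∈ fixedAlg α K
  nonneg : ∀ j, 0 ≤ l j
  sum_eq : ∑ j, l j = 1

/-- Følner functions on `G ⧸ K`: left `K`-invariant, finitely supported, of square sum `1`, almost
invariant under the translations from a given finite set -/
def FolnerCosets (K : Subgroup G) : Prop :=
  ∀ (S : Finset G) (κ : ℝ), 0 < κ → ∃ (T : Finset (G ⧸ K)) (F : G ⧸ K → ℝ),
    (∀ x, x ∉ T → F x = 0) ∧ (∀ k ∈ K, ∀ x, F (k • x) = F x) ∧ ∑ x ∈ T, F x ^ 2 = 1 ∧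
    ∀ s ∈ S, 1 - κ ≤ ∑ x ∈ T, F x * F (s⁻¹ • x)

/-- `∑ F(x) α_x(v)`, where `α_x(v)` means `α_g(v)` for a representative `g` of the coset `x` -/
noncomputable def slow (α : G → A →⋆ₐ[ℂ] A) {K : Subgroup G} (T : Finset (G ⧸ K))
    (F : G ⧸ K → ℝ) (v : A) : A :=
  ∑ x ∈ T, (F x : ℂ) • α x.out v

/-- slow generic families: weights `l j ≥ 0` and elements `a j` of the fixed point algebra of `K`
which are almost invariant under `S` and for which `∑ l j τ(q a_j* b a_j) ≈ τ(q) τ(b)` and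
`E (a_j y) ≈ 0 ≈ E (y a_j)` in the mean square -/
def GenericSlow (ι : A →ₗ[ℂ] E) (α : G → A →⋆ₐ[ℂ] A) (K : Subgroup G) (Ex : A →ₗ[ℂ] A) : Prop :=
  ∀ (Q Y : Finset A) (S : Finset G) (δ : ℝ), 0 < δ →
    ∃ (J : Type) (_ : Fintype J) (a : J → A) (l : J → ℝ),
      (∀ j, a j ∈ fixedAlg α K) ∧ (∀ j, 0 ≤ l j) ∧
      (∀ q ∈ Q, ∀ b ∈ Y,
        ‖∑ j, (l j : ℂ) * tr ι (q * (star (a j) * b * a j)) - tr ι q * tr ι b‖ ≤ δ) ∧
      (∀ s ∈ S, ∑ j, l j * ‖ι (a j - α s (a j))‖ ^ 2 ≤ δ) ∧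
      (∀ y ∈ Y, ∑ j, l j * ‖ι (Ex (a j * y))‖ ^ 2 ≤ δ) ∧
      ∀ y ∈ Y, ∑ j, l j * ‖ι (Ex (y * a j))‖ ^ 2 ≤ δ

end Pool.Agent.ErgLC
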