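import Pool.Agent.Lib_MP_418a80_eg.Hull
import Pool.Agent.Lib_MP_418a80_eg.GenericDefs

/-!
# EG05: ensembles

PROOF of `exists_ensemble`.  `J' = (D × Y) ⊕ Y` (finite; as subtypes of the Finsets).  For a unitary
`v` of `N = fixedAlg α K` let `z(v) = (star v * b * α g v)_{(g,b)}, (star v * b * v)_b`.
`C = convexHull ℝ {z(v)}`; `Γ` = the unitaries `w` of `N`, `T_w z = star w * z * α g w` resp.
`star w * z * w` (2-isometric: `norm_unitary_mul`, `norm_mul_unitary`, `alpha_unitary`);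
`T_w z(v) = z(v w)`, and `T_w` is linear, so `C` is stable.  `hull_fixed` gives a fixed `ζ`, by
`intertwine_general` it is `0` in the coordinates `(g, b)` (as `g ∉ K`) and a scalar `c_b` in the
coordinates `b` (`α 1`, or `g = 1 ∈ K`).  `tr (star v * b * v) = tr b`, so `tr z_b = tr b` for
`z ∈ C`, and `|tr z_b - tr ζ_b| ≤ ‖ι (z_b - ζ_b)‖` gives `c_b = tr b`.
-/

namespace Pool.Agent.ErgLC

open Filter Topology

universe u v w

variable {A : Type u} [CStarAlgebra A] {E : Type v} [NormedAddCommGroup E]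
  [InnerProductSpace ℂ E] {G : Type w} [Group G]

/-- the conjugates `star w * z * α g w` -/
private noncomputable def ensConj (α : G → A →⋆ₐ[ℂ] A) (g : G) (w : A) : A →ₗ[ℂ] A where
  toFun z := star w * z * α g w
  map_add' x y := by rw [mul_add, add_mul]
  map_smul' c x := by rw [mul_smul_comm, smul_mul_assoc, RingHom.id_apply]

omit [Group G] in
private theorem ensConj_apply (α : G → A →⋆ₐ[ℂ] A) (g : G) (w z : A) :
    ensConj α g w z = star w * z * α g w := rfl

omit [Group G] in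
private theorem ens_norm_le (α : G → A →⋆ₐ[ℂ] A) (g : G) {w : A} (hw : w ∈ unitary A) (b : A) :
    ‖star w * b * α g w‖ ≤ ‖b‖ := by
  have h1 : ‖star w‖ ≤ 1 := norm_unitary_le (Unitary.star_mem hw)
  have h2 : ‖α g w‖ ≤ 1 := norm_unitary_le (alpha_unitary α g hw)
  calc ‖star w * b * α g w‖ ≤ ‖star w * b‖ * ‖α g w‖ := norm_mul_le _ _
    _ ≤ ‖star w * b‖ * 1 := mul_le_mul_of_nonneg_left h2 (norm_nonneg _)
    _ = ‖star w * b‖ := mul_one _
    _ ≤ ‖star w‖ * ‖b‖ := norm_mul_le _ _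
    _ ≤ 1 * ‖b‖ := mul_le_mul_of_nonneg_right h1 (norm_nonneg _)
    _ = ‖b‖ := one_mul _

/-- general form: a finite family of pairs `(g j, b j)` -/
private theorem ens_general {ι : A →ₗ[ℂ] E} (h : IsTracial ι) {α : G → A →⋆ₐ[ℂ] A}
    (hα : IsAct ι α) {K : Subgroup G} (hI : Intertwine α K) {I : Type*} [Fintype I]
    (g : I → G) (b : I → A) {δ : ℝ} (hδ : 0 < δ) :
    ∃ (J : Type) (_ : Fintype J) (v : J → A) (l : J → ℝ), IsEnsemble α K v l ∧
      (∀ i, g i ∉ K → ‖ι (∑ j, (l j : ℂ) • (star (v j) * b i * α (g i) (v j)))‖ ≤ δ) ∧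
      ∀ i, g i = 1 →
        ‖ι (∑ j, (l j : ℂ) • (star (v j) * b i * v j) - tr ι (b i) • (1 : A))‖ ≤ δ := by
  classical
  let Γ : Type u := {w : A // w ∈ unitary A ∧ w ∈ fixedAlg α K}
  let zz : Γ → I → A := fun v i => star v.1 * b i * α (g i) v.1
  set C : Set (I → A) := convexHull ℝ (Set.range zz) with hCdef
  have hconv : Convex ℝ C := convex_convexHull ℝ _
  have h1mem : (1 : A) ∈ unitary A ∧ (1 : A) ∈ fixedAlg α K :=
    ⟨one_mem _, one_mem _⟩
  have hne : C.Nonempty := ⟨zz ⟨1, h1mem⟩, subset_convexHull ℝ _ ⟨_, rfl⟩⟩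
  set B : ℝ := ∑ i, ‖b i‖ with hBdef
  have hbB : ∀ i, ‖b i‖ ≤ B := fun i =>
    Finset.single_le_sum (f := fun i => ‖b i‖) (fun i _ => norm_nonneg _) (Finset.mem_univ i)
  have hB : ∀ z ∈ C, ∀ i, ‖z i‖ ≤ B := by
    intro z hz
    have hsub : C ⊆ {z : I → A | ∀ i, ‖z i‖ ≤ B} := by
      refine convexHull_min ?_ ?_
      · rintro _ ⟨v, rfl⟩ i
        exact (ens_norm_le α (g i) v.2.1 (b i)).trans (hbB i)
      · intro x hx y hy s t hs ht hst i
        have hx' : ‖x i‖ ≤ B := hx i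
        have hy' : ‖y i‖ ≤ B := hy i
        calc ‖(s • x + t • y) i‖ = ‖s • x i + t • y i‖ := rfl
          _ ≤ ‖s • x i‖ + ‖t • y i‖ := norm_add_le _ _
          _ = s * ‖x i‖ + t * ‖y i‖ := by
              rw [norm_smul, norm_smul, Real.norm_of_nonneg hs, Real.norm_of_nonneg ht]
          _ ≤ s * B + t * B := add_le_add (mul_le_mul_of_nonneg_left hx' hs)
              (mul_le_mul_of_nonneg_left hy' ht)
          _ = B := by rw [← add_mul, hst, one_mul]
    exact hsub hz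
  let T : Γ → I → A →ₗ[ℂ] A := fun w i => ensConj α (g i) w.1
  have hT : ∀ γ i a, ‖ι (T γ i a)‖ = ‖ι a‖ := by
    intro γ i a
    change ‖ι (star γ.1 * a * α (g i) γ.1)‖ = ‖ι a‖
    rw [h.norm_mul_unitary (alpha_unitary α (g i) γ.2.1),
      h.norm_unitary_mul (Unitary.star_mem γ.2.1)]
  have hTC : ∀ γ, ∀ z ∈ C, (fun i => T γ i (z i)) ∈ C := by
    intro γ z hz
    have hsub : C ⊆ {z : I → A | (fun i => T γ i (z i)) ∈ C} := by
      refine convexHull_min ?_ ?_
      · rintro _ ⟨v, rfl⟩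
        refine subset_convexHull ℝ _ ⟨⟨v.1 * γ.1, mul_mem v.2.1 γ.2.1, mul_mem v.2.2 γ.2.2⟩, ?_⟩
        funext i
        change star (v.1 * γ.1) * b i * α (g i) (v.1 * γ.1) =
          star γ.1 * (star v.1 * b i * α (g i) v.1) * α (g i) γ.1
        rw [star_mul, map_mul]
        simp only [mul_assoc]
      · intro x hx y hy s t hs ht hst
        have h1 := hconv hx hy hs ht hst
        have h2 : (fun i => T γ i ((s • x + t • y) i)) =
            s • (fun i => T γ i (x i)) + t • fun i => T γ i (y i) := by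
          funext i
          change T γ i (s • x i + t • y i) = s • T γ i (x i) + t • T γ i (y i)
          rw [map_add, ← Complex.coe_smul, ← Complex.coe_smul, map_smul, map_smul,
            Complex.coe_smul, Complex.coe_smul]
        change (fun i => T γ i ((s • x + t • y) i)) ∈ C
        rw [h2]
        exact h1
    exact hsub hz
  obtain ⟨ζ, hfix, happ⟩ := hull_fixed h C hconv hne hB T hT hTC
  have hint : ∀ i, (g i ∉ K → ζ i = 0) ∧ (g i ∈ K → ∃ c : ℂ, ζ i = c • (1 : A)) := by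
    intro i
    refine intertwine_general h hα hI (g i) (ζ i) fun w hw hwK => ?_
    exact hfix ⟨w, hw, hwK⟩ i
  -- the trace is constant on `C` in the coordinates with `g i = 1`
  have htr : ∀ z ∈ C, ∀ i, g i = 1 → tr ι (z i) = tr ι (b i) := by
    intro z hz
    have hsub : C ⊆ {z : I → A | ∀ i, g i = 1 → tr ι (z i) = tr ι (b i)} := by
      refine convexHull_min ?_ ?_
      · rintro _ ⟨v, rfl⟩ i hi
        change tr ι (star v.1 * b i * α (g i) v.1) = tr ι (b i)
        rw [hi, hα.one_apply, h.tr_mul_comm, ← mul_assoc, (Unitary.mem_iff.1 v.2.1).2, one_mul]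
      · intro x hx y hy s t hs ht hst i hi
        have hx' := hx i hi
        have hy' := hy i hi
        change tr ι (s • x i + t • y i) = tr ι (b i)
        rw [tr_add, ← Complex.coe_smul, ← Complex.coe_smul, tr_smul, tr_smul, hx', hy', ← add_mul,
          ← Complex.ofReal_add, hst, Complex.ofReal_one, one_mul]
    exact hsub hz
  obtain ⟨z, hzC, hz⟩ := happ (δ / 2) (half_pos hδ)
  obtain ⟨J, _, l, zJ, hl0, hl1, hzJ, hsum⟩ := mem_convexHull_iff_exists_fintype.1 hzC
  choose v hv using hzJ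
  have hzi : ∀ i, ∑ j, (l j : ℂ) • (star (v j).1 * b i * α (g i) (v j).1) = z i := by
    intro i
    rw [← hsum, Finset.sum_apply]
    refine Finset.sum_congr rfl fun j _ => ?_
    rw [Pi.smul_apply, ← hv j, Complex.coe_smul]
  refine ⟨J, inferInstance, fun j => (v j).1, l, ⟨fun j => (v j).2.1, fun j => (v j).2.2, hl0,
    hl1⟩, fun i hi => ?_, fun i hi => ?_⟩
  · rw [hzi i]
    have h1 := hz i
    rw [(hint i).1 hi, sub_zero] at h1
    exact h1.trans (half_le_self hδ.le)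
  · have h1 := hzi i
    rw [hi] at h1
    simp only [hα.one_apply] at h1
    rw [h1]
    obtain ⟨c, hc⟩ := (hint i).2 (by rw [hi]; exact one_mem K)
    have h2 := hz i
    have h3 : ‖c - tr ι (b i)‖ ≤ δ / 2 := by
      have h4 : tr ι (z i - ζ i) = tr ι (b i) - c := by
        rw [tr_sub, htr z hzC i hi, hc, tr_smul, h.tr_one, mul_one]
      have h5 := h.norm_tr_le (z i - ζ i)
      rw [h4, norm_sub_rev] at h5
      exact h5.trans h2
    have h4 : z i - tr ι (b i) • (1 : A) = (z i - ζ i) + (c - tr ι (b i)) • (1 : A) := by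
      rw [hc, sub_smul]
      abel
    rw [h4, map_add, map_smul]
    refine (norm_add_le _ _).trans ?_
    rw [norm_smul, h.norm_one, mul_one]
    linarith

theorem exists_ensemble {ι : A →ₗ[ℂ] E} (h : IsTracial ι) {α : G → A →⋆ₐ[ℂ] A}
    (hα : IsAct ι α) {K : Subgroup G} (hI : Intertwine α K) (D : Finset G)
    (hD : ∀ g ∈ D, g ∉ K) (Y : Finset A) {δ : ℝ} (hδ : 0 < δ) :
    ∃ (J : Type) (_ : Fintype J) (v : J → A) (l : J → ℝ), IsEnsemble α K v l ∧
      (∀ g ∈ D, ∀ b ∈ Y, ‖ι (∑ j, (l j : ℂ) • (star (v j) * b * α g (v j)))‖ ≤ δ) ∧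
      ∀ b ∈ Y, ‖ι (∑ j, (l j : ℂ) • (star (v j) * b * v j) - tr ι b • (1 : A))‖ ≤ δ := by
  obtain ⟨J, hJ, v, l, h1, h2, h3⟩ := ens_general h hα hI
    (I := (↥D × ↥Y) ⊕ ↥Y) (Sum.elim (fun p => p.1.1) fun _ => 1)
    (Sum.elim (fun p => p.2.1) fun b => b.1) hδ
  refine ⟨J, hJ, v, l, h1, fun g hg b hb => ?_, fun b hb => ?_⟩
  · exact h2 (Sum.inl (⟨g, hg⟩, ⟨b, hb⟩)) (hD g hg)
  · exact h3 (Sum.inr ⟨b, hb⟩) rfl

end Pool.Agent.ErgLC
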