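import Pool.Agent.Lib_MP_418a80_eg.Hull

/-!
# EG02: existence of the conditional expectation, approximation by finite averages

PROOF of `exists_exp_average`.  For a finite family `x : J → A` apply `hull_fixed` to
`C = convexHull ℝ {z | ∃ g ∈ L, z = fun j => α g (x j)}`, `Γ = L`, `T γ j = α γ` (as a linear map),
`B` = the maximum of the `‖x j‖` (`norm_alpha_le`).  The limit `ζ j` is fixed by `L`.  For
`y ∈ fixedAlg α L`: `⟨ι y, ι (α g (x j))⟩ = ⟨ι (α g y), ι (α g (x j))⟩ = ⟨ι y, ι (x j)⟩`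
(`IsAct.inner_apply`), hence the same for the elements of `C` and for the limit `ζ j`
(`|⟨ι y, ι (z j - ζ j)⟩| ≤ ‖ι y‖ ε`).  Elements of a convex hull: `mem_convexHull_iff_exists_fintype`;
`Complex.coe_smul`/`Complex.real_smul` turn real into complex scalars.
UNIQUENESS: two elements `e, e'` of `fixedAlg α L` with `⟨ι y, ι e⟩ = ⟨ι y, ι e'⟩` for all
`y ∈ fixedAlg α L` are equal (`IsTracial.eq_of_inner`, `y = e - e'`).  So `x ↦ e(x)` (chosen with
`Classical.choose`) is linear: `exists_exp`.  For `exists_average` use uniqueness again.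
-/

namespace Pool.Agent.ErgLC

open Filter Topology

universe u v w

variable {A : Type u} [CStarAlgebra A] {E : Type v} [NormedAddCommGroup E]
  [InnerProductSpace ℂ E] {G : Type w} [Group G]

theorem exists_exp_average {ι : A →ₗ[ℂ] E} (h : IsTracial ι) {α : G → A →⋆ₐ[ℂ] A}
    (hα : IsAct ι α) (L : Subgroup G) {J : Type*} [Fintype J] (x : J → A) :
    ∃ ζ : J → A, (∀ j, ζ j ∈ fixedAlg α L) ∧
      (∀ j, ∀ y ∈ fixedAlg α L, inner ℂ (ι y) (ι (ζ j)) = inner ℂ (ι y) (ι (x j))) ∧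
      ∀ ε > 0, ∃ (I : Type) (_ : Fintype I) (g : I → G) (l : I → ℝ), (∀ i, g i ∈ L) ∧
        (∀ i, 0 ≤ l i) ∧ ∑ i, l i = 1 ∧
        ∀ j, ‖ι (∑ i, (l i : ℂ) • α (g i) (x j) - ζ j)‖ ≤ ε := by
  set S : Set (J → A) := Set.range fun g : L => fun j => α (g : G) (x j) with hS
  set C : Set (J → A) := convexHull ℝ S with hC
  have hrep : ∀ z ∈ C, ∃ (I : Type) (_ : Fintype I) (g : I → G) (l : I → ℝ), (∀ i, g i ∈ L) ∧
      (∀ i, 0 ≤ l i) ∧ ∑ i, l i = 1 ∧ ∀ j, ∑ i, (l i : ℂ) • α (g i) (x j) = z j := by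
    intro z hz
    rw [hC, mem_convexHull_iff_exists_fintype] at hz
    obtain ⟨I, hI, w, y, hw, hw1, hy, hz⟩ := hz
    choose g hg using hy
    refine ⟨I, hI, fun i => (g i : G), w, fun i => (g i).2, hw, hw1, fun j => ?_⟩
    rw [← hz, Finset.sum_apply]
    refine Finset.sum_congr rfl fun i _ => ?_
    rw [Pi.smul_apply, ← hg i, Complex.coe_smul]
  have hinner : ∀ z ∈ C, ∀ j, ∀ y ∈ fixedAlg α L,
      inner ℂ (ι y) (ι (z j)) = inner ℂ (ι y) (ι (x j)) := by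
    intro z hz j y hy
    obtain ⟨I, hI, g, l, hg, hl, hl1, hz⟩ := hrep z hz
    rw [← hz j, map_sum, inner_sum]
    have h1 : ∀ i ∈ Finset.univ, inner ℂ (ι y) (ι ((l i : ℂ) • α (g i) (x j))) =
        (l i : ℂ) * inner ℂ (ι y) (ι (x j)) := by
      intro i _
      rw [map_smul, inner_smul_right]
      congr 1
      have h2 := hα.inner_apply h (g i) y (x j)
      rwa [hy _ (hg i)] at h2
    rw [Finset.sum_congr rfl h1, ← Finset.sum_mul, ← Complex.ofReal_sum, hl1,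
      Complex.ofReal_one, one_mul]
  have hB : ∀ z ∈ C, ∀ j, ‖z j‖ ≤ ∑ j, ‖x j‖ := by
    intro z hz j
    obtain ⟨I, hI, g, l, hg, hl, hl1, hz⟩ := hrep z hz
    rw [← hz j]
    refine (norm_sum_le _ _).trans ?_
    have h1 : ∀ i ∈ Finset.univ, ‖(l i : ℂ) • α (g i) (x j)‖ ≤ l i * ∑ j, ‖x j‖ := by
      intro i _
      rw [norm_smul, Complex.norm_real, Real.norm_of_nonneg (hl i)]
      refine mul_le_mul_of_nonneg_left ?_ (hl i)
      exact (norm_alpha_le α _ _).trans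
        (Finset.single_le_sum (f := fun j => ‖x j‖) (fun j _ => norm_nonneg _)
          (Finset.mem_univ j))
    refine (Finset.sum_le_sum h1).trans ?_
    rw [← Finset.sum_mul, hl1, one_mul]
  obtain ⟨ζ, hζ1, hζ2⟩ := hull_fixed h C (convex_convexHull ℝ S)
    ⟨_, subset_convexHull ℝ S ⟨1, rfl⟩⟩ hB (Γ := L)
    (fun γ _ => ((α (γ : G) : A →⋆ₐ[ℂ] A) : A →ₗ[ℂ] A))
    (fun γ _ a => hα.norm_apply h (γ : G) a) (by
      intro γ z hz
      have h1 : C ⊆ {z : J → A | (fun j => α (γ : G) (z j)) ∈ C} := by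
        refine convexHull_min ?_ ?_
        · rintro _ ⟨g, rfl⟩
          refine subset_convexHull ℝ S ⟨γ * g, ?_⟩
          funext j
          exact hα.mul_apply _ _ _
        · intro a ha b hb s t hs ht hst
          have h2 := convex_convexHull ℝ S ha hb hs ht hst
          have h3 : (fun j => α (γ : G) ((s • a + t • b) j)) =
              s • (fun j => α (γ : G) (a j)) + t • (fun j => α (γ : G) (b j)) := by
            funext j
            simp only [Pi.add_apply, Pi.smul_apply, map_add]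
            rw [← Complex.coe_smul, ← Complex.coe_smul, ← Complex.coe_smul, ← Complex.coe_smul,
              map_smul, map_smul]
          change (fun j => α (γ : G) ((s • a + t • b) j)) ∈ C
          rw [h3]
          exact h2
      exact h1 hz)
  refine ⟨ζ, fun j k hk => hζ1 ⟨k, hk⟩ j, fun j y hy => ?_, fun ε hε => ?_⟩
  · by_contra hne
    have hpos : 0 < ‖inner ℂ (ι y) (ι (ζ j)) - inner ℂ (ι y) (ι (x j))‖ := by
      rw [norm_pos_iff, sub_ne_zero]
      exact hne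
    set d := ‖inner ℂ (ι y) (ι (ζ j)) - inner ℂ (ι y) (ι (x j))‖ with hd
    obtain ⟨z, hz, hz1⟩ := hζ2 (d / 2 / (‖ι y‖ + 1)) (by positivity)
    have h1 := hinner z hz j y hy
    have h5 : ‖ι (ζ j - z j)‖ ≤ d / 2 / (‖ι y‖ + 1) := by
      rw [show ζ j - z j = -(z j - ζ j) by abel, map_neg, norm_neg]
      exact hz1 j
    have h2 : d ≤ ‖ι y‖ * (d / 2 / (‖ι y‖ + 1)) := by
      refine le_trans ?_ (mul_le_mul_of_nonneg_left h5 (norm_nonneg _))
      rw [hd, ← h1, ← inner_sub_right, ← map_sub]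
      exact norm_inner_le_norm _ _
    have h3 : ‖ι y‖ * (d / 2 / (‖ι y‖ + 1)) ≤ d / 2 := by
      have h4 : 0 ≤ ‖ι y‖ := norm_nonneg _
      rw [← mul_div_assoc, div_le_iff₀ (by positivity)]
      nlinarith
    linarith
  · obtain ⟨z, hz, hz1⟩ := hζ2 ε hε
    obtain ⟨I, hI, g, l, hg, hl, hl1, hz2⟩ := hrep z hz
    refine ⟨I, hI, g, l, hg, hl, hl1, fun j => ?_⟩
    rw [hz2 j]
    exact hz1 j

theorem exp_unique {ι : A →ₗ[ℂ] E} (h : IsTracial ι) {α : G → A →⋆ₐ[ℂ] A} {L : Subgroup G}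
    {e e' x : A} (he : e ∈ fixedAlg α L) (he' : e' ∈ fixedAlg α L)
    (h1 : ∀ y ∈ fixedAlg α L, inner ℂ (ι y) (ι e) = inner ℂ (ι y) (ι x))
    (h2 : ∀ y ∈ fixedAlg α L, inner ℂ (ι y) (ι e') = inner ℂ (ι y) (ι x)) : e = e' := by
  refine h.eq_of_inner _ _ ?_
  have h3 : e - e' ∈ fixedAlg α L := sub_mem he he'
  rw [h1 _ h3, h2 _ h3]

theorem exists_exp {ι : A →ₗ[ℂ] E} (h : IsTracial ι) {α : G → A →⋆ₐ[ℂ] A}
    (hα : IsAct ι α) (L : Subgroup G) : ∃ Ex : A →ₗ[ℂ] A, IsExp ι α L Ex := by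
  have h1 : ∀ x : A, ∃ e ∈ fixedAlg α L,
      ∀ y ∈ fixedAlg α L, inner ℂ (ι y) (ι e) = inner ℂ (ι y) (ι x) := by
    intro x
    obtain ⟨ζ, hζ1, hζ2, -⟩ := exists_exp_average h hα L (J := Unit) fun _ => x
    exact ⟨ζ (), hζ1 (), hζ2 ()⟩
  choose e he1 he2 using h1
  refine ⟨{ toFun := e, map_add' := fun a b => ?_, map_smul' := fun c a => ?_ },
    ⟨he1, fun x y hy => he2 x y hy⟩⟩
  · refine exp_unique h (he1 _) (add_mem (he1 a) (he1 b)) (he2 _) fun y hy => ?_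
    rw [map_add, map_add, inner_add_right, inner_add_right, he2 a y hy, he2 b y hy]
  · rw [RingHom.id_apply]
    refine exp_unique h (he1 _) (SMulMemClass.smul_mem c (he1 a)) (he2 _) fun y hy => ?_
    rw [map_smul, map_smul, inner_smul_right, inner_smul_right, he2 a y hy]

theorem exists_average {ι : A →ₗ[ℂ] E} (h : IsTracial ι) {α : G → A →⋆ₐ[ℂ] A}
    (hα : IsAct ι α) {L : Subgroup G} {Ex : A →ₗ[ℂ] A} (hE : IsExp ι α L Ex)
    {J : Type*} [Fintype J] (x : J → A) {ε : ℝ} (hε : 0 < ε) :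
    ∃ (I : Type) (_ : Fintype I) (g : I → G) (l : I → ℝ), (∀ i, g i ∈ L) ∧
      (∀ i, 0 ≤ l i) ∧ ∑ i, l i = 1 ∧
      ∀ j, ‖ι (∑ i, (l i : ℂ) • α (g i) (x j) - Ex (x j))‖ ≤ ε := by
  obtain ⟨ζ, hζ1, hζ2, hζ3⟩ := exists_exp_average h hα L x
  obtain ⟨I, hI, g, l, hg, hl, hl1, h1⟩ := hζ3 ε hε
  refine ⟨I, hI, g, l, hg, hl, hl1, fun j => ?_⟩
  rw [exp_unique h (hE.mem (x j)) (hζ1 j) (hE.inner_eq (x j)) (hζ2 j)]
  exact h1 j

end Pool.Agent.ErgLC
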