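import Pool.Agent.Lib_MP_418a80_eg.Setup

/-!
# EG10: second order expansions, the rotation `exp (i t h)`

`Exp2 a a0 a1 a2` : `a t = a0 + t a1 + t² a2 + O(t³)` for `|t| ≤ 1`.
`SymBound f Q` : `f t + f (-t) - 2 f 0 ≤ t² Q + C t³` for `0 < t ≤ 1`.

PROOFS.  `exp2_rot`: `exp x = 1 + x + x²/2 + r`, `‖r‖ ≤ ∑_{n≥3} ‖x‖^n/n! ≤ ‖x‖³ exp ‖x‖`
(`NormedSpace.exp_series_hasSum_exp'`, or `norm_exp_sub_...`); with `x = (i t) h`, `|t| ≤ 1`.
`Exp2.mul`: multiply out; note `‖b t‖` is bounded for `|t| ≤ 1`.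
`Exp2.normSq`: `z(t) = z0 + t z1 + t² z2 + r(t)`; expand `‖z(t)‖² + ‖z(-t)‖² - 2‖z0‖²`
(`z 0 = z0` by the case `t = 0` of the definition).
`rot_mem`: `α k` is a continuous algebra homomorphism, `map_exp`.
-/

namespace Pool.Agent.ErgLC

open Filter Topology

universe u v w

/-- second order expansion with cubic error -/
def Exp2 {V : Type*} [NormedAddCommGroup V] [NormedSpace ℂ V] (a : ℝ → V) (a0 a1 a2 : V) : Prop :=
  ∃ C : ℝ, ∀ t : ℝ, |t| ≤ 1 → ‖a t - (a0 + (t : ℂ) • a1 + ((t : ℂ) ^ 2) • a2)‖ ≤ C * |t| ^ 3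

/-- upper bound for the symmetric second difference -/
def SymBound (f : ℝ → ℝ) (Q : ℝ) : Prop :=
  ∃ C : ℝ, ∀ t : ℝ, 0 < t → t ≤ 1 → f t + f (-t) - 2 * f 0 ≤ t ^ 2 * Q + C * t ^ 3

private theorem Expand_poly_le {V : Type*} [NormedAddCommGroup V] [NormedSpace ℂ V]
    (a0 a1 a2 : V) {t : ℝ} (ht : |t| ≤ 1) :
    ‖a0 + (t : ℂ) • a1 + ((t : ℂ) ^ 2) • a2‖ ≤ ‖a0‖ + ‖a1‖ + ‖a2‖ := by
  have h1 : ‖(t : ℂ) • a1‖ ≤ ‖a1‖ := by
    rw [norm_smul, Complex.norm_real, Real.norm_eq_abs]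
    nlinarith [norm_nonneg a1, abs_nonneg t]
  have h2 : ‖((t : ℂ) ^ 2) • a2‖ ≤ ‖a2‖ := by
    rw [norm_smul, norm_pow, Complex.norm_real, Real.norm_eq_abs]
    have : |t| ^ 2 ≤ 1 := pow_le_one₀ (abs_nonneg t) ht
    nlinarith [norm_nonneg a2, abs_nonneg t]
  calc ‖a0 + (t : ℂ) • a1 + ((t : ℂ) ^ 2) • a2‖
      ≤ ‖a0 + (t : ℂ) • a1‖ + ‖((t : ℂ) ^ 2) • a2‖ := norm_add_le _ _
    _ ≤ ‖a0‖ + ‖(t : ℂ) • a1‖ + ‖((t : ℂ) ^ 2) • a2‖ := by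
        gcongr; exact norm_add_le _ _
    _ ≤ _ := by gcongr

private theorem Expand_const_nonneg {V : Type*} [NormedAddCommGroup V] [NormedSpace ℂ V]
    {a : ℝ → V} {a0 a1 a2 : V} {C : ℝ}
    (h : ∀ t : ℝ, |t| ≤ 1 → ‖a t - (a0 + (t : ℂ) • a1 + ((t : ℂ) ^ 2) • a2)‖ ≤ C * |t| ^ 3) :
    0 ≤ C := by
  have := h 1 (by simp)
  have h2 := (norm_nonneg _).trans this
  simpa using h2

private theorem Expand_add {f g : ℝ → ℝ} {Q R : ℝ} (hf : SymBound f Q) (hg : SymBound g R) :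
    SymBound (fun t => f t + g t) (Q + R) := by
  obtain ⟨C, hC⟩ := hf
  obtain ⟨D, hD⟩ := hg
  refine ⟨C + D, fun t h0 h1 => ?_⟩
  have h2 := hC t h0 h1
  have h3 := hD t h0 h1
  show f t + g t + (f (-t) + g (-t)) - 2 * (f 0 + g 0) ≤ _
  nlinarith

section Calculus

variable {V : Type*} [NormedAddCommGroup V] [NormedSpace ℂ V]
  {W : Type*} [NormedAddCommGroup W] [NormedSpace ℂ W]

theorem Exp2.zero_eq {a : ℝ → V} {a0 a1 a2 : V} (ha : Exp2 a a0 a1 a2) : a 0 = a0 := by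
  obtain ⟨C, hC⟩ := ha
  have h := hC 0 (by simp)
  have h2 : ‖a 0 - a0‖ ≤ 0 := by simpa using h
  exact sub_eq_zero.mp (norm_le_zero_iff.mp h2)

theorem Exp2.const (a0 : V) : Exp2 (fun _ => a0) a0 0 0 := by
  refine ⟨0, fun t _ => ?_⟩
  simp

theorem Exp2.sub {a b : ℝ → V} {a0 a1 a2 b0 b1 b2 : V} (ha : Exp2 a a0 a1 a2)
    (hb : Exp2 b b0 b1 b2) : Exp2 (fun t => a t - b t) (a0 - b0) (a1 - b1) (a2 - b2) := by
  obtain ⟨C, hC⟩ := ha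
  obtain ⟨D, hD⟩ := hb
  refine ⟨C + D, fun t ht => ?_⟩
  have e : a t - b t - (a0 - b0 + (t : ℂ) • (a1 - b1) + ((t : ℂ) ^ 2) • (a2 - b2))
      = (a t - (a0 + (t : ℂ) • a1 + ((t : ℂ) ^ 2) • a2))
        - (b t - (b0 + (t : ℂ) • b1 + ((t : ℂ) ^ 2) • b2)) := by
    simp only [smul_sub]
    abel
  show ‖a t - b t - (a0 - b0 + (t : ℂ) • (a1 - b1) + ((t : ℂ) ^ 2) • (a2 - b2))‖ ≤ _
  rw [e, add_mul]
  exact (norm_sub_le _ _).trans (add_le_add (hC t ht) (hD t ht))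

theorem Exp2.map {a : ℝ → V} {a0 a1 a2 : V} (ha : Exp2 a a0 a1 a2) (f : V →ₗ[ℂ] W)
    (hf : ∀ x, ‖f x‖ ≤ ‖x‖) : Exp2 (fun t => f (a t)) (f a0) (f a1) (f a2) := by
  obtain ⟨C, hC⟩ := ha
  refine ⟨C, fun t ht => ?_⟩
  have e : f (a t) - (f a0 + (t : ℂ) • f a1 + ((t : ℂ) ^ 2) • f a2)
      = f (a t - (a0 + (t : ℂ) • a1 + ((t : ℂ) ^ 2) • a2)) := by
    simp only [map_sub, map_add, map_smul]
  show ‖f (a t) - (f a0 + (t : ℂ) • f a1 + ((t : ℂ) ^ 2) • f a2)‖ ≤ _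
  rw [e]
  exact (hf _).trans (hC t ht)

theorem Exp2.mul {A : Type u} [CStarAlgebra A] {a b : ℝ → A} {a0 a1 a2 b0 b1 b2 : A}
    (ha : Exp2 a a0 a1 a2) (hb : Exp2 b b0 b1 b2) :
    Exp2 (fun t => a t * b t) (a0 * b0) (a0 * b1 + a1 * b0)
      (a0 * b2 + a1 * b1 + a2 * b0) := by
  obtain ⟨C, hC⟩ := ha
  obtain ⟨D, hD⟩ := hb
  have hC0 : 0 ≤ C := Expand_const_nonneg hC
  have hD0 : 0 ≤ D := Expand_const_nonneg hD
  set PA : ℝ := ‖a0‖ + ‖a1‖ + ‖a2‖ with hPA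
  set PB : ℝ := ‖b0‖ + ‖b1‖ + ‖b2‖ with hPB
  have hPA0 : 0 ≤ PA := by positivity
  have hPB0 : 0 ≤ PB := by positivity
  refine ⟨C * (PB + D) + PA * D + (‖a1 * b2 + a2 * b1‖ + ‖a2 * b2‖), fun t ht => ?_⟩
  have ht0 : 0 ≤ |t| := abs_nonneg t
  have ht3 : |t| ^ 3 ≤ 1 := pow_le_one₀ ht0 ht
  have ht30 : 0 ≤ |t| ^ 3 := by positivity
  have hA := Expand_poly_le a0 a1 a2 ht
  have hB := Expand_poly_le b0 b1 b2 ht
  have hra := hC t ht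
  have hrb := hD t ht
  set pa : A := a0 + (t : ℂ) • a1 + ((t : ℂ) ^ 2) • a2 with hpa
  set pb : A := b0 + (t : ℂ) • b1 + ((t : ℂ) ^ 2) • b2 with hpb
  have hbt : ‖b t‖ ≤ PB + D := by
    have e : b t = pb + (b t - pb) := by abel
    rw [e]
    refine (norm_add_le _ _).trans ?_
    have : D * |t| ^ 3 ≤ D := by nlinarith
    linarith
  have e : a t * b t - (a0 * b0 + (t : ℂ) • (a0 * b1 + a1 * b0)
        + ((t : ℂ) ^ 2) • (a0 * b2 + a1 * b1 + a2 * b0))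
      = (a t - pa) * b t + pa * (b t - pb)
        + (((t : ℂ) ^ 3) • (a1 * b2 + a2 * b1) + ((t : ℂ) ^ 4) • (a2 * b2)) := by
    have e2 : pa * pb = (a0 * b0 + (t : ℂ) • (a0 * b1 + a1 * b0)
        + ((t : ℂ) ^ 2) • (a0 * b2 + a1 * b1 + a2 * b0))
        + (((t : ℂ) ^ 3) • (a1 * b2 + a2 * b1) + ((t : ℂ) ^ 4) • (a2 * b2)) := by
      rw [hpa, hpb]
      simp only [mul_add, add_mul, smul_mul_assoc, mul_smul_comm, smul_add, smul_smul]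
      ring_nf
      abel
    have e3 : (a t - pa) * b t + pa * (b t - pb) = a t * b t - pa * pb := by
      simp only [sub_mul, mul_sub]
      abel
    rw [e3, e2]
    abel
  show ‖a t * b t - (a0 * b0 + (t : ℂ) • (a0 * b1 + a1 * b0)
        + ((t : ℂ) ^ 2) • (a0 * b2 + a1 * b1 + a2 * b0))‖ ≤ _
  rw [e]
  have h1 : ‖(a t - pa) * b t‖ ≤ C * |t| ^ 3 * (PB + D) :=
    (norm_mul_le _ _).trans (mul_le_mul hra hbt (norm_nonneg _) (by positivity))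
  have h2 : ‖pa * (b t - pb)‖ ≤ PA * (D * |t| ^ 3) :=
    (norm_mul_le _ _).trans (mul_le_mul hA hrb (norm_nonneg _) hPA0)
  have h3 : ‖((t : ℂ) ^ 3) • (a1 * b2 + a2 * b1)‖ ≤ |t| ^ 3 * ‖a1 * b2 + a2 * b1‖ := by
    rw [norm_smul, norm_pow, Complex.norm_real, Real.norm_eq_abs]
  have h4 : ‖((t : ℂ) ^ 4) • (a2 * b2)‖ ≤ |t| ^ 3 * ‖a2 * b2‖ := by
    rw [norm_smul, norm_pow, Complex.norm_real, Real.norm_eq_abs]
    have : |t| ^ 4 ≤ |t| ^ 3 := by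
      have : |t| ^ 4 = |t| ^ 3 * |t| := by ring
      rw [this]
      nlinarith
    exact mul_le_mul_of_nonneg_right this (norm_nonneg _)
  calc _ ≤ ‖(a t - pa) * b t + pa * (b t - pb)‖
        + ‖((t : ℂ) ^ 3) • (a1 * b2 + a2 * b1) + ((t : ℂ) ^ 4) • (a2 * b2)‖ := norm_add_le _ _
    _ ≤ (‖(a t - pa) * b t‖ + ‖pa * (b t - pb)‖)
        + (‖((t : ℂ) ^ 3) • (a1 * b2 + a2 * b1)‖ + ‖((t : ℂ) ^ 4) • (a2 * b2)‖) :=
        add_le_add (norm_add_le _ _) (norm_add_le _ _)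
    _ ≤ (C * |t| ^ 3 * (PB + D) + PA * (D * |t| ^ 3))
        + (|t| ^ 3 * ‖a1 * b2 + a2 * b1‖ + |t| ^ 3 * ‖a2 * b2‖) :=
        add_le_add (add_le_add h1 h2) (add_le_add h3 h4)
    _ = _ := by ring

theorem Exp2.normSq {V : Type*} [NormedAddCommGroup V] [InnerProductSpace ℂ V] {z : ℝ → V}
    {z0 z1 z2 : V} (hz : Exp2 z z0 z1 z2) :
    SymBound (fun t => ‖z t‖ ^ 2) (2 * ‖z1‖ ^ 2 + 4 * (inner ℂ z0 z2).re) := by
  have hz0 := hz.zero_eq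
  obtain ⟨C, hC⟩ := hz
  have hC0 : 0 ≤ C := Expand_const_nonneg hC
  set P : ℝ := ‖z0‖ + ‖z1‖ + ‖z2‖ with hP
  have hP0 : 0 ≤ P := by positivity
  have key : ∀ t : ℝ, |t| ≤ 1 →
      ‖z t‖ ^ 2 ≤ ‖z0 + (t : ℂ) • z1 + ((t : ℂ) ^ 2) • z2‖ ^ 2 + (2 * P * C + C ^ 2) * |t| ^ 3 := by
    intro t ht
    have h1 := hC t ht
    have h2 := Expand_poly_le z0 z1 z2 ht
    set p := z0 + (t : ℂ) • z1 + ((t : ℂ) ^ 2) • z2 with hp
    have h3 : ‖z t‖ ≤ ‖p‖ + C * |t| ^ 3 := by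
      have e : z t = p + (z t - p) := by abel
      rw [e]
      exact (norm_add_le _ _).trans (by linarith)
    have ht0 : 0 ≤ |t| := abs_nonneg t
    have ht3 : |t| ^ 3 ≤ 1 := pow_le_one₀ ht0 ht
    have ht30 : 0 ≤ |t| ^ 3 := by positivity
    have h4 : ‖z t‖ ^ 2 ≤ (‖p‖ + C * |t| ^ 3) ^ 2 :=
      pow_le_pow_left₀ (norm_nonneg _) h3 2
    have h5 : C ^ 2 * (|t| ^ 3) ^ 2 ≤ C ^ 2 * |t| ^ 3 := by
      apply mul_le_mul_of_nonneg_left _ (sq_nonneg C)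
      nlinarith
    have h6 : 2 * ‖p‖ * (C * |t| ^ 3) ≤ 2 * P * (C * |t| ^ 3) := by
      apply mul_le_mul_of_nonneg_right _ (by positivity)
      linarith
    nlinarith
  refine ⟨2 * ‖z2‖ ^ 2 + 2 * (2 * P * C + C ^ 2), fun t h0 h1 => ?_⟩
  have ha : |t| = t := abs_of_pos h0
  have k1 := key t (by rw [ha]; exact h1)
  have k2 := key (-t) (by rw [abs_neg, ha]; exact h1)
  rw [abs_neg] at k2
  rw [ha] at k1 k2
  have par : ‖z0 + (t : ℂ) • z1 + ((t : ℂ) ^ 2) • z2‖ ^ 2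
      + ‖z0 + ((-t : ℝ) : ℂ) • z1 + (((-t : ℝ) : ℂ) ^ 2) • z2‖ ^ 2
      = 2 * ‖z0‖ ^ 2 + t ^ 2 * (2 * ‖z1‖ ^ 2 + 4 * (inner ℂ z0 z2).re) + 2 * t ^ 4 * ‖z2‖ ^ 2 := by
    have e1 : z0 + (t : ℂ) • z1 + ((t : ℂ) ^ 2) • z2
        = (z0 + ((t : ℂ) ^ 2) • z2) + (t : ℂ) • z1 := by abel
    have e2 : z0 + ((-t : ℝ) : ℂ) • z1 + (((-t : ℝ) : ℂ) ^ 2) • z2
        = (z0 + ((t : ℂ) ^ 2) • z2) - (t : ℂ) • z1 := by
      push_cast
      rw [neg_smul, neg_sq]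
      abel
    have e3 := parallelogram_law_with_norm ℂ (z0 + ((t : ℂ) ^ 2) • z2) ((t : ℂ) • z1)
    have e4 : ‖z0 + ((t : ℂ) ^ 2) • z2‖ ^ 2
        = ‖z0‖ ^ 2 + 2 * t ^ 2 * (inner ℂ z0 z2).re + t ^ 4 * ‖z2‖ ^ 2 := by
      have := norm_add_sq (𝕜 := ℂ) z0 (((t : ℂ) ^ 2) • z2)
      rw [this, inner_smul_right, norm_smul, norm_pow, Complex.norm_real, Real.norm_eq_abs, ha]
      have : RCLike.re ((t : ℂ) ^ 2 * inner ℂ z0 z2) = t ^ 2 * (inner ℂ z0 z2).re := by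
        have e : (t : ℂ) ^ 2 = ((t ^ 2 : ℝ) : ℂ) := by push_cast; rfl
        rw [e]
        exact Complex.re_ofReal_mul _ _
      rw [this]
      ring
    have e5 : ‖(t : ℂ) • z1‖ ^ 2 = t ^ 2 * ‖z1‖ ^ 2 := by
      rw [norm_smul, Complex.norm_real, Real.norm_eq_abs, ha]
      ring
    rw [e1, e2]
    nlinarith
  have ht4 : t ^ 4 * ‖z2‖ ^ 2 ≤ t ^ 3 * ‖z2‖ ^ 2 := by
    apply mul_le_mul_of_nonneg_right _ (sq_nonneg _)
    have : t ^ 4 = t ^ 3 * t := by ring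
    rw [this]
    have : 0 ≤ t ^ 3 := by positivity
    nlinarith
  show ‖z t‖ ^ 2 + ‖z (-t)‖ ^ 2 - 2 * ‖z 0‖ ^ 2 ≤ _
  rw [hz0]
  nlinarith

theorem SymBound.sum {I : Type*} (s : Finset I) {f : I → ℝ → ℝ} {Q : I → ℝ}
    (hf : ∀ i ∈ s, SymBound (f i) (Q i)) :
    SymBound (fun t => ∑ i ∈ s, f i t) (∑ i ∈ s, Q i) := by
  classical
  induction s using Finset.induction_on with
  | empty => exact ⟨0, fun t _ _ => by simp⟩
  | insert i s hi ih =>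
    have h1 := Expand_add (hf i (Finset.mem_insert_self i s))
      (ih (fun j hj => hf j (Finset.mem_insert_of_mem hj)))
    simpa only [Finset.sum_insert hi] using h1

theorem SymBound.add {f g : ℝ → ℝ} {Q R : ℝ} (hf : SymBound f Q) (hg : SymBound g R) :
    SymBound (fun t => f t + g t) (Q + R) :=
  Expand_add hf hg

theorem SymBound.const_mul {f : ℝ → ℝ} {Q : ℝ} {c : ℝ} (hc : 0 ≤ c) (hf : SymBound f Q) :
    SymBound (fun t => c * f t) (c * Q) := by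
  obtain ⟨C, hC⟩ := hf
  refine ⟨c * C, fun t h0 h1 => ?_⟩
  have h2 := mul_le_mul_of_nonneg_left (hC t h0 h1) hc
  show c * f t + c * f (-t) - 2 * (c * f 0) ≤ _
  nlinarith

theorem SymBound.mono {f : ℝ → ℝ} {Q R : ℝ} (hf : SymBound f Q) (hQR : Q ≤ R) :
    SymBound f R := by
  obtain ⟨C, hC⟩ := hf
  refine ⟨C, fun t h0 h1 => (hC t h0 h1).trans ?_⟩
  have : t ^ 2 * Q ≤ t ^ 2 * R := mul_le_mul_of_nonneg_left hQR (sq_nonneg t)
  linarith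

/-- if `f` has its minimum at `0` then `0 ≤ Q` -/
theorem SymBound.nonneg {f : ℝ → ℝ} {Q : ℝ} (hf : SymBound f Q) (h0 : ∀ t, f 0 ≤ f t) :
    0 ≤ Q := by
  obtain ⟨C, hC⟩ := hf
  by_contra hQ
  have hQ' : Q < 0 := lt_of_not_ge hQ
  have hpos : 0 < -Q / (2 * (|C| + 1)) := by
    apply div_pos (by linarith)
    positivity
  obtain ⟨t, ht0, ht1, ht2⟩ : ∃ t : ℝ, 0 < t ∧ t ≤ 1 ∧ t ≤ -Q / (2 * (|C| + 1)) :=
    ⟨min 1 (-Q / (2 * (|C| + 1))), lt_min one_pos hpos, min_le_left _ _, min_le_right _ _⟩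
  have h1 := hC t ht0 ht1
  have h2 := h0 t
  have h3 := h0 (-t)
  have h4 : 0 ≤ t ^ 2 * (Q + C * t) := by nlinarith
  have h5 : 0 ≤ Q + C * t := by
    by_contra h
    have h' : Q + C * t < 0 := lt_of_not_ge h
    have : t ^ 2 * (Q + C * t) < 0 := mul_neg_of_pos_of_neg (by positivity) h'
    linarith
  have h6 : (|C| + 1) * t ≤ -Q / 2 := by
    have hc : 0 < 2 * (|C| + 1) := by positivity
    rw [le_div_iff₀ hc] at ht2
    linarith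
  have h7 : C * t ≤ (|C| + 1) * t :=
    mul_le_mul_of_nonneg_right (by linarith [le_abs_self C]) ht0.le
  linarith

end Calculus

section Rot

variable {A : Type u} [CStarAlgebra A] {E : Type v} [NormedAddCommGroup E]
  [InnerProductSpace ℂ E] {G : Type w} [Group G]

/-- the rotation `exp (i t h)` -/
noncomputable def rot (h : A) (t : ℝ) : A := NormedSpace.exp (((t : ℂ) * Complex.I) • h)

theorem rot_unitary {h : A} (hh : star h = h) (t : ℝ) : rot h t ∈ unitary A := by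
  let +nondep : NormedAlgebra ℚ A := NormedAlgebra.restrictScalars ℚ ℂ A
  refine NormedSpace.exp_mem_unitary_of_mem_skewAdjoint ?_
  rw [skewAdjoint.mem_iff, star_smul, hh, star_mul', ← neg_smul]
  congr 1
  simp

theorem star_rot {h : A} (hh : star h = h) (t : ℝ) : star (rot h t) = rot h (-t) := by
  rw [rot, rot, NormedSpace.star_exp, star_smul, hh, star_mul']
  congr 2
  simp

theorem map_rot (f : A →⋆ₐ[ℂ] A) (h : A) (t : ℝ) : f (rot h t) = rot (f h) t := by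
  let +nondep : NormedAlgebra ℚ A := NormedAlgebra.restrictScalars ℚ ℂ A
  have hf : Continuous f := by
    refine AddMonoidHomClass.continuous_of_bound f 1 fun x => ?_
    rw [one_mul]
    exact NonUnitalStarAlgHom.norm_apply_le f x
  rw [rot, NormedSpace.map_exp f hf, rot, map_smul]

theorem rot_mem {α : G → A →⋆ₐ[ℂ] A} {K : Subgroup G} {h : A} (hh : h ∈ fixedAlg α K) (t : ℝ) :
    rot h t ∈ fixedAlg α K := by
  intro k hk
  rw [map_rot, hh k hk]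

theorem exp2_rot (h : A) :
    Exp2 (rot h) 1 (Complex.I • h) (-(1 / 2 : ℂ) • (h * h)) := by
  have hs : Summable fun n : ℕ => ‖h‖ ^ (n + 3) / (Nat.factorial (n + 3) : ℝ) :=
    (summable_nat_add_iff 3).2 (Real.summable_pow_div_factorial ‖h‖)
  refine ⟨∑' n : ℕ, ‖h‖ ^ (n + 3) / (Nat.factorial (n + 3) : ℝ), fun t ht => ?_⟩
  set x : A := ((t : ℂ) * Complex.I) • h with hx
  have h1 := NormedSpace.exp_series_hasSum_exp' (𝕂 := ℂ) x
  have h2 := (hasSum_nat_add_iff' (f := fun n : ℕ => ((Nat.factorial n : ℂ)⁻¹) • x ^ n) 3).2 h1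
  have h3 : ∑ i ∈ Finset.range 3, ((Nat.factorial i : ℂ)⁻¹) • x ^ i
      = 1 + (t : ℂ) • (Complex.I • h) + ((t : ℂ) ^ 2) • (-(1 / 2 : ℂ) • (h * h)) := by
    rw [Finset.sum_range_succ, Finset.sum_range_succ, Finset.sum_range_one, hx]
    congr 1
    · congr 1
      · simp
      · rw [smul_smul, pow_one]; simp
    · rw [smul_pow, smul_smul, smul_smul, pow_two h]
      congr 1
      rw [mul_pow, Complex.I_sq]
      simp [Nat.factorial]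
      ring
  rw [h3] at h2
  have h4 : HasSum (fun n : ℕ => ‖h‖ ^ (n + 3) / (Nat.factorial (n + 3) : ℝ) * |t| ^ 3)
      ((∑' n : ℕ, ‖h‖ ^ (n + 3) / (Nat.factorial (n + 3) : ℝ)) * |t| ^ 3) :=
    hs.hasSum.mul_right _
  refine h2.norm_le_of_bounded h4 fun n => ?_
  have hx' : ‖x‖ = |t| * ‖h‖ := by
    rw [hx, norm_smul, norm_mul, Complex.norm_I, mul_one, Complex.norm_real, Real.norm_eq_abs]
  rw [norm_smul, norm_inv, Complex.norm_natCast]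
  calc ((Nat.factorial (n + 3) : ℝ))⁻¹ * ‖x ^ (n + 3)‖
      ≤ ((Nat.factorial (n + 3) : ℝ))⁻¹ * ‖x‖ ^ (n + 3) := by
        gcongr
        exact norm_pow_le' _ (by omega)
    _ = ‖h‖ ^ (n + 3) / (Nat.factorial (n + 3) : ℝ) * (|t| ^ n * |t| ^ 3) := by
        rw [hx']; ring
    _ ≤ ‖h‖ ^ (n + 3) / (Nat.factorial (n + 3) : ℝ) * (1 * |t| ^ 3) := by
        gcongr
        exact pow_le_one₀ (abs_nonneg t) ht
    _ = _ := by rw [one_mul]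

theorem exp2_star_rot {h : A} (hh : star h = h) :
    Exp2 (fun t => star (rot h t)) 1 (-Complex.I • h) (-(1 / 2 : ℂ) • (h * h)) := by
  obtain ⟨C, hC⟩ := exp2_rot h
  refine ⟨C, fun t ht => ?_⟩
  have h1 := hC (-t) (by rwa [abs_neg])
  rw [abs_neg] at h1
  show ‖star (rot h t) - _‖ ≤ _
  rw [star_rot hh]
  have e : (1 : A) + (t : ℂ) • (-Complex.I • h) + ((t : ℂ) ^ 2) • (-(1 / 2 : ℂ) • (h * h))
      = 1 + ((-t : ℝ) : ℂ) • (Complex.I • h)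
        + (((-t : ℝ) : ℂ) ^ 2) • (-(1 / 2 : ℂ) • (h * h)) := by
    rw [Complex.ofReal_neg, neg_sq, neg_smul (t : ℂ), neg_smul Complex.I, smul_neg]
  rw [e]
  exact h1

end Rot

end Pool.Agent.ErgLC
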