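import Pool.Agent.Lib_MP_418a80_eg.GenericDefs
import Pool.Agent.Lib_MP_418a80_eg.Defs

/-!
# EG27: Følner functions on the cosets of a compact open subgroup

PROOF.  Given `S`, `κ`.  Apply `FolnerCondition` to the compact set `C = K ∪ S` and `ε = κ/3`, get `F₀`.
`f x = μ.real (F₀ ∩ (the coset x as a subset of G))` for `x : G ⧸ K` (`QuotientGroup.mk ⁻¹' {x}`, open
and compact).  `f ≥ 0`, finitely supported (`F₀` is covered by finitely many cosets),
`∑ f = μ.real F₀ > 0`.  For `s ∈ C`: `f (s⁻¹ • x) = μ.real (s F₀ ∩ x)` (left invariance), so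
`∑ |f (s⁻¹ • x) - f x| ≤ μ.real (s F₀ ∆ F₀) ≤ ε μ.real F₀`.
Average over `K`: `f₁ x = ∫_{k ∈ K} f (k⁻¹ • x) dμ(k) / μ.real K` (for fixed `x` the integrand is
locally constant in `k`, so a continuous function on the compact set `K`).  `f₁ (k₀ • x) = f₁ x` for
`k₀ ∈ K` (left invariance of `μ`, `k₀ K = K`), `f₁ ≥ 0` is finitely supported, `∑ f₁ = ∑ f`,
`∑ |f₁ - f| ≤ ε ∑ f`, so `∑ |f₁ (s⁻¹ • x) - f₁ x| ≤ 3 ε ∑ f₁` for `s ∈ S`.
`F x = √(f₁ x / ∑ f₁)`: `∑ F² = 1`, and
`2 - 2 ∑ F x F (s⁻¹ • x) = ∑ (F (s⁻¹ • x) - F x)² ≤ ∑ |F (s⁻¹ • x)² - F x ²| ≤ 3 ε = κ`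
(sums over a finite set containing the supports of `F` and of `F (s⁻¹ • ·)`), so
`∑ F x F (s⁻¹ • x) ≥ 1 - κ/2`.
(Alternative to the integral: `K` acts on the finite set `K • supp f` through a finite quotient.)
-/

namespace Pool.Agent.ErgLC

open Filter Topology MeasureTheory
open scoped Pointwise

universe v

variable {G : Type v} [Group G] [TopologicalSpace G] [IsTopologicalGroup G] [MeasurableSpace G]
  [BorelSpace G] [SecondCountableTopology G] [T2Space G] [LocallyCompactSpace G]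

theorem folnerK_abs_sub_le {X : Type*} [MeasurableSpace X] (μ : Measure X) {A B c : Set X}
    (hA : μ A ≠ ⊤) (hB : μ B ≠ ⊤) :
    |μ.real (A ∩ c) - μ.real (B ∩ c)| ≤ μ.real (symmDiff A B ∩ c) := by
  have hf : μ (symmDiff A B ∩ c) ≠ ⊤ := by
    refine ne_top_of_le_ne_top (ENNReal.add_ne_top.2 ⟨hA, hB⟩)
      ((measure_mono ?_).trans (measure_union_le A B))
    intro x hx
    rcases hx.1 with h | h
    · exact Or.inl h.1
    · exact Or.inr h.1
  have key : ∀ P Q : Set X, μ P ≠ ⊤ → μ Q ≠ ⊤ → μ (symmDiff P Q ∩ c) ≠ ⊤ →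
      μ.real (P ∩ c) ≤ μ.real (Q ∩ c) + μ.real (symmDiff P Q ∩ c) := by
    intro P Q hP hQ hPQ
    have h1 : P ∩ c ⊆ (Q ∩ c) ∪ (symmDiff P Q ∩ c) := by
      intro x hx
      by_cases hq : x ∈ Q
      · exact Or.inl ⟨hq, hx.2⟩
      · exact Or.inr ⟨Or.inl ⟨hx.1, hq⟩, hx.2⟩
    have hQc : μ (Q ∩ c) ≠ ⊤ := ne_top_of_le_ne_top hQ (measure_mono Set.inter_subset_left)
    have h2 : μ ((Q ∩ c) ∪ (symmDiff P Q ∩ c)) ≠ ⊤ :=
      ne_top_of_le_ne_top (ENNReal.add_ne_top.2 ⟨hQc, hPQ⟩) (measure_union_le _ _)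
    exact (measureReal_mono h1 h2).trans (measureReal_union_le _ _)
  have h1 := key A B hA hB hf
  have h2 := key B A hB hA (by rw [symmDiff_comm]; exact hf)
  rw [symmDiff_comm B A] at h2
  rw [abs_le]
  constructor <;> linarith

theorem folnerCosets (μ : Measure G) [μ.IsHaarMeasure] (hμ : FolnerCondition μ) {K : Subgroup G}
    (hKo : IsOpen (K : Set G)) (hKc : IsCompact (K : Set G)) : FolnerCosets K := by
  classical
  intro S κ hκ
  have hdisc : DiscreteTopology (G ⧸ K) := QuotientGroup.discreteTopology hKo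
  set C : Set G := (K : Set G) ∪ ((S : Set G) * (K : Set G)) with hC
  have hCc : IsCompact C := hKc.union ((S.finite_toSet.isCompact).mul hKc)
  obtain ⟨F₀, hF₀c, hF₀p, hF₀⟩ := hμ C hCc κ hκ
  have hF₀t : μ F₀ ≠ ⊤ := hF₀c.measure_lt_top.ne
  set m : ℝ := μ.real F₀ with hm
  have hmpos : 0 < m := ENNReal.toReal_pos hF₀p.ne' hF₀t
  -- the cosets as subsets of `G`
  set π : G → G ⧸ K := QuotientGroup.mk with hπ
  have hπc : Continuous π := QuotientGroup.continuous_mk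
  set c : G ⧸ K → Set G := fun x => π ⁻¹' {x} with hc
  have hcm : ∀ x, MeasurableSet (c x) := fun x => (isOpen_discrete {x}).preimage hπc |>.measurableSet
  have hcd : ∀ (T : Finset (G ⧸ K)) (D : Set G), (T : Set (G ⧸ K)).PairwiseDisjoint
      fun x => D ∩ c x := by
    intro T D x _ y _ hxy
    rw [Function.onFun, Set.disjoint_left]
    intro g hg1 hg2
    exact hxy (hg1.2.symm.trans hg2.2)
  have hsum_le : ∀ (T : Finset (G ⧸ K)) (D : Set G), MeasurableSet D → μ D ≠ ⊤ →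
      ∑ x ∈ T, μ.real (D ∩ c x) ≤ μ.real D := by
    intro T D hDm hD
    rw [← measureReal_biUnion_finset (hcd T D) (fun x _ => hDm.inter (hcm x))
      (fun x _ => ne_top_of_le_ne_top hD (measure_mono Set.inter_subset_left))]
    refine measureReal_mono ?_ hD
    intro g hg
    simp only [Set.mem_iUnion] at hg
    obtain ⟨x, _, hx⟩ := hg
    exact hx.1
  have hF₀m : MeasurableSet F₀ := hF₀c.measurableSet
  -- the function `f`
  set f : G ⧸ K → ℝ := fun x => μ.real (F₀ ∩ c x) with hf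
  have hf0 : ∀ x, 0 ≤ f x := fun x => measureReal_nonneg
  have hfm : ∀ x, f x ≤ m := fun x => measureReal_mono Set.inter_subset_left hF₀t
  have hft : ∀ (g : G) (x : G ⧸ K), f (g⁻¹ • x) = μ.real (((fun h => g * h) '' F₀) ∩ c x) := by
    intro g x
    have h1 : ((fun h => g * h) '' F₀) ∩ c x = (fun h => g⁻¹ * h) ⁻¹' (F₀ ∩ c (g⁻¹ • x)) := by
      ext y
      constructor
      · rintro ⟨⟨h, hh, rfl⟩, hy⟩
        simp only [Set.mem_preimage, Set.mem_inter_iff, inv_mul_cancel_left]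
        refine ⟨hh, ?_⟩
        have h2 : π (g * h) = x := hy
        change π h = g⁻¹ • x
        rw [← h2]
        change π h = g⁻¹ • ((g * h : G) : G ⧸ K)
        rw [MulAction.Quotient.smul_coe, smul_eq_mul, inv_mul_cancel_left]
      · rintro ⟨h1, h2⟩
        refine ⟨⟨g⁻¹ * y, h1, by simp⟩, ?_⟩
        have h3 : π (g⁻¹ * y) = g⁻¹ • x := h2
        have h4 : g⁻¹ • π y = g⁻¹ • x := h3
        exact smul_left_cancel _ h4
    rw [h1, hf]
    simp only [measureReal_def]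
    rw [measure_preimage_mul]
  have hest : ∀ g ∈ C, ∀ T : Finset (G ⧸ K), ∑ x ∈ T, |f (g⁻¹ • x) - f x| ≤ κ * m := by
    intro g hg T
    have hgm : IsCompact ((fun h => g * h) '' F₀) := hF₀c.image (continuous_const_mul g)
    have hgt : μ ((fun h => g * h) '' F₀) ≠ ⊤ := hgm.measure_lt_top.ne
    have h1 : ∀ x ∈ T, |f (g⁻¹ • x) - f x| ≤
        μ.real (symmDiff ((fun h => g * h) '' F₀) F₀ ∩ c x) := by
      intro x _
      rw [hft]
      exact folnerK_abs_sub_le μ hgt hF₀t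
    have hD : μ (symmDiff ((fun h => g * h) '' F₀) F₀) ≠ ⊤ :=
      ne_top_of_le_ne_top (ENNReal.mul_ne_top ENNReal.ofReal_ne_top hF₀t) (hF₀ g hg)
    refine (Finset.sum_le_sum h1).trans ((hsum_le T _ ?_ hD).trans ?_)
    · exact hgm.measurableSet.symmDiff hF₀m
    · rw [measureReal_def, hm, measureReal_def, ← ENNReal.toReal_ofReal hκ.le,
        ← ENNReal.toReal_mul]
      exact ENNReal.toReal_mono (ENNReal.mul_ne_top ENNReal.ofReal_ne_top hF₀t) (hF₀ g hg)
  -- supports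
  have hKF : IsCompact ((K : Set G) * F₀) := hKc.mul hF₀c
  have hTfin : (π '' ((K : Set G) * F₀)).Finite := isCompact_iff_finite.1 (hKF.image hπc)
  set T : Finset (G ⧸ K) := hTfin.toFinset with hT
  have hTmem : ∀ x, x ∈ T ↔ ∃ k ∈ K, ∃ h ∈ F₀, π (k * h) = x := by
    intro x
    rw [hT, Set.Finite.mem_toFinset]
    constructor
    · rintro ⟨_, ⟨k, hk, h, hh, rfl⟩, rfl⟩
      exact ⟨k, hk, h, hh, rfl⟩
    · rintro ⟨k, hk, h, hh, rfl⟩
      exact ⟨k * h, ⟨k, hk, h, hh, rfl⟩, rfl⟩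
  have hTinv : ∀ k ∈ K, ∀ x, k • x ∈ T ↔ x ∈ T := by
    have h1 : ∀ k ∈ K, ∀ x ∈ T, k • x ∈ T := by
      intro k hk x hx
      rw [hTmem] at hx ⊢
      obtain ⟨k', hk', h, hh, rfl⟩ := hx
      refine ⟨k * k', K.mul_mem hk hk', h, hh, ?_⟩
      rw [mul_assoc]
      rfl
    intro k hk x
    refine ⟨fun hx => ?_, h1 k hk x⟩
    have h2 := h1 k⁻¹ (K.inv_mem hk) _ hx
    rwa [inv_smul_smul] at h2
  have hfT : ∀ x, x ∉ T → f x = 0 := by
    intro x hx
    have h1 : F₀ ∩ c x = ∅ := by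
      rw [Set.eq_empty_iff_forall_notMem]
      rintro h ⟨hh, hx'⟩
      apply hx
      rw [hTmem]
      exact ⟨1, K.one_mem, h, hh, by rw [one_mul]; exact hx'⟩
    change μ.real (F₀ ∩ c x) = 0
    rw [h1, measureReal_empty]
  have hfsum : ∑ x ∈ T, f x = m := by
    rw [hm, hf, ← measureReal_biUnion_finset (hcd T F₀) (fun x _ => hF₀m.inter (hcm x))
      (fun x _ => ne_top_of_le_ne_top hF₀t (measure_mono Set.inter_subset_left))]
    congr 1
    ext h
    simp only [Set.mem_iUnion]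
    constructor
    · rintro ⟨x, _, hx⟩; exact hx.1
    · intro hh
      exact ⟨π h, (hTmem _).2 ⟨1, K.one_mem, h, hh, by rw [one_mul]⟩, hh, rfl⟩
  -- averaging over `K`
  set μK : ℝ := μ.real (K : Set G) with hμK
  have hKt : μ (K : Set G) ≠ ⊤ := hKc.measure_lt_top.ne
  have hμKpos : 0 < μK :=
    ENNReal.toReal_pos (hKo.measure_pos μ ⟨1, K.one_mem⟩).ne' hKt
  have hKm : MeasurableSet (K : Set G) := hKo.measurableSet
  have hcont : ∀ (s : G) (x : G ⧸ K), Continuous (fun k : G => f ((s * k)⁻¹ • x)) := by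
    intro s x
    have hfc : Continuous f := continuous_of_discreteTopology
    refine hfc.comp ?_
    obtain ⟨g, rfl⟩ := QuotientGroup.mk_surjective x
    have h1 : (fun k : G => (s * k)⁻¹ • (g : G ⧸ K)) = fun k => π ((s * k)⁻¹ * g) := by
      funext k
      rfl
    rw [h1]
    exact hπc.comp ((continuous_const_mul s).inv.mul continuous_const)
  have hint : ∀ (s : G) (x : G ⧸ K), IntegrableOn (fun k : G => f ((s * k)⁻¹ • x)) K μ :=
    fun s x => (hcont s x).continuousOn.integrableOn_compact hKc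
  have hint1 : ∀ x : G ⧸ K, IntegrableOn (fun k : G => f (k⁻¹ • x)) K μ := by
    intro x
    have h1 := hint 1 x
    simpa only [one_mul] using h1
  set f₁ : G ⧸ K → ℝ := fun x => μK⁻¹ * ∫ k in (K : Set G), f (k⁻¹ • x) ∂μ with hf₁
  have hf₁0 : ∀ x, 0 ≤ f₁ x := fun x =>
    mul_nonneg (inv_nonneg.2 hμKpos.le) (integral_nonneg fun _ => hf0 _)
  have hf₁inv : ∀ k₀ ∈ K, ∀ x, f₁ (k₀ • x) = f₁ x := by
    intro k₀ hk₀ x
    have h1 := (measurePreserving_mul_left μ k₀⁻¹).setIntegral_preimage_emb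
      (measurableEmbedding_mulLeft k₀⁻¹) (fun k : G => f (k⁻¹ • x)) (K : Set G)
    have h2 : (fun k : G => k₀⁻¹ * k) ⁻¹' (K : Set G) = (K : Set G) := by
      ext k
      change k₀⁻¹ * k ∈ K ↔ k ∈ K
      exact K.mul_mem_cancel_left (K.inv_mem hk₀)
    rw [h2] at h1
    change μK⁻¹ * _ = μK⁻¹ * _
    rw [← h1]
    congr 2
    funext k
    rw [mul_inv_rev, inv_inv, mul_smul]
  have hf₁T : ∀ x, x ∉ T → f₁ x = 0 := by
    intro x hx
    change μK⁻¹ * _ = 0
    rw [setIntegral_eq_zero_of_forall_eq_zero, mul_zero]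
    intro k hk
    exact hfT _ fun h => hx ((hTinv k⁻¹ (K.inv_mem hk) x).1 h)
  have hf₁sum : ∑ x ∈ T, f₁ x = m := by
    change ∑ x ∈ T, μK⁻¹ * _ = m
    rw [← Finset.mul_sum, ← integral_finsetSum T (fun x _ => hint1 x)]
    have h1 : ∫ k in (K : Set G), ∑ x ∈ T, f (k⁻¹ • x) ∂μ = ∫ _ in (K : Set G), m ∂μ := by
      refine setIntegral_congr_fun hKm fun k hk => ?_
      change ∑ x ∈ T, f (k⁻¹ • x) = m
      rw [← hfsum]
      refine Finset.sum_equiv (MulAction.toPerm k⁻¹) (fun x => ?_) (fun x _ => rfl)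
      exact (hTinv k⁻¹ (K.inv_mem hk) x).symm
    rw [h1, setIntegral_const, smul_eq_mul, ← mul_assoc, ← hμK, inv_mul_cancel₀ hμKpos.ne',
      one_mul]
  have hf₁est : ∀ s ∈ S, ∀ T' : Finset (G ⧸ K),
      ∑ x ∈ T', |f₁ (s⁻¹ • x) - f₁ x| ≤ 2 * κ * m := by
    intro s hs T'
    have h1 : ∀ x ∈ T', |f₁ (s⁻¹ • x) - f₁ x| ≤
        μK⁻¹ * ∫ k in (K : Set G), (|f ((s * k)⁻¹ • x) - f x| + |f (k⁻¹ • x) - f x|) ∂μ := by
      intro x _
      have h2 : f₁ (s⁻¹ • x) - f₁ x =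
          μK⁻¹ * ∫ k in (K : Set G), (f ((s * k)⁻¹ • x) - f (k⁻¹ • x)) ∂μ := by
        rw [integral_sub (hint s x) (hint1 x), mul_sub]
        congr 1
        change μK⁻¹ * ∫ k in (K : Set G), f (k⁻¹ • s⁻¹ • x) ∂μ = _
        congr 2
        funext k
        rw [mul_inv_rev, mul_smul]
      rw [h2, abs_mul, abs_of_nonneg (inv_nonneg.2 hμKpos.le)]
      refine mul_le_mul_of_nonneg_left ?_ (inv_nonneg.2 hμKpos.le)
      refine abs_integral_le_integral_abs.trans (integral_mono ?_ ?_ ?_)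
      · exact ((hint s x).sub (hint1 x)).abs
      · exact (((hint s x).sub (integrableOn_const hKt)).abs).add
          (((hint1 x).sub (integrableOn_const hKt)).abs)
      · intro k
        change |f ((s * k)⁻¹ • x) - f (k⁻¹ • x)| ≤ _
        have h3 : f ((s * k)⁻¹ • x) - f (k⁻¹ • x) =
          (f ((s * k)⁻¹ • x) - f x) - (f (k⁻¹ • x) - f x) := by ring
        rw [h3]
        exact abs_sub _ _
    refine (Finset.sum_le_sum h1).trans ?_
    rw [← Finset.mul_sum, ← integral_finsetSum]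
    · have h2 : ∫ k in (K : Set G), ∑ x ∈ T', (|f ((s * k)⁻¹ • x) - f x| + |f (k⁻¹ • x) - f x|) ∂μ
          ≤ ∫ _ in (K : Set G), 2 * κ * m ∂μ := by
        refine setIntegral_mono_on ?_ (integrableOn_const hKt) hKm ?_
        · refine integrable_finsetSum _ fun x _ => ?_
          exact (((hint s x).sub (integrableOn_const hKt)).abs).add
            (((hint1 x).sub (integrableOn_const hKt)).abs)
        · intro k hk
          rw [Finset.sum_add_distrib]
          have h3 := hest (s * k) (Or.inr (Set.mul_mem_mul (Finset.mem_coe.2 hs) hk)) T'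
          have h4 := hest k (Or.inl hk) T'
          linarith
      rw [setIntegral_const, smul_eq_mul, ← hμK] at h2
      calc μK⁻¹ * _ ≤ μK⁻¹ * (μK * (2 * κ * m)) :=
            mul_le_mul_of_nonneg_left h2 (inv_nonneg.2 hμKpos.le)
        _ = 2 * κ * m := by rw [← mul_assoc, inv_mul_cancel₀ hμKpos.ne', one_mul]
    · intro x _
      exact (((hint s x).sub (integrableOn_const hKt)).abs).add
        (((hint1 x).sub (integrableOn_const hKt)).abs)
  -- the square root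
  set F : G ⧸ K → ℝ := fun x => √(f₁ x / m) with hF
  have hF0 : ∀ x, 0 ≤ F x := fun x => Real.sqrt_nonneg _
  have hFsq : ∀ x, F x ^ 2 = f₁ x / m := fun x => Real.sq_sqrt (div_nonneg (hf₁0 x) hmpos.le)
  have hFT : ∀ x, x ∉ T → F x = 0 := by
    intro x hx
    change √(f₁ x / m) = 0
    rw [hf₁T x hx, zero_div, Real.sqrt_zero]
  have hFsum : ∑ x ∈ T, F x ^ 2 = 1 := by
    simp_rw [hFsq]
    rw [← Finset.sum_div, hf₁sum, div_self hmpos.ne']
  refine ⟨T, F, hFT, ?_, hFsum, ?_⟩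
  · intro k hk x
    change √(f₁ (k • x) / m) = √(f₁ x / m)
    rw [hf₁inv k hk]
  · intro s hs
    set T' : Finset (G ⧸ K) := T ∪ T.image (fun x => s • x) with hT'
    have h1 : ∑ x ∈ T', (F (s⁻¹ • x) - F x) ^ 2 ≤ 2 * κ := by
      have h2 : ∀ x ∈ T', (F (s⁻¹ • x) - F x) ^ 2 ≤ |f₁ (s⁻¹ • x) - f₁ x| / m := by
        intro x _
        have h3 : |f₁ (s⁻¹ • x) - f₁ x| / m = |F (s⁻¹ • x) ^ 2 - F x ^ 2| := by
          rw [hFsq, hFsq, ← sub_div, abs_div, abs_of_pos hmpos]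
        rw [h3]
        have h4 := hF0 (s⁻¹ • x)
        have h5 := hF0 x
        have h6 : F (s⁻¹ • x) ^ 2 - F x ^ 2 = (F (s⁻¹ • x) - F x) * (F (s⁻¹ • x) + F x) := by ring
        rw [h6, abs_mul, abs_of_nonneg (add_nonneg h4 h5), ← sq_abs, sq]
        refine mul_le_mul_of_nonneg_left ?_ (abs_nonneg _)
        rw [abs_le]
        constructor <;> linarith
      refine (Finset.sum_le_sum h2).trans ?_
      rw [← Finset.sum_div, div_le_iff₀ hmpos]
      exact hf₁est s hs T'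
    have hTT' : T ⊆ T' := Finset.subset_union_left
    have h2 : ∑ x ∈ T', F x ^ 2 = 1 := by
      rw [← hFsum]
      refine (Finset.sum_subset hTT' fun x _ hx => ?_).symm
      rw [hFT x hx]
      norm_num
    have h3 : ∑ x ∈ T', F (s⁻¹ • x) ^ 2 = 1 := by
      rw [← hFsum]
      have h4 : ∑ x ∈ T.image (fun x => s • x), F (s⁻¹ • x) ^ 2 = ∑ x ∈ T, F x ^ 2 := by
        rw [Finset.sum_image fun x _ y _ h => smul_left_cancel s h]
        refine Finset.sum_congr rfl fun x _ => ?_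
        rw [inv_smul_smul]
      rw [← h4]
      refine (Finset.sum_subset Finset.subset_union_right fun x _ hx => ?_).symm
      rw [hFT]
      · norm_num
      · intro h5
        apply hx
        rw [Finset.mem_image]
        exact ⟨s⁻¹ • x, h5, smul_inv_smul _ _⟩
    have h4 : ∑ x ∈ T', F x * F (s⁻¹ • x) = ∑ x ∈ T, F x * F (s⁻¹ • x) := by
      refine (Finset.sum_subset hTT' fun x _ hx => ?_).symm
      rw [hFT x hx, zero_mul]
    have h5 : ∑ x ∈ T', (F (s⁻¹ • x) - F x) ^ 2 =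
        ∑ x ∈ T', F (s⁻¹ • x) ^ 2 + ∑ x ∈ T', F x ^ 2 - 2 * ∑ x ∈ T', F x * F (s⁻¹ • x) := by
      rw [Finset.mul_sum, ← Finset.sum_add_distrib, ← Finset.sum_sub_distrib]
      refine Finset.sum_congr rfl fun x _ => ?_
      ring
    rw [h5, h2, h3, h4] at h1
    linarith

end Pool.Agent.ErgLC
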