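import Pool.Agent.Lib_MP_418a80_eg.Ensemble
import Pool.Agent.Lib_MP_418a80_eg.AvgShift
import Pool.Agent.Lib_MP_418a80_eg.AvgExp

/-!
# EG09: existence of slow generic families

PROOF.  Given `Q, Y, S, δ`.  Put `κ = δ/4`, get `T`, `F` from `FolnerCosets K` for `S`, `κ`.  Choose a
finite set of cosets `R ⊆ G ⧸ K` (infinite) with `card R = m` so large that
`T.card * ‖y‖² / m ≤ δ/2` for `y ∈ Y`, `m ≥ 1`; `r i = i.out` (`R` as a subtype of a Finset).  Let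
`D` = all the elements `x.out⁻¹ * y.out` (`x ≠ y` in `T`), `x.out⁻¹ * s * y.out` (`x, y ∈ T`,
`s ∈ S`, `x ≠ s • y`), `i.out⁻¹ * i'.out` (`i ≠ i'` in `R`); none is in `K`
(`QuotientGroup.eq`).  Let `Y'` = `{1}`, the `α x.out⁻¹ b` (`x ∈ T`, `b ∈ Y`) and the
`star (α x.out⁻¹ y) * α k (α x.out⁻¹ y)` (`y ∈ Y`, `k = i.out⁻¹ * i'.out`).  Apply
`exists_ensemble` with `D`, `Y'` and `δ' > 0` so small that `‖ι q‖ δ' T.card ≤ δ` (`q ∈ Q`),
`4 δ' T.card ≤ δ/2`, `T.card * ‖y‖² δ' ≤ δ/2` (`y ∈ Y`), `T.card * δ' ≤ δ/2`.  Take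
`a j = slow α T F (v j)` and the same weights: `slow_mem`, `avg_tr` (with
`tr ι (α x.out⁻¹ b) = tr ι b`), `avg_norm_sub`, `avg_exp_slow_left`, `avg_exp_slow_right`.
-/

namespace Pool.Agent.ErgLC

open Filter Topology

universe u v w

variable {A : Type u} [CStarAlgebra A] {E : Type v} [NormedAddCommGroup E]
  [InnerProductSpace ℂ E] {G : Type w} [Group G]

private theorem generic_out_ne {K : Subgroup G} {x y : G ⧸ K} (hxy : x ≠ y) :
    x.out⁻¹ * y.out ∉ K := by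
  intro hK
  apply hxy
  have h1 := QuotientGroup.eq.2 hK
  rwa [QuotientGroup.out_eq', QuotientGroup.out_eq'] at h1

private theorem generic_out_ne_smul {K : Subgroup G} {x y : G ⧸ K} {s : G} (hxy : x ≠ s • y) :
    x.out⁻¹ * s * y.out ∉ K := by
  intro hK
  apply hxy
  rw [mul_assoc] at hK
  have h1 := QuotientGroup.eq.2 hK
  rw [QuotientGroup.out_eq'] at h1
  rw [h1]
  conv_rhs => rw [← QuotientGroup.out_eq' y]
  rfl

private theorem generic_aux {N M δ a t : ℝ} (hN : 0 < N) (hM : 0 < M) (hδ : 0 < δ) (ha : 0 ≤ a)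
    (haM : a ≤ M) (htN : t ≤ N) :
    t * (a * (δ / (8 * (N * M)))) ≤ δ / 8 := by
  have h1 : t * a ≤ N * M := mul_le_mul htN haM ha hN.le
  have h2 : 0 < N * M := mul_pos hN hM
  have h3 : t * (a * (δ / (8 * (N * M)))) = (t * a) / (N * M) * (δ / 8) := by
    field_simp
  rw [h3]
  have h4 : (t * a) / (N * M) ≤ 1 := (div_le_one h2).2 h1
  calc (t * a) / (N * M) * (δ / 8) ≤ 1 * (δ / 8) :=
        mul_le_mul_of_nonneg_right h4 (by linarith)
    _ = δ / 8 := one_mul _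

theorem genericSlow {ι : A →ₗ[ℂ] E} (h : IsTracial ι) {α : G → A →⋆ₐ[ℂ] A} (hα : IsAct ι α)
    {K : Subgroup G} (hI : Intertwine α K) {Ex : A →ₗ[ℂ] A} (hE : IsExp ι α ⊤ Ex)
    (hinf : Infinite (G ⧸ K)) (hF : FolnerCosets K) : GenericSlow ι α K Ex := by
  classical
  intro Q Y S δ hδ
  obtain ⟨T, F, hT, hFK, hF1, hFS⟩ := hF S (δ / 4) (by linarith)
  -- constants
  set N : ℝ := (T.card : ℝ) + 1 with hNdef
  set M : ℝ := 1 + ∑ y ∈ Y, ‖y‖ ^ 2 + ∑ q ∈ Q, ‖ι q‖ with hMdef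
  have hTN : (T.card : ℝ) ≤ N := by rw [hNdef]; linarith
  have hT0 : (0 : ℝ) ≤ T.card := Nat.cast_nonneg _
  have hN : 0 < N := by rw [hNdef]; linarith
  have hY0 : 0 ≤ ∑ y ∈ Y, ‖y‖ ^ 2 := Finset.sum_nonneg fun y _ => by positivity
  have hQ0 : 0 ≤ ∑ q ∈ Q, ‖ι q‖ := Finset.sum_nonneg fun q _ => norm_nonneg _
  have hM1 : 1 ≤ M := by rw [hMdef]; linarith
  have hM : 0 < M := by linarith
  have hYM : ∀ y ∈ Y, ‖y‖ ^ 2 ≤ M := by
    intro y hy
    have h1 : ‖y‖ ^ 2 ≤ ∑ y ∈ Y, ‖y‖ ^ 2 :=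
      Finset.single_le_sum (f := fun y : A => ‖y‖ ^ 2) (fun y _ => by positivity) hy
    rw [hMdef]; linarith
  have hQM : ∀ q ∈ Q, ‖ι q‖ ≤ M := by
    intro q hq
    have h1 : ‖ι q‖ ≤ ∑ q ∈ Q, ‖ι q‖ :=
      Finset.single_le_sum (f := fun q : A => ‖ι q‖) (fun q _ => norm_nonneg _) hq
    rw [hMdef]; linarith
  set d : ℝ := δ / (8 * (N * M)) with hddef
  have hNM : 0 < N * M := mul_pos hN hM
  have hd : 0 < d := by rw [hddef]; positivity
  -- the finite set of cosets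
  obtain ⟨m, hm⟩ := exists_nat_ge (2 * (N * M) / δ)
  obtain ⟨R, hR⟩ := Infinite.exists_subset_card_eq (G ⧸ K) (m + 1)
  have hcardR : (Fintype.card ↥R : ℝ) = (m : ℝ) + 1 := by
    rw [Fintype.card_coe, hR]; push_cast; ring
  have hRne : Nonempty ↥R := by
    have h1 : R.Nonempty := by
      rw [← Finset.card_pos, hR]; omega
    exact h1.to_subtype
  have hm0 : (0 : ℝ) ≤ m := Nat.cast_nonneg _
  have hmpos : (0 : ℝ) < (m : ℝ) + 1 := by linarith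
  have hmd : 2 * (N * M) ≤ (m : ℝ) * δ := (div_le_iff₀ hδ).1 hm
  have hcard : ∀ y ∈ Y, (T.card : ℝ) * (‖y‖ ^ 2 / Fintype.card ↥R) ≤ δ / 2 := by
    intro y hy
    rw [hcardR, ← mul_div_assoc, div_le_iff₀ hmpos]
    have h1 : (T.card : ℝ) * ‖y‖ ^ 2 ≤ N * M := mul_le_mul hTN (hYM y hy) (by positivity) hN.le
    nlinarith
  -- the sets of group elements and of elements of `A`
  set D : Finset G := ((T ×ˢ T).image (fun p => p.1.out⁻¹ * p.2.out) ∪
    (T ×ˢ (T ×ˢ S)).image (fun p => p.1.out⁻¹ * p.2.2 * p.2.1.out) ∪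
    (R ×ˢ R).image (fun p => p.1.out⁻¹ * p.2.out)).filter (fun g => g ∉ K) with hDdef
  have hDK : ∀ g ∈ D, g ∉ K := by
    intro g hg
    exact (Finset.mem_filter.1 hg).2
  set Y' : Finset A := {1} ∪ (T ×ˢ Y).image (fun p => α p.1.out⁻¹ p.2) ∪
    (T ×ˢ (Y ×ˢ (R ×ˢ R))).image (fun p => star (α p.1.out⁻¹ p.2.1) *
      α (p.2.2.1.out⁻¹ * p.2.2.2.out) (α p.1.out⁻¹ p.2.1)) with hY'def
  have h1Y' : (1 : A) ∈ Y' := by
    rw [hY'def]
    exact Finset.mem_union_left _ (Finset.mem_union_left _ (Finset.mem_singleton_self _))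
  have h2Y' : ∀ x ∈ T, ∀ b ∈ Y, α x.out⁻¹ b ∈ Y' := by
    intro x hx b hb
    rw [hY'def]
    exact Finset.mem_union_left _ (Finset.mem_union_right _
      (Finset.mem_image.2 ⟨(x, b), Finset.mem_product.2 ⟨hx, hb⟩, rfl⟩))
  have h3Y' : ∀ x ∈ T, ∀ b ∈ Y, ∀ i ∈ R, ∀ i' ∈ R, star (α x.out⁻¹ b) *
      α (i.out⁻¹ * i'.out) (α x.out⁻¹ b) ∈ Y' := by
    intro x hx b hb i hi i' hi'
    rw [hY'def]
    exact Finset.mem_union_right _ (Finset.mem_image.2 ⟨(x, (b, (i, i'))),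
      Finset.mem_product.2 ⟨hx, Finset.mem_product.2 ⟨hb, Finset.mem_product.2 ⟨hi, hi'⟩⟩⟩, rfl⟩)
  have h1D : ∀ x ∈ T, ∀ y ∈ T, x ≠ y → x.out⁻¹ * y.out ∈ D := by
    intro x hx y hy hxy
    rw [hDdef]
    exact Finset.mem_filter.2 ⟨Finset.mem_union_left _ (Finset.mem_union_left _
      (Finset.mem_image.2 ⟨(x, y), Finset.mem_product.2 ⟨hx, hy⟩, rfl⟩)), generic_out_ne hxy⟩
  have h2D : ∀ s ∈ S, ∀ x ∈ T, ∀ y ∈ T, x ≠ s • y → x.out⁻¹ * s * y.out ∈ D := by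
    intro s hs x hx y hy hxy
    rw [hDdef]
    exact Finset.mem_filter.2 ⟨Finset.mem_union_left _ (Finset.mem_union_right _
      (Finset.mem_image.2 ⟨(x, (y, s)), Finset.mem_product.2 ⟨hx, Finset.mem_product.2 ⟨hy, hs⟩⟩,
        rfl⟩)), generic_out_ne_smul hxy⟩
  have h3D : ∀ i ∈ R, ∀ i' ∈ R, i ≠ i' → i.out⁻¹ * i'.out ∈ D := by
    intro i hi i' hi' hii
    rw [hDdef]
    exact Finset.mem_filter.2 ⟨Finset.mem_union_right _
      (Finset.mem_image.2 ⟨(i, i'), Finset.mem_product.2 ⟨hi, hi'⟩, rfl⟩), generic_out_ne hii⟩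
  obtain ⟨J, hJ, v, l, hv, hoff, hdiag⟩ := exists_ensemble h hα hI D hDK Y' hd
  have hoff1 : ∀ g ∈ D, ‖ι (∑ j, (l j : ℂ) • (star (v j) * α g (v j)))‖ ≤ d := by
    intro g hg
    have h1 := hoff g hg 1 h1Y'
    simpa only [mul_one] using h1
  have hoffR : ∀ i i' : ↥R, i ≠ i' → ‖ι (∑ j, (l j : ℂ) •
      (star (v j) * α ((i : G ⧸ K).out⁻¹ * (i' : G ⧸ K).out) (v j)))‖ ≤ d := by
    intro i i' hii
    refine hoff1 _ (h3D _ i.2 _ i'.2 fun h1 => hii (Subtype.ext h1))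
  refine ⟨J, hJ, fun j => slow α T F (v j), l, fun j => slow_mem hα hT hFK (hv.mem j), hv.nonneg,
    ?_, ?_, ?_, ?_⟩
  · intro q hq b hb
    have h1 := avg_tr h hα v l T F hF1 q b hd.le
      (fun x hx y hy hxy => hoff _ (h1D x hx y hy hxy) _ (h2Y' x hx b hb))
      (fun x hx => by
        have h2 := hdiag _ (h2Y' x hx b hb)
        rwa [hα.tr_apply] at h2)
    refine h1.trans ?_
    have h2 := generic_aux hN hM hδ (norm_nonneg (ι q)) (hQM q hq) hTN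
    rw [← hddef] at h2
    calc ‖ι q‖ * d * T.card = (T.card : ℝ) * (‖ι q‖ * d) := by ring
      _ ≤ δ / 8 := h2
      _ ≤ δ := by linarith
  · intro s hs
    have h1 := avg_norm_sub h hα hv hT hF1 s hd.le (hFS s hs)
      (fun x hx y hy hxy => hoff1 _ (h2D s hs x hx y hy hxy))
      (fun x hx y hy hxy => hoff1 _ (h1D x hx y hy hxy))
    refine h1.trans ?_
    have h2 := generic_aux hN hM hδ zero_le_one hM1 hTN
    rw [← hddef] at h2
    linarith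
  · intro y hy
    have h1 := avg_exp_slow_left h hα hE hv hF1 (fun i : ↥R => (i : G ⧸ K).out) y hd.le hoffR
    refine h1.trans ?_
    have h2 := generic_aux hN hM hδ (by positivity : (0 : ℝ) ≤ ‖y‖ ^ 2) (hYM y hy) hTN
    rw [← hddef] at h2
    have h3 := hcard y hy
    rw [mul_add]
    linarith
  · intro y hy
    have h1 := avg_exp_slow_right h hα hE hv hF1 (fun i : ↥R => (i : G ⧸ K).out) y hd.le
      (fun x hx i i' hii => hoff _ (h3D _ i.2 _ i'.2 fun h1 => hii (Subtype.ext h1)) _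
        (h3Y' x hx y hy _ i.2 _ i'.2))
    refine h1.trans ?_
    have h2 := generic_aux hN hM hδ zero_le_one hM1 hTN
    rw [← hddef] at h2
    have h3 := hcard y hy
    rw [mul_add]
    linarith

end Pool.Agent.ErgLC
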