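import Pool.Agent.Lib_MP_418a80_eg.Setup

/-!
# EG01: the hull lemma

PROOF.  Let `N z = ∑ j, ‖ι (z j)‖ ^ 2` and `m = inf_C N`.  Choose `z n ∈ C` with
`N (z n) ≤ m + 1/(n+1)`.  For `z, z' ∈ C` the midpoint is in `C`, so the parallelogram law gives
`N ((z - z')/2) = (N z + N z')/2 - N ((z+z')/2) ≤ (N z + N z')/2 - m`.  Hence each coordinate
`ι (z n j)` is Cauchy; by `IsTracial.complete` there is `ζ j` with `ι (z n j) → ι (ζ j)`.
`T γ z n ∈ C` has `N (T γ (z n)) = N (z n)`, so `N ((T γ (z n) - z n)/2) ≤ 1/(n+1) → 0`; the left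
side tends to `N ((T γ ζ - ζ)/2)`, so `ι (T γ j (ζ j) - ζ j) = 0` and `T γ j (ζ j) = ζ j`.
-/

namespace Pool.Agent.ErgLC

open Filter Topology

universe u v w

variable {A : Type u} [CStarAlgebra A] {E : Type v} [NormedAddCommGroup E]
  [InnerProductSpace ℂ E]

/-- **Hull lemma** (fixed points in the 2-closure of an invariant bounded convex set). -/
theorem hull_fixed {ι : A →ₗ[ℂ] E} (h : IsTracial ι) {J : Type*} [Fintype J]
    (C : Set (J → A)) (hC : Convex ℝ C) (hne : C.Nonempty) {B : ℝ}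
    (hB : ∀ z ∈ C, ∀ j, ‖z j‖ ≤ B) {Γ : Type*} (T : Γ → J → A →ₗ[ℂ] A)
    (hT : ∀ γ j a, ‖ι (T γ j a)‖ = ‖ι a‖)
    (hTC : ∀ γ, ∀ z ∈ C, (fun j => T γ j (z j)) ∈ C) :
    ∃ ζ : J → A, (∀ γ j, T γ j (ζ j) = ζ j) ∧
      ∀ ε > 0, ∃ z ∈ C, ∀ j, ‖ι (z j - ζ j)‖ ≤ ε := by
  set N : (J → A) → ℝ := fun z => ∑ j, ‖ι (z j)‖ ^ 2 with hN
  have hN0 : ∀ z, 0 ≤ N z := fun z => Finset.sum_nonneg fun j _ => by positivity
  set m : ℝ := sInf (N '' C) with hm
  have hbdd : BddBelow (N '' C) := ⟨0, by rintro _ ⟨z, _, rfl⟩; exact hN0 z⟩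
  have hmle : ∀ z ∈ C, m ≤ N z := fun z hz => csInf_le hbdd ⟨z, hz, rfl⟩
  -- parallelogram law
  have hpar : ∀ z ∈ C, ∀ z' ∈ C, ∀ j,
      ‖ι (z j - z' j)‖ ^ 2 ≤ 2 * N z + 2 * N z' - 4 * m := by
    intro z hz z' hz' j
    have h1 : (fun j => (1 / 2 : ℝ) • z j + (1 / 2 : ℝ) • z' j) ∈ C :=
      hC hz hz' (by norm_num) (by norm_num) (by norm_num)
    have h2 := hmle _ h1
    have h3 : 4 * N (fun j => (1 / 2 : ℝ) • z j + (1 / 2 : ℝ) • z' j) =
        ∑ j, ‖ι (z j) + ι (z' j)‖ ^ 2 := by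
      rw [hN, Finset.mul_sum]
      refine Finset.sum_congr rfl fun j _ => ?_
      have h4 : ι ((1 / 2 : ℝ) • z j + (1 / 2 : ℝ) • z' j) =
          ((1 / 2 : ℝ) : ℂ) • (ι (z j) + ι (z' j)) := by
        rw [map_add, smul_add, ← Complex.coe_smul, ← Complex.coe_smul, map_smul, map_smul]
      rw [h4, norm_smul, Complex.norm_real]
      norm_num
      ring
    have h4 : ∑ j, ‖ι (z j - z' j)‖ ^ 2 = 2 * N z + 2 * N z' -
        ∑ j, ‖ι (z j) + ι (z' j)‖ ^ 2 := by
      rw [hN, Finset.mul_sum, Finset.mul_sum, ← Finset.sum_add_distrib,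
        ← Finset.sum_sub_distrib]
      refine Finset.sum_congr rfl fun j _ => ?_
      have h5 := parallelogram_law_with_norm ℂ (ι (z j)) (ι (z' j))
      rw [map_sub]
      nlinarith [h5]
    have h5 : ‖ι (z j - z' j)‖ ^ 2 ≤ ∑ j, ‖ι (z j - z' j)‖ ^ 2 :=
      Finset.single_le_sum (f := fun j => ‖ι (z j - z' j)‖ ^ 2) (fun j _ => by positivity)
        (Finset.mem_univ j)
    linarith
  -- a minimising sequence
  have hseq : ∀ n : ℕ, ∃ z ∈ C, N z < m + 1 / ((n : ℝ) + 1) := by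
    intro n
    obtain ⟨_, ⟨z, hz, rfl⟩, h1⟩ := exists_lt_of_csInf_lt (hne.image N)
      (show sInf (N '' C) < m + 1 / ((n : ℝ) + 1) by
        have : 0 < 1 / ((n : ℝ) + 1) := by positivity
        linarith)
    exact ⟨z, hz, h1⟩
  choose z hzC hzN using hseq
  have hcau : ∀ j, CauchySeq fun n => ι (z n j) := by
    intro j
    rw [Metric.cauchySeq_iff]
    intro ε hε
    obtain ⟨n0, hn0⟩ := exists_nat_one_div_lt (show 0 < ε ^ 2 / 4 by positivity)
    refine ⟨n0, fun p hp q hq => ?_⟩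
    rw [dist_eq_norm, ← map_sub]
    have h1 := hpar _ (hzC p) _ (hzC q) j
    have h2 : ∀ r : ℕ, n0 ≤ r → 1 / ((r : ℝ) + 1) ≤ 1 / ((n0 : ℝ) + 1) := by
      intro r hr
      refine one_div_le_one_div_of_le (by positivity) ?_
      have : (n0 : ℝ) ≤ r := by exact_mod_cast hr
      linarith
    have h3 : ‖ι (z p j - z q j)‖ ^ 2 < ε ^ 2 := by
      have a1 := hzN p
      have a2 := hzN q
      have a3 := h2 p hp
      have a4 := h2 q hq
      linarith
    exact lt_of_pow_lt_pow_left₀ 2 hε.le h3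
  have hlim : ∀ j, ∃ y : A, Tendsto (fun n => ι (z n j)) atTop (𝓝 (ι y)) := fun j =>
    h.complete (fun n => z n j) B (fun n => hB _ (hzC n) j) (hcau j)
  choose ζ hζ using hlim
  refine ⟨ζ, fun γ j => ?_, fun ε hε => ?_⟩
  · -- fixed
    have h1 : Tendsto (fun n => ‖ι (T γ j (z n j) - z n j)‖) atTop (𝓝 0) := by
      have h2 : ∀ n, ‖ι (T γ j (z n j) - z n j)‖ ^ 2 ≤ 4 * (1 / ((n : ℝ) + 1)) := by
        intro n
        have h3 := hpar _ (hTC γ _ (hzC n)) _ (hzC n) j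
        have h4 : N (fun j => T γ j (z n j)) = N (z n) := by
          rw [hN]
          refine Finset.sum_congr rfl fun j _ => ?_
          rw [hT]
        rw [h4] at h3
        have h5 := hzN n
        linarith
      have h3 : Tendsto (fun n => ‖ι (T γ j (z n j) - z n j)‖ ^ 2) atTop (𝓝 0) := by
        refine squeeze_zero (fun n => by positivity) h2 ?_
        have := tendsto_one_div_add_atTop_nhds_zero_nat (𝕜 := ℝ)
        have h4 := this.const_mul 4
        rwa [mul_zero] at h4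
      have h4 := (Real.continuous_sqrt.tendsto _).comp h3
      rw [Real.sqrt_zero] at h4
      refine h4.congr fun n => ?_
      rw [Function.comp_apply, Real.sqrt_sq (norm_nonneg _)]
    have h2 : Tendsto (fun n => ‖ι (z n j) - ι (ζ j)‖) atTop (𝓝 0) :=
      tendsto_iff_norm_sub_tendsto_zero.1 (hζ j)
    have h3 : ‖ι (T γ j (ζ j) - ζ j)‖ ≤ 0 := by
      have h4 : Tendsto (fun n => ‖ι (z n j) - ι (ζ j)‖ + ‖ι (T γ j (z n j) - z n j)‖ +
          ‖ι (z n j) - ι (ζ j)‖) atTop (𝓝 (0 + 0 + 0)) := (h2.add h1).add h2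
      rw [add_zero, add_zero] at h4
      refine ge_of_tendsto h4 (Eventually.of_forall fun n => ?_)
      have h5 : ι (T γ j (ζ j) - ζ j) = -ι (T γ j (z n j - ζ j)) + ι (T γ j (z n j) - z n j) +
          ι (z n j - ζ j) := by
        rw [← map_neg, ← map_add, ← map_add, map_sub (T γ j)]
        congr 1
        abel
      rw [h5]
      refine (norm_add_le _ _).trans (add_le_add ((norm_add_le _ _).trans (add_le_add ?_ le_rfl))
        ?_)
      · rw [norm_neg, hT, map_sub]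
      · rw [map_sub]
    have h4 := norm_eq_zero.1 (le_antisymm h3 (norm_nonneg _))
    exact sub_eq_zero.1 (h.injective _ h4)
  · have h1 : ∀ᶠ n in atTop, ∀ j, ‖ι (z n j - ζ j)‖ ≤ ε := by
      rw [eventually_all]
      intro j
      have h2 := tendsto_iff_norm_sub_tendsto_zero.1 (hζ j)
      filter_upwards [h2.eventually_lt_const hε] with n hn
      rw [map_sub]
      exact hn.le
    obtain ⟨n, hn⟩ := h1.exists
    exact ⟨z n, hzC n, hn⟩

end Pool.Agent.ErgLC
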