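import Pool.Agent.Lib_MP_418a80_eg.Setup

/-!
# EG04: intertwiners

`Intertwine α K` is the property of the action that strict outerness provides (for the unitary
intertwiners).  Here it is extended to all intertwiners.

PROOF of `intertwine_general`.  (1) `ζ` satisfies `w * ζ = ζ * α g w` for unitaries `w` of
`N = fixedAlg α K`, hence for all `w ∈ N`: for `w = star w ∈ N`, `‖w‖ ≤ 1`,
`u = w + i √(1 - w²)` is a unitary of `N` (`selfAdjoint.unitarySelfAddISMul`, or use the unitaries
`exp (i t w)`), `w = (u + star u)/2`; or: `N` is closed, so a C*-algebra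
(`StarSubalgebra.cstarAlgebra`), spanned by its unitaries (`CStarAlgebra.span_unitary`).
(2) `N' ∩ A` is trivial: a unitary `u` commuting with `N` satisfies `w * u = u * α 1 w`, so it is a
scalar by `Intertwine`; a self-adjoint `b` commuting with `N`, `‖b‖ ≤ 1`, is `(u + star u)/2` with
`u = b + i √(1 - b²)` a unitary commuting with `N`.
(3) `star ζ * w = α g w * star ζ` (take stars in (1) for `star w`), so `ζ * star ζ` commutes with `N`,
so `ζ * star ζ = c • 1`, `c ≥ 0` real.  If `c = 0` then `ζ = 0` (`‖ζ‖² = ‖ζ ζ*‖`), done.  If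
`c > 0` then `u = (1/√c) • ζ` satisfies `u * star u = 1`, hence `tr (1 - star u * u) = 0` and
`1 - star u * u` is a projection `e = star e * e`, so `‖ι e‖² = tr e = 0`, `e = 0`: `u` is unitary.
`Intertwine` gives `g ∈ K` and `u` scalar.
-/

namespace Pool.Agent.ErgLC

open Filter Topology

universe u v w

variable {A : Type u} [CStarAlgebra A] {E : Type v} [NormedAddCommGroup E]
  [InnerProductSpace ℂ E] {G : Type w} [Group G]

/-- unitary intertwiners between the inclusion of `fixedAlg α K` and `α g` exist only for `g ∈ K`,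
and they are scalars -/
def Intertwine (α : G → A →⋆ₐ[ℂ] A) (K : Subgroup G) : Prop :=
  ∀ (g : G) (u : A), u ∈ unitary A → (∀ w ∈ fixedAlg α K, w * u = u * α g w) →
    g ∈ K ∧ ∃ c : ℂ, u = c • (1 : A)

/-- a closed star subalgebra is spanned by its unitaries -/
theorem sum_unitary_of_mem (F : StarSubalgebra ℂ A) (hF : IsClosed (F : Set A)) {w : A}
    (hw : w ∈ F) : ∃ (u : Fin 4 → A) (c : Fin 4 → ℂ), (∀ i, u i ∈ unitary A ∧ u i ∈ F) ∧
      w = ∑ i, c i • u i := by
  have : IsClosed (F : Set A) := hF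
  let _ : CStarAlgebra F := StarSubalgebra.cstarAlgebra F
  obtain ⟨u, c, h1, -⟩ := CStarAlgebra.exists_sum_four_unitary (⟨w, hw⟩ : F)
  refine ⟨fun i => ((u i : F) : A), c, fun i => ⟨?_, (u i : F).2⟩, ?_⟩
  · rw [Unitary.mem_iff]
    have h2 := Unitary.mem_iff.1 (u i).2
    exact ⟨congrArg Subtype.val h2.1, congrArg Subtype.val h2.2⟩
  · have h2 : w = ((∑ i, c i • ((u i : F)) : F) : A) := congrArg Subtype.val h1
    rw [h2]
    simp

theorem isClosed_fixedAlg (α : G → A →⋆ₐ[ℂ] A) (K : Subgroup G) :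
    IsClosed (fixedAlg α K : Set A) := by
  have h1 : (fixedAlg α K : Set A) = ⋂ k ∈ K, {x : A | α k x = x} := by
    ext x
    simp only [SetLike.mem_coe, mem_fixedAlg, Set.mem_iInter, Set.mem_ofPred_eq]
  rw [h1]
  exact isClosed_biInter fun k _ => isClosed_eq
    (AddMonoidHomClass.continuous_of_bound (α k) 1 fun a => by
      rw [one_mul]; exact norm_alpha_le α k a) continuous_id

theorem intertwine_general {ι : A →ₗ[ℂ] E} (h : IsTracial ι) {α : G → A →⋆ₐ[ℂ] A}
    (hα : IsAct ι α) {K : Subgroup G} (hI : Intertwine α K) (g : G) (ζ : A)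
    (hζ : ∀ w ∈ unitary A, w ∈ fixedAlg α K → star w * ζ * α g w = ζ) :
    (g ∉ K → ζ = 0) ∧ (g ∈ K → ∃ c : ℂ, ζ = c • (1 : A)) := by
  have h1 : ∀ w ∈ fixedAlg α K, w * ζ = ζ * α g w := by
    intro w hw
    obtain ⟨u, c, hu, rfl⟩ := sum_unitary_of_mem _ (isClosed_fixedAlg α K) hw
    rw [Finset.sum_mul, map_sum, Finset.mul_sum]
    refine Finset.sum_congr rfl fun i _ => ?_
    rw [smul_mul_assoc, map_smul, mul_smul_comm]
    congr 1
    conv_lhs => rw [← hζ (u i) (hu i).1 (hu i).2]
    rw [← mul_assoc, ← mul_assoc, (Unitary.mem_iff.1 (hu i).1).2, one_mul]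
  -- the relative commutant is trivial
  have h2 : ∀ b : A, (∀ w ∈ fixedAlg α K, w * b = b * w) → ∃ c : ℂ, b = c • (1 : A) := by
    intro b hb
    set F : StarSubalgebra ℂ A := StarSubalgebra.centralizer ℂ (fixedAlg α K : Set A) with hF
    have hcl : IsClosed (F : Set A) := by
      rw [hF, StarSubalgebra.coe_centralizer]
      exact Set.isClosed_centralizer _
    have hmem : ∀ x : A, x ∈ F ↔ ∀ w ∈ fixedAlg α K, w * x = x * w := by
      intro x
      rw [hF, StarSubalgebra.mem_centralizer_iff]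
      constructor
      · intro hx w hw
        exact (hx w hw).1
      · intro hx w hw
        exact ⟨hx w hw, hx _ (star_mem hw)⟩
    obtain ⟨u, c, hu, rfl⟩ := sum_unitary_of_mem F hcl ((hmem b).2 hb)
    have h3 : ∀ i, ∃ d : ℂ, u i = d • (1 : A) := by
      intro i
      refine (hI 1 (u i) (hu i).1 fun w hw => ?_).2
      rw [hα.one_apply]
      exact (hmem _).1 (hu i).2 w hw
    choose d hd using h3
    refine ⟨∑ i, c i * d i, ?_⟩
    rw [Finset.sum_smul]
    refine Finset.sum_congr rfl fun i _ => ?_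
    rw [hd i, smul_smul]
  have h3 : ∀ w ∈ fixedAlg α K, star ζ * w = α g w * star ζ := by
    intro w hw
    have h4 := congrArg star (h1 (star w) (star_mem hw))
    rw [star_mul, star_mul, star_star, ← map_star, star_star] at h4
    exact h4
  obtain ⟨c, hc⟩ := h2 (ζ * star ζ) (by
    intro w hw
    rw [← mul_assoc, h1 w hw, mul_assoc, mul_assoc, h3 w hw])
  set r : ℝ := ‖ι (star ζ)‖ ^ 2 with hr
  have hcr : c = (r : ℂ) := by
    have h4 := h.norm_sq_eq_tr (star ζ)
    rw [star_star, hc, tr_smul, h.tr_one, mul_one] at h4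
    exact h4.symm
  by_cases hr0 : r = 0
  · have h4 : ζ = 0 := by
      have h5 : ζ * star ζ = 0 := by rw [hc, hcr, hr0]; simp
      exact CStarRing.mul_star_self_eq_zero_iff ζ |>.1 h5
    exact ⟨fun _ => h4, fun _ => ⟨0, by rw [h4, zero_smul]⟩⟩
  · have hrpos : 0 < r := lt_of_le_of_ne (by positivity) (Ne.symm hr0)
    have hs : 0 < Real.sqrt r := Real.sqrt_pos.2 hrpos
    set u : A := ((Real.sqrt r : ℂ)⁻¹) • ζ with hu
    have hsc : (Real.sqrt r : ℂ) ≠ 0 := by exact_mod_cast hs.ne'
    have hu1 : u * star u = 1 := by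
      rw [hu, star_smul, smul_mul_smul_comm, hc, hcr, smul_smul]
      have h5 : (Real.sqrt r : ℂ)⁻¹ * star ((Real.sqrt r : ℂ)⁻¹) * (r : ℂ) = 1 := by
        have h6 : (r : ℂ) = (Real.sqrt r : ℂ) * (Real.sqrt r : ℂ) := by
          rw [← Complex.ofReal_mul, Real.mul_self_sqrt hrpos.le]
        rw [h6, star_inv₀, Complex.star_def, Complex.conj_ofReal]
        field_simp
      rw [h5, one_smul]
    have hu2 : star u * u = 1 := by
      have h5 : ι (1 - star u * u) = 0 := by
        have h6 : ‖ι (1 - star u * u)‖ ^ 2 = 0 := by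
          rw [h.norm_sq_eq_re_tr]
          have h7 : star (1 - star u * u) * (1 - star u * u) = 1 - star u * u := by
            rw [star_sub, star_one, star_mul, star_star]
            have h8 : star u * u * (star u * u) = star u * u := by
              rw [mul_assoc, ← mul_assoc u, hu1, one_mul]
            rw [sub_mul, one_mul, mul_sub, mul_one, h8, sub_self, sub_zero]
          rw [h7, tr_sub, h.tr_one, h.tr_mul_comm, hu1, h.tr_one, sub_self, Complex.zero_re]
        have h7 := pow_eq_zero_iff (two_ne_zero) |>.1 h6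
        exact norm_eq_zero.1 h7
      have h6 := h.injective _ h5
      exact (sub_eq_zero.1 h6).symm
    have hun : u ∈ unitary A := Unitary.mem_iff.2 ⟨hu2, hu1⟩
    obtain ⟨hgK, c', hc'⟩ := hI g u hun (by
      intro w hw
      rw [hu, mul_smul_comm, smul_mul_assoc, h1 w hw])
    refine ⟨fun hg => absurd hgK hg, fun _ => ⟨(Real.sqrt r : ℂ) * c', ?_⟩⟩
    rw [mul_smul, ← hc', hu, smul_smul, mul_inv_cancel₀ hsc, one_smul]

end Pool.Agent.ErgLC
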