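import Mathlib

/-!
# EG24: equal vector states on an irreducible set of operators

PROOF.  If `η = 0` then `η' = 0` (`S = 1`).  Let `B` = span of `P` (a unital *-algebra of operators, as
`P` is closed under products and stars and contains `1`); `⟨η, S η⟩ = ⟨η', S η'⟩` for `S ∈ B` by
linearity, so `‖S η‖ = ‖S η'‖` (`star S * S ∈ B`).  So `S η ↦ S η'` extends to an isometry from
`V = closure (B η)` to `closure (B η')`; let `W` be this isometry on `V` and `0` on `V^⊥`.  `V` and
`V^⊥` are invariant under `B`, so `W` commutes with `B`, so `W = c • 1`, and `η' = W η = c η`.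
ALTERNATIVE without extensions: the sesquilinear form: by irreducibility the projection onto `V`
is a scalar, so `V` is everything (`η ≠ 0`); for `ζ` in the Hilbert space the functional
`S η ↦ ⟨ζ, S η'⟩` is well defined and bounded.
-/

namespace Pool.Agent.ErgLC

open Filter Topology

/-- operators leaving `U` invariant together with their adjoints commute with the projection -/
theorem comm_starProjection {V : Type*} [NormedAddCommGroup V] [InnerProductSpace ℂ V]
    [CompleteSpace V] (U : Submodule ℂ V) [U.HasOrthogonalProjection] (S : V →L[ℂ] V)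
    (h1 : ∀ x ∈ U, S x ∈ U) (h2 : ∀ x ∈ U, star S x ∈ U) :
    U.starProjection * S = S * U.starProjection := by
  ext x
  have hx : x - U.starProjection x ∈ Uᗮ := U.sub_starProjection_mem_orthogonal x
  have hS : S (x - U.starProjection x) ∈ Uᗮ := by
    intro u hu
    have h3 := hx _ (h2 u hu)
    rw [ContinuousLinearMap.star_eq_adjoint, ContinuousLinearMap.adjoint_inner_left] at h3
    exact h3
  have h3 : U.starProjection (S x - S (U.starProjection x)) = 0 := by
    rw [← map_sub]
    exact (U.starProjection_apply_eq_zero_iff).2 hS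
  have h4 : U.starProjection (S (U.starProjection x)) = S (U.starProjection x) :=
    Submodule.starProjection_eq_self_iff.2 (h1 _ (U.starProjection_apply_mem x))
  rw [map_sub, h4, sub_eq_zero] at h3
  exact h3

theorem proportional_of_vector_states {V : Type*} [NormedAddCommGroup V]
    [InnerProductSpace ℂ V] [CompleteSpace V] (P : Set (V →L[ℂ] V)) (h1 : 1 ∈ P)
    (hmul : ∀ S ∈ P, ∀ T ∈ P, S * T ∈ P) (hstar : ∀ S ∈ P, star S ∈ P)
    (hirr : ∀ T : V →L[ℂ] V, (∀ S ∈ P, T * S = S * T) → ∃ c : ℂ, T = c • (1 : V →L[ℂ] V))
    (η η' : V) (hη : ∀ S ∈ P, inner ℂ η (S η) = inner ℂ η' (S η')) :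
    ∃ c : ℂ, η' = c • η := by
  by_cases h0 : η = 0
  · have h2 := hη 1 h1
    rw [h0, map_zero, inner_zero_left] at h2
    exact ⟨0, by rw [zero_smul]; exact inner_self_eq_zero.1 h2.symm⟩
  -- the span
  set B : Submodule ℂ (V →L[ℂ] V) := Submodule.span ℂ P with hB
  have hB1 : ∀ S ∈ B, inner ℂ η (S η) = inner ℂ η' (S η') := by
    intro S hS
    induction hS using Submodule.span_induction with
    | mem x hx => exact hη x hx
    | zero => simp
    | add x y _ _ hx hy => simp only [add_apply, inner_add_right, hx, hy]
    | smul a x _ hx => simp only [smul_apply, inner_smul_right, hx]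
  have hBm : ∀ S ∈ B, ∀ T ∈ P, T * S ∈ B := by
    intro S hS T hT
    induction hS using Submodule.span_induction with
    | mem x hx => exact Submodule.subset_span (hmul T hT x hx)
    | zero => simp
    | add x y _ _ hx hy => rw [mul_add]; exact B.add_mem hx hy
    | smul a x _ hx => rw [mul_smul_comm]; exact B.smul_mem a hx
  have hBm' : ∀ T ∈ B, ∀ S ∈ B, T * S ∈ B := by
    intro T hT S hS
    induction hT using Submodule.span_induction with
    | mem x hx => exact hBm S hS x hx
    | zero => simp
    | add x y _ _ hx hy => rw [add_mul]; exact B.add_mem hx hy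
    | smul a x _ hx => rw [smul_mul_assoc]; exact B.smul_mem a hx
  have hBs : ∀ S ∈ B, star S ∈ B := by
    intro S hS
    induction hS using Submodule.span_induction with
    | mem x hx => exact Submodule.subset_span (hstar x hx)
    | zero => simp
    | add x y _ _ hx hy => rw [star_add]; exact B.add_mem hx hy
    | smul a x _ hx => rw [star_smul]; exact B.smul_mem _ hx
  have hnorm : ∀ S ∈ B, ‖S η'‖ = ‖S η‖ := by
    intro S hS
    have h2 := hB1 _ (hBm' _ (hBs S hS) S hS)
    rw [mul_apply_eq_comp, mul_apply_eq_comp,
      ContinuousLinearMap.star_eq_adjoint, ContinuousLinearMap.adjoint_inner_right,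
      ContinuousLinearMap.adjoint_inner_right, inner_self_eq_norm_sq_to_K,
      inner_self_eq_norm_sq_to_K] at h2
    have h3 : ‖S η‖ ^ 2 = ‖S η'‖ ^ 2 := by exact_mod_cast h2
    exact ((pow_left_inj₀ (norm_nonneg _) (norm_nonneg _) two_ne_zero).1 h3).symm
  -- the evaluation maps
  let e : B →ₗ[ℂ] V :=
    { toFun := fun S => (S : V →L[ℂ] V) η
      map_add' := fun S T => rfl
      map_smul' := fun c S => rfl }
  let f : B →ₗ[ℂ] V :=
    { toFun := fun S => (S : V →L[ℂ] V) η'
      map_add' := fun S T => rfl
      map_smul' := fun c S => rfl }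
  have hf : ∀ S : B, ‖f S‖ ≤ 1 * ‖e S‖ := fun S => by
    rw [one_mul]; exact (hnorm S S.2).le
  -- density
  set U : Submodule ℂ V := (LinearMap.range e).topologicalClosure with hU
  have hUc : IsClosed (U : Set V) := Submodule.isClosed_topologicalClosure _
  have : CompleteSpace U := hUc.completeSpace_coe
  have hinv : ∀ S ∈ P, ∀ x ∈ U, S x ∈ U := by
    intro S hS x hx
    have h2 : (LinearMap.range e).topologicalClosure ≤ U.comap (S : V →ₗ[ℂ] V) := by
      refine Submodule.topologicalClosure_minimal _ ?_ (hUc.preimage S.continuous)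
      rintro y ⟨T, rfl⟩
      refine Submodule.le_topologicalClosure _ ⟨⟨S * T, hBm T T.2 S hS⟩, rfl⟩
    exact h2 hx
  have hηU : η ∈ U := Submodule.le_topologicalClosure _ ⟨⟨1, Submodule.subset_span h1⟩, rfl⟩
  have hUt : ∀ x, x ∈ U := by
    obtain ⟨c, hc⟩ := hirr U.starProjection (fun S hS => comm_starProjection U S (hinv S hS)
      (hinv _ (hstar S hS)))
    have h2 : U.starProjection η = η := Submodule.starProjection_eq_self_iff.2 hηU
    rw [hc, smul_apply, one_apply_eq_self] at h2
    have h3 : c = 1 := by
      have h4 : (c - 1) • η = 0 := by rw [sub_smul, one_smul, h2, sub_self]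
      rcases smul_eq_zero.1 h4 with h5 | h5
      · exact sub_eq_zero.1 h5
      · exact absurd h5 h0
    intro x
    rw [← Submodule.starProjection_eq_self_iff, hc, h3, one_smul]
    rfl
  have hd : DenseRange e := by
    intro x
    have := hUt x
    exact this
  -- the intertwiner
  set W : V →L[ℂ] V := f.extendOfNorm e with hW
  have hWe : ∀ S : B, W (e S) = f S := fun S => LinearMap.extendOfNorm_eq hd ⟨1, hf⟩ S
  obtain ⟨c, hc⟩ := hirr W (fun S hS => by
    apply ContinuousLinearMap.coeFn_injective
    refine hd.equalizer (W * S).continuous (S * W).continuous ?_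
    funext T
    have h2 : S (e T) = e ⟨S * T, hBm T T.2 S hS⟩ := rfl
    simp only [Function.comp_apply, mul_apply_eq_comp]
    rw [h2, hWe, hWe]
    rfl)
  refine ⟨c, ?_⟩
  have h2 := hWe ⟨1, Submodule.subset_span h1⟩
  rw [hc] at h2
  exact h2.symm

end Pool.Agent.ErgLC
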