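import Pool.Agent.Lib_MP_418a80_eg.KeyBound
import Pool.Agent.Lib_MP_418a80_eg.BorweinPreiss

/-!
# EG16: the key lemma

PROOF.  `X = {u // u ∈ unitary A ∧ u ∈ fixedAlg α K}` with the metric `dist u w = ‖ι (u - w)‖`
(`MetricSpace.induced` along the injective map `u ↦ ι u`).  It is complete (`IsTracial.complete`
with `C = 1`, `unitary_of_tendsto`, `fixed_of_tendsto`), nonempty (`1`), `dist ≤ 2`.
`c0 = ∑_{x∈F} ‖ι (Ex x)‖²`, `L = (c0 + 4)/ε²`, `μ = min 1 (ε²)`.
`Φ u = ∑_F ‖ι (Ex (u x u*))‖² + L ∑_S ‖ι (α s u - u)‖²` is continuous for the metric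
(`‖ι (u x u* - w x w*)‖ ≤ 2 ‖x‖ ‖ι (u - w)‖`, `‖ι (α s u - α s w)‖ = ‖ι (u - w)‖`).
`borwein_preiss` gives `u, y, c`; `key_bound` gives `2 ∑ ‖ι (Ex (u x u*))‖² ≤ μ ≤ ε²`, and the
minimality with `w = 1` gives `L ∑ ‖ι (α s u - u)‖² ≤ Φ 1 + 4 μ ≤ c0 + 4`, as `α s 1 - 1 = 0`.
-/

namespace Pool.Agent.ErgLC

open Filter Topology

universe u v w

variable {A : Type u} [CStarAlgebra A] {E : Type v} [NormedAddCommGroup E]
  [InnerProductSpace ℂ E] {G : Type w} [Group G]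

/-- the unitaries of the fixed point algebra of `K`, as a type without a metric. -/
structure KeyX (α : G → A →⋆ₐ[ℂ] A) (K : Subgroup G) where
  val : A
  unit : val ∈ unitary A
  mem : val ∈ fixedAlg α K

theorem key_lip1 {ι : A →ₗ[ℂ] E} (hι : IsTracial ι) {α : G → A →⋆ₐ[ℂ] A} (hα : IsAct ι α)
    (s : G) (u w : A) : ‖ι (α s u - u) - ι (α s w - w)‖ ≤ 2 * ‖ι u - ι w‖ := by
  have h1 : ι (α s u - u) - ι (α s w - w) = ι (α s (u - w)) - ι (u - w) := by
    simp only [map_sub]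
    abel
  rw [h1]
  refine (norm_sub_le _ _).trans ?_
  rw [hα.norm_apply hι, map_sub]
  linarith

theorem key_lip2 {ι : A →ₗ[ℂ] E} (hι : IsTracial ι) {α : G → A →⋆ₐ[ℂ] A} {Ex : A →ₗ[ℂ] A}
    (hE : IsExp ι α ⊤ Ex) (x u w : A) (hu : u ∈ unitary A) (hw : w ∈ unitary A) :
    ‖ι (Ex (u * x * star u)) - ι (Ex (w * x * star w))‖ ≤ 2 * ‖x‖ * ‖ι u - ι w‖ := by
  rw [← map_sub, ← map_sub]
  refine (hE.norm_le _).trans ?_
  have h1 : u * x * star u - w * x * star w
      = (u - w) * (x * star u) + w * x * star (u - w) := by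
    rw [star_sub]
    noncomm_ring
  rw [h1, map_add]
  refine (norm_add_le _ _).trans ?_
  have h2 : ‖ι ((u - w) * (x * star u))‖ ≤ ‖ι (u - w)‖ * ‖x‖ := by
    refine (hι.norm_mul_le' _ _).trans ?_
    refine mul_le_mul_of_nonneg_left ?_ (norm_nonneg _)
    refine (norm_mul_le _ _).trans ?_
    have := norm_unitary_le (Unitary.star_mem hu)
    nlinarith [norm_nonneg x]
  have h3 : ‖ι (w * x * star (u - w))‖ ≤ ‖x‖ * ‖ι (u - w)‖ := by
    refine (hι.norm_mul_le _ _).trans ?_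
    rw [hι.norm_star]
    refine mul_le_mul_of_nonneg_right ?_ (norm_nonneg _)
    refine (norm_mul_le _ _).trans ?_
    have := norm_unitary_le hw
    nlinarith [norm_nonneg x]
  rw [map_sub] at h2 h3
  nlinarith

theorem key {ι : A →ₗ[ℂ] E} (hι : IsTracial ι) {α : G → A →⋆ₐ[ℂ] A} (hα : IsAct ι α)
    {K : Subgroup G} {Ex : A →ₗ[ℂ] A} (hE : IsExp ι α ⊤ Ex) (hG : GenericSlow ι α K Ex)
    (F : Finset A) (hF : ∀ x ∈ F, tr ι x = 0) (S : Finset G) {ε : ℝ} (hε : 0 < ε) :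
    ∃ u ∈ unitary A, u ∈ fixedAlg α K ∧ (∀ s ∈ S, ‖ι (α s u - u)‖ ≤ ε) ∧
      ∀ x ∈ F, ‖ι (Ex (u * x * star u))‖ ≤ ε := by
  classical
  let X := KeyX α K
  let emb : X → E := fun u => ι u.1
  have hinj : Function.Injective emb := by
    intro u w huw
    have h1 : ι (u.1 - w.1) = 0 := by
      rw [map_sub]
      exact sub_eq_zero.2 huw
    have h2 := sub_eq_zero.1 (hι.injective _ h1)
    cases u; cases w
    simp only at h2
    subst h2
    rfl
  let _ : MetricSpace X := MetricSpace.induced emb hinj inferInstance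
  have hdist : ∀ u w : X, dist u w = ‖ι u.1 - ι w.1‖ := fun u w => by
    change dist (emb u) (emb w) = _
    exact dist_eq_norm _ _
  have hiso : Isometry emb := Isometry.of_dist_eq fun _ _ => rfl
  have : CompleteSpace X := by
    refine Metric.complete_of_cauchySeq_tendsto fun x hx => ?_
    have h1 : CauchySeq fun n => ι (x n).1 := hiso.uniformContinuous.comp_cauchySeq hx
    obtain ⟨a, ha⟩ := hι.complete (fun n => (x n).1) 1 (fun n => norm_unitary_le (x n).2) h1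
    have ha1 := hι.unitary_of_tendsto (fun n => (x n).2) ha
    have ha2 := hα.fixed_of_tendsto hι (fun n => (x n).3) ha
    refine ⟨⟨a, ha1, ha2⟩, ?_⟩
    rw [tendsto_iff_dist_tendsto_zero]
    rw [tendsto_iff_norm_sub_tendsto_zero] at ha
    refine ha.congr fun n => ?_
    rw [hdist]
  have : Nonempty X := ⟨⟨1, one_mem _, one_mem _⟩⟩
  set c0 : ℝ := ∑ x ∈ F, ‖ι (Ex x)‖ ^ 2 with hc0
  have hc0nn : 0 ≤ c0 := Finset.sum_nonneg fun x _ => by positivity
  set L : ℝ := (c0 + 4) / ε ^ 2 with hL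
  have hε2 : 0 < ε ^ 2 := by positivity
  have hLpos : 0 < L := by positivity
  set μ : ℝ := min 1 (ε ^ 2) with hμ
  have hμpos : 0 < μ := lt_min one_pos hε2
  set Φ : X → ℝ := fun u => ∑ x ∈ F, ‖ι (Ex (u.1 * x * star u.1))‖ ^ 2
    + L * ∑ s ∈ S, ‖ι (α s u.1 - u.1)‖ ^ 2 with hΦ
  have hcont : Continuous Φ := by
    refine (continuous_finsetSum _ fun x _ => ?_).add
      (continuous_const.mul (continuous_finsetSum _ fun s _ => ?_))
    · refine (Continuous.norm ?_).pow 2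
      refine (LipschitzWith.of_dist_le_mul (K := 2 * ‖x‖₊) fun u w => ?_).continuous
      rw [dist_eq_norm, hdist]
      exact key_lip2 hι hE x u.1 w.1 u.2 w.2
    · refine (Continuous.norm ?_).pow 2
      refine (LipschitzWith.of_dist_le_mul (K := 2) fun u w => ?_).continuous
      rw [dist_eq_norm, hdist]
      exact key_lip1 hι hα s u.1 w.1
  have hΦnn : ∀ u, 0 ≤ Φ u := fun u => by
    simp only [hΦ]
    positivity
  have hD : ∀ u w : X, dist u w ≤ 2 := fun u w => by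
    rw [hdist]
    refine (norm_sub_le _ _).trans ?_
    rw [hι.norm_unitary u.2, hι.norm_unitary w.2]
    norm_num
  obtain ⟨u, y, c, hc, hcs, hcμ, hmin⟩ := borwein_preiss Φ hcont hΦnn hD hμpos
  have hkey := key_bound hι hα hE hG F hF S hLpos.le hc hcs (y := fun n => (y n).1)
    (fun n => (y n).2) u.2 u.3 (fun w hw hwK => by
      have h1 := hmin ⟨w, hw, hwK⟩
      simp only [hdist, hΦ] at h1
      simp only [Psi, map_sub] at h1 ⊢
      linarith)
  have hsum4 : ∀ w : X, ∑' n, c n * dist w (y n) ^ 2 ≤ 4 := by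
    intro w
    have h1 : ∀ n, c n * dist w (y n) ^ 2 ≤ c n * 4 := fun n => by
      refine mul_le_mul_of_nonneg_left ?_ (hc n)
      have h2 := hD w (y n)
      have h3 : 0 ≤ dist w (y n) := dist_nonneg
      nlinarith
    have h2 : Summable fun n => c n * dist w (y n) ^ 2 :=
      Summable.of_nonneg_of_le (fun n => mul_nonneg (hc n) (by positivity)) h1
        (hcs.mul_right 4)
    have h3 := Summable.tsum_le_tsum h1 h2 (hcs.mul_right 4)
    rw [tsum_mul_right] at h3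
    have h4 : μ ≤ 1 := min_le_left _ _
    linarith
  have hsumnn : 0 ≤ ∑' n, c n * dist u (y n) ^ 2 :=
    tsum_nonneg fun n => mul_nonneg (hc n) (by positivity)
  have h1 := hmin ⟨1, one_mem _, one_mem _⟩
  have hΦ1 : Φ ⟨1, one_mem _, one_mem _⟩ = c0 := by
    simp [hΦ, hc0]
  rw [hΦ1] at h1
  have h2 := hsum4 ⟨1, one_mem _, one_mem _⟩
  have hFnn : 0 ≤ ∑ x ∈ F, ‖ι (Ex (u.1 * x * star u.1))‖ ^ 2 :=
    Finset.sum_nonneg fun x _ => by positivity
  have h3 : L * ∑ s ∈ S, ‖ι (α s u.1 - u.1)‖ ^ 2 ≤ c0 + 4 := by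
    have : Φ u = ∑ x ∈ F, ‖ι (Ex (u.1 * x * star u.1))‖ ^ 2
      + L * ∑ s ∈ S, ‖ι (α s u.1 - u.1)‖ ^ 2 := rfl
    linarith
  have h4 : c0 + 4 = L * ε ^ 2 := by
    rw [hL]
    field_simp
  refine ⟨u.1, u.2, u.3, fun s hs => ?_, fun x hx => ?_⟩
  · rw [h4] at h3
    have h5 := le_of_mul_le_mul_left h3 hLpos
    have h6 := Finset.single_le_sum (f := fun s => ‖ι (α s u.1 - u.1)‖ ^ 2)
      (fun i _ => by positivity) hs
    exact le_of_sq_le_sq (h6.trans h5) hε.le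
  · have h6 := Finset.single_le_sum (f := fun x => ‖ι (Ex (u.1 * x * star u.1))‖ ^ 2)
      (fun i _ => by positivity) hx
    have h7 : μ ≤ ε ^ 2 := min_le_right _ _
    refine le_of_sq_le_sq ?_ hε.le
    linarith

end Pool.Agent.ErgLC
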