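import Pool.Agent.Lib_MP_418a80_eg.Soc
import Pool.Agent.Lib_MP_418a80_eg.GenericDefs

/-!
# EG15: the key bound for minimisers

PROOF.  For `x ∈ F` write `y = u x u*`, `p = Ex y`; `τ(y) = τ(x) = 0`, `τ(p) = τ(y) = 0`
(`IsExp.tr_apply`), `‖ι p‖² = τ(p* y) = ⟨ι p, ι y⟩` (`inner_apply_self`).
Expand (with `⟨ι a, ι b⟩ = τ(a* b)` and `τ(a b) = τ(b a)`), for every `a`:
`⟨[a,p],[a,y]⟩ = τ(y p* · a* 1 a) - τ(p* · a* y a) - τ(y · a* p* a) + τ(1 · a* (p* y) a)`,
`⟨[a*,p],[a*,y]⟩ = τ(1 · a* (y p*) a) - τ(y · a* p* a) - τ(p* · a* y a) + τ((p* y) · a* 1 a)`.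
Take the family of `GenericSlow` for `Q = {1, y p*, p*, y, p* y}`, `Y = {1, y, p*, p* y, y p*, y*}`
(over all `x ∈ F`), `S`, `δ`.  Sum the inequality `soc_general` for `a = a j` with the weights `l j`:
left side `≥ ∑_x 4 ‖ι p‖² - 8 δ card F` (`τ(y p*) = τ(p* y) = ‖ι p‖²`, the mixed terms are
`τ(q) τ(b) = 0` up to `δ`); right side: `‖Ex (a y - y a)‖² ≤ 2 ‖Ex (a y)‖² + 2 ‖Ex (y a)‖²`,
`Ex (a* y - y a*) = (Ex (y* a - a y*))*` (`star_apply`), so the `Ex`-terms give
`≤ 8 δ card F`; `∑ l j ‖ι (a j)‖² = ∑ l j τ(1 · a* 1 a) ≤ 1 + δ`; the shift terms give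
`2 L card S (κ (1+δ) + δ/κ)` and the last term `2 (∑' c) (1 + δ)`.
Let `δ → 0` (for fixed `κ`), then `κ → 0`: `4 ∑ ‖ι p‖² ≤ 2 ∑' c`.
-/

namespace Pool.Agent.ErgLC

open Filter Topology

universe u v w

variable {A : Type u} [CStarAlgebra A] {E : Type v} [NormedAddCommGroup E]
  [InnerProductSpace ℂ E] {G : Type w} [Group G]

/-- expansion of the two commutator forms -/
theorem inner_comm_add {ι : A →ₗ[ℂ] E} (hι : IsTracial ι) (a p y : A) :
    inner ℂ (ι (a * p - p * a)) (ι (a * y - y * a))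
      + inner ℂ (ι (star a * p - p * star a)) (ι (star a * y - y * star a))
      = tr ι (y * star p * (star a * 1 * a)) - tr ι (star p * (star a * y * a))
        - tr ι (y * (star a * star p * a)) + tr ι (1 * (star a * (star p * y) * a))
        + (tr ι (1 * (star a * (y * star p) * a)) - tr ι (y * (star a * star p * a))
        - tr ι (star p * (star a * y * a)) + tr ι (star p * y * (star a * 1 * a))) := by
  have e1 : inner ℂ (ι (a * p - p * a)) (ι (a * y - y * a))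
      = tr ι (y * star p * (star a * 1 * a)) - tr ι (star p * (star a * y * a))
        - tr ι (y * (star a * star p * a)) + tr ι (1 * (star a * (star p * y) * a)) := by
    rw [hι.inner_eq_tr]
    have h1 : star (a * p - p * a) * (a * y - y * a)
        = star p * star a * a * y - star p * (star a * y * a) - star a * star p * a * y
          + 1 * (star a * (star p * y) * a) := by
      rw [star_sub, star_mul, star_mul]; noncomm_ring
    rw [h1, tr_add, tr_sub, tr_sub, hι.tr_mul_comm (star p * star a * a) y,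
      hι.tr_mul_comm (star a * star p * a) y]
    congr 3
    · congr 1
      noncomm_ring
  have e2 : inner ℂ (ι (star a * p - p * star a)) (ι (star a * y - y * star a))
      = tr ι (1 * (star a * (y * star p) * a)) - tr ι (y * (star a * star p * a))
        - tr ι (star p * (star a * y * a)) + tr ι (star p * y * (star a * 1 * a)) := by
    rw [hι.inner_eq_tr]
    have h1 : star (star a * p - p * star a) * (star a * y - y * star a)
        = star p * a * (star a * y) - star p * a * (y * star a) - a * (star p * star a * y)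
          + a * (star p * y * star a) := by
      rw [star_sub, star_mul, star_mul, star_star]; noncomm_ring
    rw [h1, tr_add, tr_sub, tr_sub, hι.tr_mul_comm (star p * a) (star a * y),
      hι.tr_mul_comm (star p * a) (y * star a), hι.tr_mul_comm a (star p * star a * y),
      hι.tr_mul_comm a (star p * y * star a)]
    congr 1
    · congr 1
      · congr 1
        · congr 1
          noncomm_ring
        · congr 1
          noncomm_ring
      · congr 1
        noncomm_ring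
    · congr 1
      noncomm_ring
  rw [e1, e2]

omit [InnerProductSpace ℂ E] in
theorem keyBound_norm_sub_sq (x y : E) : ‖x - y‖ ^ 2 ≤ 2 * ‖x‖ ^ 2 + 2 * ‖y‖ ^ 2 := by
  have h1 := norm_sub_le x y
  have h2 := norm_nonneg (x - y)
  nlinarith [sq_nonneg (‖x‖ - ‖y‖), norm_nonneg x, norm_nonneg y]

/-- the inequality for fixed `δ` and `κ` -/
theorem key_bound_aux {ι : A →ₗ[ℂ] E} (hι : IsTracial ι) {α : G → A →⋆ₐ[ℂ] A} (hα : IsAct ι α)
    {K : Subgroup G} {Ex : A →ₗ[ℂ] A} (hE : IsExp ι α ⊤ Ex) (hG : GenericSlow ι α K Ex)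
    (F : Finset A) (hF : ∀ x ∈ F, tr ι x = 0) (S : Finset G)
    {L : ℝ} (hL : 0 ≤ L) {c : ℕ → ℝ} (hc : ∀ n, 0 ≤ c n) (hcs : Summable c) {y : ℕ → A}
    (hy : ∀ n, y n ∈ unitary A) {u : A} (hu : u ∈ unitary A) (huK : u ∈ fixedAlg α K)
    (hmin : ∀ w ∈ unitary A, w ∈ fixedAlg α K →
      Psi ι α Ex F S L c y u ≤ Psi ι α Ex F S L c y w) {δ κ : ℝ} (hδ : 0 < δ) (hκ : 0 < κ) :
    ∑ x ∈ F, (4 * ‖ι (Ex (u * x * star u))‖ ^ 2 - 8 * δ)
      ≤ ∑ _x ∈ F, (8 * δ) + 2 * L * ∑ _s ∈ S, (κ * (1 + δ) + δ / κ)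
        + 2 * (∑' n, c n) * (1 + δ) := by
  classical
  set Y : A → A := fun x => u * x * star u with hY
  set P : A → A := fun x => Ex (Y x) with hP
  set W : Finset A := insert 1 (F.image Y ∪ F.image (fun x => star (Y x))
    ∪ F.image (fun x => star (P x)) ∪ F.image (fun x => Y x * star (P x))
    ∪ F.image (fun x => star (P x) * Y x)) with hW
  have w1 : (1 : A) ∈ W := Finset.mem_insert_self _ _
  have wY : ∀ x ∈ F, Y x ∈ W := fun x hx => by
    rw [hW]
    simp only [Finset.mem_insert, Finset.mem_union, Finset.mem_image]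
    exact Or.inr (Or.inl (Or.inl (Or.inl (Or.inl ⟨x, hx, rfl⟩))))
  have wYs : ∀ x ∈ F, star (Y x) ∈ W := fun x hx => by
    rw [hW]
    simp only [Finset.mem_insert, Finset.mem_union, Finset.mem_image]
    exact Or.inr (Or.inl (Or.inl (Or.inl (Or.inr ⟨x, hx, rfl⟩))))
  have wP : ∀ x ∈ F, star (P x) ∈ W := fun x hx => by
    rw [hW]
    simp only [Finset.mem_insert, Finset.mem_union, Finset.mem_image]
    exact Or.inr (Or.inl (Or.inl (Or.inr ⟨x, hx, rfl⟩)))
  have wYP : ∀ x ∈ F, Y x * star (P x) ∈ W := fun x hx => by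
    rw [hW]
    simp only [Finset.mem_insert, Finset.mem_union, Finset.mem_image]
    exact Or.inr (Or.inl (Or.inr ⟨x, hx, rfl⟩))
  have wPY : ∀ x ∈ F, star (P x) * Y x ∈ W := fun x hx => by
    rw [hW]
    simp only [Finset.mem_insert, Finset.mem_union, Finset.mem_image]
    exact Or.inr (Or.inr ⟨x, hx, rfl⟩)
  obtain ⟨J, _, a, l, haK, hl, h1, h2, h3, h4⟩ := hG W W S δ hδ
  -- traces
  have tY : ∀ x ∈ F, tr ι (Y x) = 0 := fun x hx => by
    rw [hY]
    show tr ι (u * x * star u) = 0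
    rw [hι.tr_mul_comm, ← mul_assoc, (Unitary.mem_iff.1 hu).1, one_mul, hF x hx]
  have tP : ∀ x ∈ F, tr ι (star (P x) * Y x) = ((‖ι (P x)‖ ^ 2 : ℝ) : ℂ) := fun x _ => by
    rw [← hι.inner_eq_tr]
    exact hE.inner_apply_self (Y x)
  have tP' : ∀ x ∈ F, tr ι (Y x * star (P x)) = ((‖ι (P x)‖ ^ 2 : ℝ) : ℂ) := fun x hx => by
    rw [hι.tr_mul_comm]; exact tP x hx
  -- approximations
  have ap : ∀ q ∈ W, ∀ b ∈ W, |(∑ j, (l j : ℂ) * tr ι (q * (star (a j) * b * a j))).re
      - (tr ι q * tr ι b).re| ≤ δ := fun q hq b hb => by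
    have := h1 q hq b hb
    rw [← Complex.sub_re]
    exact (Complex.abs_re_le_norm _).trans this
  -- the mean square of `‖ι (a j)‖`
  have hN : ∑ j, l j * ‖ι (a j)‖ ^ 2 ≤ 1 + δ := by
    have h5 := ap 1 w1 1 w1
    have h6 : (∑ j, (l j : ℂ) * tr ι (1 * (star (a j) * 1 * a j))).re
        = ∑ j, l j * ‖ι (a j)‖ ^ 2 := by
      rw [Complex.re_sum]
      refine Finset.sum_congr rfl fun j _ => ?_
      rw [one_mul, mul_one, ← hι.norm_sq_eq_tr, ← Complex.ofReal_mul, Complex.ofReal_re]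
    rw [h6, hι.tr_one, one_mul, Complex.one_re] at h5
    have := (abs_le.1 h5).2
    linarith
  -- left side
  have hleft : ∀ x ∈ F, 4 * ‖ι (P x)‖ ^ 2 - 8 * δ
      ≤ ∑ j, l j * ((inner ℂ (ι (a j * P x - P x * a j)) (ι (a j * Y x - Y x * a j))).re
        + (inner ℂ (ι (star (a j) * P x - P x * star (a j)))
          (ι (star (a j) * Y x - Y x * star (a j)))).re) := by
    intro x hx
    have k1 := ap _ (wYP x hx) _ w1
    have k2 := ap _ (wP x hx) _ (wY x hx)
    have k3 := ap _ (wY x hx) _ (wP x hx)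
    have k4 := ap _ w1 _ (wPY x hx)
    have k5 := ap _ w1 _ (wYP x hx)
    have k6 := ap _ (wPY x hx) _ w1
    rw [tP' x hx, hι.tr_one, mul_one, Complex.ofReal_re] at k1
    rw [tY x hx, mul_zero, Complex.zero_re] at k2
    rw [tY x hx, zero_mul, Complex.zero_re] at k3
    rw [tP x hx, hι.tr_one, one_mul, Complex.ofReal_re] at k4
    rw [tP' x hx, hι.tr_one, one_mul, Complex.ofReal_re] at k5
    rw [tP x hx, hι.tr_one, mul_one, Complex.ofReal_re] at k6
    have hsum : ∑ j, l j * ((inner ℂ (ι (a j * P x - P x * a j)) (ι (a j * Y x - Y x * a j))).re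
        + (inner ℂ (ι (star (a j) * P x - P x * star (a j)))
          (ι (star (a j) * Y x - Y x * star (a j)))).re)
        = (∑ j, (l j : ℂ) * tr ι (Y x * star (P x) * (star (a j) * 1 * a j))).re
          - 2 * (∑ j, (l j : ℂ) * tr ι (star (P x) * (star (a j) * Y x * a j))).re
          - 2 * (∑ j, (l j : ℂ) * tr ι (Y x * (star (a j) * star (P x) * a j))).re
          + (∑ j, (l j : ℂ) * tr ι (1 * (star (a j) * (star (P x) * Y x) * a j))).re
          + (∑ j, (l j : ℂ) * tr ι (1 * (star (a j) * (Y x * star (P x)) * a j))).re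
          + (∑ j, (l j : ℂ) * tr ι (star (P x) * Y x * (star (a j) * 1 * a j))).re := by
      simp only [Complex.re_sum, Complex.re_ofReal_mul, Finset.mul_sum, ← Finset.sum_sub_distrib,
        ← Finset.sum_add_distrib]
      refine Finset.sum_congr rfl fun j _ => ?_
      rw [← Complex.add_re, inner_comm_add hι]
      simp only [Complex.add_re, Complex.sub_re]
      ring
    rw [hsum]
    have k1' := (abs_le.1 k1).1
    have k2' := (abs_le.1 k2).2
    have k3' := (abs_le.1 k3).2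
    have k4' := (abs_le.1 k4).1
    have k5' := (abs_le.1 k5).1
    have k6' := (abs_le.1 k6).1
    linarith
  -- right side, the terms with `Ex`
  have hEx : ∀ x ∈ F, ∑ j, l j * (‖ι (Ex (a j * Y x - Y x * a j))‖ ^ 2
      + ‖ι (Ex (star (a j) * Y x - Y x * star (a j)))‖ ^ 2) ≤ 8 * δ := by
    intro x hx
    have m1 := h3 _ (wY x hx)
    have m2 := h4 _ (wY x hx)
    have m3 := h3 _ (wYs x hx)
    have m4 := h4 _ (wYs x hx)
    have hj : ∀ j, l j * (‖ι (Ex (a j * Y x - Y x * a j))‖ ^ 2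
        + ‖ι (Ex (star (a j) * Y x - Y x * star (a j)))‖ ^ 2)
        ≤ 2 * (l j * ‖ι (Ex (a j * Y x))‖ ^ 2) + 2 * (l j * ‖ι (Ex (Y x * a j))‖ ^ 2)
          + 2 * (l j * ‖ι (Ex (a j * star (Y x)))‖ ^ 2)
          + 2 * (l j * ‖ι (Ex (star (Y x) * a j))‖ ^ 2) := by
      intro j
      have e1 : ‖ι (Ex (a j * Y x - Y x * a j))‖ ^ 2
          ≤ 2 * ‖ι (Ex (a j * Y x))‖ ^ 2 + 2 * ‖ι (Ex (Y x * a j))‖ ^ 2 := by
        rw [map_sub, map_sub]
        exact keyBound_norm_sub_sq _ _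
      have e2 : ‖ι (Ex (star (a j) * Y x - Y x * star (a j)))‖ ^ 2
          ≤ 2 * ‖ι (Ex (a j * star (Y x)))‖ ^ 2 + 2 * ‖ι (Ex (star (Y x) * a j))‖ ^ 2 := by
        have e3 : star (a j) * Y x - Y x * star (a j)
            = star (star (Y x) * a j - a j * star (Y x)) := by
          rw [star_sub, star_mul (star (Y x)) (a j), star_mul (a j) (star (Y x)), star_star]
        rw [e3, hE.star_apply hι, hι.norm_star, map_sub, map_sub]
        have := keyBound_norm_sub_sq (ι (Ex (star (Y x) * a j))) (ι (Ex (a j * star (Y x))))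
        linarith
      have := mul_le_mul_of_nonneg_left (add_le_add e1 e2) (hl j)
      refine this.trans (le_of_eq ?_)
      ring
    refine (Finset.sum_le_sum fun j _ => hj j).trans ?_
    rw [Finset.sum_add_distrib, Finset.sum_add_distrib, Finset.sum_add_distrib,
      ← Finset.mul_sum, ← Finset.mul_sum, ← Finset.mul_sum, ← Finset.mul_sum]
    linarith
  -- the summed inequality
  have hsoc : ∀ j, l j * ∑ x ∈ F,
      ((inner ℂ (ι (a j * P x - P x * a j)) (ι (a j * Y x - Y x * a j))).re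
        + (inner ℂ (ι (star (a j) * P x - P x * star (a j)))
          (ι (star (a j) * Y x - Y x * star (a j)))).re)
      ≤ l j * (∑ x ∈ F, (‖ι (Ex (a j * Y x - Y x * a j))‖ ^ 2
          + ‖ι (Ex (star (a j) * Y x - Y x * star (a j)))‖ ^ 2)
        + 2 * L * ∑ s ∈ S, (κ * ‖ι (a j)‖ ^ 2 + ‖ι (a j - α s (a j))‖ ^ 2 / κ)
        + 2 * (∑' n, c n) * ‖ι (a j)‖ ^ 2) := fun j =>
    mul_le_mul_of_nonneg_left
      (soc_general hι hα hE F S hL hc hcs hy hu huK hmin hκ (haK j)) (hl j)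
  have hC : 0 ≤ ∑' n, c n := tsum_nonneg hc
  have htot := Finset.sum_le_sum fun j (_ : j ∈ Finset.univ) => hsoc j
  calc ∑ x ∈ F, (4 * ‖ι (P x)‖ ^ 2 - 8 * δ)
      ≤ ∑ x ∈ F, ∑ j, l j * ((inner ℂ (ι (a j * P x - P x * a j))
          (ι (a j * Y x - Y x * a j))).re
        + (inner ℂ (ι (star (a j) * P x - P x * star (a j)))
          (ι (star (a j) * Y x - Y x * star (a j)))).re) := Finset.sum_le_sum hleft
    _ = ∑ j, l j * ∑ x ∈ F,
      ((inner ℂ (ι (a j * P x - P x * a j)) (ι (a j * Y x - Y x * a j))).re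
        + (inner ℂ (ι (star (a j) * P x - P x * star (a j)))
          (ι (star (a j) * Y x - Y x * star (a j)))).re) := by
        rw [Finset.sum_comm]
        refine Finset.sum_congr rfl fun j _ => ?_
        rw [Finset.mul_sum]
    _ ≤ ∑ j, l j * (∑ x ∈ F, (‖ι (Ex (a j * Y x - Y x * a j))‖ ^ 2
          + ‖ι (Ex (star (a j) * Y x - Y x * star (a j)))‖ ^ 2)
        + 2 * L * ∑ s ∈ S, (κ * ‖ι (a j)‖ ^ 2 + ‖ι (a j - α s (a j))‖ ^ 2 / κ)
        + 2 * (∑' n, c n) * ‖ι (a j)‖ ^ 2) := htot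
    _ = ∑ x ∈ F, ∑ j, l j * (‖ι (Ex (a j * Y x - Y x * a j))‖ ^ 2
          + ‖ι (Ex (star (a j) * Y x - Y x * star (a j)))‖ ^ 2)
        + 2 * L * ∑ s ∈ S, (κ * ∑ j, l j * ‖ι (a j)‖ ^ 2
          + (∑ j, l j * ‖ι (a j - α s (a j))‖ ^ 2) / κ)
        + 2 * (∑' n, c n) * ∑ j, l j * ‖ι (a j)‖ ^ 2 := by
        have e1 : ∑ x ∈ F, ∑ j, l j * (‖ι (Ex (a j * Y x - Y x * a j))‖ ^ 2
          + ‖ι (Ex (star (a j) * Y x - Y x * star (a j)))‖ ^ 2)
          = ∑ j, l j * ∑ x ∈ F, (‖ι (Ex (a j * Y x - Y x * a j))‖ ^ 2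
          + ‖ι (Ex (star (a j) * Y x - Y x * star (a j)))‖ ^ 2) := by
          rw [Finset.sum_comm]
          refine Finset.sum_congr rfl fun j _ => ?_
          rw [Finset.mul_sum]
        have e2 : ∑ s ∈ S, (κ * ∑ j, l j * ‖ι (a j)‖ ^ 2
          + (∑ j, l j * ‖ι (a j - α s (a j))‖ ^ 2) / κ)
          = ∑ j, l j * ∑ s ∈ S, (κ * ‖ι (a j)‖ ^ 2 + ‖ι (a j - α s (a j))‖ ^ 2 / κ) := by
          have e3 : ∀ s ∈ S, (κ * ∑ j, l j * ‖ι (a j)‖ ^ 2
              + (∑ j, l j * ‖ι (a j - α s (a j))‖ ^ 2) / κ)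
              = ∑ j, l j * (κ * ‖ι (a j)‖ ^ 2 + ‖ι (a j - α s (a j))‖ ^ 2 / κ) := by
            intro s _
            rw [Finset.mul_sum, Finset.sum_div, ← Finset.sum_add_distrib]
            refine Finset.sum_congr rfl fun j _ => ?_
            ring
          rw [Finset.sum_congr rfl e3, Finset.sum_comm]
          refine Finset.sum_congr rfl fun j _ => ?_
          rw [Finset.mul_sum]
        rw [e1, e2, Finset.mul_sum, Finset.mul_sum, ← Finset.sum_add_distrib,
          ← Finset.sum_add_distrib]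
        refine Finset.sum_congr rfl fun j _ => ?_
        ring
    _ ≤ ∑ _x ∈ F, (8 * δ) + 2 * L * ∑ _s ∈ S, (κ * (1 + δ) + δ / κ)
        + 2 * (∑' n, c n) * (1 + δ) := by
        refine add_le_add (add_le_add (Finset.sum_le_sum hEx) ?_) ?_
        · refine mul_le_mul_of_nonneg_left (Finset.sum_le_sum fun s hs => ?_) (by positivity)
          refine add_le_add (mul_le_mul_of_nonneg_left hN hκ.le) ?_
          exact div_le_div_of_nonneg_right (h2 s hs) hκ.le
        · exact mul_le_mul_of_nonneg_left hN (by positivity)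

theorem key_bound {ι : A →ₗ[ℂ] E} (hι : IsTracial ι) {α : G → A →⋆ₐ[ℂ] A} (hα : IsAct ι α)
    {K : Subgroup G} {Ex : A →ₗ[ℂ] A} (hE : IsExp ι α ⊤ Ex) (hG : GenericSlow ι α K Ex)
    (F : Finset A) (hF : ∀ x ∈ F, tr ι x = 0) (S : Finset G)
    {L : ℝ} (hL : 0 ≤ L) {c : ℕ → ℝ} (hc : ∀ n, 0 ≤ c n) (hcs : Summable c) {y : ℕ → A}
    (hy : ∀ n, y n ∈ unitary A) {u : A} (hu : u ∈ unitary A) (huK : u ∈ fixedAlg α K)
    (hmin : ∀ w ∈ unitary A, w ∈ fixedAlg α K →
      Psi ι α Ex F S L c y u ≤ Psi ι α Ex F S L c y w) :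
    2 * ∑ x ∈ F, ‖ι (Ex (u * x * star u))‖ ^ 2 ≤ ∑' n, c n := by
  have hC : 0 ≤ ∑' n, c n := tsum_nonneg hc
  set C := ∑' n, c n with hCdef
  set Z := ∑ x ∈ F, ‖ι (Ex (u * x * star u))‖ ^ 2 with hZ
  have hmain : ∀ t : ℝ, 0 < t → t ≤ 1 →
      4 * Z ≤ 2 * C + t * (16 * F.card + 6 * L * S.card + 2 * C) := by
    intro t ht ht1
    have h1 := key_bound_aux hι hα hE hG F hF S hL hc hcs hy hu huK hmin
      (δ := t ^ 2) (κ := t) (by positivity) ht
    rw [Finset.sum_sub_distrib, ← Finset.mul_sum] at h1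
    simp only [Finset.sum_const, nsmul_eq_mul] at h1
    rw [← hCdef, ← hZ] at h1
    have h2 : t ^ 2 / t = t := by field_simp
    rw [h2] at h1
    have ht2 : t ^ 2 ≤ t := by nlinarith
    have hSc : (0 : ℝ) ≤ S.card := Nat.cast_nonneg _
    have hFc : (0 : ℝ) ≤ F.card := Nat.cast_nonneg _
    have a1 : (F.card : ℝ) * t ^ 2 ≤ F.card * t := mul_le_mul_of_nonneg_left ht2 hFc
    have a2 : L * (S.card * (t * (1 + t ^ 2) + t)) ≤ L * (S.card * (3 * t)) := by
      refine mul_le_mul_of_nonneg_left (mul_le_mul_of_nonneg_left ?_ hSc) hL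
      nlinarith
    have a3 : C * t ^ 2 ≤ C * t := mul_le_mul_of_nonneg_left ht2 hC
    nlinarith
  set M := 16 * (F.card : ℝ) + 6 * L * S.card + 2 * C with hM
  have hM0 : 0 ≤ M := by positivity
  have h4 : 4 * Z ≤ 2 * C := by
    by_contra hcon
    push Not at hcon
    have hd : 0 < 4 * Z - 2 * C := by linarith
    set t := min 1 ((4 * Z - 2 * C) / (2 * (M + 1))) with ht
    have ht0 : 0 < t := lt_min one_pos (by positivity)
    have h5 := hmain t ht0 (min_le_left _ _)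
    have h6 : t * M ≤ (4 * Z - 2 * C) / 2 := by
      have h7 : t ≤ (4 * Z - 2 * C) / (2 * (M + 1)) := min_le_right _ _
      have h8 : t * (2 * (M + 1)) ≤ 4 * Z - 2 * C := by
        rwa [le_div_iff₀ (by positivity)] at h7
      nlinarith
    linarith
  linarith

end Pool.Agent.ErgLC
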