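import Pool.Agent.Lib_MP_418a80_eg.ExpExist
import Pool.Agent.Lib_MP_418a80_eg.ExpProps

/-!
# EG17: the sequence of unitaries

`KeyPropOn` is the conclusion of the key lemma for a class `Adm` of subsets `S` of `G` (finite sets
for groups with a compact open subgroup, compact sets for `ℝ^d`).

PROOF.  State: a pair `(w, S)` with `w` a unitary of `fixedAlg α K`, `S` an admissible subset of `G`;
start `w 0 = 1`, `S 0 = C 0`.  Step `n`: apply `KeyPropOn` to `F = {w d_j w* : j ≤ n}`, `S n`,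
`ε = (1/2)^n`, get `u`; `w' = u w`; `w' * star w = u`.  `‖ι (Ex (w' d_j w'*))‖ ≤ (1/2)^n`
(`j ≤ n`), and `exists_average` (`L = ⊤`, `J = Fin (n+1)`, `ε = (1/2)^n`) gives averages with
`‖ι (∑ l_i α_{g_i}(w' d_j w'*))‖ ≤ 2 (1/2)^n`; `S (n+1) = S n ∪ {g_i} ∪ C (n+1)`.
-/

namespace Pool.Agent.ErgLC

open Filter Topology

universe u v w

variable {A : Type u} [CStarAlgebra A] {E : Type v} [NormedAddCommGroup E]
  [InnerProductSpace ℂ E] {G : Type w} [Group G]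

/-- the conclusion of the key lemma, for the subsets of `G` in the class `Adm` -/
def KeyPropOn (ι : A →ₗ[ℂ] E) (α : G → A →⋆ₐ[ℂ] A) (K : Subgroup G) (Ex : A →ₗ[ℂ] A)
    (Adm : Set G → Prop) : Prop :=
  ∀ (F : Finset A), (∀ x ∈ F, tr ι x = 0) → ∀ S : Set G, Adm S → ∀ ε : ℝ, 0 < ε →
    ∃ u ∈ unitary A, u ∈ fixedAlg α K ∧ (∀ s ∈ S, ‖ι (α s u - u)‖ ≤ ε) ∧
      ∀ x ∈ F, ‖ι (Ex (u * x * star u))‖ ≤ ε

omit [Group G] in
theorem sequence_adm {Adm : Set G → Prop} (hunion : ∀ S T, Adm S → Adm T → Adm (S ∪ T))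
    (hsing : ∀ g, Adm {g}) {S : Set G} (hS : Adm S) (t : Finset G) : Adm (S ∪ (t : Set G)) := by
  classical
  induction t using Finset.induction_on with
  | empty => simpa using hS
  | insert a t _ ih =>
    have h1 : S ∪ ((insert a t : Finset G) : Set G) = (S ∪ (t : Set G)) ∪ {a} := by
      rw [Finset.coe_insert, Set.union_assoc, Set.union_singleton]
    rw [h1]
    exact hunion _ _ ih (hsing a)

theorem sequence_step {ι : A →ₗ[ℂ] E} (hι : IsTracial ι) {α : G → A →⋆ₐ[ℂ] A}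
    (hα : IsAct ι α) {K : Subgroup G} {Ex : A →ₗ[ℂ] A}
    (hE : IsExp ι α ⊤ Ex) {Adm : Set G → Prop} (hkey : KeyPropOn ι α K Ex Adm)
    (hunion : ∀ S T, Adm S → Adm T → Adm (S ∪ T)) (hsing : ∀ g, Adm {g})
    (C : ℕ → Set G) (hC : ∀ n, Adm (C n)) (d : ℕ → A) (hd : ∀ n, tr ι (d n) = 0)
    (n : ℕ) {w : A} {S : Set G} (hw : w ∈ unitary A) (hwK : w ∈ fixedAlg α K) (hS : Adm S) :
    ∃ (w' : A) (S' : Set G), w' ∈ unitary A ∧ w' ∈ fixedAlg α K ∧ Adm S' ∧ S ⊆ S' ∧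
      C (n + 1) ⊆ S' ∧ (∀ s ∈ S, ‖ι (α s (w' * star w) - w' * star w)‖ ≤ (1 / 2) ^ n) ∧
      ∃ (I : Type) (_ : Fintype I) (g : I → G) (l : I → ℝ),
        (∀ i, g i ∈ S') ∧ (∀ i, 0 ≤ l i) ∧ ∑ i, l i = 1 ∧
        ∀ j ≤ n, ‖ι (∑ i, (l i : ℂ) • α (g i) (w' * d j * star w'))‖
          ≤ 2 * (1 / 2) ^ n := by
  classical
  have hε : (0 : ℝ) < (1 / 2) ^ n := by positivity
  set F : Finset A := (Finset.range (n + 1)).image fun j => w * d j * star w with hF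
  have hF0 : ∀ x ∈ F, tr ι x = 0 := by
    intro x hx
    rw [hF, Finset.mem_image] at hx
    obtain ⟨j, -, rfl⟩ := hx
    rw [hι.tr_mul_comm, ← mul_assoc, (Unitary.mem_iff.1 hw).1, one_mul, hd j]
  obtain ⟨u, hu, huK, h1, h2⟩ := hkey F hF0 S hS _ hε
  have hw' : u * w ∈ unitary A := mul_mem hu hw
  have e1 : u * w * star w = u := by
    rw [mul_assoc, (Unitary.mem_iff.1 hw).2, mul_one]
  obtain ⟨I, hI, g, l, -, hl, hl1, h3⟩ := exists_average hι hα hE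
    (J := Fin (n + 1)) (fun j => u * w * d j * star (u * w)) hε
  refine ⟨u * w, (S ∪ ((Finset.univ.image g : Finset G) : Set G)) ∪ C (n + 1), hw',
    mul_mem huK hwK, hunion _ _ (sequence_adm hunion hsing hS _) (hC _),
    fun s hs => Or.inl (Or.inl hs), fun s hs => Or.inr hs, fun s hs => ?_,
    I, hI, g, l, fun i => Or.inl (Or.inr ?_), hl, hl1, fun j hj => ?_⟩
  · rw [e1]; exact h1 s hs
  · rw [Finset.mem_coe]
    exact Finset.mem_image_of_mem _ (Finset.mem_univ i)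
  · have h4 := h3 ⟨j, Nat.lt_succ_of_le hj⟩
    have e2 : u * w * d j * star (u * w) = u * (w * d j * star w) * star u := by
      rw [star_mul]; noncomm_ring
    have h5 : ‖ι (Ex (u * w * d j * star (u * w)))‖ ≤ (1 / 2) ^ n := by
      rw [e2]
      exact h2 _ (Finset.mem_image_of_mem _ (Finset.mem_range.2 (Nat.lt_succ_of_le hj)))
    have h6 : ι (∑ i, (l i : ℂ) • α (g i) (u * w * d j * star (u * w)))
        = ι (∑ i, (l i : ℂ) • α (g i) (u * w * d j * star (u * w))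
            - Ex (u * w * d j * star (u * w))) + ι (Ex (u * w * d j * star (u * w))) := by
      rw [← map_add, sub_add_cancel]
    rw [h6]
    refine (norm_add_le _ _).trans ?_
    have h4' : ‖ι (∑ i, (l i : ℂ) • α (g i) (u * w * d j * star (u * w))
            - Ex (u * w * d j * star (u * w)))‖ ≤ (1 / 2) ^ n := h4
    linarith

theorem exists_sequence {ι : A →ₗ[ℂ] E} (hι : IsTracial ι) {α : G → A →⋆ₐ[ℂ] A}
    (hα : IsAct ι α) {K : Subgroup G} {Ex : A →ₗ[ℂ] A}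
    (hE : IsExp ι α ⊤ Ex) {Adm : Set G → Prop} (hkey : KeyPropOn ι α K Ex Adm)
    (hunion : ∀ S T, Adm S → Adm T → Adm (S ∪ T)) (hsing : ∀ g, Adm {g})
    (C : ℕ → Set G) (hC : ∀ n, Adm (C n)) (d : ℕ → A) (hd : ∀ n, tr ι (d n) = 0) :
    ∃ (w : ℕ → A) (S : ℕ → Set G),
      (∀ n, w n ∈ unitary A) ∧ (∀ n, w n ∈ fixedAlg α K) ∧ (∀ n, S n ⊆ S (n + 1)) ∧
      (∀ n, C n ⊆ S n) ∧
      (∀ n, ∀ s ∈ S n,
        ‖ι (α s (w (n + 1) * star (w n)) - w (n + 1) * star (w n))‖ ≤ (1 / 2) ^ n) ∧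
      ∀ n, ∃ (I : Type) (_ : Fintype I) (g : I → G) (l : I → ℝ),
        (∀ i, g i ∈ S (n + 1)) ∧ (∀ i, 0 ≤ l i) ∧ ∑ i, l i = 1 ∧
        ∀ j ≤ n, ‖ι (∑ i, (l i : ℂ) • α (g i) (w (n + 1) * d j * star (w (n + 1))))‖
          ≤ 2 * (1 / 2) ^ n := by
  have h0 : (1 : A) ∈ unitary A ∧ (1 : A) ∈ fixedAlg α K ∧ Adm (C 0) :=
    ⟨one_mem _, one_mem _, hC 0⟩
  have step : ∀ (n : ℕ) (p : {p : A × Set G // p.1 ∈ unitary A ∧ p.1 ∈ fixedAlg α K ∧ Adm p.2}),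
      ∃ p' : {p : A × Set G // p.1 ∈ unitary A ∧ p.1 ∈ fixedAlg α K ∧ Adm p.2},
        p.1.2 ⊆ p'.1.2 ∧ C (n + 1) ⊆ p'.1.2 ∧
        (∀ s ∈ p.1.2, ‖ι (α s (p'.1.1 * star p.1.1) - p'.1.1 * star p.1.1)‖ ≤ (1 / 2) ^ n) ∧
        ∃ (I : Type) (_ : Fintype I) (g : I → G) (l : I → ℝ),
          (∀ i, g i ∈ p'.1.2) ∧ (∀ i, 0 ≤ l i) ∧ ∑ i, l i = 1 ∧
          ∀ j ≤ n, ‖ι (∑ i, (l i : ℂ) • α (g i) (p'.1.1 * d j * star p'.1.1))‖
            ≤ 2 * (1 / 2) ^ n := by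
    rintro n ⟨⟨w, S⟩, hw, hwK, hS⟩
    obtain ⟨w', S', a1, a2, a3, a4, a5, a6, a7⟩ :=
      sequence_step hι hα hE hkey hunion hsing C hC d hd n hw hwK hS
    exact ⟨⟨(w', S'), a1, a2, a3⟩, a4, a5, a6, a7⟩
  choose next hnext using step
  let f : ℕ → {p : A × Set G // p.1 ∈ unitary A ∧ p.1 ∈ fixedAlg α K ∧ Adm p.2} :=
    fun n => Nat.rec ⟨(1, C 0), h0⟩ (fun n p => next n p) n
  have hf : ∀ n, f (n + 1) = next n (f n) := fun n => rfl
  refine ⟨fun n => (f n).1.1, fun n => (f n).1.2, fun n => (f n).2.1, fun n => (f n).2.2.1,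
    fun n => ?_, fun n => ?_, fun n => ?_, fun n => ?_⟩
  · show (f n).1.2 ⊆ (f (n + 1)).1.2
    rw [hf]; exact (hnext n (f n)).1
  · cases n with
    | zero => exact subset_refl _
    | succ n =>
      show C (n + 1) ⊆ (f (n + 1)).1.2
      rw [hf]; exact (hnext n (f n)).2.1
  · show ∀ s ∈ (f n).1.2, ‖ι (α s ((f (n + 1)).1.1 * star (f n).1.1)
      - (f (n + 1)).1.1 * star (f n).1.1)‖ ≤ (1 / 2) ^ n
    rw [hf]; exact (hnext n (f n)).2.2.1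
  · show ∃ (I : Type) (_ : Fintype I) (g : I → G) (l : I → ℝ),
        (∀ i, g i ∈ (f (n + 1)).1.2) ∧ (∀ i, 0 ≤ l i) ∧ ∑ i, l i = 1 ∧
        ∀ j ≤ n, ‖ι (∑ i, (l i : ℂ) • α (g i) ((f (n + 1)).1.1 * d j * star (f (n + 1)).1.1))‖
          ≤ 2 * (1 / 2) ^ n
    rw [hf]; exact (hnext n (f n)).2.2.2

end Pool.Agent.ErgLC
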