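import Pool.Agent.Lib_MP_418a80_eg.Generic
import Pool.Agent.Lib_MP_418a80_eg.Key
import Pool.Agent.Lib_MP_418a80_eg.Sequence
import Pool.Agent.Lib_MP_418a80_eg.Cocycle

/-!
# EG19: the abstract theorem
-/

namespace Pool.Agent.ErgLC

open Filter Topology

universe u v w

variable {A : Type u} [CStarAlgebra A] {E : Type v} [NormedAddCommGroup E]
  [InnerProductSpace ℂ E] {G : Type w} [Group G]

theorem main_abstract {ι : A →ₗ[ℂ] E} (hι : IsTracial ι) {α : G → A →⋆ₐ[ℂ] A}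
    (hα : IsAct ι α) {K : Subgroup G} [Countable (G ⧸ K)] (hinf : Infinite (G ⧸ K))
    (hI : Intertwine α K) (hF : FolnerCosets K) (d : ℕ → A) (hd : ∀ n, tr ι (d n) = 0)
    (hdense : ∀ x ∈ fixedAlg α K, tr ι x = 0 → ∀ ε > 0, ∃ n, ‖ι (x - d n)‖ ≤ ε) :
    ∃ v : G → A, (∀ g, v g ∈ unitary A) ∧ (∀ g h, v (g * h) = v g * α g (v h)) ∧
      (∀ k ∈ K, v k = 1) ∧
      ∀ x, (∀ g, v g * α g x * star (v g) = x) → ∃ c : ℂ, x = c • (1 : A) := by
  obtain ⟨Ex, hE⟩ := exists_exp hι hα (⊤ : Subgroup G)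
  have hG := genericSlow hι hα hI hE hinf hF
  have hkey : KeyPropOn ι α K Ex Set.Finite := by
    intro F hF S hS ε hε
    obtain ⟨u, hu, huK, h1, h2⟩ := key hι hα hE hG F hF hS.toFinset hε
    exact ⟨u, hu, huK, fun s hs => h1 s (hS.mem_toFinset.2 hs), h2⟩
  obtain ⟨e, he⟩ := exists_surjective_nat (G ⧸ K)
  obtain ⟨w, S, h1, h2, h3, h4, h5, h6⟩ := exists_sequence hι hα hE hkey
    (fun S T hS hT => hS.union hT) (fun g => Set.finite_singleton g)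
    (fun n => {(e n).out}) (fun n => Set.finite_singleton _) d hd
  have hcov : ∀ g : G, ∃ n, ∃ s ∈ S n, s⁻¹ * g ∈ K := by
    intro g
    obtain ⟨n, hn⟩ := he (g : G ⧸ K)
    refine ⟨n, (e n).out, h4 n rfl, ?_⟩
    rw [← QuotientGroup.eq, QuotientGroup.out_eq', hn]
  obtain ⟨v, hv1, hv2, hv3, hv4⟩ := exists_limit_cocycle hι hα w S h1 h2 h3 hcov h5
  exact ⟨v, hv1, hv2, hv3,
    fun x hx => ergodic_of_limit hι hα d hdense w S h1 h6 v hv1 hv3 hv4 x hx⟩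

end Pool.Agent.ErgLC
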