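import Pool.Agent.Lib_MP_418a80_eg.Setup
import Pool.Agent.Lib_MP_418a80_ab.TraceUniq

/-!
# EG21: automorphisms of a factor preserve the trace (from the abelian part, `TraceUniq`)
-/

namespace Pool.Agent.ErgLC

open Filter Topology

universe u v w

variable {A : Type u} [CStarAlgebra A] {E : Type v} [NormedAddCommGroup E]
  [InnerProductSpace ℂ E]

/-- composition with an isometry -/
theorem IsTracial.comp {E' : Type*} [NormedAddCommGroup E'] [InnerProductSpace ℂ E']
    {ι : A →ₗ[ℂ] E} (h : IsTracial ι) (j : E →ₗᵢ[ℂ] E') : IsTracial (j.toLinearMap ∘ₗ ι) := by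
  have hnm : ∀ a, ‖(j.toLinearMap ∘ₗ ι) a‖ = ‖ι a‖ := fun a => j.norm_map _
  have hi : ∀ a b, inner ℂ ((j.toLinearMap ∘ₗ ι) a) ((j.toLinearMap ∘ₗ ι) b) =
      inner ℂ (ι a) (ι b) := fun a b => j.inner_map_map _ _
  refine ⟨?_, ?_, ?_, ?_, ?_, ?_⟩
  · rw [hnm, h.norm_one]
  · intro a b
    rw [hnm, hnm]; exact h.norm_mul_le a b
  · intro a b c
    rw [hi, hi]; exact h.inner_mul a b c
  · intro a b
    rw [hi, hi]; exact h.inner_star a b
  · intro a ha
    apply h.injective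
    have := hnm a
    rw [ha, norm_zero] at this
    exact norm_eq_zero.1 this.symm
  · intro x C hC hx
    have h1 : CauchySeq fun n => ι (x n) := by
      rw [Metric.cauchySeq_iff] at hx ⊢
      intro ε hε
      obtain ⟨N, hN⟩ := hx ε hε
      refine ⟨N, fun m hm n hn => ?_⟩
      have h2 := hN m hm n hn
      rw [dist_eq_norm, ← map_sub] at h2 ⊢
      rwa [hnm] at h2
    obtain ⟨y, hy⟩ := h.complete x C hC h1
    exact ⟨y, (j.continuous.tendsto _).comp hy⟩

/-- the `L²`-space as a complete space -/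
abbrev L2c (ι : A →ₗ[ℂ] E) : Type v :=
  (LinearMap.range (UniformSpace.Completion.toComplₗᵢ.toLinearMap ∘ₗ ι :
    A →ₗ[ℂ] UniformSpace.Completion E)).topologicalClosure

instance (ι : A →ₗ[ℂ] E) : CompleteSpace (L2c ι) :=
  (Submodule.isClosed_topologicalClosure _).completeSpace_coe

/-- the map into `L2c` -/
noncomputable def iotaC (ι : A →ₗ[ℂ] E) : A →ₗ[ℂ] L2c ι :=
  LinearMap.codRestrict _ (UniformSpace.Completion.toComplₗᵢ.toLinearMap ∘ₗ ι) fun a =>
    Submodule.le_topologicalClosure _ ⟨a, rfl⟩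

theorem norm_iotaC (ι : A →ₗ[ℂ] E) (a : A) : ‖iotaC ι a‖ = ‖ι a‖ :=
  (UniformSpace.Completion.toComplₗᵢ (𝕜 := ℂ)).norm_map _

theorem inner_iotaC (ι : A →ₗ[ℂ] E) (a b : A) :
    inner ℂ (iotaC ι a) (iotaC ι b) = inner ℂ (ι a) (ι b) :=
  (UniformSpace.Completion.toComplₗᵢ (𝕜 := ℂ)).inner_map_map (ι a) (ι b)

/-- the tracial algebra in the sense of the abelian part -/
noncomputable def trAlg {ι : A →ₗ[ℂ] E} (h : IsTracial ι) : AbCoc.TrAlg A (L2c ι) where
  ι := LinearMap.mkContinuous (iotaC ι) 1 fun a => by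
    rw [one_mul, norm_iotaC]; exact h.norm_le a
  inj := by
    intro a b hab
    have h1 : iotaC ι a = iotaC ι b := hab
    have h2 : ‖ι (a - b)‖ = 0 := by rw [← norm_iotaC, map_sub, h1, sub_self, norm_zero]
    exact sub_eq_zero.1 (h.injective _ (norm_eq_zero.1 h2))
  dense := by
    have h1 : Dense (Set.range (iotaC ι)) := by
      rw [Metric.dense_iff]
      intro x r hr
      have h2 : (x : UniformSpace.Completion E) ∈ closure ((LinearMap.range
        (UniformSpace.Completion.toComplₗᵢ.toLinearMap ∘ₗ ι :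
          A →ₗ[ℂ] UniformSpace.Completion E) : Submodule ℂ (UniformSpace.Completion E)) :
          Set (UniformSpace.Completion E)) := x.2
      obtain ⟨_, ⟨a, rfl⟩, ha⟩ := Metric.mem_closure_iff.1 h2 r hr
      refine ⟨iotaC ι a, ?_, a, rfl⟩
      rw [Metric.mem_ball, dist_comm]
      exact ha
    exact h1
  norm_one := by
    change ‖iotaC ι 1‖ = 1
    rw [norm_iotaC, h.norm_one]
  left := fun a b c => by
    change inner ℂ (iotaC ι _) (iotaC ι _) = inner ℂ (iotaC ι _) (iotaC ι _)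
    rw [inner_iotaC, inner_iotaC]
    exact h.inner_mul c a b
  tr := fun a b => by
    change inner ℂ (iotaC ι _) (iotaC ι _) = inner ℂ (iotaC ι _) (iotaC ι _)
    rw [inner_iotaC, inner_iotaC]
    exact (h.inner_star b a).symm
  mul_le := fun a b => by
    change ‖iotaC ι _‖ ≤ _ * ‖iotaC ι _‖
    rw [norm_iotaC, norm_iotaC]
    exact h.norm_mul_le a b
  complete := by
    intro C x hC hx
    change CauchySeq (fun n => iotaC ι (x n)) at hx
    change ∃ y, Tendsto (fun n => iotaC ι (x n)) atTop (𝓝 (iotaC ι y))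
    have h1 : CauchySeq fun n => ι (x n) := by
      rw [Metric.cauchySeq_iff] at hx ⊢
      intro ε hε
      obtain ⟨N, hN⟩ := hx ε hε
      refine ⟨N, fun m hm n hn => ?_⟩
      have h2 := hN m hm n hn
      rw [dist_eq_norm, ← map_sub] at h2 ⊢
      rwa [norm_iotaC] at h2
    obtain ⟨y, hy⟩ := h.complete x C hC h1
    refine ⟨y, ?_⟩
    rw [tendsto_iff_norm_sub_tendsto_zero] at hy ⊢
    refine hy.congr fun n => ?_
    rw [← map_sub, ← map_sub, norm_iotaC]

theorem tr_automorphism {ι : A →ₗ[ℂ] E} (h : IsTracial ι)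
    (hfac : ∀ x : A, (∀ y, x * y = y * x) → ∃ c : ℂ, x = c • (1 : A))
    (θ θ' : A →⋆ₐ[ℂ] A) (h1 : ∀ x, θ (θ' x) = x) (h2 : ∀ x, θ' (θ x) = x) (x : A) :
    tr ι (θ x) = tr ι x := by
  have h3 := AbCoc.trace_aut (trAlg h) hfac θ θ' h1 h2 x
  change inner ℂ (iotaC ι 1) (iotaC ι _) = inner ℂ (iotaC ι 1) (iotaC ι _) at h3
  rw [inner_iotaC, inner_iotaC] at h3
  exact h3

end Pool.Agent.ErgLC
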