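import Pool.Agent.Lib_MP_418a80_eg.StateEq
import Pool.Agent.Lib_MP_418a80_eg.Irr
import Pool.Agent.Lib_MP_418a80_eg.Intertwine

/-!
# EG26: strict outerness gives `Intertwine`

PROOF.  Get `lam`, `P` from `exists_lam`, `exists_piHom`; `lam 1 = 1` (from `hmul`, `hstar`: or a.e.).
`piOps M α μ = range P`, `translationOps H μ = range lam` (a.e. equality of the values).
`B = {P x * T | x, T ∈ Set.centralizer (piOps ∪ translationOps)}` satisfies the hypotheses of
`proportional_of_vector_states` (`hirr`: `T₀` commuting with `B` commutes with `piOps` and is in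
the bicommutant, so a scalar by `IsStrictlyOuter`).
Let `g`, `u` be as in `Intertwine`, `η₀ ∈ H`, `η = indicatorConstLp 2 (K) η₀` (`K` is open and
compact, so measurable of finite positive measure); `lam k η = η` for `k ∈ K`.  `state_eq` and
`proportional_of_vector_states` give `c` with `P u (lam g η) = c • η`, i.e. for a.e. `y`
`α y⁻¹ u (η (g⁻¹ y)) = c • η y`.
If `g ∉ K`: for `y ∈ K` `g⁻¹ y ∉ K`, so `c • η₀ = 0` (`μ K > 0`); for `η₀ ≠ 0` (`H` is nontrivial by
`IsTraceFamily.sum_eq`) `c = 0`, so `P u (lam g η) = 0`, but `P u`, `lam g` are isometric and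
`η ≠ 0`.  So `g ∈ K`, and for a.e. `y ∈ K`: `α y⁻¹ u η₀ = c • η₀`; by continuity of
`y ↦ α y⁻¹ u η₀` and as nonempty open sets have positive measure this holds at `y = 1`:
`u η₀ = c η₀`.  As every vector is an eigenvector of `u`, `u` is a scalar.
-/

namespace Pool.Agent.ErgLC

open Filter Topology MeasureTheory

universe u v

variable {H : Type u} [NormedAddCommGroup H] [InnerProductSpace ℂ H] [CompleteSpace H]
  {G : Type v} [Group G] [TopologicalSpace G] [IsTopologicalGroup G] [MeasurableSpace G]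
  [BorelSpace G] [SecondCountableTopology G]

omit [CompleteSpace H] in
/-- an operator for which every vector is an eigenvector is a scalar -/
theorem scalar_of_eigen (u : H →L[ℂ] H) (h : ∀ x, ∃ c : ℂ, u x = c • x) :
    ∃ c : ℂ, u = c • (1 : H →L[ℂ] H) := by
  by_cases h0 : ∀ x : H, x = 0
  · exact ⟨0, by ext x; rw [h0 x]; simp⟩
  push Not at h0
  obtain ⟨e, he⟩ := h0
  obtain ⟨c, hc⟩ := h e
  refine ⟨c, ?_⟩
  ext x
  obtain ⟨a, ha⟩ := h x
  obtain ⟨b, hb⟩ := h (e + x)
  change u x = c • x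
  have h1 : (b - c) • e = (a - b) • x := by
    have h2 := hb
    rw [map_add, hc, ha, smul_add] at h2
    rw [sub_smul, sub_smul, sub_eq_sub_iff_add_eq_add, ← h2, add_comm]
  by_cases h3 : b - c = 0
  · rw [h3, zero_smul] at h1
    rcases smul_eq_zero.1 h1.symm with h4 | h4
    · rw [ha, sub_eq_zero.1 h4, sub_eq_zero.1 h3]
    · rw [h4, map_zero, smul_zero]
  · have h4 : e = ((b - c)⁻¹ * (a - b)) • x := by
      rw [mul_smul, ← h1, smul_smul, inv_mul_cancel₀ h3, one_smul]
    by_cases h5 : (b - c)⁻¹ * (a - b) = 0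
    · rw [h5, zero_smul] at h4
      exact absurd h4 he
    · have h6 : x = ((b - c)⁻¹ * (a - b))⁻¹ • e := by
        conv_rhs => rw [h4]
        rw [smul_smul, inv_mul_cancel₀ h5, one_smul]
      rw [h6, map_smul, hc, smul_comm]

theorem intertwine_of_strictlyOuter [TopologicalSpace.SeparableSpace H] {M : VonNeumannAlgebra H}
    {α : G → (H →L[ℂ] H) → (H →L[ℂ] H)}
    (hα : IsAction M α) {ξ : ℕ → H} (hξ : IsTraceFamily M ξ)
    (hact : IsAct (iotaM M hξ.summable) (alphaM hα)) (μ : Measure G) [μ.IsHaarMeasure]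
    (hout : IsStrictlyOuter M α μ) {K : Subgroup G} (hKo : IsOpen (K : Set G))
    (hKc : IsCompact (K : Set G)) : Intertwine (alphaM hα) K := by
  obtain ⟨lam, hlam, hls, hlm⟩ := exists_lam H μ
  obtain ⟨P, hP⟩ := exists_piHom hα μ
  have hl1 : lam 1 = 1 := by
    ext1 ζ
    apply Lp.ext
    filter_upwards [hlam 1 ζ] with y hy
    rw [hy, inv_one, one_mul]
    rfl
  have hcov := pi_covariant hα μ hP hlam
  -- the irreducible set of operators
  set B : Set (Lp H 2 μ →L[ℂ] Lp H 2 μ) := {S | ∃ (x : VA M) (T : Lp H 2 μ →L[ℂ] Lp H 2 μ),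
    (∀ y, T * P y = P y * T) ∧ (∀ h, T * lam h = lam h * T) ∧ S = P x * T} with hB
  have hB1 : (1 : Lp H 2 μ →L[ℂ] Lp H 2 μ) ∈ B :=
    ⟨1, 1, fun y => by rw [one_mul, mul_one], fun h => by rw [one_mul, mul_one], by
      rw [map_one, mul_one]⟩
  have hBm : ∀ S ∈ B, ∀ T ∈ B, S * T ∈ B := by
    rintro _ ⟨x, S, hS1, hS2, rfl⟩ _ ⟨y, T, hT1, hT2, rfl⟩
    refine ⟨x * y, S * T, fun z => ?_, fun h => ?_, ?_⟩
    · rw [mul_assoc, hT1, ← mul_assoc, hS1, mul_assoc]
    · rw [mul_assoc, hT2, ← mul_assoc, hS2, mul_assoc]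
    · rw [map_mul, mul_assoc, ← mul_assoc S, hS1, mul_assoc, mul_assoc]
  have hBs : ∀ S ∈ B, star S ∈ B := by
    rintro _ ⟨x, T, hT1, hT2, rfl⟩
    have h1 : ∀ y, star T * P y = P y * star T := by
      intro y
      have h2 := congrArg star (hT1 (star y))
      rw [star_mul, star_mul, map_star, star_star] at h2
      exact h2.symm
    refine ⟨star x, star T, h1, fun h => ?_, ?_⟩
    · have h2 := congrArg star (hT2 h⁻¹)
      rw [star_mul, star_mul, hls, inv_inv] at h2
      exact h2.symm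
    · rw [star_mul, ← map_star, h1]
  have hirr : ∀ T : Lp H 2 μ →L[ℂ] Lp H 2 μ, (∀ S ∈ B, T * S = S * T) →
      ∃ c : ℂ, T = c • (1 : Lp H 2 μ →L[ℂ] Lp H 2 μ) := by
    intro T₀ hT₀
    have hpi : ∀ S ∈ piOps M α μ, ∃ x : VA M, S = P x := by
      rintro S ⟨x, hx, hS⟩
      refine ⟨⟨x, hx⟩, ?_⟩
      ext1 ζ
      apply Lp.ext
      filter_upwards [hS ζ, hP ⟨x, hx⟩ ζ] with y h1 h2
      rw [h1, h2]
    refine hout T₀ ?_ ?_
    · intro S hS
      have h1 : ∀ x, S * P x = P x * S := by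
        intro x
        have h2 : P x ∈ piOps M α μ ∪ translationOps H μ := Or.inl ⟨x, x.2, hP x⟩
        exact (hS _ h2).symm
      have h2 : ∀ h, S * lam h = lam h * S := by
        intro h
        have h3 : lam h ∈ piOps M α μ ∪ translationOps H μ := Or.inr ⟨h, hlam h⟩
        exact (hS _ h3).symm
      have h3 := hT₀ S ⟨1, S, h1, h2, by rw [map_one, one_mul]⟩
      exact h3.symm
    · intro S hS
      obtain ⟨x, rfl⟩ := hpi S hS
      exact hT₀ _ ⟨x, 1, fun y => by rw [one_mul, mul_one], fun h => by rw [one_mul, mul_one], by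
        rw [mul_one]⟩
  intro g u hu hgu
  have hKm : MeasurableSet (K : Set G) := hKo.measurableSet
  have hKf : μ (K : Set G) ≠ ⊤ := hKc.measure_lt_top.ne
  have hK0 : μ (K : Set G) ≠ 0 := (hKo.measure_pos μ ⟨1, K.one_mem⟩).ne'
  -- the key equation for a vector `η₀`
  have key : ∀ η₀ : H, ∃ c : ℂ, P u (lam g (indicatorConstLp 2 hKm hKf η₀)) =
      c • indicatorConstLp 2 hKm hKf η₀ ∧
      ∀ᵐ y ∂μ, α y⁻¹ u ((K : Set G).indicator (fun _ => η₀) (g⁻¹ * y)) =
      c • (K : Set G).indicator (fun _ => η₀) y := by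
    intro η₀
    set η : Lp H 2 μ := indicatorConstLp 2 hKm hKf η₀ with hη
    have hlη : ∀ k ∈ K, lam k η = η := by
      intro k hk
      apply Lp.ext
      have h1 : η =ᵐ[μ] (K : Set G).indicator fun _ => η₀ := indicatorConstLp_coeFn
      have h2 := (measurePreserving_mul_left μ k⁻¹).quasiMeasurePreserving.ae h1
      filter_upwards [hlam k η, h1, h2] with y h3 h4 h5
      rw [h3, h4, h5]
      by_cases hy : y ∈ (K : Set G)
      · rw [Set.indicator_of_mem hy, Set.indicator_of_mem (K.mul_mem (K.inv_mem hk) hy)]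
      · rw [Set.indicator_of_notMem hy, Set.indicator_of_notMem]
        intro h6
        apply hy
        have := K.mul_mem hk h6
        rwa [mul_inv_cancel_left] at this
    obtain ⟨c, hc⟩ := proportional_of_vector_states B hB1 hBm hBs hirr η (P u (lam g η)) (by
      rintro _ ⟨m, T, hT1, hT2, rfl⟩
      have h1 := state_eq (isTracial_iotaM hξ) hact (K := K) P lam hls hlm hl1 hcov
        (fun x y C hC hx ζ => pi_tendsto hα hξ hact μ hP hC hx ζ) hu hgu hlη hT1 hT2 m
      exact h1.symm)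
    refine ⟨c, hc, ?_⟩
    have h1 : η =ᵐ[μ] (K : Set G).indicator fun _ => η₀ := indicatorConstLp_coeFn
    have h2 := (measurePreserving_mul_left μ g⁻¹).quasiMeasurePreserving.ae h1
    have h3 : (P u (lam g η) : G → H) =ᵐ[μ] c • (η : G → H) := by
      rw [hc]; exact Lp.coeFn_smul c η
    filter_upwards [hP u (lam g η), hlam g η, h1, h2, h3] with y a1 a2 a3 a4 a5
    rw [a1, a2, a4, Pi.smul_apply, a3] at a5
    exact a5
  have hpos : ∀ p : G → Prop, (∀ᵐ y ∂μ, p y) → ∃ y ∈ K, p y := by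
    intro p hp
    by_contra hcon
    push Not at hcon
    apply hK0
    refine measure_mono_null ?_ hp
    intro y hy
    exact hcon y hy
  obtain ⟨η₁, hη₁⟩ : ∃ η₁ : H, η₁ ≠ 0 := by
    by_contra hcon
    push Not at hcon
    have h1 := hξ.sum_eq
    simp only [hcon, norm_zero] at h1
    norm_num at h1
  have hgK : g ∈ K := by
    by_contra hg
    obtain ⟨c, hc, hc'⟩ := key η₁
    obtain ⟨y, hyK, hy⟩ := hpos _ hc'
    have h1 : g⁻¹ * y ∉ (K : Set G) := by
      intro h2
      apply hg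
      have h3 := K.mul_mem hyK (K.inv_mem h2)
      rwa [mul_inv_rev, inv_inv, mul_inv_cancel_left] at h3
    rw [Set.indicator_of_notMem h1, Set.indicator_of_mem (by exact hyK), map_zero] at hy
    have hc0 : c = 0 := by
      rcases smul_eq_zero.1 hy.symm with h2 | h2
      · exact h2
      · exact absurd h2 hη₁
    rw [hc0, zero_smul] at hc
    have h2 : indicatorConstLp 2 hKm hKf η₁ = 0 := by
      have h3 : (lam g⁻¹ * (P (star u) * (P u * lam g))) (indicatorConstLp 2 hKm hKf η₁) =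
          indicatorConstLp 2 hKm hKf η₁ := by
        rw [← mul_assoc (P (star u)), ← map_mul, (Unitary.mem_iff.1 hu).1, map_one, one_mul,
          ← hlm, inv_mul_cancel, hl1]
        rfl
      rw [← h3]
      simp only [mul_apply_eq_comp]
      rw [hc, map_zero, map_zero]
    have h3 := norm_indicatorConstLp (hs := hKm) (hμs := hKf) (c := η₁) (p := 2) (by norm_num)
      (by norm_num)
    rw [h2, norm_zero] at h3
    have h4 : 0 < ‖η₁‖ * μ.real (K : Set G) ^ (1 / (2 : ENNReal).toReal) := by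
      have h5 : 0 < μ.real (K : Set G) := ENNReal.toReal_pos hK0 hKf
      have h6 : 0 < ‖η₁‖ := norm_pos_iff.2 hη₁
      positivity
    exact absurd h3 h4.ne
  refine ⟨hgK, ?_⟩
  have heig : ∀ η₀ : H, ∃ c : ℂ, (u : H →L[ℂ] H) η₀ = c • η₀ := by
    intro η₀
    obtain ⟨c, -, hc⟩ := key η₀
    refine ⟨c, ?_⟩
    by_contra hcon
    have hcont : Continuous fun y : G => α y⁻¹ u η₀ :=
      (hα.continuous u u.2 η₀).comp continuous_inv
    have hopen : IsOpen ((K : Set G) ∩ {y | α y⁻¹ u η₀ ≠ c • η₀}) :=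
      hKo.inter (isOpen_ne.preimage hcont)
    have hne : ((K : Set G) ∩ {y | α y⁻¹ u η₀ ≠ c • η₀}).Nonempty := by
      refine ⟨1, K.one_mem, ?_⟩
      rw [Set.mem_ofPred_eq, inv_one, hα.one_act u u.2]
      exact hcon
    have hp := hopen.measure_pos μ hne
    refine hp.ne' (measure_mono_null ?_ hc)
    rintro y ⟨hy1, hy2⟩ hy3
    apply hy2
    have hy4 : α y⁻¹ u ((K : Set G).indicator (fun _ => η₀) (g⁻¹ * y)) =
      c • (K : Set G).indicator (fun _ => η₀) y := hy3
    have hy5 : g⁻¹ * y ∈ (K : Set G) := K.mul_mem (K.inv_mem hgK) hy1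
    rw [Set.indicator_of_mem hy1, Set.indicator_of_mem hy5] at hy4
    exact hy4
  obtain ⟨c, hc⟩ := scalar_of_eigen (u : H →L[ℂ] H) heig
  exact ⟨c, Subtype.ext hc⟩

end Pool.Agent.ErgLC
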