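import Pool.Agent.Lib_MP_418a80_eg.MainAbstract
import Pool.Agent.Lib_MP_418a80_eg.TraceInv
import Pool.Agent.Lib_MP_418a80_eg.VnIntertwine
import Pool.Agent.Lib_MP_418a80_eg.FolnerK
import Pool.Agent.Lib_MP_418a80_eg.Count

/-!
# EG29: the theorem
-/

namespace Pool.Agent.ErgLC

open Filter Topology MeasureTheory

universe u v

variable {H : Type u} [NormedAddCommGroup H] [InnerProductSpace ℂ H] [CompleteSpace H]

theorem isAct_alphaM {G : Type v} [Group G] [TopologicalSpace G] {M : VonNeumannAlgebra H}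
    (hfac : ∀ x ∈ M, (∀ y ∈ M, x * y = y * x) → ∃ c : ℂ, x = c • (1 : H →L[ℂ] H))
    {ξ : ℕ → H} (hξ : IsTraceFamily M ξ)
    {α : G → (H →L[ℂ] H) → (H →L[ℂ] H)} (hα : IsAction M α) :
    IsAct (iotaM M hξ.summable) (alphaM hα) := by
  have h1 : ∀ x, alphaM hα 1 x = x := fun x => Subtype.ext (hα.one_act x x.2)
  have h2 : ∀ g h x, alphaM hα (g * h) x = alphaM hα g (alphaM hα h x) := fun g h x =>
    Subtype.ext (hα.mul_act g h x x.2)
  refine ⟨h1, h2, fun g x => ?_⟩
  refine tr_automorphism (isTracial_iotaM hξ) ?_ (alphaM hα g) (alphaM hα g⁻¹) ?_ ?_ x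
  · intro x hx
    obtain ⟨c, hc⟩ := hfac x x.2 fun y hy => congrArg Subtype.val (hx ⟨y, hy⟩)
    exact ⟨c, Subtype.ext hc⟩
  · intro x
    rw [← h2, mul_inv_cancel, h1]
  · intro x
    rw [← h2, inv_mul_cancel, h1]

theorem main_vn {G : Type v} [Group G] [TopologicalSpace G] [IsTopologicalGroup G]
    [MeasurableSpace G] [BorelSpace G] [SecondCountableTopology G] [T2Space G]
    [LocallyCompactSpace G] [TopologicalSpace.SeparableSpace H] (μ : Measure G) [μ.IsHaarMeasure]
    (hG : ¬ CompactSpace G) (hμ : FolnerCondition μ) (K : Subgroup G)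
    (hKo : IsOpen (K : Set G)) (hKc : IsCompact (K : Set G)) (M : VonNeumannAlgebra H)
    (hM : IsII1Factor M) (α : G → (H →L[ℂ] H) → (H →L[ℂ] H)) (hα : IsAction M α)
    (hout : IsStrictlyOuter M α μ) :
    ∃ v : G → (H →L[ℂ] H), IsCocycle M α v ∧ PerturbationIsErgodic M α v ∧
      ∀ k ∈ K, v k = 1 := by
  obtain ⟨ξ, hξ⟩ := hM.trace
  have hact := isAct_alphaM hM.factor hξ hα
  have hI := intertwine_of_strictlyOuter hα hξ hact μ hout hKo hKc
  have := countable_cosets hKo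
  obtain ⟨d, hd, hdd⟩ := exists_dense_tr_zero hξ
  obtain ⟨v, hv1, hv2, hv3, hv4⟩ := main_abstract (isTracial_iotaM hξ) hact
    (infinite_cosets hKc hG) hI (folnerCosets μ hμ hKo hKc) d hd fun x _ hx => hdd x hx
  refine ⟨fun g => (v g : H →L[ℂ] H), ⟨fun g => (v g).2, fun g => ?_, fun g => ?_, fun g h => ?_,
    fun η => ?_⟩, fun x hx hxg => ?_, fun k hk => ?_⟩
  · exact congrArg Subtype.val (Unitary.mem_iff.1 (hv1 g)).1
  · exact congrArg Subtype.val (Unitary.mem_iff.1 (hv1 g)).2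
  · exact congrArg Subtype.val (hv2 g h)
  · -- locally constant
    have hloc : IsLocallyConstant fun g => (v g : H →L[ℂ] H) := by
      rw [IsLocallyConstant.iff_exists_open]
      intro g
      refine ⟨(fun h => g⁻¹ * h) ⁻¹' (K : Set G), hKo.preimage (continuous_const_mul _), ?_, ?_⟩
      · simp
      · intro h hh
        have h1 : v h = v (g * (g⁻¹ * h)) := by rw [mul_inv_cancel_left]
        rw [h1, hv2, hv3 _ hh, map_one, mul_one]
    exact (hloc.comp fun T : H →L[ℂ] H => T η).continuous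
  · obtain ⟨c, hc⟩ := hv4 ⟨x, hx⟩ fun g => Subtype.ext (hxg g)
    exact ⟨c, congrArg Subtype.val hc⟩
  · exact congrArg Subtype.val (hv3 k hk)

end Pool.Agent.ErgLC
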