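import Pool.Agent.Lib_MP_418a80_eg.VnDefs

/-!
# EG22, EG23: the operators `λ_g` and `π(x)` on `L²(G, H)`

PROOF of `exists_lam`: `x ↦ g⁻¹ x` is measure preserving (`μ` left invariant),
`MeasureTheory.Lp.compMeasurePreservingₗᵢ`; `lam g` has the inverse `lam g⁻¹` and is isometric, so its
adjoint is its inverse.

PROOF of `exists_piHom` (EG22).  For `ζ : Lp H 2 μ` the function `g ↦ α g⁻¹ x (ζ g)` is a.e.-strongly
measurable: `(η, g) ↦ α g⁻¹ x η` is continuous in `η`, and continuous, so strongly measurable, in `g`: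
`stronglyMeasurable_uncurry_of_continuous_of_stronglyMeasurable` (`H` is separable metrizable), then
compose with `g ↦ (ζ g, g)`.  `‖α g⁻¹ x η‖ ≤ ‖x‖ ‖η‖` (`norm_alpha_le (alphaM hα)`), so it is in
`L²` (`MemLp.of_le_mul`); linear in `ζ`, norm `≤ ‖x‖`.  The algebraic properties hold a.e.;
for `star`: `⟨π(x) ζ, ζ'⟩ = ∫ ⟨α g⁻¹ x (ζ g), ζ' g⟩` (`MeasureTheory.L2.inner_def`).

PROOF of `pi_tendsto` (EG23).  `‖P (x n) ζ - P y ζ‖² = ∫ ‖(α g⁻¹ (x n - y)) (ζ g)‖² dμ(g)`.  For fixed `g`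
the integrand tends to `0`: `‖ι (α g⁻¹ (x n - y))‖ = ‖ι (x n - y)‖` (`hact`) and `sot_of_tendsto`;
it is bounded by `(2 C')² ‖ζ g‖²`: dominated convergence.
-/

namespace Pool.Agent.ErgLC

open Filter Topology MeasureTheory

set_option linter.unusedSectionVars false

universe u v

variable {H : Type u} [NormedAddCommGroup H] [InnerProductSpace ℂ H] [CompleteSpace H]
  {G : Type v} [Group G] [TopologicalSpace G] [IsTopologicalGroup G] [MeasurableSpace G]
  [BorelSpace G] [SecondCountableTopology G]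

theorem ae_translate (μ : Measure G) [μ.IsMulLeftInvariant] (s : G) {p : G → Prop}
    (h : ∀ᵐ g ∂μ, p g) : ∀ᵐ g ∂μ, p (s * g) :=
  (measurePreserving_mul_left μ s).quasiMeasurePreserving.ae h

theorem exists_lam (H : Type u) [NormedAddCommGroup H] [InnerProductSpace ℂ H] [CompleteSpace H]
    (μ : Measure G) [μ.IsMulLeftInvariant] :
    ∃ lam : G → (Lp H 2 μ →L[ℂ] Lp H 2 μ),
      (∀ g, ∀ ζ : Lp H 2 μ, lam g ζ =ᵐ[μ] fun y => ζ (g⁻¹ * y)) ∧
      (∀ g, star (lam g) = lam g⁻¹) ∧ ∀ g h, lam (g * h) = lam g * lam h := by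
  set lam : G → (Lp H 2 μ →L[ℂ] Lp H 2 μ) := fun s =>
    (Lp.compMeasurePreservingₗᵢ ℂ (fun g => s⁻¹ * g)
      (measurePreserving_mul_left μ s⁻¹)).toContinuousLinearMap with hlam
  have hae : ∀ g, ∀ ζ : Lp H 2 μ, lam g ζ =ᵐ[μ] fun y => ζ (g⁻¹ * y) := fun g ζ =>
    Lp.coeFn_compMeasurePreserving ζ (measurePreserving_mul_left μ g⁻¹)
  have hmul : ∀ g h, lam (g * h) = lam g * lam h := by
    intro s t
    ext1 ξ
    apply Lp.ext
    have h1 := hae (s * t) ξ
    have h2 := hae s (lam t ξ)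
    have h3 := ae_translate μ s⁻¹ (hae t ξ)
    filter_upwards [h1, h2, h3] with g h1 h2 h3
    change (lam (s * t) ξ) g = (lam s (lam t ξ)) g
    rw [h1, h2, h3, mul_inv_rev, mul_assoc]
  have hinner : ∀ s (ξ η : Lp H 2 μ), inner ℂ (lam s ξ) (lam s η) = inner ℂ ξ η := by
    intro s ξ η
    exact (Lp.compMeasurePreservingₗᵢ ℂ (fun g => s⁻¹ * g)
      (measurePreserving_mul_left μ s⁻¹)).inner_map_map ξ η
  have hone : lam 1 = 1 := by
    ext1 ζ
    apply Lp.ext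
    filter_upwards [hae 1 ζ] with y hy
    rw [hy, inv_one, one_mul]
    rfl
  refine ⟨lam, hae, fun g => ?_, hmul⟩
  symm
  rw [ContinuousLinearMap.star_eq_adjoint, ContinuousLinearMap.eq_adjoint_iff]
  intro ξ η
  have h1 : lam g (lam g⁻¹ ξ) = ξ := by
    have h2 := congrArg (fun S : Lp H 2 μ →L[ℂ] Lp H 2 μ => S ξ) (hmul g g⁻¹)
    rw [mul_inv_cancel, hone] at h2
    exact h2.symm
  rw [← hinner g, h1]

theorem act_norm_le {M : VonNeumannAlgebra H} {α : G → (H →L[ℂ] H) → (H →L[ℂ] H)}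
    (hα : IsAction M α) (g : G) (x : VA M) : ‖α g x‖ ≤ ‖x‖ :=
  NonUnitalStarAlgHom.norm_apply_le (alphaM hα g) x

theorem act_joint {M : VonNeumannAlgebra H} {α : G → (H →L[ℂ] H) → (H →L[ℂ] H)}
    (hα : IsAction M α) (x : VA M) : Continuous fun p : G × H => α p.1 x p.2 := by
  rw [continuous_iff_continuousAt]
  rintro ⟨g0, η0⟩
  rw [ContinuousAt, tendsto_iff_norm_sub_tendsto_zero]
  have h1 : Tendsto (fun p : G × H => ‖x‖ * ‖p.2 - η0‖ + ‖α p.1 x η0 - α g0 x η0‖)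
      (𝓝 (g0, η0)) (𝓝 (‖x‖ * ‖η0 - η0‖ + ‖α g0 x η0 - α g0 x η0‖)) := by
    refine Tendsto.add (Tendsto.const_mul _ (Tendsto.norm ?_)) (Tendsto.norm ?_)
    · exact (continuous_snd.sub continuous_const).tendsto (g0, η0)
    · exact (((hα.continuous x x.2 η0).comp continuous_fst).sub
        continuous_const).tendsto (g0, η0)
  simp only [sub_self, norm_zero, mul_zero, add_zero] at h1
  refine squeeze_zero (fun p => norm_nonneg _) (fun p => ?_) h1
  have e : α p.1 x p.2 - α g0 x η0 = α p.1 x (p.2 - η0) + (α p.1 x η0 - α g0 x η0) := by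
    rw [map_sub]
    abel
  change ‖α p.1 x p.2 - α g0 x η0‖ ≤ _
  rw [e]
  refine (norm_add_le _ _).trans (add_le_add ?_ le_rfl)
  exact ((α p.1 x).le_opNorm _).trans
    (mul_le_mul_of_nonneg_right (act_norm_le hα p.1 x) (norm_nonneg _))

theorem memLp_pi {M : VonNeumannAlgebra H} {α : G → (H →L[ℂ] H) → (H →L[ℂ] H)}
    (hα : IsAction M α) (μ : Measure G) (x : VA M) (ζ : Lp H 2 μ) :
    MemLp (fun g => α g⁻¹ x (ζ g)) 2 μ := by
  refine MemLp.of_le_mul (Lp.memLp ζ) (c := ‖x‖) ?_ ?_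
  · have h1 : Continuous fun p : G × H => α p.1⁻¹ x p.2 :=
      (act_joint hα x).comp ((continuous_inv.comp continuous_fst).prodMk continuous_snd)
    exact h1.comp_aestronglyMeasurable
      (aestronglyMeasurable_id.prodMk (Lp.aestronglyMeasurable ζ))
  · refine Filter.Eventually.of_forall fun g => ?_
    exact ((α g⁻¹ x).le_opNorm _).trans
      (mul_le_mul_of_nonneg_right (act_norm_le hα g⁻¹ x) (norm_nonneg _))

theorem exists_piHom [TopologicalSpace.SeparableSpace H] {M : VonNeumannAlgebra H}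
    {α : G → (H →L[ℂ] H) → (H →L[ℂ] H)} (hα : IsAction M α) (μ : Measure G) :
    ∃ P : VA M →⋆ₐ[ℂ] (Lp H 2 μ →L[ℂ] Lp H 2 μ),
      ∀ (x : VA M) (ζ : Lp H 2 μ), P x ζ =ᵐ[μ] fun g => α g⁻¹ x (ζ g) := by
  set Q : VA M → (Lp H 2 μ →L[ℂ] Lp H 2 μ) := fun x => LinearMap.mkContinuous
    { toFun := fun ξ => (memLp_pi hα μ x ξ).toLp _
      map_add' := by
        intro ξ η
        apply Lp.ext
        have h1 := (memLp_pi hα μ x (ξ + η)).coeFn_toLp
        have h2 := (memLp_pi hα μ x ξ).coeFn_toLp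
        have h3 := (memLp_pi hα μ x η).coeFn_toLp
        filter_upwards [h1, h2, h3, Lp.coeFn_add ξ η,
          Lp.coeFn_add ((memLp_pi hα μ x ξ).toLp _) ((memLp_pi hα μ x η).toLp _)]
          with g h1 h2 h3 h4 h5
        rw [h1, h5, Pi.add_apply, h2, h3, h4, Pi.add_apply, map_add]
      map_smul' := by
        intro c ξ
        apply Lp.ext
        have h1 := (memLp_pi hα μ x (c • ξ)).coeFn_toLp
        have h2 := (memLp_pi hα μ x ξ).coeFn_toLp
        filter_upwards [h1, h2, Lp.coeFn_smul c ξ,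
          Lp.coeFn_smul c ((memLp_pi hα μ x ξ).toLp _)] with g h1 h2 h4 h5
        rw [h1, RingHom.id_apply, h5, Pi.smul_apply, h2, h4, Pi.smul_apply, map_smul] } ‖x‖ (by
    intro ξ
    change ‖(memLp_pi hα μ x ξ).toLp _‖ ≤ ‖x‖ * ‖ξ‖
    refine Lp.norm_le_mul_norm_of_ae_le_mul ?_
    filter_upwards [(memLp_pi hα μ x ξ).coeFn_toLp] with g h1
    rw [h1]
    exact ((α g⁻¹ x).le_opNorm _).trans
      (mul_le_mul_of_nonneg_right (act_norm_le hα g⁻¹ x) (norm_nonneg _))) with hQ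
  have hae : ∀ (x : VA M) (ζ : Lp H 2 μ), Q x ζ =ᵐ[μ] fun g => α g⁻¹ x (ζ g) := fun x ζ =>
    (memLp_pi hα μ x ζ).coeFn_toLp
  have hone : ∀ g, α g ((1 : VA M) : H →L[ℂ] H) = 1 := by
    intro g
    have h1 := congrArg Subtype.val (map_one (alphaM hα g))
    exact h1
  refine ⟨{ toFun := Q, map_one' := ?_, map_mul' := ?_, map_zero' := ?_, map_add' := ?_,
            commutes' := ?_, map_star' := ?_ }, hae⟩
  · ext1 ξ
    apply Lp.ext
    filter_upwards [hae 1 ξ] with g h1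
    rw [h1, hone]
    rfl
  · intro x y
    ext1 ξ
    apply Lp.ext
    filter_upwards [hae (x * y) ξ, hae x (Q y ξ), hae y ξ] with g h1 h2 h3
    have h4 : α g⁻¹ ((x * y : VA M) : H →L[ℂ] H) = α g⁻¹ x * α g⁻¹ y :=
      hα.map_mul g⁻¹ x x.2 y y.2
    rw [h1, h4]
    change _ = (Q x (Q y ξ)) g
    rw [h2, h3]
    rfl
  · ext1 ξ
    apply Lp.ext
    filter_upwards [hae 0 ξ, Lp.coeFn_zero H 2 μ] with g h1 h2
    have h4 : α g⁻¹ ((0 : VA M) : H →L[ℂ] H) = 0 :=
      congrArg Subtype.val (map_zero (alphaM hα g⁻¹))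
    rw [h1, h4]
    change (0 : H →L[ℂ] H) (ξ g) = (0 : Lp H 2 μ) g
    rw [h2]
    rfl
  · intro x y
    ext1 ξ
    apply Lp.ext
    filter_upwards [hae (x + y) ξ, hae x ξ, hae y ξ, Lp.coeFn_add (Q x ξ) (Q y ξ)]
      with g h1 h2 h3 h5
    have h4 : α g⁻¹ ((x + y : VA M) : H →L[ℂ] H) = α g⁻¹ x + α g⁻¹ y :=
      hα.map_add g⁻¹ x x.2 y y.2
    rw [h1, h4]
    change _ = (Q x ξ + Q y ξ : Lp H 2 μ) g
    rw [h5, Pi.add_apply, h2, h3]
    rfl
  · intro c
    ext1 ξ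
    apply Lp.ext
    filter_upwards [hae (algebraMap ℂ (VA M) c) ξ, Lp.coeFn_smul c ξ] with g h1 h2
    have h4 : α g⁻¹ ((algebraMap ℂ (VA M) c : VA M) : H →L[ℂ] H) = c • (1 : H →L[ℂ] H) := by
      have h5 := congrArg Subtype.val (AlgHomClass.commutes (alphaM hα g⁻¹) c)
      exact h5
    rw [h1, h4]
    change c • (ξ g) = (c • ξ : Lp H 2 μ) g
    rw [h2]
    rfl
  · intro x
    change Q (star x) = star (Q x)
    rw [ContinuousLinearMap.star_eq_adjoint, ContinuousLinearMap.eq_adjoint_iff]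
    intro ξ η
    rw [L2.inner_def, L2.inner_def]
    refine integral_congr_ae ?_
    filter_upwards [hae (star x) ξ, hae x η] with g h1 h2
    have h4 : α g⁻¹ ((star x : VA M) : H →L[ℂ] H) = star (α g⁻¹ x) := hα.map_star g⁻¹ x x.2
    rw [h1, h2, h4, ContinuousLinearMap.star_eq_adjoint, ContinuousLinearMap.adjoint_inner_left]

end Pool.Agent.ErgLC
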