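import Pool.Agent.Lib_MP_418a80_eg.VnTracial
import Pool.Agent.Lib_MP_418a80_eg.PiOps

/-!
# EG23: covariance and continuity of `π`

PROOF of `pi_covariant`: both sides are a.e. `y ↦ α (y⁻¹ * g) x (ζ (g⁻¹ * y))` (`hα.mul_act`); the
a.e. equality for `P x ζ` is used at the point `g⁻¹ * y` (translations preserve null sets).

PROOF of `pi_tendsto`.  `‖P (x n) ζ - P y ζ‖² = ∫ ‖(α g⁻¹ (x n - y)) (ζ g)‖² dμ(g)`.  For fixed `g`
the integrand tends to `0`: `‖ι (α g⁻¹ (x n - y))‖ = ‖ι (x n - y)‖` (`IsAct.norm_apply`) and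
`sot_of_tendsto`; it is bounded by `(C + ‖y‖)² ‖ζ g‖²`: dominated convergence.
-/

namespace Pool.Agent.ErgLC

open Filter Topology MeasureTheory

universe u v

variable {H : Type u} [NormedAddCommGroup H] [InnerProductSpace ℂ H] [CompleteSpace H]
  {G : Type v} [Group G] [TopologicalSpace G] [IsTopologicalGroup G] [MeasurableSpace G]
  [BorelSpace G] [SecondCountableTopology G]

theorem pi_covariant {M : VonNeumannAlgebra H} {α : G → (H →L[ℂ] H) → (H →L[ℂ] H)}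
    (hα : IsAction M α) (μ : Measure G) [μ.IsMulLeftInvariant]
    {P : VA M →⋆ₐ[ℂ] (Lp H 2 μ →L[ℂ] Lp H 2 μ)}
    (hP : ∀ (x : VA M) (ζ : Lp H 2 μ), P x ζ =ᵐ[μ] fun g => α g⁻¹ x (ζ g))
    {lam : G → (Lp H 2 μ →L[ℂ] Lp H 2 μ)}
    (hlam : ∀ g, ∀ ζ : Lp H 2 μ, lam g ζ =ᵐ[μ] fun y => ζ (g⁻¹ * y)) (g : G) (x : VA M) :
    lam g * P x = P (alphaM hα g x) * lam g := by
  ext1 ξ
  apply Lp.ext
  have h3 := ae_translate μ g⁻¹ (hP x ξ)
  filter_upwards [hlam g (P x ξ), h3, hP (alphaM hα g x) (lam g ξ), hlam g ξ] with y h1 h2 h4 h5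
  change (lam g (P x ξ)) y = (P (alphaM hα g x) (lam g ξ)) y
  rw [h1, h2, h4, h5, coe_alphaM, ← hα.mul_act y⁻¹ g x x.2, mul_inv_rev, inv_inv]

theorem pi_tendsto {M : VonNeumannAlgebra H} {α : G → (H →L[ℂ] H) → (H →L[ℂ] H)}
    (hα : IsAction M α) {ξ : ℕ → H} (hξ : IsTraceFamily M ξ)
    (hact : IsAct (iotaM M hξ.summable) (alphaM hα)) (μ : Measure G)
    {P : VA M →⋆ₐ[ℂ] (Lp H 2 μ →L[ℂ] Lp H 2 μ)}
    (hP : ∀ (x : VA M) (ζ : Lp H 2 μ), P x ζ =ᵐ[μ] fun g => α g⁻¹ x (ζ g))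
    {x : ℕ → VA M} {y : VA M} {C : ℝ} (hC : ∀ n, ‖x n‖ ≤ C)
    (hx : Tendsto (fun n => iotaM M hξ.summable (x n)) atTop (𝓝 (iotaM M hξ.summable y)))
    (ζ : Lp H 2 μ) : Tendsto (fun n => P (x n) ζ) atTop (𝓝 (P y ζ)) := by
  have hC0 : 0 ≤ C := (norm_nonneg _).trans (hC 0)
  have hsot : ∀ (g : G) (η : H), Tendsto (fun n => α g (x n) η) atTop (𝓝 (α g y η)) := by
    intro g η
    have h1 := sot_of_tendsto hξ (x := fun n => alphaM hα g (x n)) (y := alphaM hα g y) (C := C)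
      (fun n => (norm_alpha_le (alphaM hα) g (x n)).trans (hC n))
      (hact.tendsto_apply (isTracial_iotaM hξ) g hx) η
    exact h1
  have hae : ∀ n, (P (x n) ζ - P y ζ : Lp H 2 μ) =ᵐ[μ] fun g => α g⁻¹ (x n) (ζ g) -
      α g⁻¹ y (ζ g) := by
    intro n
    filter_upwards [hP (x n) ζ, hP y ζ, Lp.coeFn_sub (P (x n) ζ) (P y ζ)] with g h1 h2 h3
    rw [h3, Pi.sub_apply, h1, h2]
  have hbd : ∀ n, ∀ᵐ g ∂μ, ‖(inner ℂ ((P (x n) ζ - P y ζ : Lp H 2 μ) g)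
      ((P (x n) ζ - P y ζ : Lp H 2 μ) g) : ℂ)‖ ≤ (C + ‖y‖) ^ 2 * ‖ζ g‖ ^ 2 := by
    intro n
    filter_upwards [hae n] with g h1
    rw [h1, inner_self_eq_norm_sq_to_K, norm_pow, RCLike.norm_ofReal, abs_of_nonneg
      (norm_nonneg _), ← mul_pow]
    refine pow_le_pow_left₀ (norm_nonneg _) ?_ 2
    refine (norm_sub_le _ _).trans ?_
    rw [add_mul]
    refine add_le_add ?_ ?_
    · exact ((α g⁻¹ (x n)).le_opNorm _).trans (mul_le_mul_of_nonneg_right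
        ((act_norm_le hα g⁻¹ (x n)).trans (hC n)) (norm_nonneg _))
    · exact ((α g⁻¹ y).le_opNorm _).trans (mul_le_mul_of_nonneg_right
        (act_norm_le hα g⁻¹ y) (norm_nonneg _))
  have hint : Integrable (fun g => (C + ‖y‖) ^ 2 * ‖ζ g‖ ^ 2) μ :=
    ((Lp.memLp ζ).integrable_norm_pow two_ne_zero).const_mul _
  have hlim : ∀ᵐ g ∂μ, Tendsto (fun n => (inner ℂ ((P (x n) ζ - P y ζ : Lp H 2 μ) g)
      ((P (x n) ζ - P y ζ : Lp H 2 μ) g) : ℂ)) atTop (𝓝 0) := by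
    filter_upwards [ae_all_iff.2 hae] with g h1
    simp only [h1]
    have h2 : Tendsto (fun n => α g⁻¹ (x n) (ζ g) - α g⁻¹ y (ζ g)) atTop (𝓝 0) := by
      have h3 := (hsot g⁻¹ (ζ g)).sub_const (α g⁻¹ y (ζ g))
      rwa [sub_self] at h3
    have h3 := Tendsto.inner (𝕜 := ℂ) h2 h2
    rwa [inner_zero_left] at h3
  have hconv := tendsto_integral_of_dominated_convergence (μ := μ)
    (F := fun n g => (inner ℂ ((P (x n) ζ - P y ζ : Lp H 2 μ) g)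
      ((P (x n) ζ - P y ζ : Lp H 2 μ) g) : ℂ)) (f := fun _ => 0)
    (fun g => (C + ‖y‖) ^ 2 * ‖ζ g‖ ^ 2)
    (fun n => (Lp.aestronglyMeasurable _).inner (Lp.aestronglyMeasurable _)) hint hbd hlim
  rw [integral_zero] at hconv
  rw [tendsto_iff_norm_sub_tendsto_zero]
  have h5 : Tendsto (fun n => ‖P (x n) ζ - P y ζ‖ ^ 2) atTop (𝓝 0) := by
    have h6 := (Complex.continuous_re.tendsto _).comp hconv
    rw [Complex.zero_re] at h6
    refine h6.congr fun n => ?_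
    rw [Function.comp_apply, ← L2.inner_def, inner_self_eq_norm_sq_to_K]
    norm_cast
  have h6 := (Real.continuous_sqrt.tendsto _).comp h5
  rw [Real.sqrt_zero] at h6
  refine h6.congr fun n => ?_
  rw [Function.comp_apply, Real.sqrt_sq (norm_nonneg _)]

end Pool.Agent.ErgLC
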