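import Mathlib

/-!
# MP_418a80_an (ergodic cocycle perturbations), abstract setting

`A` is a C*-algebra, `E` a Hilbert space (the `L²`-space), `ι : A → E` the canonical map,
`tr ι a = ⟨ι 1, ι a⟩` the trace.  `IsTracial ι` says that the trace is a faithful tracial state and
that norm-bounded sequences of `A` which are Cauchy in the 2-norm `‖ι ·‖` converge in `A`.
`IsAct ι α` : the group `G` acts on `A` by trace preserving *-homomorphisms.
`fixedAlg α K` : the fixed point algebra of the subgroup `K`.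
`IsExp ι α L Ex` : `Ex` is the trace preserving conditional expectation onto `fixedAlg α L`.
-/

namespace Pool.Agent.ErgLC

open Filter Topology

universe u v w

variable {A : Type u} [CStarAlgebra A] {E : Type v} [NormedAddCommGroup E]
  [InnerProductSpace ℂ E] {G : Type w} [Group G]

/-- the trace `⟨ι 1, ι a⟩` -/
noncomputable def tr (ι : A →ₗ[ℂ] E) (a : A) : ℂ := inner ℂ (ι 1) (ι a)

/-- `ι` is the canonical map of `A` into the `L²`-space of a faithful tracial state on `A`, and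
norm-bounded `2`-Cauchy sequences of `A` converge in `A`. -/
structure IsTracial (ι : A →ₗ[ℂ] E) : Prop where
  norm_one : ‖ι 1‖ = 1
  norm_mul_le : ∀ a b, ‖ι (a * b)‖ ≤ ‖a‖ * ‖ι b‖
  inner_mul : ∀ a b c, inner ℂ (ι (a * b)) (ι c) = inner ℂ (ι b) (ι (star a * c))
  inner_star : ∀ a b, inner ℂ (ι (star a)) (ι (star b)) = inner ℂ (ι b) (ι a)
  injective : ∀ a, ι a = 0 → a = 0
  complete : ∀ (x : ℕ → A) (C : ℝ), (∀ n, ‖x n‖ ≤ C) → CauchySeq (fun n => ι (x n)) →
    ∃ y : A, Tendsto (fun n => ι (x n)) atTop (𝓝 (ι y))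

/-- the group `G` acts on `A` by trace preserving *-homomorphisms -/
structure IsAct (ι : A →ₗ[ℂ] E) (α : G → A →⋆ₐ[ℂ] A) : Prop where
  one_apply : ∀ x, α 1 x = x
  mul_apply : ∀ g h x, α (g * h) x = α g (α h x)
  tr_apply : ∀ g x, tr ι (α g x) = tr ι x

/-- the fixed point algebra of the subgroup `K` -/
def fixedAlg (α : G → A →⋆ₐ[ℂ] A) (K : Subgroup G) : StarSubalgebra ℂ A where
  carrier := {x | ∀ k ∈ K, α k x = x}
  mul_mem' := fun {a b} ha hb k hk => by rw [map_mul, ha k hk, hb k hk]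
  add_mem' := fun {a b} ha hb k hk => by rw [map_add, ha k hk, hb k hk]
  algebraMap_mem' := fun r k _ => AlgHomClass.commutes (α k) r
  star_mem' := fun {a} ha k hk => by rw [map_star, ha k hk]

theorem mem_fixedAlg {α : G → A →⋆ₐ[ℂ] A} {K : Subgroup G} {x : A} :
    x ∈ fixedAlg α K ↔ ∀ k ∈ K, α k x = x := Iff.rfl

/-- `Ex` is the trace preserving conditional expectation onto the fixed point algebra of `L` -/
structure IsExp (ι : A →ₗ[ℂ] E) (α : G → A →⋆ₐ[ℂ] A) (L : Subgroup G) (Ex : A →ₗ[ℂ] A) :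
    Prop where
  mem : ∀ x, Ex x ∈ fixedAlg α L
  inner_eq : ∀ x, ∀ y ∈ fixedAlg α L, inner ℂ (ι y) (ι (Ex x)) = inner ℂ (ι y) (ι x)

/-! ## Elementary facts about the trace and the 2-norm -/

section Basic

variable {ι : A →ₗ[ℂ] E}

theorem IsTracial.inner_eq_tr (h : IsTracial ι) (a b : A) :
    inner ℂ (ι a) (ι b) = tr ι (star a * b) := by
  have := h.inner_mul a 1 b
  rw [mul_one] at this
  rw [this, tr]

theorem IsTracial.norm_sq_eq_tr (h : IsTracial ι) (a : A) :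
    ((‖ι a‖ ^ 2 : ℝ) : ℂ) = tr ι (star a * a) := by
  rw [← h.inner_eq_tr, inner_self_eq_norm_sq_to_K]
  norm_cast

theorem IsTracial.norm_sq_eq_re_tr (h : IsTracial ι) (a : A) :
    ‖ι a‖ ^ 2 = (tr ι (star a * a)).re := by
  rw [← h.norm_sq_eq_tr, Complex.ofReal_re]

theorem tr_add (ι : A →ₗ[ℂ] E) (a b : A) : tr ι (a + b) = tr ι a + tr ι b := by
  simp [tr]

theorem tr_sub (ι : A →ₗ[ℂ] E) (a b : A) : tr ι (a - b) = tr ι a - tr ι b := by
  simp [tr]

theorem tr_neg (ι : A →ₗ[ℂ] E) (a : A) : tr ι (-a) = -tr ι a := by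
  simp [tr, inner_neg_right]

theorem tr_smul (ι : A →ₗ[ℂ] E) (c : ℂ) (a : A) : tr ι (c • a) = c * tr ι a := by
  simp [tr]

theorem tr_sum (ι : A →ₗ[ℂ] E) {J : Type*} (s : Finset J) (a : J → A) :
    tr ι (∑ j ∈ s, a j) = ∑ j ∈ s, tr ι (a j) := by
  simp [tr]

theorem IsTracial.tr_one (h : IsTracial ι) : tr ι 1 = 1 := by
  have := h.norm_sq_eq_tr 1
  rw [star_one, one_mul, h.norm_one] at this
  rw [← this]; norm_num

theorem IsTracial.tr_star (h : IsTracial ι) (a : A) : tr ι (star a) = star (tr ι a) := by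
  have h1 := h.inner_star 1 a
  rw [star_one] at h1
  rw [tr, h1, tr, ← inner_conj_symm]; rfl

theorem IsTracial.tr_mul_comm (h : IsTracial ι) (a b : A) : tr ι (a * b) = tr ι (b * a) := by
  have h1 := h.inner_eq_tr (star a) b
  have h2 := h.inner_eq_tr (star b) a
  rw [star_star] at h1 h2
  rw [← h1, ← h2]
  have h3 := h.inner_star a (star b)
  rw [star_star] at h3
  exact h3

theorem IsTracial.norm_star (h : IsTracial ι) (a : A) : ‖ι (star a)‖ = ‖ι a‖ := by
  have h1 : ‖ι (star a)‖ ^ 2 = ‖ι a‖ ^ 2 := by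
    rw [h.norm_sq_eq_re_tr, h.norm_sq_eq_re_tr, star_star, h.tr_mul_comm]
  exact (pow_left_inj₀ (_root_.norm_nonneg _) (_root_.norm_nonneg _) two_ne_zero).1 h1

theorem IsTracial.norm_mul_le' (h : IsTracial ι) (a b : A) : ‖ι (a * b)‖ ≤ ‖ι a‖ * ‖b‖ := by
  rw [← h.norm_star, star_mul]
  refine (h.norm_mul_le _ _).trans ?_
  rw [_root_.norm_star, h.norm_star, mul_comm]

theorem IsTracial.norm_le (h : IsTracial ι) (a : A) : ‖ι a‖ ≤ ‖a‖ := by
  have := h.norm_mul_le a 1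
  rwa [mul_one, h.norm_one, mul_one] at this

theorem IsTracial.norm_tr_le (h : IsTracial ι) (a : A) : ‖tr ι a‖ ≤ ‖ι a‖ := by
  have := norm_inner_le_norm (𝕜 := ℂ) (ι 1) (ι a)
  rwa [h.norm_one, one_mul] at this

/-- `|τ(a b)| ≤ |a| |b|` -/
theorem IsTracial.norm_tr_mul_le (h : IsTracial ι) (a b : A) :
    ‖tr ι (a * b)‖ ≤ ‖ι a‖ * ‖ι b‖ := by
  have h1 := h.inner_eq_tr (star a) b
  rw [star_star] at h1
  rw [← h1]
  refine (norm_inner_le_norm _ _).trans ?_
  rw [h.norm_star]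

theorem norm_unitary_le {u : A} (hu : u ∈ unitary A) : ‖u‖ ≤ 1 := by
  rcases subsingleton_or_nontrivial A with hA | hA
  · rw [Subsingleton.elim u 0, norm_zero]; exact zero_le_one
  · exact (CStarRing.norm_of_mem_unitary hu).le

theorem IsTracial.norm_unitary_mul (h : IsTracial ι) {u : A} (hu : u ∈ unitary A) (a : A) :
    ‖ι (u * a)‖ = ‖ι a‖ := by
  have h1 : ‖ι (u * a)‖ ^ 2 = ‖ι a‖ ^ 2 := by
    rw [h.norm_sq_eq_re_tr, h.norm_sq_eq_re_tr, star_mul, mul_assoc, ← mul_assoc (star u) u,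
      (Unitary.mem_iff.1 hu).1, one_mul]
  exact (pow_left_inj₀ (_root_.norm_nonneg _) (_root_.norm_nonneg _) two_ne_zero).1 h1

theorem IsTracial.norm_mul_unitary (h : IsTracial ι) {u : A} (hu : u ∈ unitary A) (a : A) :
    ‖ι (a * u)‖ = ‖ι a‖ := by
  rw [← h.norm_star, star_mul, h.norm_unitary_mul (Unitary.star_mem hu), h.norm_star]

theorem IsTracial.norm_unitary (h : IsTracial ι) {u : A} (hu : u ∈ unitary A) :
    ‖ι u‖ = 1 := by
  have := h.norm_unitary_mul hu 1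
  rwa [mul_one, h.norm_one] at this

theorem IsTracial.eq_of_inner (h : IsTracial ι) (a b : A)
    (hab : inner ℂ (ι (a - b)) (ι a) = inner ℂ (ι (a - b)) (ι b)) : a = b := by
  have h1 : inner ℂ (ι (a - b)) (ι (a - b)) = 0 := by
    have h2 : ι (a - b) = ι a - ι b := map_sub _ _ _
    conv_lhs => rw [show (ι (a - b)) = ι (a - b) from rfl]
    rw [show inner ℂ (ι (a - b)) (ι (a - b)) = inner ℂ (ι (a - b)) (ι a - ι b) by rw [← h2],
      inner_sub_right, hab, sub_self]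
  have h3 := inner_self_eq_zero.1 h1
  exact sub_eq_zero.1 (h.injective _ h3)

end Basic

/-! ## Elementary facts about actions -/

section Act

variable {ι : A →ₗ[ℂ] E} {α : G → A →⋆ₐ[ℂ] A}

theorem IsAct.inner_apply (hα : IsAct ι α) (h : IsTracial ι) (g : G) (a b : A) :
    inner ℂ (ι (α g a)) (ι (α g b)) = inner ℂ (ι a) (ι b) := by
  rw [h.inner_eq_tr, h.inner_eq_tr, ← map_star, ← map_mul, hα.tr_apply]

theorem IsAct.norm_apply (hα : IsAct ι α) (h : IsTracial ι) (g : G) (a : A) :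
    ‖ι (α g a)‖ = ‖ι a‖ := by
  have h1 : ‖ι (α g a)‖ ^ 2 = ‖ι a‖ ^ 2 := by
    rw [h.norm_sq_eq_re_tr, h.norm_sq_eq_re_tr, ← map_star, ← map_mul, hα.tr_apply]
  exact (pow_left_inj₀ (_root_.norm_nonneg _) (_root_.norm_nonneg _) two_ne_zero).1 h1

theorem IsAct.inv_apply (hα : IsAct ι α) (g : G) (a : A) : α g⁻¹ (α g a) = a := by
  rw [← hα.mul_apply, inv_mul_cancel, hα.one_apply]

theorem IsAct.apply_inv (hα : IsAct ι α) (g : G) (a : A) : α g (α g⁻¹ a) = a := by
  rw [← hα.mul_apply, mul_inv_cancel, hα.one_apply]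

omit [Group G] in
theorem norm_alpha_le (α : G → A →⋆ₐ[ℂ] A) (g : G) (a : A) : ‖α g a‖ ≤ ‖a‖ :=
  NonUnitalStarAlgHom.norm_apply_le (α g) a

omit [Group G] in
theorem alpha_unitary (α : G → A →⋆ₐ[ℂ] A) (g : G) {u : A} (hu : u ∈ unitary A) :
    α g u ∈ unitary A := by
  rw [Unitary.mem_iff] at hu ⊢
  rw [← map_star, ← map_mul, ← map_mul, hu.1, hu.2, map_one]
  exact ⟨rfl, rfl⟩

/-- `α_g(u)` depends only on the coset `gK` for `u` in the fixed point algebra of `K` -/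
theorem IsAct.apply_eq_of_coset (hα : IsAct ι α) {K : Subgroup G} {u : A}
    (hu : u ∈ fixedAlg α K) {g h : G} (hgh : g⁻¹ * h ∈ K) : α g u = α h u := by
  have h1 := hu _ hgh
  have h2 : α h u = α g (α (g⁻¹ * h) u) := by
    rw [← hα.mul_apply, mul_inv_cancel_left]
  rw [h2, h1]

end Act

/-! ## 2-convergence of bounded sequences -/

section Conv

variable {ι : A →ₗ[ℂ] E}

theorem IsTracial.tendsto_star (h : IsTracial ι) {x : ℕ → A} {a : A}
    (hx : Tendsto (fun n => ι (x n)) atTop (𝓝 (ι a))) :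
    Tendsto (fun n => ι (star (x n))) atTop (𝓝 (ι (star a))) := by
  rw [tendsto_iff_norm_sub_tendsto_zero] at hx ⊢
  refine hx.congr fun n => ?_
  rw [← map_sub, ← map_sub, ← star_sub, h.norm_star]

theorem IsTracial.tendsto_mul (h : IsTracial ι) {x y : ℕ → A} {a b : A} {C : ℝ}
    (hC : ∀ n, ‖x n‖ ≤ C) (hx : Tendsto (fun n => ι (x n)) atTop (𝓝 (ι a)))
    (hy : Tendsto (fun n => ι (y n)) atTop (𝓝 (ι b))) :
    Tendsto (fun n => ι (x n * y n)) atTop (𝓝 (ι (a * b))) := by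
  rw [tendsto_iff_norm_sub_tendsto_zero] at hx hy ⊢
  have hz : Tendsto (fun n => C * ‖ι (y n) - ι b‖ + ‖ι (x n) - ι a‖ * ‖b‖) atTop (𝓝 0) := by
    have h1 := (hy.const_mul C).add (hx.mul_const ‖b‖)
    simpa using h1
  refine squeeze_zero (fun n => _root_.norm_nonneg _) (fun n => ?_) hz
  have h2 : ι (x n * y n) - ι (a * b) = ι (x n * (y n - b)) + ι ((x n - a) * b) := by
    rw [← map_sub, ← map_add]
    congr 1
    noncomm_ring
  rw [h2]
  refine (norm_add_le _ _).trans (add_le_add ?_ ?_)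
  · refine (h.norm_mul_le _ _).trans ?_
    rw [map_sub]
    exact mul_le_mul_of_nonneg_right (hC n) (_root_.norm_nonneg _)
  · refine (h.norm_mul_le' _ _).trans ?_
    rw [map_sub]

theorem IsAct.tendsto_apply {α : G → A →⋆ₐ[ℂ] A} (hα : IsAct ι α) (h : IsTracial ι) (g : G)
    {x : ℕ → A} {a : A} (hx : Tendsto (fun n => ι (x n)) atTop (𝓝 (ι a))) :
    Tendsto (fun n => ι (α g (x n))) atTop (𝓝 (ι (α g a))) := by
  rw [tendsto_iff_norm_sub_tendsto_zero] at hx ⊢
  refine hx.congr fun n => ?_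
  rw [← map_sub, ← map_sub, ← map_sub, hα.norm_apply h]

theorem IsTracial.eq_of_tendsto (h : IsTracial ι) {x : ℕ → A} {a b : A}
    (hx : Tendsto (fun n => ι (x n)) atTop (𝓝 (ι a)))
    (hy : Tendsto (fun n => ι (x n)) atTop (𝓝 (ι b))) : a = b := by
  have h1 := tendsto_nhds_unique hx hy
  have h2 : ι (a - b) = 0 := by rw [map_sub, h1, sub_self]
  exact sub_eq_zero.1 (h.injective _ h2)

/-- 2-limits of unitaries are unitaries -/
theorem IsTracial.unitary_of_tendsto (h : IsTracial ι) {x : ℕ → A} {a : A}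
    (hu : ∀ n, x n ∈ unitary A) (hx : Tendsto (fun n => ι (x n)) atTop (𝓝 (ι a))) :
    a ∈ unitary A := by
  have hb : ∀ n, ‖x n‖ ≤ 1 := fun n => norm_unitary_le (hu n)
  have hb' : ∀ n, ‖star (x n)‖ ≤ 1 := fun n => by rw [_root_.norm_star]; exact hb n
  have hs := h.tendsto_star hx
  have h1 := h.tendsto_mul hb' hs hx
  have h2 := h.tendsto_mul hb hx hs
  rw [Unitary.mem_iff]
  constructor
  · refine h.eq_of_tendsto h1 ?_
    refine tendsto_const_nhds.congr fun n => ?_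
    rw [(Unitary.mem_iff.1 (hu n)).1]
  · refine h.eq_of_tendsto h2 ?_
    refine tendsto_const_nhds.congr fun n => ?_
    rw [(Unitary.mem_iff.1 (hu n)).2]

/-- 2-limits of elements of the fixed point algebra are in the fixed point algebra -/
theorem IsAct.fixed_of_tendsto {α : G → A →⋆ₐ[ℂ] A} (hα : IsAct ι α) (h : IsTracial ι)
    {K : Subgroup G} {x : ℕ → A} {a : A} (hu : ∀ n, x n ∈ fixedAlg α K)
    (hx : Tendsto (fun n => ι (x n)) atTop (𝓝 (ι a))) : a ∈ fixedAlg α K := by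
  intro k hk
  refine h.eq_of_tendsto (hα.tendsto_apply h k hx) ?_
  refine hx.congr fun n => ?_
  rw [hu n k hk]

end Conv

end Pool.Agent.ErgLC
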