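import Pool.Agent.Lib_MP_418a80_eg.Expand

/-!
# EG12: second variation of the two penalty terms, with uniform constants

The constants `C` depend only on `h` (the statements have the quantifiers in this order).

EXPANSION.  Write `rot h t = 1 + (i t) h - (t²/2) h h + r(t)`, `‖r(t)‖ ≤ C₀ |t|³` for `|t| ≤ 1`
(`exp2_rot`).  `rot (α s h) t = α s (rot h t)` (`map_rot`), so the remainder of `rot (α s h) t` is
`α s (r(t))`, of norm `≤ C₀ |t|³` (`norm_alpha_le`), and `‖α s h‖ ≤ ‖h‖`: everything is uniform in `s`.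

PROOF of `symBound_term2` (`u` unitary, `k = α s h`).  For unitaries `a, b`:
`‖ι (a - b)‖² = 2 - 2 Re τ(b* a)`.  With `a = α_s(rot h t * u) = rot k t * α_s u` and
`b = rot h t * u`: `τ(b* a) = τ(u* rot h (-t) rot k t α_s(u)) = τ(w rot h (-t) rot k t)`,
`w = α_s(u) u*` (trace property).  `rot h (-t) * rot k t = 1 + t i (k - h) +
t² (h k - (h h + k k)/2) + O(t³)`.  So the symmetric second difference of
`‖ι (a - b)‖²` is `≤ t² · 2 Re τ(w (h h + k k - 2 h k)) + C t³`, and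
`h h + k k - 2 h k = h (h - k) - (h - k) k`, so `|τ(w (..))| ≤ ‖ι (w h)‖ ‖ι (h - k)‖ +
‖ι (h - k)‖ ‖ι (k w)‖ = 2 ‖ι h‖ ‖ι (h - k)‖` (`norm_tr_mul_le`, unitary invariance,
`‖ι k‖ = ‖ι h‖`).

PROOF of `symBound_term3`: `‖ι (rot h t u - y)‖² = 2 - 2 Re ⟨ι y, ι (rot h t u)⟩`, so the
second difference is `-2 Re ⟨ι y, ι ((rot h t + rot h (-t) - 2) u)⟩`, and
`rot h t + rot h (-t) - 2 = - t² h h + O(t³)` with the `O` depending only on `h`; and
`2 t² Re ⟨ι y, ι (h h u)⟩ = 2 t² Re ⟨ι (h y), ι (h u)⟩ ≤ 2 t² ‖ι h‖²`.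
-/

namespace Pool.Agent.ErgLC

open Filter Topology

universe u v w

variable {A : Type u} [CStarAlgebra A] {E : Type v} [NormedAddCommGroup E]
  [InnerProductSpace ℂ E] {G : Type w} [Group G]

section Term2Aux

/-- `‖ι (a - b)‖² = 2 - 2 Re ⟨ι b, ι a⟩` for unitaries -/
theorem Term2_norm_sub_sq {ι : A →ₗ[ℂ] E} (hι : IsTracial ι) {a b : A} (ha : a ∈ unitary A)
    (hb : b ∈ unitary A) : ‖ι (a - b)‖ ^ 2 = 2 - 2 * (inner ℂ (ι b) (ι a)).re := by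
  rw [map_sub, ← norm_neg, neg_sub, @norm_sub_sq ℂ, hι.norm_unitary ha, hι.norm_unitary hb]
  simp only [RCLike.re_to_complex]
  ring

theorem Term2_exp {h : A} {C₀ : ℝ} {t : ℝ} (ht : |t| ≤ 1)
    (hC : ∀ t : ℝ, |t| ≤ 1 → ‖rot h t - (1 + (t : ℂ) • (Complex.I • h)
      + ((t : ℂ) ^ 2) • (-(1 / 2 : ℂ) • (h * h)))‖ ≤ C₀ * |t| ^ 3) :
    ‖rot h t - (1 + ((t : ℂ) * Complex.I) • h
      + (1 / 2 : ℂ) • ((((t : ℂ) * Complex.I) • h) * (((t : ℂ) * Complex.I) • h)))‖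
      ≤ C₀ * |t| ^ 3 := by
  have h1 := hC t ht
  have h2 : (1 + (t : ℂ) • (Complex.I • h) + ((t : ℂ) ^ 2) • (-(1 / 2 : ℂ) • (h * h)) : A)
      = 1 + ((t : ℂ) * Complex.I) • h
      + (1 / 2 : ℂ) • ((((t : ℂ) * Complex.I) • h) * (((t : ℂ) * Complex.I) • h)) := by
    rw [smul_mul_smul_comm, smul_smul, smul_smul, smul_smul]
    congr 2
    have : (t : ℂ) * Complex.I * ((t : ℂ) * Complex.I) = - (t : ℂ) ^ 2 := by
      rw [mul_mul_mul_comm, Complex.I_mul_I]; ring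
    rw [this]; ring
  rwa [h2] at h1

theorem Term2_alg (x y : A) :
    (1 + x + (1 / 2 : ℂ) • (x * x)) * (1 + y + (1 / 2 : ℂ) • (y * y))
      + (1 + -x + (1 / 2 : ℂ) • (-x * -x)) * (1 + -y + (1 / 2 : ℂ) • (-y * -y))
      = (2 : ℂ) • (1 : A) + ((2 : ℂ) • (x * y) + x * x + y * y)
        + (1 / 2 : ℂ) • (x * x * (y * y)) := by
  simp only [mul_add, add_mul, smul_mul_assoc, mul_smul_comm, neg_mul, mul_neg, neg_neg, one_mul,
    mul_one]
  module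

theorem Term2_mul_sub (a b p q : A) {c M : ℝ} (hb : ‖b‖ ≤ 1) (hp : ‖p‖ ≤ M)
    (hap : ‖a - p‖ ≤ c) (hbq : ‖b - q‖ ≤ c) : ‖a * b - p * q‖ ≤ c * (1 + M) := by
  have h1 : a * b - p * q = (a - p) * b + p * (b - q) := by noncomm_ring
  have hc : 0 ≤ c := (norm_nonneg _).trans hap
  have hM : 0 ≤ M := (norm_nonneg _).trans hp
  rw [h1]
  refine (norm_add_le _ _).trans ?_
  have h2 : ‖(a - p) * b‖ ≤ c * 1 :=
    (norm_mul_le _ _).trans (mul_le_mul hap hb (norm_nonneg _) hc)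
  have h3 : ‖p * (b - q)‖ ≤ M * c :=
    (norm_mul_le _ _).trans (mul_le_mul hp hbq (norm_nonneg _) hM)
  nlinarith

theorem Term2_norm_smul {t : ℝ} (h : A) : ‖((t : ℂ) * Complex.I) • h‖ = |t| * ‖h‖ := by
  rw [norm_smul, norm_mul, Complex.norm_I, mul_one, Complex.norm_real, Real.norm_eq_abs]

theorem Term2_norm_quad [Nontrivial A] {t : ℝ} (ht : |t| ≤ 1) (h : A) :
    ‖(1 + ((t : ℂ) * Complex.I) • h
      + (1 / 2 : ℂ) • ((((t : ℂ) * Complex.I) • h) * (((t : ℂ) * Complex.I) • h)) : A)‖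
      ≤ 1 + ‖h‖ + ‖h‖ ^ 2 := by
  have hx : ‖((t : ℂ) * Complex.I) • h‖ ≤ ‖h‖ := by
    rw [Term2_norm_smul]
    exact mul_le_of_le_one_left (norm_nonneg _) ht
  set x := ((t : ℂ) * Complex.I) • h with hxd
  have h1 : ‖(1 / 2 : ℂ) • (x * x)‖ ≤ ‖h‖ ^ 2 := by
    rw [norm_smul]
    have h2 : ‖x * x‖ ≤ ‖h‖ ^ 2 := by
      rw [sq]
      exact (norm_mul_le _ _).trans (mul_le_mul hx hx (norm_nonneg _) (norm_nonneg _))
    have h3 : ‖(1 / 2 : ℂ)‖ ≤ 1 := by norm_num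
    calc ‖(1 / 2 : ℂ)‖ * ‖x * x‖ ≤ 1 * ‖h‖ ^ 2 :=
          mul_le_mul h3 h2 (norm_nonneg _) zero_le_one
      _ = ‖h‖ ^ 2 := one_mul _
  have h4 : ‖(1 : A)‖ = 1 := CStarRing.norm_one
  calc ‖1 + x + (1 / 2 : ℂ) • (x * x)‖ ≤ ‖1 + x‖ + ‖(1 / 2 : ℂ) • (x * x)‖ := norm_add_le _ _
    _ ≤ (‖(1 : A)‖ + ‖x‖) + ‖(1 / 2 : ℂ) • (x * x)‖ :=
        add_le_add_left (norm_add_le _ _) _
    _ ≤ (1 + ‖h‖) + ‖h‖ ^ 2 := by rw [h4]; gcongr

theorem Term2_two [Nontrivial A] {h k : A} (hk : star k = k)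
    (hkn : ‖k‖ ≤ ‖h‖) {C₀ : ℝ}
    (hC : ∀ t : ℝ, |t| ≤ 1 → ‖rot h t - (1 + (t : ℂ) • (Complex.I • h)
      + ((t : ℂ) ^ 2) • (-(1 / 2 : ℂ) • (h * h)))‖ ≤ C₀ * |t| ^ 3)
    (hC' : ∀ t : ℝ, |t| ≤ 1 → ‖rot k t - (1 + (t : ℂ) • (Complex.I • k)
      + ((t : ℂ) ^ 2) • (-(1 / 2 : ℂ) • (k * k)))‖ ≤ C₀ * |t| ^ 3) {t : ℝ} (ht0 : 0 < t)
    (ht1 : t ≤ 1) :
    ‖rot h (-t) * rot k t + rot h t * rot k (-t) - ((2 : ℂ) • (1 : A)
      - ((t : ℂ) ^ 2) • (h * (h - k) - (h - k) * k))‖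
      ≤ (2 * C₀ * (2 + ‖h‖ + ‖h‖ ^ 2) + ‖h‖ ^ 4) * t ^ 3 := by
  have hat : |t| ≤ 1 := by rwa [abs_of_pos ht0]
  have hat' : |(-t)| ≤ 1 := by rwa [abs_neg]
  have hh1 := Term2_exp hat hC
  have hh2 := Term2_exp hat' hC
  have hk1 := Term2_exp hat hC'
  have hk2 := Term2_exp hat' hC'
  rw [abs_neg] at hh2 hk2
  rw [abs_of_pos ht0] at hh1 hh2 hk1 hk2
  have hM1 := Term2_norm_quad hat h
  have hM2 := Term2_norm_quad hat' h
  have hxm : (((-t : ℝ) : ℂ) * Complex.I) • h = -(((t : ℂ) * Complex.I) • h) := by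
    rw [← neg_smul]; congr 1; push_cast; ring
  have hym : (((-t : ℝ) : ℂ) * Complex.I) • k = -(((t : ℂ) * Complex.I) • k) := by
    rw [← neg_smul]; congr 1; push_cast; ring
  rw [hxm] at hh2 hM2
  rw [hym] at hk2
  have hxn : ‖((t : ℂ) * Complex.I) • h‖ ≤ t * ‖h‖ := by
    rw [Term2_norm_smul, abs_of_pos ht0]
  have hyn : ‖((t : ℂ) * Complex.I) • k‖ ≤ t * ‖h‖ := by
    rw [Term2_norm_smul, abs_of_pos ht0]
    exact mul_le_mul_of_nonneg_left hkn ht0.le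
  have hxx : (((t : ℂ) * Complex.I) • h) * (((t : ℂ) * Complex.I) • h)
      = -(((t : ℂ) ^ 2) • (h * h)) := by
    rw [smul_mul_smul_comm, ← neg_smul]
    congr 1
    rw [mul_mul_mul_comm, Complex.I_mul_I]; ring
  have hyy : (((t : ℂ) * Complex.I) • k) * (((t : ℂ) * Complex.I) • k)
      = -(((t : ℂ) ^ 2) • (k * k)) := by
    rw [smul_mul_smul_comm, ← neg_smul]
    congr 1
    rw [mul_mul_mul_comm, Complex.I_mul_I]; ring
  have hxy : (((t : ℂ) * Complex.I) • h) * (((t : ℂ) * Complex.I) • k)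
      = -(((t : ℂ) ^ 2) • (h * k)) := by
    rw [smul_mul_smul_comm, ← neg_smul]
    congr 1
    rw [mul_mul_mul_comm, Complex.I_mul_I]; ring
  set x := ((t : ℂ) * Complex.I) • h with hxd
  set y := ((t : ℂ) * Complex.I) • k with hyd
  have hu1 : ‖rot k t‖ ≤ 1 := norm_unitary_le (rot_unitary hk t)
  have hu2 : ‖rot k (-t)‖ ≤ 1 := norm_unitary_le (rot_unitary hk (-t))
  have e1 := Term2_mul_sub (rot h t) (rot k (-t)) _ _ hu2 hM1 hh1 hk2
  have e2 := Term2_mul_sub (rot h (-t)) (rot k t) _ _ hu1 hM2 hh2 hk1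
  have alg := Term2_alg (A := A) (-x) y
  rw [neg_neg] at alg
  have key : rot h (-t) * rot k t + rot h t * rot k (-t) - ((2 : ℂ) • (1 : A)
      - ((t : ℂ) ^ 2) • (h * (h - k) - (h - k) * k))
      = (rot h (-t) * rot k t - (1 + -x + (1 / 2 : ℂ) • (-x * -x)) * (1 + y + (1 / 2 : ℂ) • (y * y)))
        + (rot h t * rot k (-t)
          - (1 + x + (1 / 2 : ℂ) • (x * x)) * (1 + -y + (1 / 2 : ℂ) • (-y * -y)))
        + (1 / 2 : ℂ) • (-x * -x * (y * y)) := by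
    have h3 : (2 : ℂ) • (-x * y) + -x * -x + y * y
        = - (((t : ℂ) ^ 2) • (h * (h - k) - (h - k) * k)) := by
      rw [neg_mul, neg_mul_neg, hxy, hxx, hyy, mul_sub, sub_mul]
      module
    rw [h3] at alg
    have h4 : rot h (-t) * rot k t + rot h t * rot k (-t) - ((2 : ℂ) • (1 : A)
      - ((t : ℂ) ^ 2) • (h * (h - k) - (h - k) * k))
      = rot h (-t) * rot k t + rot h t * rot k (-t) -
        ((2 : ℂ) • (1 : A) + -(((t : ℂ) ^ 2) • (h * (h - k) - (h - k) * k))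
          + (1 / 2 : ℂ) • (-x * -x * (y * y))) + (1 / 2 : ℂ) • (-x * -x * (y * y)) := by abel
    rw [h4, ← alg]
    abel
  rw [key]
  have e3 : ‖(1 / 2 : ℂ) • (-x * -x * (y * y))‖ ≤ ‖h‖ ^ 4 * t ^ 3 := by
    rw [norm_smul]
    have h2 : ‖-x * -x * (y * y)‖ ≤ (t * ‖h‖) * (t * ‖h‖) * ((t * ‖h‖) * (t * ‖h‖)) := by
      rw [neg_mul_neg]
      have hth : 0 ≤ t * ‖h‖ := by positivity
      refine (norm_mul_le _ _).trans (mul_le_mul ?_ ?_ (norm_nonneg _) (by positivity))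
      · exact (norm_mul_le _ _).trans (mul_le_mul hxn hxn (norm_nonneg _) hth)
      · exact (norm_mul_le _ _).trans (mul_le_mul hyn hyn (norm_nonneg _) hth)
    have h3 : ‖(1 / 2 : ℂ)‖ ≤ 1 := by norm_num
    have h5 : t ^ 4 ≤ t ^ 3 := pow_le_pow_of_le_one ht0.le ht1 (by norm_num)
    have h6 : 0 ≤ ‖h‖ ^ 4 := by positivity
    calc ‖(1 / 2 : ℂ)‖ * ‖-x * -x * (y * y)‖
        ≤ 1 * ((t * ‖h‖) * (t * ‖h‖) * ((t * ‖h‖) * (t * ‖h‖))) :=
          mul_le_mul h3 h2 (norm_nonneg _) zero_le_one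
      _ = ‖h‖ ^ 4 * t ^ 4 := by ring
      _ ≤ ‖h‖ ^ 4 * t ^ 3 := mul_le_mul_of_nonneg_left h5 h6
  refine (norm_add_le _ _).trans ?_
  refine (add_le_add (norm_add_le _ _) le_rfl).trans ?_
  refine (add_le_add (add_le_add e2 e1) e3).trans (le_of_eq ?_)
  ring

end Term2Aux

theorem symBound_term2 {ι : A →ₗ[ℂ] E} (hι : IsTracial ι) {α : G → A →⋆ₐ[ℂ] A}
    (hα : IsAct ι α) {h : A} (hh : star h = h) :
    ∃ C : ℝ, ∀ s : G, ∀ u ∈ unitary A, ∀ t : ℝ, 0 < t → t ≤ 1 →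
      ‖ι (α s (rot h t * u) - rot h t * u)‖ ^ 2
        + ‖ι (α s (rot h (-t) * u) - rot h (-t) * u)‖ ^ 2 - 2 * ‖ι (α s u - u)‖ ^ 2
        ≤ t ^ 2 * (4 * (‖ι h‖ * ‖ι (h - α s h)‖)) + C * t ^ 3 := by
  obtain ⟨C₀, hC⟩ := exp2_rot h
  have hnt : Nontrivial A := by
    refine ⟨⟨1, 0, fun h0 => ?_⟩⟩
    have := hι.norm_one
    rw [h0, map_zero, norm_zero] at this
    exact zero_ne_one this
  refine ⟨2 * (2 * C₀ * (2 + ‖h‖ + ‖h‖ ^ 2) + ‖h‖ ^ 4), fun s u hu t ht0 ht1 => ?_⟩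
  set k := α s h with hkd
  have hk : star k = k := by rw [hkd, ← map_star, hh]
  have hkn : ‖k‖ ≤ ‖h‖ := norm_alpha_le α s h
  have hC' : ∀ t : ℝ, |t| ≤ 1 → ‖rot k t - (1 + (t : ℂ) • (Complex.I • k)
      + ((t : ℂ) ^ 2) • (-(1 / 2 : ℂ) • (k * k)))‖ ≤ C₀ * |t| ^ 3 := by
    intro t ht
    refine le_trans (le_of_eq ?_) ((norm_alpha_le α s _).trans (hC t ht))
    rw [map_sub, map_rot, map_add, map_add, map_one, map_smul, map_smul, map_smul, map_smul,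
      map_mul]
  have h2 := Term2_two hk hkn hC hC' ht0 ht1
  set Er := rot h (-t) * rot k t + rot h t * rot k (-t) - ((2 : ℂ) • (1 : A)
      - ((t : ℂ) ^ 2) • (h * (h - k) - (h - k) * k)) with hEr
  set w := α s u * star u with hw
  have hwu : w ∈ unitary A := mul_mem (alpha_unitary α s hu) (Unitary.star_mem hu)
  have hform : ∀ r : ℝ, ‖ι (α s (rot h r * u) - rot h r * u)‖ ^ 2
      = 2 - 2 * (tr ι (w * (rot h (-r) * rot k r))).re := by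
    intro r
    have hr := rot_unitary hh r
    rw [Term2_norm_sub_sq hι (alpha_unitary α s (mul_mem hr hu)) (mul_mem hr hu),
      hι.inner_eq_tr, star_mul, star_rot hh, map_mul, map_rot, ← hkd]
    have h5 : star u * rot h (-r) * (rot k r * α s u) = star u * (rot h (-r) * rot k r * α s u) := by
      simp only [mul_assoc]
    rw [h5, hι.tr_mul_comm]
    have h6 : rot h (-r) * rot k r * α s u * star u = (rot h (-r) * rot k r) * w := by
      rw [hw, mul_assoc]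
    rw [h6, hι.tr_mul_comm]
  have hf0 : ‖ι (α s u - u)‖ ^ 2 = 2 - 2 * (tr ι w).re := by
    rw [Term2_norm_sub_sq hι (alpha_unitary α s hu) hu, hι.inner_eq_tr, hι.tr_mul_comm]
  rw [hform t, hform (-t), neg_neg, hf0]
  have hsum : w * (rot h (-t) * rot k t) + w * (rot h t * rot k (-t))
      = (2 : ℂ) • w - ((t : ℂ) ^ 2) • (w * h * (h - k) - w * ((h - k) * k)) + w * Er := by
    rw [hEr]
    simp only [mul_add, mul_sub, mul_smul_comm, mul_one, ← mul_assoc]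
    abel
  have htr := congrArg (fun z => (tr ι z).re) hsum
  simp only [tr_add, tr_sub, tr_smul, Complex.add_re, Complex.sub_re] at htr
  have hA : ‖tr ι (w * h * (h - k))‖ ≤ ‖ι h‖ * ‖ι (h - k)‖ := by
    refine (hι.norm_tr_mul_le _ _).trans ?_
    rw [hι.norm_unitary_mul hwu]
  have hB : ‖tr ι (w * ((h - k) * k))‖ ≤ ‖ι h‖ * ‖ι (h - k)‖ := by
    rw [hι.tr_mul_comm, mul_assoc]
    refine (hι.norm_tr_mul_le _ _).trans ?_
    rw [hι.norm_mul_unitary hwu, hkd, hα.norm_apply hι, mul_comm]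
  have hE : ‖tr ι (w * Er)‖ ≤ (2 * C₀ * (2 + ‖h‖ + ‖h‖ ^ 2) + ‖h‖ ^ 4) * t ^ 3 := by
    refine (hι.norm_tr_le _).trans ?_
    rw [hι.norm_unitary_mul hwu]
    exact (hι.norm_le _).trans h2
  have hA' := (Complex.abs_re_le_norm _).trans hA
  have hB' := (Complex.abs_re_le_norm _).trans hB
  have hE' := (Complex.abs_re_le_norm _).trans hE
  have c1 : ((2 : ℂ) * tr ι w).re = 2 * (tr ι w).re := by
    rw [Complex.mul_re]; simp
  have c2 : (((t : ℂ) ^ 2) * (tr ι (w * h * (h - k)) - tr ι (w * ((h - k) * k)))).re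
      = t ^ 2 * ((tr ι (w * h * (h - k))).re - (tr ι (w * ((h - k) * k))).re) := by
    rw [← Complex.ofReal_pow, Complex.re_ofReal_mul, Complex.sub_re]
  rw [c1, c2] at htr
  have a1 := (abs_le.1 hA').2
  have a2 := (abs_le.1 hB').1
  have a3 := (abs_le.1 hE').1
  have ht2 : 0 ≤ t ^ 2 := sq_nonneg _
  nlinarith [mul_le_mul_of_nonneg_left a1 ht2, mul_le_mul_of_nonneg_left a2 ht2]

theorem symBound_term3 {ι : A →ₗ[ℂ] E} (hι : IsTracial ι) {h : A} (hh : star h = h) :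
    ∃ C : ℝ, ∀ u ∈ unitary A, ∀ y ∈ unitary A, ∀ t : ℝ, 0 < t → t ≤ 1 →
      ‖ι (rot h t * u - y)‖ ^ 2 + ‖ι (rot h (-t) * u - y)‖ ^ 2 - 2 * ‖ι (u - y)‖ ^ 2
        ≤ t ^ 2 * (2 * ‖ι h‖ ^ 2) + C * t ^ 3 := by
  obtain ⟨C₀, hC⟩ := exp2_rot h
  refine ⟨4 * C₀, fun u hu y hy t ht0 ht1 => ?_⟩
  have hat : |t| ≤ 1 := by rwa [abs_of_pos ht0]
  have hat' : |(-t)| ≤ 1 := by rwa [abs_neg]
  have h1 := hC t hat
  have h2 := hC (-t) hat'
  rw [abs_neg] at h2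
  rw [abs_of_pos ht0] at h1 h2
  rw [Term2_norm_sub_sq hι (mul_mem (rot_unitary hh t) hu) hy,
    Term2_norm_sub_sq hι (mul_mem (rot_unitary hh (-t)) hu) hy, Term2_norm_sub_sq hι hu hy]
  set r1 := rot h t - (1 + (t : ℂ) • (Complex.I • h)
      + ((t : ℂ) ^ 2) • (-(1 / 2 : ℂ) • (h * h))) with hr1
  set r2 := rot h (-t) - (1 + ((-t : ℝ) : ℂ) • (Complex.I • h)
      + (((-t : ℝ) : ℂ) ^ 2) • (-(1 / 2 : ℂ) • (h * h))) with hr2
  have hsum : rot h t * u + rot h (-t) * u = (2 : ℂ) • u - ((t : ℂ) ^ 2) • (h * (h * u))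
      + (r1 + r2) * u := by
    have h3 : rot h t + rot h (-t) = (2 : ℂ) • (1 : A) - ((t : ℂ) ^ 2) • (h * h) + (r1 + r2) := by
      rw [hr1, hr2, Complex.ofReal_neg]
      module
    rw [← add_mul, h3]
    simp only [add_mul, sub_mul, smul_mul_assoc, one_mul, mul_assoc]
  have hin := congrArg (fun z => (inner ℂ (ι y) (ι z)).re) hsum
  simp only [map_add, map_sub, map_smul, inner_add_right, inner_sub_right, inner_smul_right,
    Complex.add_re, Complex.sub_re] at hin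
  have c1 : ((2 : ℂ) * inner ℂ (ι y) (ι u)).re = 2 * (inner ℂ (ι y) (ι u)).re := by
    rw [Complex.mul_re]; simp
  have c2 : (((t : ℂ) ^ 2) * inner ℂ (ι y) (ι (h * (h * u)))).re
      = t ^ 2 * (inner ℂ (ι y) (ι (h * (h * u)))).re := by
    rw [← Complex.ofReal_pow, Complex.re_ofReal_mul]
  rw [c1, c2] at hin
  have hB : ‖inner ℂ (ι y) (ι (h * (h * u)))‖ ≤ ‖ι h‖ ^ 2 := by
    have h4 : inner ℂ (ι y) (ι (h * (h * u))) = inner ℂ (ι (h * y)) (ι (h * u)) := by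
      rw [hι.inner_mul, hh]
    rw [h4]
    refine (norm_inner_le_norm _ _).trans ?_
    rw [hι.norm_mul_unitary hy, hι.norm_mul_unitary hu, sq]
  have hE : ‖inner ℂ (ι y) (ι ((r1 + r2) * u))‖ ≤ 2 * C₀ * t ^ 3 := by
    refine (norm_inner_le_norm _ _).trans ?_
    rw [hι.norm_unitary hy, one_mul, hι.norm_mul_unitary hu]
    refine (hι.norm_le _).trans ((norm_add_le _ _).trans ?_)
    linarith
  have a1 := (abs_le.1 ((Complex.abs_re_le_norm _).trans hB)).2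
  have a2 := (abs_le.1 ((Complex.abs_re_le_norm _).trans hE)).1
  have ht2 : 0 ≤ t ^ 2 := sq_nonneg _
  nlinarith [mul_le_mul_of_nonneg_left a1 ht2]

end Pool.Agent.ErgLC
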