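import Pool.Agent.Lib_MP_418a80_eg.SocAbstract
import Pool.Agent.Lib_MP_418a80_eg.Term2

/-!
# EG13b: the second order condition for finite sets

`Psi` is the functional with the Borwein-Preiss penalty.

PROOF of `soc`: `soc_abstract` with `Pen w = L ∑_s ‖ι (α s w - w)‖² + ∑' c n ‖ι (w - y n)‖²` and
`R = 2 L ∑_s ‖ι h‖ ‖ι (h - α s h)‖ + (∑' c n) ‖ι h‖²`: `SymBound` of the first part from
`symBound_term2` (times `L`, finite sum), of the series from `symBound_term3`: sum the bounds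
`c n * (..)`; the series converge since `‖ι (a - y)‖² ≤ 4` for unitaries `a`, `y`.
(`rot h 0 * u = u`.)

PROOF of `soc_general`: apply `soc` to `h₁ = a + a*` and `h₂ = i (a - a*)` (self-adjoint, in the
fixed point algebra), use `2 ‖ι h‖ ‖ι (h - α h)‖ ≤ κ ‖ι h‖² + ‖ι (h - α h)‖²/κ`, add the two, and
use `polarize_inner` and `polarize_norm` (for `f h = Ex (h y - y h)`, `f h = h`,
`f h = h - α s h`), `‖ι a*‖ = ‖ι a‖`, `‖ι (a* - α a*)‖ = ‖ι (a - α a)‖`.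
-/

namespace Pool.Agent.ErgLC

open Filter Topology

universe u v w

variable {A : Type u} [CStarAlgebra A] {E : Type v} [NormedAddCommGroup E]
  [InnerProductSpace ℂ E] {G : Type w} [Group G]

/-- the functional with the Borwein-Preiss penalty `∑ cₙ ‖u - yₙ‖²` -/
noncomputable def Psi (ι : A →ₗ[ℂ] E) (α : G → A →⋆ₐ[ℂ] A) (Ex : A →ₗ[ℂ] A) (F : Finset A)
    (S : Finset G) (L : ℝ) (c : ℕ → ℝ) (y : ℕ → A) (u : A) : ℝ :=
  ∑ x ∈ F, ‖ι (Ex (u * x * star u))‖ ^ 2 + (L * ∑ s ∈ S, ‖ι (α s u - u)‖ ^ 2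
    + ∑' n, c n * ‖ι (u - y n)‖ ^ 2)

theorem soc_summable {ι : A →ₗ[ℂ] E} (hι : IsTracial ι) {c : ℕ → ℝ} (hc : ∀ n, 0 ≤ c n)
    (hcs : Summable c) {y : ℕ → A} (hy : ∀ n, y n ∈ unitary A) {w : A} (hw : w ∈ unitary A) :
    Summable (fun n => c n * ‖ι (w - y n)‖ ^ 2) := by
  refine Summable.of_nonneg_of_le (fun n => mul_nonneg (hc n) (sq_nonneg _)) (fun n => ?_)
    (hcs.mul_right 4)
  refine mul_le_mul_of_nonneg_left ?_ (hc n)
  have h1 : ‖ι (w - y n)‖ ≤ 2 := by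
    rw [map_sub]
    refine (norm_sub_le _ _).trans ?_
    rw [hι.norm_unitary hw, hι.norm_unitary (hy n)]
    norm_num
  nlinarith [norm_nonneg (ι (w - y n))]

theorem soc_rot_zero (h : A) : rot h 0 = 1 := by
  simp [rot]

theorem soc_pen {ι : A →ₗ[ℂ] E} (hι : IsTracial ι) {α : G → A →⋆ₐ[ℂ] A} (hα : IsAct ι α)
    (S : Finset G) {L : ℝ} (hL : 0 ≤ L) {c : ℕ → ℝ} (hc : ∀ n, 0 ≤ c n) (hcs : Summable c)
    {y : ℕ → A} (hy : ∀ n, y n ∈ unitary A) {u : A} (hu : u ∈ unitary A) {h : A}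
    (hh : star h = h) :
    SymBound (fun t => L * ∑ s ∈ S, ‖ι (α s (rot h t * u) - rot h t * u)‖ ^ 2
      + ∑' n, c n * ‖ι (rot h t * u - y n)‖ ^ 2)
      (2 * (2 * L * ∑ s ∈ S, ‖ι h‖ * ‖ι (h - α s h)‖ + (∑' n, c n) * ‖ι h‖ ^ 2)) := by
  obtain ⟨C2, hC2⟩ := symBound_term2 hι hα hh
  obtain ⟨C3, hC3⟩ := symBound_term3 hι hh
  refine ⟨L * (S.card * C2) + (∑' n, c n) * C3, fun t ht0 ht1 => ?_⟩
  have hr0 : rot h 0 * u = u := by rw [soc_rot_zero, one_mul]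
  have hrt : ∀ t, rot h t * u ∈ unitary A := fun t => mul_mem (rot_unitary hh t) hu
  simp only [hr0]
  have h1 : ∑ s ∈ S, ‖ι (α s (rot h t * u) - rot h t * u)‖ ^ 2
      + ∑ s ∈ S, ‖ι (α s (rot h (-t) * u) - rot h (-t) * u)‖ ^ 2
      - 2 * ∑ s ∈ S, ‖ι (α s u - u)‖ ^ 2
      ≤ t ^ 2 * (4 * ∑ s ∈ S, ‖ι h‖ * ‖ι (h - α s h)‖) + S.card * C2 * t ^ 3 := by
    have h2 : ∑ s ∈ S, (‖ι (α s (rot h t * u) - rot h t * u)‖ ^ 2
        + ‖ι (α s (rot h (-t) * u) - rot h (-t) * u)‖ ^ 2 - 2 * ‖ι (α s u - u)‖ ^ 2)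
        ≤ ∑ s ∈ S, (t ^ 2 * (4 * (‖ι h‖ * ‖ι (h - α s h)‖)) + C2 * t ^ 3) :=
      Finset.sum_le_sum fun s _ => hC2 s u hu t ht0 ht1
    rw [Finset.sum_sub_distrib, Finset.sum_add_distrib, Finset.sum_add_distrib,
      Finset.sum_const, ← Finset.mul_sum, ← Finset.mul_sum, ← Finset.mul_sum, nsmul_eq_mul] at h2
    linarith
  have h3 : ∑' n, c n * ‖ι (rot h t * u - y n)‖ ^ 2 + ∑' n, c n * ‖ι (rot h (-t) * u - y n)‖ ^ 2
      - 2 * ∑' n, c n * ‖ι (u - y n)‖ ^ 2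
      ≤ (∑' n, c n) * (t ^ 2 * (2 * ‖ι h‖ ^ 2) + C3 * t ^ 3) := by
    have s1 := soc_summable hι hc hcs hy (hrt t)
    have s2 := soc_summable hι hc hcs hy (hrt (-t))
    have s3 := soc_summable hι hc hcs hy hu
    rw [← s1.tsum_add s2, ← tsum_mul_left, ← (s1.add s2).tsum_sub (s3.mul_left 2),
      ← tsum_mul_right]
    refine ((s1.add s2).sub (s3.mul_left 2)).tsum_le_tsum (fun n => ?_) (hcs.mul_right _)
    have h4 := mul_le_mul_of_nonneg_left (hC3 u hu (y n) (hy n) t ht0 ht1) (hc n)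
    linarith
  have h5 := mul_le_mul_of_nonneg_left h1 hL
  linarith

theorem soc {ι : A →ₗ[ℂ] E} (hι : IsTracial ι) {α : G → A →⋆ₐ[ℂ] A} (hα : IsAct ι α)
    {K : Subgroup G} {Ex : A →ₗ[ℂ] A} (hE : IsExp ι α ⊤ Ex) (F : Finset A) (S : Finset G)
    {L : ℝ} (hL : 0 ≤ L) {c : ℕ → ℝ} (hc : ∀ n, 0 ≤ c n) (hcs : Summable c) {y : ℕ → A}
    (hy : ∀ n, y n ∈ unitary A) {u : A} (hu : u ∈ unitary A) (huK : u ∈ fixedAlg α K)
    (hmin : ∀ w ∈ unitary A, w ∈ fixedAlg α K → Psi ι α Ex F S L c y u ≤ Psi ι α Ex F S L c y w)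
    {h : A} (hh : star h = h) (hhK : h ∈ fixedAlg α K) :
    ∑ x ∈ F, (inner ℂ (ι (h * Ex (u * x * star u) - Ex (u * x * star u) * h))
        (ι (h * (u * x * star u) - u * x * star u * h))).re
      ≤ ∑ x ∈ F, ‖ι (Ex (h * (u * x * star u) - u * x * star u * h))‖ ^ 2
        + (2 * L * ∑ s ∈ S, ‖ι h‖ * ‖ι (h - α s h)‖ + (∑' n, c n) * ‖ι h‖ ^ 2) := by
  refine soc_abstract hι hE F (fun w => L * ∑ s ∈ S, ‖ι (α s w - w)‖ ^ 2
    + ∑' n, c n * ‖ι (w - y n)‖ ^ 2) hu huK ?_ hh hhK ?_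
  · intro w hw hwK
    exact hmin w hw hwK
  · exact soc_pen hι hα S hL hc hcs hy hu hh

theorem soc_amgm {a b κ : ℝ} (hκ : 0 < κ) : 2 * (a * b) ≤ κ * a ^ 2 + b ^ 2 / κ := by
  have h1 : κ * a ^ 2 + b ^ 2 / κ - 2 * (a * b) = (κ * a - b) ^ 2 / κ := by
    field_simp
    ring
  have h2 : 0 ≤ (κ * a - b) ^ 2 / κ := by positivity
  linarith

theorem soc_general {ι : A →ₗ[ℂ] E} (hι : IsTracial ι) {α : G → A →⋆ₐ[ℂ] A} (hα : IsAct ι α)
    {K : Subgroup G} {Ex : A →ₗ[ℂ] A} (hE : IsExp ι α ⊤ Ex) (F : Finset A) (S : Finset G)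
    {L : ℝ} (hL : 0 ≤ L) {c : ℕ → ℝ} (hc : ∀ n, 0 ≤ c n) (hcs : Summable c) {y : ℕ → A}
    (hy : ∀ n, y n ∈ unitary A) {u : A} (hu : u ∈ unitary A) (huK : u ∈ fixedAlg α K)
    (hmin : ∀ w ∈ unitary A, w ∈ fixedAlg α K → Psi ι α Ex F S L c y u ≤ Psi ι α Ex F S L c y w)
    {κ : ℝ} (hκ : 0 < κ) {a : A} (haK : a ∈ fixedAlg α K) :
    ∑ x ∈ F, ((inner ℂ (ι (a * Ex (u * x * star u) - Ex (u * x * star u) * a))
          (ι (a * (u * x * star u) - u * x * star u * a))).re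
        + (inner ℂ (ι (star a * Ex (u * x * star u) - Ex (u * x * star u) * star a))
          (ι (star a * (u * x * star u) - u * x * star u * star a))).re)
      ≤ ∑ x ∈ F, (‖ι (Ex (a * (u * x * star u) - u * x * star u * a))‖ ^ 2
          + ‖ι (Ex (star a * (u * x * star u) - u * x * star u * star a))‖ ^ 2)
        + 2 * L * ∑ s ∈ S, (κ * ‖ι a‖ ^ 2 + ‖ι (a - α s a)‖ ^ 2 / κ)
        + 2 * (∑' n, c n) * ‖ι a‖ ^ 2 := by
  set h1 : A := a + star a with hh1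
  set h2 : A := Complex.I • (a - star a) with hh2
  have hs1 : star h1 = h1 := by
    rw [hh1, star_add, star_star, add_comm]
  have hs2 : star h2 = h2 := by
    rw [hh2, star_smul, star_sub, star_star]
    have : star Complex.I = -Complex.I := Complex.conj_I
    rw [this, neg_smul, ← smul_neg, neg_sub]
  have hK1 : h1 ∈ fixedAlg α K := add_mem haK (star_mem haK)
  have hK2 : h2 ∈ fixedAlg α K := by
    have h3 : a - star a ∈ fixedAlg α K := sub_mem haK (star_mem haK)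
    exact (fixedAlg α K).toSubalgebra.smul_mem h3 Complex.I
  have e1 := soc hι hα hE F S hL hc hcs hy hu huK hmin hs1 hK1
  have e2 := soc hι hα hE F S hL hc hcs hy hu huK hmin hs2 hK2
  -- left side
  have l1 : ∑ x ∈ F, (inner ℂ (ι (h1 * Ex (u * x * star u) - Ex (u * x * star u) * h1))
        (ι (h1 * (u * x * star u) - u * x * star u * h1))).re
      + ∑ x ∈ F, (inner ℂ (ι (h2 * Ex (u * x * star u) - Ex (u * x * star u) * h2))
        (ι (h2 * (u * x * star u) - u * x * star u * h2))).re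
      = 2 * ∑ x ∈ F, ((inner ℂ (ι (a * Ex (u * x * star u) - Ex (u * x * star u) * a))
          (ι (a * (u * x * star u) - u * x * star u * a))).re
        + (inner ℂ (ι (star a * Ex (u * x * star u) - Ex (u * x * star u) * star a))
          (ι (star a * (u * x * star u) - u * x * star u * star a))).re) := by
    rw [← Finset.sum_add_distrib, Finset.mul_sum]
    refine Finset.sum_congr rfl fun x _ => ?_
    have h4 := congrArg Complex.re (polarize_inner ι a (Ex (u * x * star u)) (u * x * star u))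
    rw [← hh1, ← hh2] at h4
    simp only [Complex.add_re, Complex.mul_re, Complex.re_ofNat, Complex.im_ofNat, zero_mul,
      sub_zero] at h4
    linarith
  have l2 : ∑ x ∈ F, ‖ι (Ex (h1 * (u * x * star u) - u * x * star u * h1))‖ ^ 2
      + ∑ x ∈ F, ‖ι (Ex (h2 * (u * x * star u) - u * x * star u * h2))‖ ^ 2
      = 2 * ∑ x ∈ F, (‖ι (Ex (a * (u * x * star u) - u * x * star u * a))‖ ^ 2
          + ‖ι (Ex (star a * (u * x * star u) - u * x * star u * star a))‖ ^ 2) := by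
    rw [← Finset.sum_add_distrib, Finset.mul_sum]
    refine Finset.sum_congr rfl fun x _ => ?_
    have h4 := polarize_norm ι (Ex ∘ₗ (LinearMap.mulRight ℂ (u * x * star u)
      - LinearMap.mulLeft ℂ (u * x * star u))) a
    rw [← hh1, ← hh2] at h4
    simp only [LinearMap.comp_apply, LinearMap.sub_apply, LinearMap.mulRight_apply,
      LinearMap.mulLeft_apply] at h4
    linarith
  have l3 : ‖ι h1‖ ^ 2 + ‖ι h2‖ ^ 2 = 4 * ‖ι a‖ ^ 2 := by
    have h4 := polarize_norm ι (LinearMap.id) a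
    rw [← hh1, ← hh2] at h4
    simp only [LinearMap.id_apply] at h4
    rw [h4, hι.norm_star]
    ring
  have l4 : ∀ s : G, ‖ι (h1 - α s h1)‖ ^ 2 + ‖ι (h2 - α s h2)‖ ^ 2 = 4 * ‖ι (a - α s a)‖ ^ 2 := by
    intro s
    have h4 := polarize_norm ι (LinearMap.id - (α s : A →ₗ[ℂ] A)) a
    rw [← hh1, ← hh2] at h4
    simp only [LinearMap.sub_apply, LinearMap.id_apply] at h4
    have h5 : star a - α s (star a) = star (a - α s a) := by rw [star_sub, map_star]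
    have h6 : ‖ι (star a - (α s) (star a))‖ = ‖ι (a - α s a)‖ := by
      rw [h5, hι.norm_star]
    have h7 : ‖ι (h1 - α s h1)‖ ^ 2 + ‖ι (h2 - α s h2)‖ ^ 2
        = 2 * ‖ι (a - α s a)‖ ^ 2 + 2 * ‖ι (star a - (α s) (star a))‖ ^ 2 := h4
    rw [h7, h6]
    ring
  have l5 : 2 * L * ∑ s ∈ S, ‖ι h1‖ * ‖ι (h1 - α s h1)‖ + 2 * L * ∑ s ∈ S, ‖ι h2‖ * ‖ι (h2 - α s h2)‖
      ≤ 4 * L * ∑ s ∈ S, (κ * ‖ι a‖ ^ 2 + ‖ι (a - α s a)‖ ^ 2 / κ) := by
    have h6 : 2 * ∑ s ∈ S, ‖ι h1‖ * ‖ι (h1 - α s h1)‖ + 2 * ∑ s ∈ S, ‖ι h2‖ * ‖ι (h2 - α s h2)‖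
        ≤ 4 * ∑ s ∈ S, (κ * ‖ι a‖ ^ 2 + ‖ι (a - α s a)‖ ^ 2 / κ) := by
      rw [Finset.mul_sum, Finset.mul_sum, Finset.mul_sum, ← Finset.sum_add_distrib]
      refine Finset.sum_le_sum fun s _ => ?_
      have h7 := soc_amgm (a := ‖ι h1‖) (b := ‖ι (h1 - α s h1)‖) hκ
      have h8 := soc_amgm (a := ‖ι h2‖) (b := ‖ι (h2 - α s h2)‖) hκ
      have h9 : 4 * (κ * ‖ι a‖ ^ 2 + ‖ι (a - α s a)‖ ^ 2 / κ)
          = κ * (‖ι h1‖ ^ 2 + ‖ι h2‖ ^ 2)
            + (‖ι (h1 - α s h1)‖ ^ 2 + ‖ι (h2 - α s h2)‖ ^ 2) / κ := by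
        rw [l3, l4]; ring
      rw [h9, add_div, mul_add]
      linarith
    have h10 := mul_le_mul_of_nonneg_left h6 hL
    linarith
  have l6 : (∑' n, c n) * ‖ι h1‖ ^ 2 + (∑' n, c n) * ‖ι h2‖ ^ 2 = 4 * ((∑' n, c n) * ‖ι a‖ ^ 2) := by
    rw [← mul_add, l3]; ring
  linarith

end Pool.Agent.ErgLC
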