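import Pool.Agent.Lib_MP_418a80_eg.Term1

/-!
# EG13a: the second order condition for an abstract penalty

PROOF of `soc_abstract`.  `f t = ∑_x ‖ι (Ex (U u x (U u)*))‖² + Pen (U u)`, `U = rot h t`, is
`≥ f 0` by the minimality (`rot h 0 = 1`, `U u` is a unitary of the fixed point algebra of `K`), and
`U u x (U u)* = U y U*` with `y = u x u*`.  `SymBound f (∑_x 2 (‖..‖² - Re ..) + R)` by
`symBound_term1`, `SymBound.sum`, `SymBound.add`; `SymBound.nonneg`; divide by `2`.

PROOF of `soc_polarized`: for `h₁ = a + a*`, `h₂ = i (a - a*)` (self-adjoint) and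
`B(h) = ⟨[h,p],[h,y]⟩` resp. `‖ι (Ex [h,y])‖²`: `B(h₁) + B(h₂) = 2 B(a) + 2 B(a*)`.
The four auxiliary identities `polarize_*` are the polarisations; the last two say
`‖ι h₁‖² + ‖ι h₂‖² = 2‖ι a‖² + 2‖ι a*‖² = 4 ‖ι a‖²` and the same for `h - α s h`.
-/

namespace Pool.Agent.ErgLC

open Filter Topology

universe u v w

variable {A : Type u} [CStarAlgebra A] {E : Type v} [NormedAddCommGroup E]
  [InnerProductSpace ℂ E] {G : Type w} [Group G]

theorem socAbstract_rot_zero (h : A) : rot h 0 = 1 := by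
  simp [rot]

theorem soc_abstract {ι : A →ₗ[ℂ] E} (hι : IsTracial ι) {α : G → A →⋆ₐ[ℂ] A}
    {K L : Subgroup G} {Ex : A →ₗ[ℂ] A} (hE : IsExp ι α L Ex) (F : Finset A)
    (Pen : A → ℝ) {u : A} (hu : u ∈ unitary A) (huK : u ∈ fixedAlg α K)
    (hmin : ∀ w ∈ unitary A, w ∈ fixedAlg α K →
      ∑ x ∈ F, ‖ι (Ex (u * x * star u))‖ ^ 2 + Pen u
        ≤ ∑ x ∈ F, ‖ι (Ex (w * x * star w))‖ ^ 2 + Pen w)
    {h : A} (hh : star h = h) (hhK : h ∈ fixedAlg α K) {R : ℝ}
    (hPen : SymBound (fun t => Pen (rot h t * u)) (2 * R)) :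
    ∑ x ∈ F, (inner ℂ (ι (h * Ex (u * x * star u) - Ex (u * x * star u) * h))
        (ι (h * (u * x * star u) - u * x * star u * h))).re
      ≤ ∑ x ∈ F, ‖ι (Ex (h * (u * x * star u) - u * x * star u * h))‖ ^ 2 + R := by
  have h1 := (SymBound.sum F fun x _ => symBound_term1 hι hE hh (u * x * star u)).add hPen
  have h2 := h1.nonneg fun t => ?_
  · rw [← Finset.mul_sum, Finset.sum_sub_distrib] at h2
    linarith
  · have h3 := hmin (rot h t * u) (mul_mem (rot_unitary hh t) hu)
      (mul_mem (rot_mem hhK t) huK)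
    simp only [socAbstract_rot_zero, one_mul, star_one, mul_one]
    refine h3.trans (le_of_eq ?_)
    congr 1
    refine Finset.sum_congr rfl fun x _ => ?_
    have h4 : rot h t * u * x * star (rot h t * u)
        = rot h t * (u * x * star u) * star (rot h t) := by
      rw [star_mul]
      simp only [mul_assoc]
    rw [h4]

/-- polarisation of `⟨[h,p],[h,y]⟩` -/
theorem polarize_inner (ι : A →ₗ[ℂ] E) (a p y : A) :
    inner ℂ (ι ((a + star a) * p - p * (a + star a))) (ι ((a + star a) * y - y * (a + star a)))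
      + inner ℂ (ι ((Complex.I • (a - star a)) * p - p * (Complex.I • (a - star a))))
        (ι ((Complex.I • (a - star a)) * y - y * (Complex.I • (a - star a))))
      = 2 * inner ℂ (ι (a * p - p * a)) (ι (a * y - y * a))
        + 2 * inner ℂ (ι (star a * p - p * star a)) (ι (star a * y - y * star a)) := by
  have e1 : ∀ z : A, (a + star a) * z - z * (a + star a)
      = (a * z - z * a) + (star a * z - z * star a) := by
    intro z; noncomm_ring
  have e2 : ∀ z : A, (Complex.I • (a - star a)) * z - z * (Complex.I • (a - star a))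
      = Complex.I • ((a * z - z * a) - (star a * z - z * star a)) := by
    intro z
    rw [smul_mul_assoc, mul_smul_comm, ← smul_sub]
    congr 1
    noncomm_ring
  rw [e1, e1, e2, e2]
  generalize a * p - p * a = X
  generalize star a * p - p * star a = X'
  generalize a * y - y * a = Y
  generalize star a * y - y * star a = Y'
  rw [map_add, map_add, map_smul, map_smul, inner_smul_left, inner_smul_right,
    map_sub, map_sub, inner_add_left, inner_add_right, inner_add_right, inner_sub_left,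
    inner_sub_right, inner_sub_right, Complex.conj_I]
  linear_combination (-1 : ℂ) * (inner ℂ (ι X) (ι Y) - inner ℂ (ι X) (ι Y')
    - (inner ℂ (ι X') (ι Y) - inner ℂ (ι X') (ι Y'))) * Complex.I_mul_I

/-- polarisation of `‖ι (f h)‖²` for a linear map `f` -/
theorem polarize_norm (ι : A →ₗ[ℂ] E) (f : A →ₗ[ℂ] A) (a : A) :
    ‖ι (f (a + star a))‖ ^ 2 + ‖ι (f (Complex.I • (a - star a)))‖ ^ 2
      = 2 * ‖ι (f a)‖ ^ 2 + 2 * ‖ι (f (star a))‖ ^ 2 := by
  have h1 : ‖ι (f (Complex.I • (a - star a)))‖ = ‖ι (f a) - ι (f (star a))‖ := by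
    rw [map_smul, map_smul, norm_smul, Complex.norm_I, one_mul, map_sub, map_sub]
  rw [h1, map_add, map_add]
  have h2 := parallelogram_law_with_norm ℂ (ι (f a)) (ι (f (star a)))
  nlinarith [h2]

end Pool.Agent.ErgLC
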