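import Pool.Agent.Lib_MP_418a80_eg.PiConv
import Pool.Agent.Lib_MP_418a80_eg.ExpExist
import Pool.Agent.Lib_MP_418a80_eg.ExpProps

/-!
# EG25: equality of the vector states

PROOF.  `ω m = ⟨η, P m (T η)⟩`.  (1) `ω (α_k m) = ω m` for `k ∈ K`:
`P (α_k m) = lam k * P m * lam k⁻¹` (`hcov`, `lam k * lam k⁻¹ = lam 1 = 1`), `T` commutes with
`lam k`, `lam k⁻¹ η = η`, `star (lam k) = lam k⁻¹`.
(2) `ω m = ω (E_K m)`, `E_K` from `exists_exp` (`L = K`): by `exists_average` (`J = Unit`,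
`ε = 1/(n+1)`) there are convex combinations `z n` of the `α_k m`, `‖z n‖ ≤ ‖m‖`, with
`ι (z n) → ι (E_K m)`; `ω (z n) = ω m` by (1) and `ω (z n) → ω (E_K m)` by `hconv`.
(3) `β m = α_{g⁻¹}(u* m u)` satisfies `E_K (β m) = E_K m`: for `n ∈ N = fixedAlg K`:
`u* n u = α_g n` so `β n = n`; `τ ∘ β = τ`, `β` is multiplicative (`u u* = 1`), so
`τ(n* β m) = τ(β(n* m)) = τ(n* m)`; `IsExp.eq_of_mem`.
(4) with `η' = P u (lam g η)`:
`⟨η', P m (T η')⟩ = ⟨η, lam g⁻¹ P (u* m u) lam g T η⟩ = ω (β m) = ω (E_K (β m)) = ω (E_K m) = ω m`.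
Everything is abstract here: `V` is a Hilbert space, `P` a *-homomorphism.
-/

namespace Pool.Agent.ErgLC

open Filter Topology

universe u v w

variable {A : Type u} [CStarAlgebra A] {E : Type v} [NormedAddCommGroup E]
  [InnerProductSpace ℂ E] {G : Type w} [Group G]

theorem state_eq {ι : A →ₗ[ℂ] E} (hι : IsTracial ι) {α : G → A →⋆ₐ[ℂ] A} (hα : IsAct ι α)
    {K : Subgroup G} {V : Type*} [NormedAddCommGroup V] [InnerProductSpace ℂ V]
    [CompleteSpace V] (P : A →⋆ₐ[ℂ] (V →L[ℂ] V)) (lam : G → (V →L[ℂ] V))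
    (hstar : ∀ g, star (lam g) = lam g⁻¹) (hmul : ∀ g h, lam (g * h) = lam g * lam h)
    (h1 : lam 1 = 1) (hcov : ∀ g x, lam g * P x = P (α g x) * lam g)
    (hconv : ∀ (x : ℕ → A) (y : A) (C : ℝ), (∀ n, ‖x n‖ ≤ C) →
      Tendsto (fun n => ι (x n)) atTop (𝓝 (ι y)) → ∀ ζ : V,
      Tendsto (fun n => P (x n) ζ) atTop (𝓝 (P y ζ)))
    {g : G} {u : A} (hu : u ∈ unitary A) (hgu : ∀ w ∈ fixedAlg α K, w * u = u * α g w)
    {η : V} (hη : ∀ k ∈ K, lam k η = η) {T : V →L[ℂ] V} (hTP : ∀ x, T * P x = P x * T)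
    (hTl : ∀ h, T * lam h = lam h * T) (m : A) :
    inner ℂ (P u (lam g η)) (P m (T (P u (lam g η)))) = inner ℂ η (P m (T η)) := by
  have hadj : ∀ h (x y : V), inner ℂ x (lam h y) = inner ℂ (lam h⁻¹ x) y := by
    intro h x y
    rw [← hstar, ContinuousLinearMap.star_eq_adjoint, ContinuousLinearMap.adjoint_inner_left]
  have hPadj : ∀ a (x y : V), inner ℂ (P a x) y = inner ℂ x (P (star a) y) := by
    intro a x y
    rw [map_star, ContinuousLinearMap.star_eq_adjoint, ContinuousLinearMap.adjoint_inner_right]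
  have hTPa : ∀ x (y : V), T (P x y) = P x (T y) := fun x y =>
    congrArg (fun S : V →L[ℂ] V => S y) (hTP x)
  have hTla : ∀ h (y : V), T (lam h y) = lam h (T y) := fun h y =>
    congrArg (fun S : V →L[ℂ] V => S y) (hTl h)
  have hcova : ∀ h x (y : V), lam h (P x y) = P (α h x) (lam h y) := fun h x y =>
    congrArg (fun S : V →L[ℂ] V => S y) (hcov h x)
  have hmula : ∀ h k (y : V), lam h (lam k y) = lam (h * k) y := fun h k y =>
    (congrArg (fun S : V →L[ℂ] V => S y) (hmul h k)).symm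
  have h1a : ∀ y : V, lam 1 y = y := fun y => congrArg (fun S : V →L[ℂ] V => S y) h1
  -- (1)
  have hω : ∀ k ∈ K, ∀ a, inner ℂ η (P (α k a) (T η)) = inner ℂ η (P a (T η)) := by
    intro k hk a
    have h2 : P (α k a) (T η) = lam k (P a (T η)) := by
      rw [hcova, ← hTla, hη k hk]
    rw [h2, hadj, hη _ (K.inv_mem hk)]
  -- (2)
  obtain ⟨Ex, hE⟩ := exists_exp hι hα K
  have hωE : ∀ a, inner ℂ η (P a (T η)) = inner ℂ η (P (Ex a) (T η)) := by
    intro a
    have hav : ∀ n : ℕ, ∃ z : A, ‖z‖ ≤ ‖a‖ ∧ inner ℂ η (P z (T η)) = inner ℂ η (P a (T η)) ∧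
        ‖ι (z - Ex a)‖ ≤ 1 / ((n : ℝ) + 1) := by
      intro n
      obtain ⟨I, hI, gs, l, hg, hl0, hl1, hz⟩ := exists_average hι hα hE (J := Unit)
        (fun _ => a) (ε := 1 / ((n : ℝ) + 1)) (by positivity)
      refine ⟨∑ i, (l i : ℂ) • α (gs i) a, ?_, ?_, hz ()⟩
      · refine (norm_sum_le _ _).trans ?_
        have h2 : ∀ i ∈ Finset.univ, ‖(l i : ℂ) • α (gs i) a‖ ≤ l i * ‖a‖ := by
          intro i _
          rw [norm_smul, Complex.norm_real, Real.norm_of_nonneg (hl0 i)]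
          exact mul_le_mul_of_nonneg_left (norm_alpha_le α _ _) (hl0 i)
        refine (Finset.sum_le_sum h2).trans ?_
        rw [← Finset.sum_mul, hl1, one_mul]
      · rw [map_sum]
        simp only [map_smul, sum_apply, smul_apply]
        rw [inner_sum]
        have h2 : ∀ i ∈ Finset.univ, inner ℂ η ((l i : ℂ) • P (α (gs i) a) (T η)) =
            (l i : ℂ) * inner ℂ η (P a (T η)) := by
          intro i _
          rw [inner_smul_right, hω _ (hg i)]
        rw [Finset.sum_congr rfl h2, ← Finset.sum_mul, ← Complex.ofReal_sum, hl1,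
          Complex.ofReal_one, one_mul]
    choose z hz1 hz2 hz3 using hav
    have h2 : Tendsto (fun n => ι (z n)) atTop (𝓝 (ι (Ex a))) := by
      rw [tendsto_iff_norm_sub_tendsto_zero]
      refine squeeze_zero (fun n => norm_nonneg _) (fun n => ?_)
        tendsto_one_div_add_atTop_nhds_zero_nat
      rw [← map_sub]
      exact hz3 n
    have h3 := hconv z (Ex a) ‖a‖ hz1 h2 (T η)
    have h4 : Tendsto (fun n => inner ℂ η (P (z n) (T η))) atTop
        (𝓝 (inner ℂ η (P (Ex a) (T η)))) := tendsto_const_nhds.inner h3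
    simp only [hz2] at h4
    exact tendsto_nhds_unique tendsto_const_nhds h4
  -- (3)
  have hβ : Ex (α g⁻¹ (star u * m * u)) = Ex m := by
    refine hE.eq_of_mem hι (hE.mem m) fun y hy => ?_
    rw [hE.inner_eq m y hy, hι.inner_eq_tr, hι.inner_eq_tr]
    have h2 : star y * α g⁻¹ (star u * m * u) = α g⁻¹ (α g (star y) * (star u * m * u)) := by
      rw [map_mul (α g⁻¹) (α g (star y)), hα.inv_apply]
    have h3 : α g (star y) * star u = star u * star y := by
      have h4 := hgu (star y) (star_mem hy)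
      have h5 : α g (star y) = star u * star y * u := by
        rw [mul_assoc, h4, ← mul_assoc, (Unitary.mem_iff.1 hu).1, one_mul]
      rw [h5, mul_assoc, (Unitary.mem_iff.1 hu).2, mul_one]
    have h4 : α g (star y) * (star u * m * u) = star u * (star y * m * u) := by
      rw [mul_assoc (star u), ← mul_assoc (α g (star y)), h3, mul_assoc, mul_assoc (star y)]
    rw [h2, hα.tr_apply, h4, hι.tr_mul_comm (star u), mul_assoc (star y * m),
      (Unitary.mem_iff.1 hu).2, mul_one]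
  -- (4)
  rw [hTPa, hTla, ← mul_apply_eq_comp (P m), ← map_mul, hPadj, ← mul_apply_eq_comp (P (star u)),
    ← map_mul, ← mul_assoc]
  have h2 : inner ℂ (lam g η) (P (star u * m * u) (lam g (T η))) =
      inner ℂ η (P (α g⁻¹ (star u * m * u)) (T η)) := by
    have h3 := hadj g⁻¹ η (P (star u * m * u) (lam g (T η)))
    rw [inv_inv] at h3
    rw [← h3, hcova, hmula, inv_mul_cancel, h1a]
  rw [h2, hωE, hβ, ← hωE]

end Pool.Agent.ErgLC
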