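import Pool.Agent.Lib_MP_418a80_eg.Expand
import Pool.Agent.Lib_MP_418a80_eg.ExpProps

/-!
# EG11: second variation of `‖ι (Ex (U y U*))‖²`

PROOF.  `z t = ι (Ex (rot h t * y * star (rot h t)))` has the expansion
`z0 = ι (Ex y)`, `z1 = i ι (Ex (h y - y h))`,
`z2 = ι (Ex (h y h - (h h y + y h h)/2)) = -(1/2) ι (Ex [h,[h,y]])`
(`exp2_rot`, `exp2_star_rot`, `Exp2.mul`, `Exp2.map` with `x ↦ ι (Ex x)`, `‖ι (Ex x)‖ ≤ ‖x‖`).
`Exp2.normSq`: `Q = 2 ‖ι (Ex [h,y])‖² - 2 Re ⟨ι (Ex y), ι (Ex [h,[h,y]])⟩`, and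
`⟨ι (Ex y), ι (Ex [h,[h,y]])⟩ = ⟨ι (Ex y), ι [h,[h,y]]⟩` (`IsExp.inner_eq`)
`= ⟨ι [h, Ex y], ι [h,y]⟩` for `h = star h` (trace property).
-/

namespace Pool.Agent.ErgLC

open Filter Topology

universe u v w

variable {A : Type u} [CStarAlgebra A] {E : Type v} [NormedAddCommGroup E]
  [InnerProductSpace ℂ E] {G : Type w} [Group G]

/-- the expansion of `U y U*` -/
theorem term1_exp2 {h : A} (hh : star h = h) (y : A) :
    Exp2 (fun t => rot h t * y * star (rot h t)) y (Complex.I • (h * y - y * h))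
      (h * y * h - (1 / 2 : ℂ) • (y * (h * h)) - (1 / 2 : ℂ) • (h * h * y)) := by
  have h1 := ((exp2_rot h).mul (Exp2.const y)).mul (exp2_star_rot hh)
  have e0 : (1 : A) * y * 1 = y := by rw [one_mul, mul_one]
  have e1 : (1 : A) * y * (-Complex.I • h) + (1 * 0 + Complex.I • h * y) * 1
      = Complex.I • (h * y - y * h) := by
    rw [one_mul, mul_zero, zero_add, mul_one, mul_smul_comm, smul_mul_assoc, smul_sub, neg_smul,
      neg_add_eq_sub]
  have e2 : (1 : A) * y * (-(1 / 2 : ℂ) • (h * h)) + (1 * 0 + Complex.I • h * y) * (-Complex.I • h)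
      + (1 * 0 + Complex.I • h * 0 + -(1 / 2 : ℂ) • (h * h) * y) * 1
      = h * y * h - (1 / 2 : ℂ) • (y * (h * h)) - (1 / 2 : ℂ) • (h * h * y) := by
    have h2 : Complex.I • h * y * (-Complex.I • h) = h * y * h := by
      rw [smul_mul_assoc, smul_mul_assoc, mul_smul_comm, smul_smul, mul_neg, Complex.I_mul_I,
        neg_neg, one_smul]
    rw [one_mul, mul_zero, mul_zero, zero_add, zero_add, zero_add, mul_one, h2, mul_smul_comm,
      smul_mul_assoc, neg_smul, neg_smul]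
    abel
  rw [e0, e1, e2] at h1
  exact h1

/-- the trace identity behind the second order term -/
theorem term1_trace {ι : A →ₗ[ℂ] E} (hι : IsTracial ι) {h : A} (hh : star h = h) (p y : A) :
    inner ℂ (ι (h * p - p * h)) (ι (h * y - y * h))
      = -2 * inner ℂ (ι p)
        (ι (h * y * h - (1 / 2 : ℂ) • (y * (h * h)) - (1 / 2 : ℂ) • (h * h * y))) := by
  rw [hι.inner_eq_tr, hι.inner_eq_tr, star_sub, star_mul, star_mul, hh]
  have h1 : (star p * h - h * star p) * (h * y - y * h)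
      = star p * (h * h * y) - star p * (h * y * h) - h * (star p * h * y)
        + h * (star p * y * h) := by
    noncomm_ring
  have h2 : star p * (h * y * h - (1 / 2 : ℂ) • (y * (h * h)) - (1 / 2 : ℂ) • (h * h * y))
      = star p * (h * y * h) - (1 / 2 : ℂ) • (star p * (y * (h * h)))
        - (1 / 2 : ℂ) • (star p * (h * h * y)) := by
    rw [mul_sub, mul_sub, mul_smul_comm, mul_smul_comm]
  have h3 : tr ι (h * (star p * h * y)) = tr ι (star p * (h * y * h)) := by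
    rw [hι.tr_mul_comm]
    simp only [mul_assoc]
  have h4 : tr ι (h * (star p * y * h)) = tr ι (star p * (y * (h * h))) := by
    rw [hι.tr_mul_comm]
    simp only [mul_assoc]
  rw [h1, h2, tr_add, tr_sub, tr_sub, tr_sub, tr_sub, tr_smul, tr_smul, h3, h4]
  ring

theorem symBound_term1 {ι : A →ₗ[ℂ] E} (hι : IsTracial ι) {α : G → A →⋆ₐ[ℂ] A}
    {L : Subgroup G} {Ex : A →ₗ[ℂ] A} (hE : IsExp ι α L Ex) {h : A} (hh : star h = h) (y : A) :
    SymBound (fun t => ‖ι (Ex (rot h t * y * star (rot h t)))‖ ^ 2)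
      (2 * (‖ι (Ex (h * y - y * h))‖ ^ 2
        - (inner ℂ (ι (h * Ex y - Ex y * h)) (ι (h * y - y * h))).re)) := by
  have h1 := ((term1_exp2 hh y).map (ι ∘ₗ Ex)
    (fun x => (hE.norm_le x).trans (hι.norm_le x))).normSq
  simp only [LinearMap.comp_apply] at h1
  refine h1.mono (le_of_eq ?_)
  rw [hE.inner_eq _ _ (hE.mem y), term1_trace hι hh (Ex y) y, map_smul, map_smul, norm_smul,
    Complex.norm_I, one_mul]
  have h5 : ∀ z : ℂ, ((-2 : ℂ) * z).re = -2 * z.re := by
    intro z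
    rw [Complex.mul_re]
    norm_num
  rw [h5]
  ring

end Pool.Agent.ErgLC
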