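import Pool.Agent.Lib_MP_418a80_eg.Setup
import Pool.Agent.Lib_MP_418a80_eg.Defs

/-!
# The von Neumann algebra as a C*-algebra, the map `iotaM`, the action `alphaM`
-/

namespace Pool.Agent.ErgLC

open Filter Topology MeasureTheory

universe u v

variable {H : Type u} [NormedAddCommGroup H] [InnerProductSpace ℂ H] [CompleteSpace H]

theorem isClosed_vn (M : VonNeumannAlgebra H) :
    IsClosed ((M.toStarSubalgebra : StarSubalgebra ℂ (H →L[ℂ] H)) : Set (H →L[ℂ] H)) := by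
  have h1 : ((M.toStarSubalgebra : StarSubalgebra ℂ (H →L[ℂ] H)) : Set (H →L[ℂ] H))
      = Set.centralizer (Set.centralizer (M : Set (H →L[ℂ] H))) :=
    (M.centralizer_centralizer').symm
  rw [h1]
  have h2 : Set.centralizer (Set.centralizer (M : Set (H →L[ℂ] H)))
      = ⋂ S ∈ Set.centralizer (M : Set (H →L[ℂ] H)), {T : H →L[ℂ] H | S * T = T * S} := by
    ext T
    simp only [Set.mem_centralizer_iff, Set.mem_iInter, Set.mem_ofPred_eq]
  rw [h2]
  exact isClosed_biInter fun S _ => isClosed_eq (continuous_const.mul continuous_id)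
    (continuous_id.mul continuous_const)

instance instIsClosedVn (M : VonNeumannAlgebra H) :
    IsClosed ((M.toStarSubalgebra : StarSubalgebra ℂ (H →L[ℂ] H)) : Set (H →L[ℂ] H)) :=
  isClosed_vn M

/-- `M` as a C*-algebra -/
abbrev VA (M : VonNeumannAlgebra H) : Type u := ↥(M.toStarSubalgebra)

noncomputable instance (M : VonNeumannAlgebra H) : CStarAlgebra (VA M) :=
  StarSubalgebra.cstarAlgebra M.toStarSubalgebra

theorem memlp_iotaM (M : VonNeumannAlgebra H) {ξ : ℕ → H} (hξ : Summable fun n => ‖ξ n‖ ^ 2)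
    (x : VA M) : Memℓp (fun n => (x : H →L[ℂ] H) (ξ n)) 2 := by
  rw [memℓp_gen_iff (by norm_num)]
  have h1 : Summable fun n => ‖(x : H →L[ℂ] H)‖ ^ 2 * ‖ξ n‖ ^ 2 := hξ.mul_left _
  refine Summable.of_nonneg_of_le (fun n => by positivity) (fun n => ?_) h1
  have h2 := (x : H →L[ℂ] H).le_opNorm (ξ n)
  have h3 : ‖(x : H →L[ℂ] H) (ξ n)‖ ^ 2 ≤ (‖(x : H →L[ℂ] H)‖ * ‖ξ n‖) ^ 2 :=
    pow_le_pow_left₀ (norm_nonneg _) h2 2
  rw [mul_pow] at h3
  simpa using h3

/-- the canonical map `x ↦ (x ξ n)_n` -/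
noncomputable def iotaM (M : VonNeumannAlgebra H) {ξ : ℕ → H}
    (hξ : Summable fun n => ‖ξ n‖ ^ 2) : VA M →ₗ[ℂ] lp (fun _ : ℕ => H) 2 where
  toFun x := ⟨fun n => (x : H →L[ℂ] H) (ξ n), memlp_iotaM M hξ x⟩
  map_add' x y := by
    apply lp.ext
    funext n
    rfl
  map_smul' c x := by
    apply lp.ext
    funext n
    rfl

theorem iotaM_apply (M : VonNeumannAlgebra H) {ξ : ℕ → H}
    (hξ : Summable fun n => ‖ξ n‖ ^ 2) (x : VA M) (n : ℕ) :
    (iotaM M hξ x : ∀ _ : ℕ, H) n = (x : H →L[ℂ] H) (ξ n) := rfl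

theorem tr_iotaM (M : VonNeumannAlgebra H) {ξ : ℕ → H}
    (hξ : Summable fun n => ‖ξ n‖ ^ 2) (x : VA M) :
    tr (iotaM M hξ) x = ∑' n, inner ℂ (ξ n) ((x : H →L[ℂ] H) (ξ n)) := by
  rw [tr, lp.inner_eq_tsum]
  rfl

variable {G : Type v} [Group G] [TopologicalSpace G]

/-- the action on the C*-algebra `VA M` -/
noncomputable def alphaM {M : VonNeumannAlgebra H} {α : G → (H →L[ℂ] H) → (H →L[ℂ] H)}
    (hα : IsAction M α) (g : G) : VA M →⋆ₐ[ℂ] VA M where
  toFun x := ⟨α g x, hα.map_mem g x x.2⟩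
  map_one' := by
    apply Subtype.ext
    have hone : (1 : H →L[ℂ] H) ∈ M := one_mem M
    have h2 : α g 1 * α g (α g⁻¹ 1) = α g (α g⁻¹ 1) := by
      rw [← hα.map_mul g 1 hone (α g⁻¹ 1) (hα.map_mem _ _ hone), one_mul]
    have h3 : α g (α g⁻¹ 1) = 1 := by
      rw [← hα.mul_act g g⁻¹ 1 hone, mul_inv_cancel, hα.one_act 1 hone]
    rw [h3, mul_one] at h2
    exact h2
  map_mul' x y := Subtype.ext (hα.map_mul g x x.2 y y.2)
  map_zero' := by
    apply Subtype.ext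
    have h := hα.map_add g 0 (zero_mem M) 0 (zero_mem M)
    rw [add_zero] at h
    exact left_eq_add.1 h
  map_add' x y := Subtype.ext (hα.map_add g x x.2 y y.2)
  commutes' c := by
    apply Subtype.ext
    have hone : (1 : H →L[ℂ] H) ∈ M := one_mem M
    have h2 : α g 1 * α g (α g⁻¹ 1) = α g (α g⁻¹ 1) := by
      rw [← hα.map_mul g 1 hone (α g⁻¹ 1) (hα.map_mem _ _ hone), one_mul]
    have h3 : α g (α g⁻¹ 1) = 1 := by
      rw [← hα.mul_act g g⁻¹ 1 hone, mul_inv_cancel, hα.one_act 1 hone]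
    rw [h3, mul_one] at h2
    have h4 : ((algebraMap ℂ (VA M) c : VA M) : H →L[ℂ] H) = c • (1 : H →L[ℂ] H) := by
      rw [Algebra.algebraMap_eq_smul_one]; rfl
    change α g ((algebraMap ℂ (VA M) c : VA M) : H →L[ℂ] H) = _
    rw [h4, hα.map_smul g c 1 hone, h2]
  map_star' x := Subtype.ext (hα.map_star g x x.2)

theorem coe_alphaM {M : VonNeumannAlgebra H} {α : G → (H →L[ℂ] H) → (H →L[ℂ] H)}
    (hα : IsAction M α) (g : G) (x : VA M) : ((alphaM hα g x : VA M) : H →L[ℂ] H) = α g x := rfl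

end Pool.Agent.ErgLC
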