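import Pool.Agent.Lib_MP_418a80_eg.VnDefs
import Pool.Agent.Lib_MP_418a80_eg.Irr

/-!
# EG20: the trace of a II₁ factor; the 2-norm and the strong topology

PROOF of `total_commutant`: let `W` be the closure of the span of the `T (ξ n)`, `T ∈ M' = M.commutant`;
`M'` maps `W` into itself, and `M'` is closed under `*`, so the projection `q` onto `W` commutes with
`M'`, so `q ∈ M'' = M` (`VonNeumannAlgebra.commutant_commutant`); `(1 - q) ξ n = 0` for all `n`, so
`τ((1-q)*(1-q)) = ∑ ‖(1-q) ξ n‖² = 0` and `q = 1` by `faithful`.  (`η ⟂ W` gives `η = 0`.)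

PROOF of `sot_of_tendsto`: `‖(x n - y) ξ k‖ ≤ ‖ι (x n) - ι y‖ → 0` (a coordinate of `ℓ²`), so
`(x n - y) T ξ k = T (x n - y) ξ k → 0` for `T ∈ M'`; the set of `η` with `(x n - y) η → 0` is a
closed subspace since `‖x n - y‖` is bounded; it is everything by `total_commutant`.

PROOF of `isTracial_iotaM`: `inner_mul`: coordinatewise `⟨a b ξ, c ξ⟩ = ⟨b ξ, a* c ξ⟩`;
`inner_star a b = τ(a b*) = τ(b* a)` (`tracial`; `lp.inner_eq_tsum`); `injective` from `faithful`
(`τ(a* a) = ∑ ‖a ξ n‖²`).  `complete`: as in `sot_of_tendsto`, `x n η` is Cauchy for `η` in the total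
set `{T ξ k}`, hence for all `η` (bounded operators); the limits define a bounded operator `y`
(`‖y‖ ≤ C`), which commutes with `M'` so is in `M`; the limit of `ι (x n)` in `ℓ²` has the
coordinates `lim x n ξ k = y ξ k`.
-/

namespace Pool.Agent.ErgLC

open Filter Topology MeasureTheory

universe u v

variable {H : Type u} [NormedAddCommGroup H] [InnerProductSpace ℂ H] [CompleteSpace H]

theorem mem_vn_of_comm {M : VonNeumannAlgebra H} {p : H →L[ℂ] H}
    (h : ∀ T : H →L[ℂ] H, (∀ S ∈ M, S * T = T * S) → T * p = p * T) : p ∈ M := by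
  rw [← M.commutant_commutant, VonNeumannAlgebra.mem_commutant_iff]
  intro T hT
  exact h T (VonNeumannAlgebra.mem_commutant_iff.1 hT)

theorem comm_star {M : VonNeumannAlgebra H} {T : H →L[ℂ] H} (hT : ∀ S ∈ M, S * T = T * S) :
    ∀ S ∈ M, S * star T = star T * S := by
  intro S hS
  have h1 := hT (star S) (star_mem hS)
  have h2 := congrArg star h1
  rw [star_mul, star_mul, star_star] at h2
  exact h2.symm

theorem comm_mul {M : VonNeumannAlgebra H} {T T' : H →L[ℂ] H} (hT : ∀ S ∈ M, S * T = T * S)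
    (hT' : ∀ S ∈ M, S * T' = T' * S) : ∀ S ∈ M, S * (T * T') = T * T' * S := by
  intro S hS
  rw [← mul_assoc, hT S hS, mul_assoc, hT' S hS, mul_assoc]

theorem total_commutant {M : VonNeumannAlgebra H} {ξ : ℕ → H} (hξ : IsTraceFamily M ξ) (η : H)
    (hη : ∀ T : H →L[ℂ] H, (∀ S ∈ M, S * T = T * S) → ∀ n, inner ℂ (T (ξ n)) η = 0) : η = 0 := by
  -- the closed subspace `U` of all vectors orthogonal to the `T (ξ n)`
  set U : Submodule ℂ H :=
    (Submodule.span ℂ {y | ∃ T : H →L[ℂ] H, (∀ S ∈ M, S * T = T * S) ∧ ∃ n, y = T (ξ n)})ᗮ with hU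
  have hmem : ∀ x, x ∈ U ↔
      ∀ T : H →L[ℂ] H, (∀ S ∈ M, S * T = T * S) → ∀ n, inner ℂ (T (ξ n)) x = 0 := by
    intro x
    constructor
    · intro hx T hT n
      exact hx _ (Submodule.subset_span ⟨T, hT, n, rfl⟩)
    · intro hx y hy
      induction hy using Submodule.span_induction with
      | mem y hy =>
        obtain ⟨T, hT, n, rfl⟩ := hy
        exact hx T hT n
      | zero => exact inner_zero_left _
      | add a b _ _ ha hb => rw [inner_add_left, ha, hb, add_zero]
      | smul c a _ ha => rw [inner_smul_left, ha, mul_zero]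
  have hinv : ∀ T : H →L[ℂ] H, (∀ S ∈ M, S * T = T * S) → ∀ x ∈ U, T x ∈ U := by
    intro T hT x hx
    rw [hmem] at hx ⊢
    intro T' hT' n
    have h1 := hx (star T * T') (comm_mul (comm_star hT) hT') n
    rw [mul_apply_eq_comp, ContinuousLinearMap.star_eq_adjoint,
      ContinuousLinearMap.adjoint_inner_left] at h1
    exact h1
  have hp : U.starProjection ∈ M := mem_vn_of_comm fun T hT =>
    (comm_starProjection U T (hinv T hT) (hinv _ (comm_star hT))).symm
  have h0 : U.starProjection = 0 := by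
    refine hξ.faithful _ hp ?_
    have h1 : ∀ n, U.starProjection (ξ n) = 0 := by
      intro n
      refine (U.starProjection_apply_eq_zero_iff).2 ?_
      intro x hx
      have h2 := (hmem x).1 hx 1 (fun S _ => by rw [mul_one, one_mul]) n
      rw [← inner_conj_symm]
      rw [one_apply_eq_self] at h2
      rw [h2, map_zero]
    simp only [mul_apply_eq_comp, h1, map_zero, inner_zero_right, tsum_zero]
  have h2 : U.starProjection η = η := Submodule.starProjection_eq_self_iff.2 ((hmem η).2 hη)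
  rw [← h2, h0]
  rfl

/-- a closed subspace containing all `T (ξ k)`, `T ∈ M'`, is the whole space -/
theorem mem_of_total {M : VonNeumannAlgebra H} {ξ : ℕ → H} (hξ : IsTraceFamily M ξ)
    (D : Submodule ℂ H) (hD : IsClosed (D : Set H))
    (h : ∀ T : H →L[ℂ] H, (∀ S ∈ M, S * T = T * S) → ∀ n, T (ξ n) ∈ D) (η : H) : η ∈ D := by
  have : CompleteSpace D := hD.completeSpace_coe
  have h1 : Dᗮ = ⊥ := by
    rw [eq_bot_iff]
    intro x hx
    rw [Submodule.mem_bot]
    exact total_commutant hξ x fun T hT n => hx _ (h T hT n)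
  rw [(Submodule.orthogonal_eq_bot_iff).1 h1]
  trivial

omit [CompleteSpace H] in
/-- the vectors on which a bounded sequence of operators converges to `y` -/
theorem isClosed_conv {x : ℕ → H →L[ℂ] H} {y : H →L[ℂ] H} {C : ℝ} (hC : ∀ n, ‖x n‖ ≤ C) :
    IsClosed {η : H | Tendsto (fun n => x n η) atTop (𝓝 (y η))} := by
  have hC0 : 0 ≤ C := (norm_nonneg _).trans (hC 0)
  rw [← isSeqClosed_iff_isClosed]
  intro u η hu hη
  simp only [Set.mem_ofPred_eq] at hu ⊢
  rw [Metric.tendsto_atTop]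
  intro ε hε
  have hpos : 0 < C + ‖y‖ + 1 := by positivity
  rw [Metric.tendsto_atTop] at hη
  obtain ⟨k, hk⟩ := hη (ε / 2 / (C + ‖y‖ + 1)) (by positivity)
  have hk' := hk k le_rfl
  obtain ⟨N, hN⟩ := (Metric.tendsto_atTop.1 (hu k)) (ε / 2) (by positivity)
  refine ⟨N, fun n hn => ?_⟩
  have h1 := hN n hn
  rw [dist_eq_norm] at h1 hk' ⊢
  have h2 : x n η - y η = (x n (u k) - y (u k)) - (x n (u k - η) - y (u k - η)) := by
    rw [map_sub, map_sub]; abel
  rw [h2]
  refine (norm_sub_le _ _).trans_lt ?_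
  have h3 : ‖x n (u k - η) - y (u k - η)‖ ≤ (C + ‖y‖) * ‖u k - η‖ := by
    refine (norm_sub_le _ _).trans ?_
    rw [add_mul]
    exact add_le_add (((x n).le_opNorm _).trans
      (mul_le_mul_of_nonneg_right (hC n) (norm_nonneg _))) (y.le_opNorm _)
  have h4 : (C + ‖y‖) * ‖u k - η‖ ≤ (C + ‖y‖ + 1) * ‖u k - η‖ :=
    mul_le_mul_of_nonneg_right (by linarith) (norm_nonneg _)
  have h5 : (C + ‖y‖ + 1) * ‖u k - η‖ < ε / 2 := by
    rw [lt_div_iff₀ hpos] at hk'
    linarith
  linarith

omit [CompleteSpace H] in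
theorem cauchySeq_conv {x : ℕ → H →L[ℂ] H} {C : ℝ} (hC : ∀ n, ‖x n‖ ≤ C) :
    IsClosed {η : H | CauchySeq (fun n => x n η)} := by
  have hC0 : 0 ≤ C := (norm_nonneg _).trans (hC 0)
  rw [← isSeqClosed_iff_isClosed]
  intro u η hu hη
  simp only [Set.mem_ofPred_eq] at hu ⊢
  rw [Metric.cauchySeq_iff]
  intro ε hε
  have hpos : 0 < C + C + 1 := by positivity
  rw [Metric.tendsto_atTop] at hη
  obtain ⟨k, hk⟩ := hη (ε / 2 / (C + C + 1)) (by positivity)
  have hk' := hk k le_rfl
  obtain ⟨N, hN⟩ := (Metric.cauchySeq_iff.1 (hu k)) (ε / 2) (by positivity)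
  refine ⟨N, fun m hm n hn => ?_⟩
  have h1 := hN m hm n hn
  rw [dist_eq_norm] at h1 hk' ⊢
  have h2 : x m η - x n η = (x m (u k) - x n (u k)) - (x m (u k - η) - x n (u k - η)) := by
    rw [map_sub, map_sub]; abel
  rw [h2]
  refine (norm_sub_le _ _).trans_lt ?_
  have h3 : ‖x m (u k - η) - x n (u k - η)‖ ≤ (C + C) * ‖u k - η‖ := by
    refine (norm_sub_le _ _).trans ?_
    rw [add_mul]
    exact add_le_add (((x m).le_opNorm _).trans
      (mul_le_mul_of_nonneg_right (hC m) (norm_nonneg _))) (((x n).le_opNorm _).trans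
      (mul_le_mul_of_nonneg_right (hC n) (norm_nonneg _)))
  have h4 : (C + C) * ‖u k - η‖ ≤ (C + C + 1) * ‖u k - η‖ :=
    mul_le_mul_of_nonneg_right (by linarith) (norm_nonneg _)
  have h5 : (C + C + 1) * ‖u k - η‖ < ε / 2 := by
    rw [lt_div_iff₀ hpos] at hk'
    linarith
  linarith

theorem apply_comm {M : VonNeumannAlgebra H} {T : H →L[ℂ] H} (hT : ∀ S ∈ M, S * T = T * S)
    (x : VA M) (η : H) : (x : H →L[ℂ] H) (T η) = T ((x : H →L[ℂ] H) η) := by
  have h1 := congrArg (fun A : H →L[ℂ] H => A η) (hT x x.2)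
  simpa only [mul_apply_eq_comp] using h1

theorem tendsto_coord {M : VonNeumannAlgebra H} {ξ : ℕ → H} (hξ : IsTraceFamily M ξ)
    {x : ℕ → VA M} {y : VA M}
    (hx : Tendsto (fun n => iotaM M hξ.summable (x n)) atTop (𝓝 (iotaM M hξ.summable y)))
    (k : ℕ) : Tendsto (fun n => (x n : H →L[ℂ] H) (ξ k)) atTop (𝓝 ((y : H →L[ℂ] H) (ξ k))) := by
  have h1 : Continuous (fun f : lp (fun _ : ℕ => H) 2 => (f : ∀ _ : ℕ, H) k) :=
    (continuous_apply k).comp (lp.uniformContinuous_coe (E := fun _ : ℕ => H) (p := 2)).continuous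
  exact (h1.tendsto _).comp hx

theorem sot_of_tendsto {M : VonNeumannAlgebra H} {ξ : ℕ → H} (hξ : IsTraceFamily M ξ)
    {x : ℕ → VA M} {y : VA M} {C : ℝ} (hC : ∀ n, ‖x n‖ ≤ C)
    (hx : Tendsto (fun n => iotaM M hξ.summable (x n)) atTop (𝓝 (iotaM M hξ.summable y)))
    (η : H) : Tendsto (fun n => (x n : H →L[ℂ] H) η) atTop (𝓝 ((y : H →L[ℂ] H) η)) := by
  have hcl := isClosed_conv (x := fun n => (x n : H →L[ℂ] H)) (y := (y : H →L[ℂ] H)) (C := C) hC
  let D : Submodule ℂ H :=
    { carrier := {η : H | Tendsto (fun n => (x n : H →L[ℂ] H) η) atTop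
        (𝓝 ((y : H →L[ℂ] H) η))}
      add_mem' := fun {a b} ha hb => by
        have h1 := Tendsto.add ha hb
        simp only [Set.mem_ofPred_eq, map_add]
        exact h1
      zero_mem' := by
        simp only [Set.mem_ofPred_eq, map_zero]
        exact tendsto_const_nhds
      smul_mem' := fun c {a} ha => by
        have h1 := Tendsto.const_smul ha c
        simp only [Set.mem_ofPred_eq, map_smul]
        exact h1 }
  refine mem_of_total hξ D hcl (fun T hT k => ?_) η
  have h1 := (T.continuous.tendsto _).comp (tendsto_coord hξ hx k)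
  change Tendsto (fun n => (x n : H →L[ℂ] H) (T (ξ k))) atTop (𝓝 ((y : H →L[ℂ] H) (T (ξ k))))
  rw [apply_comm hT]
  refine h1.congr fun n => ?_
  exact (apply_comm hT (x n) (ξ k)).symm

theorem norm_iota_sq {M : VonNeumannAlgebra H} {ξ : ℕ → H} (hξ : IsTraceFamily M ξ) (x : VA M) :
    ‖iotaM M hξ.summable x‖ ^ 2 = ∑' n, ‖(x : H →L[ℂ] H) (ξ n)‖ ^ 2 := by
  have h1 := lp.norm_rpow_eq_tsum (p := 2) (by norm_num) (iotaM M hξ.summable x)
  simp only [ENNReal.toReal_ofNat, Real.rpow_two] at h1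
  exact h1

theorem isTracial_iotaM {M : VonNeumannAlgebra H} {ξ : ℕ → H} (hξ : IsTraceFamily M ξ) :
    IsTracial (iotaM M hξ.summable) := by
  have hsum : ∀ x : VA M, Summable fun n => ‖(x : H →L[ℂ] H) (ξ n)‖ ^ 2 := by
    intro x
    have h1 : Summable fun n => ‖(x : H →L[ℂ] H)‖ ^ 2 * ‖ξ n‖ ^ 2 := hξ.summable.mul_left _
    refine Summable.of_nonneg_of_le (fun n => by positivity) (fun n => ?_) h1
    have h2 := (x : H →L[ℂ] H).le_opNorm (ξ n)
    have h3 : ‖(x : H →L[ℂ] H) (ξ n)‖ ^ 2 ≤ (‖(x : H →L[ℂ] H)‖ * ‖ξ n‖) ^ 2 :=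
      pow_le_pow_left₀ (norm_nonneg _) h2 2
    rw [mul_pow] at h3
    exact h3
  refine ⟨?_, ?_, ?_, ?_, ?_, ?_⟩
  · have h1 : ‖iotaM M hξ.summable 1‖ ^ 2 = 1 := by
      rw [norm_iota_sq hξ, ← hξ.sum_eq]
      rfl
    exact (pow_eq_one_iff_of_nonneg (norm_nonneg _) two_ne_zero).1 h1
  · intro a b
    have h1 : ‖iotaM M hξ.summable (a * b)‖ ^ 2 ≤ (‖a‖ * ‖iotaM M hξ.summable b‖) ^ 2 := by
      rw [mul_pow, norm_iota_sq hξ, norm_iota_sq hξ, ← tsum_mul_left]
      refine Summable.tsum_le_tsum (fun n => ?_) (hsum _) ((hsum b).mul_left _)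
      have h2 := (a : H →L[ℂ] H).le_opNorm ((b : H →L[ℂ] H) (ξ n))
      have h3 := pow_le_pow_left₀ (norm_nonneg _) h2 2
      rw [mul_pow] at h3
      exact h3
    exact (pow_le_pow_iff_left₀ (norm_nonneg _) (by positivity) two_ne_zero).1 h1
  · intro a b c
    rw [lp.inner_eq_tsum, lp.inner_eq_tsum]
    refine tsum_congr fun n => ?_
    change inner ℂ ((a : H →L[ℂ] H) ((b : H →L[ℂ] H) (ξ n))) ((c : H →L[ℂ] H) (ξ n)) =
      inner ℂ ((b : H →L[ℂ] H) (ξ n)) ((star (a : H →L[ℂ] H)) ((c : H →L[ℂ] H) (ξ n)))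
    rw [ContinuousLinearMap.star_eq_adjoint, ContinuousLinearMap.adjoint_inner_right]
  · intro a b
    rw [lp.inner_eq_tsum, lp.inner_eq_tsum]
    have h1 := hξ.tracial (a : H →L[ℂ] H) a.2 (star (b : H →L[ℂ] H)) (star b).2
    have h2 : ∀ n, inner ℂ (ξ n) (((a : H →L[ℂ] H) * star (b : H →L[ℂ] H)) (ξ n)) =
        inner ℂ ((star (a : H →L[ℂ] H)) (ξ n)) ((star (b : H →L[ℂ] H)) (ξ n)) := by
      intro n
      rw [mul_apply_eq_comp, ContinuousLinearMap.star_eq_adjoint (a : H →L[ℂ] H),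
        ContinuousLinearMap.adjoint_inner_left]
    have h3 : ∀ n, inner ℂ (ξ n) ((star (b : H →L[ℂ] H) * (a : H →L[ℂ] H)) (ξ n)) =
        inner ℂ ((b : H →L[ℂ] H) (ξ n)) ((a : H →L[ℂ] H) (ξ n)) := by
      intro n
      rw [mul_apply_eq_comp, ContinuousLinearMap.star_eq_adjoint,
        ContinuousLinearMap.adjoint_inner_right]
    simp only [h2, h3] at h1
    exact h1
  · intro a ha
    have h1 : ∀ n, (a : H →L[ℂ] H) (ξ n) = 0 := by
      intro n
      have h2 := congrArg (fun f : lp (fun _ : ℕ => H) 2 => (f : ∀ _ : ℕ, H) n) ha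
      exact h2
    apply Subtype.ext
    refine hξ.faithful _ a.2 ?_
    simp only [mul_apply_eq_comp, h1, map_zero, inner_zero_right, tsum_zero]
  · intro x C hC hcau
    have hcl := cauchySeq_conv (x := fun n => (x n : H →L[ℂ] H)) (C := C) hC
    let D : Submodule ℂ H :=
      { carrier := {η : H | CauchySeq (fun n => (x n : H →L[ℂ] H) η)}
        add_mem' := fun {a b} ha hb => by
          have h1 := CauchySeq.add ha hb
          simp only [Set.mem_ofPred_eq, map_add]
          exact h1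
        zero_mem' := by
          simp only [Set.mem_ofPred_eq, map_zero]
          exact cauchySeq_const 0
        smul_mem' := fun c {a} ha => by
          have h1 := (uniformContinuous_const_smul c).comp_cauchySeq ha
          simp only [Set.mem_ofPred_eq, map_smul]
          exact h1 }
    have hcoord : ∀ k, CauchySeq (fun n => (x n : H →L[ℂ] H) (ξ k)) := by
      intro k
      have h1 : UniformContinuous (fun f : lp (fun _ : ℕ => H) 2 => (f : ∀ _ : ℕ, H) k) :=
        (Pi.uniformContinuous_proj _ k).comp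
          (lp.uniformContinuous_coe (E := fun _ : ℕ => H) (p := 2))
      exact h1.comp_cauchySeq hcau
    have hD : ∀ η, CauchySeq (fun n => (x n : H →L[ℂ] H) η) := by
      intro η
      refine mem_of_total hξ D hcl (fun T hT k => ?_) η
      have h1 := T.uniformContinuous.comp_cauchySeq (hcoord k)
      change CauchySeq (fun n => (x n : H →L[ℂ] H) (T (ξ k)))
      have h2 : (fun n => (x n : H →L[ℂ] H) (T (ξ k))) = fun n => T ((x n : H →L[ℂ] H) (ξ k)) := by
        funext n
        exact apply_comm hT (x n) (ξ k)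
      rw [h2]
      exact h1
    have hlim : ∀ η, ∃ ζ, Tendsto (fun n => (x n : H →L[ℂ] H) η) atTop (𝓝 ζ) := fun η =>
      cauchySeq_tendsto_of_complete (hD η)
    choose f hf using hlim
    have hft : Tendsto (fun n η => (x n : H →L[ℂ] H) η) atTop (𝓝 f) := tendsto_pi_nhds.2 hf
    set y : H →L[ℂ] H := continuousLinearMapOfTendsto (fun n => (x n : H →L[ℂ] H)) hft with hy
    have hyf : ∀ η, y η = f η := fun η => rfl
    have hyM : y ∈ M := mem_vn_of_comm fun T hT => by
      ext η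
      rw [mul_apply_eq_comp, mul_apply_eq_comp]
      have h1 := (T.continuous.tendsto _).comp (hf η)
      have h2 := hf (T η)
      rw [← hyf] at h1 h2
      refine tendsto_nhds_unique h1 (h2.congr fun n => ?_)
      exact apply_comm hT (x n) η
    obtain ⟨L, hL⟩ := cauchySeq_tendsto_of_complete hcau
    refine ⟨⟨y, hyM⟩, ?_⟩
    have hLy : L = iotaM M hξ.summable ⟨y, hyM⟩ := by
      apply lp.ext
      funext k
      have h1 : Continuous (fun f : lp (fun _ : ℕ => H) 2 => (f : ∀ _ : ℕ, H) k) :=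
        (continuous_apply k).comp
          (lp.uniformContinuous_coe (E := fun _ : ℕ => H) (p := 2)).continuous
      exact tendsto_nhds_unique ((h1.tendsto _).comp hL) (hf (ξ k))
    rw [← hLy]
    exact hL

end Pool.Agent.ErgLC
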